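import Mathlib

/-!
# Polynomially bounded functions
-/

namespace Pool.Agent.H.MP_e5d137_al.UB

/-- `f X ≤ X ^ c` for some `c` and all `X ≥ 2` -/
def PB (f : ℕ → ℕ) : Prop := ∃ c : ℕ, ∀ X : ℕ, 2 ≤ X → f X ≤ X ^ c

lemma PB.const (C : ℕ) : PB (fun _ => C) :=
  ⟨C, fun _ hX => (Nat.lt_two_pow_self (n := C)).le.trans (Nat.pow_le_pow_left hX C)⟩

lemma PB.id : PB (fun X => X) := ⟨1, fun X _ => by simp⟩

lemma PB.add {f g : ℕ → ℕ} (hf : PB f) (hg : PB g) : PB (fun X => f X + g X) := by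
  obtain ⟨a, ha⟩ := hf
  obtain ⟨b, hb⟩ := hg
  refine ⟨a + b + 1, fun X hX => ?_⟩
  have hX1 : 1 ≤ X := by omega
  have h1 : X ^ a ≤ X ^ (a + b) := Nat.pow_le_pow_right hX1 (by omega)
  have h2 : X ^ b ≤ X ^ (a + b) := Nat.pow_le_pow_right hX1 (by omega)
  have h3 : 2 * X ^ (a + b) ≤ X ^ (a + b + 1) := by
    rw [pow_succ, mul_comm]
    exact Nat.mul_le_mul_left _ hX
  have h4 := ha X hX
  have h5 := hb X hX
  show f X + g X ≤ X ^ (a + b + 1)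
  omega

lemma PB.mul {f g : ℕ → ℕ} (hf : PB f) (hg : PB g) : PB (fun X => f X * g X) := by
  obtain ⟨a, ha⟩ := hf
  obtain ⟨b, hb⟩ := hg
  refine ⟨a + b, fun X hX => ?_⟩
  rw [pow_add]
  exact Nat.mul_le_mul (ha X hX) (hb X hX)

lemma PB.pow {f : ℕ → ℕ} (hf : PB f) (k : ℕ) : PB (fun X => f X ^ k) := by
  obtain ⟨a, ha⟩ := hf
  refine ⟨a * k, fun X hX => ?_⟩
  rw [pow_mul]
  exact Nat.pow_le_pow_left (ha X hX) k

end Pool.Agent.H.MP_e5d137_al.UB
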