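import Pool.Agent.H.MP_e5d137_al.UB.KL1

/-!
# The upper bound
-/

namespace Pool.Agent.H.MP_e5d137_al.UB

open Finsupp
open scoped ENNReal

/-- The numerical part: with `ρ = ⌈(C * L) ^ (1 / m)⌉`. -/
lemma kl_num (C m : ℕ) (hC : 1 ≤ C) (hm : 1 ≤ m) :
    ∃ C' : ℕ, 0 < C' ∧ ∀ L : ℕ, ∃ ρ : ℕ, C * L ≤ ρ ^ m ∧
      ((C ^ (ρ + 1) * L : ℕ) : ℝ) ≤
        C' * Real.exp (((C' * L + C' : ℕ) : ℝ) ^ ((1 : ℝ) / m)) := by
  have hm0 : (m : ℝ) ≠ 0 := by positivity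
  have hmn : m ≠ 0 := by omega
  have hC1 : (1 : ℝ) ≤ C := by exact_mod_cast hC
  have hC0 : (0 : ℝ) < C := by linarith
  have hlog : 0 ≤ Real.log C := Real.log_nonneg hC1
  set A : ℝ := Real.log C * (C : ℝ) ^ ((1 : ℝ) / m) + m with hA
  have hA0 : 0 ≤ A := by positivity
  refine ⟨C ^ 2 + ⌈A ^ m⌉₊, by positivity, fun L => ?_⟩
  have hCL : (0 : ℝ) ≤ (C : ℝ) * L := by positivity
  refine ⟨⌈((C : ℝ) * L) ^ ((1 : ℝ) / m)⌉₊, ?_, ?_⟩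
  · have h1 : ((C : ℝ) * L) ^ ((1 : ℝ) / m) ≤ (⌈((C : ℝ) * L) ^ ((1 : ℝ) / m)⌉₊ : ℝ) :=
      Nat.le_ceil _
    have h2 : (((C : ℝ) * L) ^ ((1 : ℝ) / m)) ^ m = (C : ℝ) * L := by
      rw [one_div, Real.rpow_inv_natCast_pow hCL hmn]
    have h3 : (C : ℝ) * L ≤ (⌈((C : ℝ) * L) ^ ((1 : ℝ) / m)⌉₊ : ℝ) ^ m := by
      rw [← h2]
      exact pow_le_pow_left₀ (by positivity) (by rw [h2]; exact h1) m
    exact_mod_cast h3
  · set ρ := ⌈((C : ℝ) * L) ^ ((1 : ℝ) / m)⌉₊ with hρ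
    have h1 : (ρ : ℝ) ≤ ((C : ℝ) * L) ^ ((1 : ℝ) / m) + 1 :=
      (Nat.ceil_lt_add_one (by positivity)).le
    have h2 : (C : ℝ) ^ (ρ + 1) ≤ (C : ℝ) ^ 2 *
        Real.exp (Real.log C * ((C : ℝ) * L) ^ ((1 : ℝ) / m)) := by
      have h3 : (C : ℝ) ^ (ρ + 1) = Real.exp (Real.log C * (ρ + 1 : ℕ)) := by
        rw [mul_comm, Real.exp_nat_mul, Real.exp_log hC0]
      have h4 : (C : ℝ) ^ 2 = Real.exp (Real.log C * (2 : ℕ)) := by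
        rw [mul_comm, Real.exp_nat_mul, Real.exp_log hC0]
      rw [h3, h4, ← Real.exp_add, Real.exp_le_exp]
      push_cast
      nlinarith
    have h5 : (L : ℝ) ≤ Real.exp ((m : ℝ) * (L : ℝ) ^ ((1 : ℝ) / m)) := by
      rw [Real.exp_nat_mul]
      have h6 : ((L : ℝ) ^ ((1 : ℝ) / m)) ^ m = (L : ℝ) := by
        rw [one_div, Real.rpow_inv_natCast_pow (by positivity) hmn]
      calc (L : ℝ) = ((L : ℝ) ^ ((1 : ℝ) / m)) ^ m := h6.symm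
        _ ≤ _ := pow_le_pow_left₀ (by positivity)
            (by linarith [Real.add_one_le_exp ((L : ℝ) ^ ((1 : ℝ) / m))]) m
    have h7 : ((C : ℝ) * L) ^ ((1 : ℝ) / m) =
        (C : ℝ) ^ ((1 : ℝ) / m) * (L : ℝ) ^ ((1 : ℝ) / m) :=
      Real.mul_rpow (by positivity) (by positivity)
    have h8 : (C : ℝ) ^ (ρ + 1) * L ≤ (C : ℝ) ^ 2 *
        Real.exp (A * (L : ℝ) ^ ((1 : ℝ) / m)) := by
      calc (C : ℝ) ^ (ρ + 1) * L ≤ ((C : ℝ) ^ 2 *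
            Real.exp (Real.log C * ((C : ℝ) * L) ^ ((1 : ℝ) / m))) *
            Real.exp ((m : ℝ) * (L : ℝ) ^ ((1 : ℝ) / m)) :=
          mul_le_mul h2 h5 (by positivity) (by positivity)
        _ = _ := by
          rw [mul_assoc, ← Real.exp_add, h7, hA]
          congr 2
          ring
    have h9 : A * (L : ℝ) ^ ((1 : ℝ) / m) ≤
        (((C ^ 2 + ⌈A ^ m⌉₊) * L + (C ^ 2 + ⌈A ^ m⌉₊) : ℕ) : ℝ) ^ ((1 : ℝ) / m) := by
      have h10 : A = (A ^ m) ^ ((1 : ℝ) / m) := by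
        rw [one_div, Real.pow_rpow_inv_natCast hA0 hmn]
      have h11 : A * (L : ℝ) ^ ((1 : ℝ) / m) = (A ^ m * L) ^ ((1 : ℝ) / m) := by
        rw [Real.mul_rpow (by positivity) (by positivity), ← h10]
      rw [h11]
      refine Real.rpow_le_rpow (by positivity) ?_ (by positivity)
      have h12 : A ^ m ≤ (⌈A ^ m⌉₊ : ℝ) := Nat.le_ceil _
      have h13 : (0 : ℝ) ≤ L := by positivity
      have h14 : (0 : ℝ) ≤ (⌈A ^ m⌉₊ : ℝ) := by positivity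
      push_cast
      have h15 : A ^ m * L ≤ (⌈A ^ m⌉₊ : ℝ) * L := mul_le_mul_of_nonneg_right h12 h13
      have h16 : (0 : ℝ) ≤ (C : ℝ) ^ 2 * L := by positivity
      have h17 : (0 : ℝ) ≤ (C : ℝ) ^ 2 := by positivity
      nlinarith
    push_cast at h9 ⊢
    calc (C : ℝ) ^ (ρ + 1) * L ≤ _ := h8
      _ ≤ (C : ℝ) ^ 2 * Real.exp ((((C : ℝ) ^ 2 + (⌈A ^ m⌉₊ : ℝ)) * L +
          ((C : ℝ) ^ 2 + (⌈A ^ m⌉₊ : ℝ))) ^ ((1 : ℝ) / m)) :=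
        mul_le_mul_of_nonneg_left (Real.exp_le_exp.2 h9) (by positivity)
      _ ≤ _ := by
        refine mul_le_mul_of_nonneg_right ?_ (by positivity)
        have : (0 : ℝ) ≤ (⌈A ^ m⌉₊ : ℝ) := by positivity
        linarith

variable {Γ : Type} [Group Γ]

/-- The upper bound from a filling estimate. -/
theorem upper_aux (K : GComplex Γ) (m : ℕ) (hm : 1 ≤ m)
    (h : ∃ C : ℕ, 1 ≤ C ∧ ∀ (z : K.cell m →₀ ℤ) (L ρ : ℕ),
      (∃ b, K.bd m b = z) → mass z ≤ L → C * L ≤ ρ ^ m →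
      ∃ c, K.bd m c = z ∧ mass c ≤ C ^ (ρ + 1) * L) :
    Dominated (fun L => (K.iso m L : ℝ≥0∞)) (expRoot m) := by
  obtain ⟨C, hC1, hC⟩ := h
  obtain ⟨C', h0, hC'⟩ := kl_num C m hC1 hm
  refine ⟨C', h0, fun L => ?_⟩
  obtain ⟨ρ, h1, h2⟩ := hC' L
  have h3 : K.iso m L ≤ ((C ^ (ρ + 1) * L : ℕ) : ℕ∞) := by
    unfold GComplex.iso
    refine iSup_le fun z => iSup_le fun hz => iSup_le fun hL => ?_
    obtain ⟨c, hc1, hc2⟩ := hC z L ρ hz hL h1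
    unfold GComplex.fillVol
    exact (iInf₂_le c hc1).trans (by exact_mod_cast hc2)
  have h4 : ((K.iso m L : ℕ∞) : ℝ≥0∞) ≤ ((C ^ (ρ + 1) * L : ℕ) : ℝ≥0∞) := by
    have := ENat.toENNReal_le.2 h3
    simpa using this
  have h5 : ((C ^ (ρ + 1) * L : ℕ) : ℝ≥0∞) ≤ C' * expRoot m (C' * L + C') := by
    have h6 : ((C ^ (ρ + 1) * L : ℕ) : ℝ≥0∞) = ENNReal.ofReal ((C ^ (ρ + 1) * L : ℕ) : ℝ) := by
      rw [ENNReal.ofReal_natCast]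
    rw [h6]
    refine (ENNReal.ofReal_le_ofReal h2).trans ?_
    unfold expRoot
    rw [ENNReal.ofReal_mul (by positivity), ENNReal.ofReal_natCast]
  refine (h4.trans h5).trans ?_
  rw [add_assoc]
  exact le_self_add

/-- The upper bound.

Proof.  For given `L` take `ρ = ⌈(C * L) ^ (1 / m)⌉`; then `C * L ≤ ρ ^ m` and
`ρ ≤ (C * L) ^ (1 / m) + 1`.  The filling volume is at most
`C ^ (ρ + 1) * L ≤ C ^ 2 * L * exp (log C * (C * L) ^ (1 / m))`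
and `L ≤ exp (m * (L) ^ (1 / m))` (as `L ^ (1/m) ≤ exp (L ^ (1/m))`), so it is at most
`C ^ 2 * exp (((log C) * C ^ (1/m) + m) * L ^ (1/m)) ≤ C' * exp ((C' * L) ^ (1/m))` for a suitable
constant `C'` (with `C' ^ (1/m) ≥ (log C) * C ^ (1/m) + m`).  Take the supremum over `z`. -/
theorem upper_of_cone {E : Γ → ℕ} (hE : Szf E) (hc : Cone E) (K : GComplex Γ) (m : ℕ)
    (hm : 1 ≤ m) (hK : K.FiniteTo (m + 1)) :
    Dominated (fun L => (K.iso m L : ℝ≥0∞)) (expRoot m) :=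
  upper_aux K m hm (fill_le hE hc K m hm hK)

end Pool.Agent.H.MP_e5d137_al.UB
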