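import Pool.Agent.H.MP_e5d137_al.UB.Dg

/-!
# Initial parts of words, sizes of inner automorphisms
-/

namespace Pool.Agent.H.MP_e5d137_al.UB

variable {n : ℕ}

/-- initial parts of reduced words -/
def tr (t : ℕ) (w : FreeGroup (Fin n)) : FreeGroup (Fin n) := FreeGroup.mk (w.toWord.take t)

lemma OutW_isReduced_invRev {L : List (Fin n × Bool)} (h : FreeGroup.IsReduced L) :
    FreeGroup.IsReduced (FreeGroup.invRev L) := by
  rw [FreeGroup.isReduced_iff_reduce_eq, FreeGroup.reduce_invRev, h.reduce_eq]

lemma OutW_norm_mk {L : List (Fin n × Bool)} (h : FreeGroup.IsReduced L) :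
    (FreeGroup.mk L).norm = L.length := by
  rw [FreeGroup.norm, FreeGroup.toWord_mk, h.reduce_eq]

lemma OutW_norm_inv_mul {a b : Fin n × Bool} {l l' : List (Fin n × Bool)} (hab : a ≠ b)
    (h : FreeGroup.IsReduced (a :: l)) (h' : FreeGroup.IsReduced (b :: l')) :
    ((FreeGroup.mk (a :: l))⁻¹ * FreeGroup.mk (b :: l')).norm =
      (a :: l).length + (b :: l').length := by
  rw [FreeGroup.inv_mk, FreeGroup.mul_mk, OutW_norm_mk, List.length_append,
    FreeGroup.invRev_length]
  refine List.isChain_append.2 ⟨OutW_isReduced_invRev h, h', ?_⟩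
  intro x hx y hy
  have hx' : x = (a.1, !a.2) := by
    have : (FreeGroup.invRev (a :: l)).getLast? = some (a.1, !a.2) := by
      simp [FreeGroup.invRev]
    rw [this] at hx
    exact (Option.mem_some_iff.1 hx).symm
  have hy' : y = b := (Option.mem_some_iff.1 hy).symm
  subst hx' hy'
  intro he
  by_contra hne
  refine hab (Prod.ext he ?_)
  revert hne
  show ¬ (!a.2) = y.2 → a.2 = y.2
  cases a.2 <;> cases y.2 <;> simp

lemma OutW_norm_tr (L : List (Fin n × Bool)) : ∀ (L' : List (Fin n × Bool)) (t : ℕ),
    FreeGroup.IsReduced L → FreeGroup.IsReduced L' →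
    ((FreeGroup.mk (L.take t))⁻¹ * FreeGroup.mk (L'.take t)).norm ≤
      ((FreeGroup.mk L)⁻¹ * FreeGroup.mk L').norm := by
  induction L with
  | nil =>
    intro L' t _ h'
    have e : ∀ k : List (Fin n × Bool), (FreeGroup.mk ([] : List (Fin n × Bool)))⁻¹ *
        FreeGroup.mk k = FreeGroup.mk k := fun k => by
      rw [← FreeGroup.one_eq_mk, inv_one, one_mul]
    rw [List.take_nil, e, e, OutW_norm_mk h']
    exact FreeGroup.norm_mk_le.trans (List.length_take_le' _ _)
  | cons a l ih =>
    intro L' t h h'
    cases L' with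
    | nil =>
      rw [List.take_nil, ← FreeGroup.one_eq_mk, mul_one, mul_one, FreeGroup.norm_inv_eq,
        FreeGroup.norm_inv_eq, OutW_norm_mk h]
      exact FreeGroup.norm_mk_le.trans (List.length_take_le' _ _)
    | cons b l' =>
      cases t with
      | zero =>
        rw [List.take_zero, List.take_zero, inv_mul_cancel, FreeGroup.norm_one]
        exact Nat.zero_le _
      | succ t =>
        rw [List.take_succ_cons, List.take_succ_cons]
        by_cases hab : a = b
        · subst hab
          have key : ∀ k k' : List (Fin n × Bool),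
              (FreeGroup.mk (a :: k))⁻¹ * FreeGroup.mk (a :: k') =
                (FreeGroup.mk k)⁻¹ * FreeGroup.mk k' := by
            intro k k'
            have e : ∀ k : List (Fin n × Bool),
                FreeGroup.mk (a :: k) = FreeGroup.mk [a] * FreeGroup.mk k := by
              intro k
              rw [FreeGroup.mul_mk]
              rfl
            rw [e k, e k']
            group
          rw [key, key]
          exact ih l' t (List.IsChain.tail h) (List.IsChain.tail h')
        · rw [OutW_norm_inv_mul hab h h']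
          refine (FreeGroup.norm_mul_le _ _).trans ?_
          rw [FreeGroup.norm_inv_eq]
          have h1 : (FreeGroup.mk (a :: List.take t l)).norm ≤ (a :: l).length := by
            refine FreeGroup.norm_mk_le.trans ?_
            simp
          have h2 : (FreeGroup.mk (b :: List.take t l')).norm ≤ (b :: l').length := by
            refine FreeGroup.norm_mk_le.trans ?_
            simp
          exact Nat.add_le_add h1 h2

lemma tr_zero (w : FreeGroup (Fin n)) : tr 0 w = 1 := by
  rw [tr, List.take_zero]
  rfl

lemma tr_of_le {t : ℕ} {w : FreeGroup (Fin n)} (h : w.norm ≤ t) : tr t w = w := by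
  rw [tr, List.take_of_length_le h, FreeGroup.mk_toWord]

/-- Proof: `|w⁻¹ w'| = |w| + |w'| - 2 p`, where `p` is the length of the longest common initial part of the
reduced words; the initial parts are reduced words; if `t ≤ p` they are equal, otherwise the longest
common initial part of `tr t w`, `tr t w'` has length `p`. -/
theorem norm_tr (t : ℕ) (w w' : FreeGroup (Fin n)) :
    ((tr t w)⁻¹ * tr t w').norm ≤ (w⁻¹ * w').norm := by
  have h := OutW_norm_tr w.toWord w'.toWord t FreeGroup.isReduced_toWord
    FreeGroup.isReduced_toWord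
  rwa [FreeGroup.mk_toWord, FreeGroup.mk_toWord] at h

theorem norm_tr_succ (t : ℕ) (w : FreeGroup (Fin n)) : ((tr t w)⁻¹ * tr (t + 1) w).norm ≤ 1 := by
  have e : tr (t + 1) w = tr t w * FreeGroup.mk (w.toWord[t]?.toList) := by
    rw [tr, tr, List.take_add_one, FreeGroup.mul_mk]
  rw [e, inv_mul_cancel_left]
  refine FreeGroup.norm_mk_le.trans ?_
  cases w.toWord[t]? <;> simp

theorem EA_conj_le (w : FreeGroup (Fin n)) : EA (MulAut.conj w) ≤ 2 * w.norm + 1 := by
  refine EA_le (by omega) (fun i => ?_) (fun i => ?_)
  · rw [MulAut.conj_apply]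
    have h1 := FreeGroup.norm_mul_le (w * FreeGroup.of i) w⁻¹
    have h2 := FreeGroup.norm_mul_le w (FreeGroup.of i)
    rw [FreeGroup.norm_inv_eq] at h1
    rw [FreeGroup.norm_of] at h2
    omega
  · rw [MulAut.conj_inv_apply]
    have h1 := FreeGroup.norm_mul_le (w⁻¹ * FreeGroup.of i) w
    have h2 := FreeGroup.norm_mul_le w⁻¹ (FreeGroup.of i)
    rw [FreeGroup.norm_inv_eq, FreeGroup.norm_of] at h2
    omega

/-- Proof.  We may assume `w ≠ 1`.  As `n ≥ 2` there is `i` such that the last letter of the reduced
word of `w` is not `x_i^±`.  Then `w x_i w⁻¹` is reduced (the word of `w`, the letter `x_i` and the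
word of `w⁻¹`), so its norm is `2 * |w| + 1`. -/
theorem norm_le_EA_conj (hn : 2 ≤ n) (w : FreeGroup (Fin n)) : w.norm ≤ EA (MulAut.conj w) := by
  rcases List.eq_nil_or_concat w.toWord with h0 | ⟨L, a, hL⟩
  · have : w.norm = 0 := by rw [FreeGroup.norm, h0]; rfl
    omega
  obtain ⟨i, hi⟩ : ∃ i : Fin n, i ≠ a.1 := by
    by_cases h : a.1 = ⟨0, by omega⟩
    · refine ⟨⟨1, by omega⟩, fun h' => ?_⟩
      rw [h] at h'
      exact absurd (congrArg Fin.val h') (by norm_num)
    · exact ⟨⟨0, by omega⟩, fun h' => h h'.symm⟩
  refine le_trans ?_ (norm_le_EA (MulAut.conj w) i).1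
  have hlast : w.toWord.getLast? = some a := by
    rw [hL]; simp
  have e : (MulAut.conj w) (FreeGroup.of i) =
      FreeGroup.mk (w.toWord ++ ((i, true) :: FreeGroup.invRev w.toWord)) := by
    rw [MulAut.conj_apply]
    have e1 : FreeGroup.mk (w.toWord ++ ((i, true) :: FreeGroup.invRev w.toWord)) =
        FreeGroup.mk w.toWord * (FreeGroup.mk [(i, true)] * (FreeGroup.mk w.toWord)⁻¹) := by
      rw [FreeGroup.inv_mk, FreeGroup.mul_mk, FreeGroup.mul_mk]
      rfl
    rw [e1, FreeGroup.mk_toWord, mul_assoc]
    rfl
  have hred : FreeGroup.IsReduced (w.toWord ++ ((i, true) :: FreeGroup.invRev w.toWord)) := by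
    refine List.isChain_append.2 ⟨FreeGroup.isReduced_toWord, ?_, ?_⟩
    · refine List.isChain_cons.2 ⟨?_, OutW_isReduced_invRev FreeGroup.isReduced_toWord⟩
      intro y hy
      have : (FreeGroup.invRev w.toWord).head? = some (a.1, !a.2) := by
        rw [FreeGroup.invRev, List.head?_reverse, List.getLast?_map, hlast]
        rfl
      rw [this] at hy
      have hy' := (Option.mem_some_iff.1 hy).symm
      subst hy'
      intro he
      exact absurd he hi
    · intro x hx y hy
      rw [hlast] at hx
      have hx' := (Option.mem_some_iff.1 hx).symm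
      have hy' : y = (i, true) := (Option.mem_some_iff.1 hy).symm
      subst hx' hy'
      intro he
      exact absurd he.symm hi
  rw [e, OutW_norm_mk hred, List.length_append, FreeGroup.norm]
  omega

end Pool.Agent.H.MP_e5d137_al.UB
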