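import Pool.Agent.H.MP_e5d137_al.UB.Quo
import Pool.Agent.H.MP_e5d137_al.UB.OutW
import Pool.Agent.H.MP_e5d137_al.Defs

/-!
# Neighbourhoods of the cosets of the inner automorphism group
-/

namespace Pool.Agent.H.MP_e5d137_al.UB

open Finsupp

variable {n : ℕ}

lemma norm_tr_le (t : ℕ) (w : FreeGroup (Fin n)) : (tr t w).norm ≤ w.norm := by
  unfold tr
  refine FreeGroup.norm_mk_le.trans ?_
  rw [List.length_take]
  exact min_le_right _ _

/-- differences of prefixes of nearly equal lengths -/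
lemma norm_tr_near {t s s' : ℕ} (hs : s = t ∨ s = t + 1) (hs' : s' = t ∨ s' = t + 1)
    (w w' : FreeGroup (Fin n)) {B : ℕ} (hB : (w⁻¹ * w').norm ≤ B) :
    ((tr s w)⁻¹ * tr s' w').norm ≤ B + 1 := by
  have h0 : ∀ u u' : FreeGroup (Fin n), (u⁻¹ * u').norm = (u'⁻¹ * u).norm := by
    intro u u'
    rw [← FreeGroup.norm_inv_eq (x := u⁻¹ * u'), mul_inv_rev, inv_inv]
  have h1 : ∀ u u' : FreeGroup (Fin n), (u⁻¹ * u').norm ≤ B →
      ((tr t u)⁻¹ * tr (t + 1) u').norm ≤ B + 1 := by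
    intro u u' hu
    have e : (tr t u)⁻¹ * tr (t + 1) u' =
        ((tr t u)⁻¹ * tr (t + 1) u) * ((tr (t + 1) u)⁻¹ * tr (t + 1) u') := by group
    rw [e]
    refine (FreeGroup.norm_mul_le _ _).trans ?_
    have h2 := norm_tr_succ t u
    have h3 := (norm_tr (t + 1) u u').trans hu
    omega
  have h4 : ∀ s : ℕ, ((tr s w)⁻¹ * tr s w').norm ≤ B + 1 := by
    intro s
    exact ((norm_tr s w w').trans hB).trans (Nat.le_succ B)
  rcases hs with rfl | rfl <;> rcases hs' with rfl | rfl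
  · exact h4 _
  · exact h1 w w' hB
  · rw [h0]
    exact h1 w' w (by rw [h0]; exact hB)
  · exact h4 _

lemma mp_eq_self {V : Type} (f : V → V) (z : Ch V) (h : ∀ σ ∈ z.support, ∀ x ∈ σ, f x = x) :
    mp f z = z := by
  conv_rhs => rw [← mp_id z]
  rw [mp_eq_lc, mp_eq_lc]
  apply lc_congr
  intro σ hσ
  congr 1
  exact List.map_congr_left (h σ hσ)

/-- The local cone property.

Proof.  Write `E = EA`, `c_w = MulAut.conj w`.  For `h` choose a lift `v h` of `π (g₀⁻¹ h)` with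
`E (v h) = EQ (π (g₀⁻¹ h))`, depending only on `π (g₀⁻¹ h)` (`exists_lift`, choice); then
`g₀⁻¹ * h * (v h)⁻¹ ∈ Inn n`, so it is `c_(w h)` for some `w h`, `h = g₀ * c_(w h) * v h`.  Put
`D t h = g₀ * c_(tr t (w h)) * v h`.  Then `π (D t h) = π h`, `D 0 h = g₀ * v h`, and
`D t h = h` for `t ≥ |w h|`.  For the entries `h` of the lists of `z` we have `E (v h) ≤ R₁`,
`|w h| ≤ E (c_(w h)) = E (g₀⁻¹ h (v h)⁻¹) ≤ X * R₁ =: M`; for two entries `h`, `h'` of one list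
`c_((w h)⁻¹ * w h') = v h * (h⁻¹ h') * (v h')⁻¹` has size at most `R₁ * R * R₁`, so
`|(w h)⁻¹ * w h'| ≤ R₁ * R * R₁` by `norm_le_EA_conj`; hence for `t' ∈ {t, t + 1}`
`(D t h)⁻¹ * D t' h' = (v h)⁻¹ * c_((tr t (w h))⁻¹ * tr t' (w h')) * v h'` has size at most
`R₁ * (2 * (R₁ * R * R₁ + 1) + 1) * R₁ =: R'` (also for `(D t' h')⁻¹ * D t h` by `Szf.inv`).
Size: `E (g₀⁻¹ * D t h) ≤ (2 * |tr t (w h)| + 1) * R₁ ≤ (2 * X * R₁ + 1) * R₁`
(`|tr t w| ≤ |w|` by `norm_mk_le`).  Put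
`y = cn g₀ (mp (D 0) z) + ∑ t ∈ range M, pr (D t) (D (t + 1)) z`.  By `bd_cn`, `bd_pr`, `bd_mp`,
`bd z = 0` and the telescoping sum (`Finset.sum_range_sub`), `bd y = mp (D M) z = z` (the lists of
`z` are mapped to themselves).  Mass: `ms z + M * (k * ms z)` (`ms_pr`).  Supports by `supp_cn`,
`supp_mp`, `supp_pr`; note that `g₀` is near itself as `E 1 = 1 ≤ R₁`. -/
theorem lcone_out (hn : 2 ≤ n) :
    LCone (QuotientGroup.mk' (Inn n)) (EA (n := n)) := by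
  classical
  have hE : Szf (EA (n := n)) := EA_szf
  obtain ⟨π, hπdef⟩ : ∃ π, π = QuotientGroup.mk' (Inn n) := ⟨_, rfl⟩
  have hπs : Function.Surjective π := by
    rw [hπdef]; exact QuotientGroup.mk'_surjective _
  have hπ1 : ∀ w : FreeGroup (Fin n), π (MulAut.conj w) = 1 := by
    intro w
    rw [hπdef, QuotientGroup.mk'_apply, QuotientGroup.eq_one_iff]
    exact ⟨w, rfl⟩
  have hπ2 : ∀ g, π g = 1 → ∃ w, MulAut.conj w = g := by
    intro g hg
    rw [hπdef, QuotientGroup.mk'_apply, QuotientGroup.eq_one_iff] at hg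
    obtain ⟨w, hw⟩ := hg
    exact ⟨w, hw⟩
  rw [← hπdef]
  intro k R R₁ hR₁
  obtain ⟨B, hB⟩ : ∃ B, B = R₁ * R * R₁ := ⟨_, rfl⟩
  obtain ⟨R', hR'⟩ : ∃ R', R' = R₁ * (2 * (B + 1) + 1) * R₁ := ⟨_, rfl⟩
  have hR1R' : R₁ ≤ R' := by
    rw [hR']
    calc R₁ = R₁ * 1 * 1 := by ring
      _ ≤ R₁ * (2 * (B + 1) + 1) * R₁ := by gcongr; omega
  refine ⟨R', (2 * R₁ + 1) * R₁ + (1 + R₁ * k) + 1, ?_⟩
  intro X hX g₀ z hz hbd
  obtain ⟨c, hc⟩ : ∃ c, c = (2 * R₁ + 1) * R₁ + (1 + R₁ * k) + 1 := ⟨_, rfl⟩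
  rw [← hc]
  have hXc : ∀ a, a + 1 ≤ c → X * a ≤ X ^ c := by
    intro a ha
    have h1 : a < 2 ^ a := Nat.lt_two_pow_self
    calc X * a ≤ X * X ^ a := by
          refine Nat.mul_le_mul_left _ (h1.le.trans ?_)
          exact Nat.pow_le_pow_left hX a
      _ = X ^ (a + 1) := by rw [pow_succ, mul_comm]
      _ ≤ X ^ c := Nat.pow_le_pow_right (by omega) ha
  -- the lifts
  choose vv hvv1 hvv2 using exists_lift π hπs (EA (n := n))
  obtain ⟨v, hv⟩ : ∃ v : MulAut (FreeGroup (Fin n)) → MulAut (FreeGroup (Fin n)),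
    v = fun h => vv (π (g₀⁻¹ * h)) := ⟨_, rfl⟩
  have hv1 : ∀ h, π (v h) = π (g₀⁻¹ * h) := fun h => by rw [hv]; exact hvv1 _
  have hv2 : ∀ h, EA (v h) = EQ π EA (π (g₀⁻¹ * h)) := fun h => by rw [hv]; exact hvv2 _
  have hw : ∀ h, ∃ w, MulAut.conj w = g₀⁻¹ * h * (v h)⁻¹ := by
    intro h
    apply hπ2
    rw [map_mul, map_inv, hv1, mul_inv_cancel]
  choose w hw using hw
  obtain ⟨D, hD⟩ : ∃ D : ℕ → MulAut (FreeGroup (Fin n)) → MulAut (FreeGroup (Fin n)),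
    D = fun t h => g₀ * MulAut.conj (tr t (w h)) * v h := ⟨_, rfl⟩
  have hD' : ∀ t h, D t h = g₀ * MulAut.conj (tr t (w h)) * v h := fun t h => by rw [hD]
  have hπD : ∀ t h, π (D t h) = π h := by
    intro t h
    rw [hD', map_mul, map_mul, hπ1, hv1, map_mul, map_inv]
    group
  -- good entries
  have good : ∀ σ ∈ z.support, ∀ h ∈ σ, EA (v h) ≤ R₁ ∧ (w h).norm ≤ X * R₁ := by
    intro σ hσ h hh
    obtain ⟨-, -, h3, h4⟩ := hz σ hσ
    have h5 : EA (v h) ≤ R₁ := by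
      rw [hv2, map_mul, map_inv]
      exact h4 (π h) (List.mem_map_of_mem hh)
    refine ⟨h5, ?_⟩
    refine (norm_le_EA_conj hn _).trans ?_
    rw [hw]
    refine (hE.mul _ _).trans ?_
    rw [hE.inv]
    exact Nat.mul_le_mul (h3 h hh) h5
  have pair : ∀ σ ∈ z.support, ∀ h ∈ σ, ∀ h' ∈ σ, ∀ t s s' : ℕ, (s = t ∨ s = t + 1) →
      (s' = t ∨ s' = t + 1) → EA ((D s h)⁻¹ * D s' h') ≤ R' := by
    intro σ hσ h hh h' hh' t s s' hs hs'
    obtain ⟨-, h2, -, -⟩ := hz σ hσ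
    have h5 := (good σ hσ h hh).1
    have h5' := (good σ hσ h' hh').1
    have h6 : ((w h)⁻¹ * w h').norm ≤ B := by
      refine (norm_le_EA_conj hn _).trans ?_
      rw [map_mul, map_inv, hw, hw]
      have e : (g₀⁻¹ * h * (v h)⁻¹)⁻¹ * (g₀⁻¹ * h' * (v h')⁻¹)
          = v h * (h⁻¹ * h') * (v h')⁻¹ := by group
      rw [e, hB]
      refine (hE.mul _ _).trans ?_
      rw [hE.inv]
      refine Nat.mul_le_mul ?_ h5'
      exact (hE.mul _ _).trans (Nat.mul_le_mul h5 (h2 h hh h' hh'))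
    have h7 := norm_tr_near hs hs' (w h) (w h') h6
    have e : (D s h)⁻¹ * D s' h'
        = (v h)⁻¹ * MulAut.conj ((tr s (w h))⁻¹ * tr s' (w h')) * v h' := by
      rw [hD', hD', map_mul, map_inv]
      group
    rw [e, hR']
    refine (hE.mul _ _).trans (Nat.mul_le_mul ?_ h5')
    refine (hE.mul _ _).trans ?_
    rw [hE.inv]
    refine Nat.mul_le_mul h5 ((EA_conj_le _).trans ?_)
    omega
  have near : ∀ σ ∈ z.support, ∀ h ∈ σ, ∀ t, EA (g₀⁻¹ * D t h) ≤ X ^ c := by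
    intro σ hσ h hh t
    obtain ⟨h5, h6⟩ := good σ hσ h hh
    have e : g₀⁻¹ * D t h = MulAut.conj (tr t (w h)) * v h := by
      rw [hD']; group
    rw [e]
    refine (hE.mul _ _).trans ?_
    have h7 : EA (MulAut.conj (tr t (w h))) ≤ 2 * (X * R₁) + 1 := by
      refine (EA_conj_le _).trans ?_
      have := norm_tr_le t (w h)
      omega
    calc EA (MulAut.conj (tr t (w h))) * EA (v h) ≤ (2 * (X * R₁) + 1) * R₁ :=
          Nat.mul_le_mul h7 h5
      _ ≤ (2 * (X * R₁) + X) * R₁ := by gcongr; omega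
      _ = X * ((2 * R₁ + 1) * R₁) := by ring
      _ ≤ X ^ c := hXc _ (by omega)
  have near2 : ∀ σ ∈ z.support, ∀ h ∈ σ, ∀ t, EQ π EA ((π g₀)⁻¹ * π (D t h)) ≤ R₁ := by
    intro σ hσ h hh t
    rw [hπD]
    exact (hz σ hσ).2.2.2 (π h) (List.mem_map_of_mem hh)
  have h1R' : 1 ≤ R' := hR₁.trans hR1R'
  have h1Xc : 1 ≤ X ^ c := Nat.one_le_pow _ _ (by omega)
  have hEQ1 : EQ π EA 1 = 1 := (EQ_szf hE π hπs).one
  obtain ⟨M, hM⟩ : ∃ M, M = X * R₁ := ⟨_, rfl⟩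
  refine ⟨cn g₀ (mp (D 0) z) + ∑ t ∈ Finset.range M, pr (D t) (D (t + 1)) z, ?_, ?_, ?_⟩
  · intro τ hτ
    rcases supp_add hτ with hτ | hτ
    · obtain ⟨σ', hσ', rfl⟩ := supp_cn hτ
      obtain ⟨σ, hσ, rfl⟩ := supp_mp hσ'
      have hd0 : ∀ h ∈ σ, EA (g₀⁻¹ * D 0 h) ≤ R' := by
        intro h hh
        have e : g₀⁻¹ * D 0 h = v h := by
          rw [hD', tr_zero, map_one]; group
        rw [e]
        exact (good σ hσ h hh).1.trans hR1R'
      refine ⟨by simp [(hz σ hσ).1], ?_, ?_, ?_⟩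
      · intro a ha b hb
        rw [List.mem_cons] at ha hb
        rcases ha with rfl | ha
        · rcases hb with rfl | hb
          · rw [inv_mul_cancel, hE.one]; exact h1R'
          · obtain ⟨h, hh, rfl⟩ := List.mem_map.1 hb
            exact hd0 h hh
        · obtain ⟨h, hh, rfl⟩ := List.mem_map.1 ha
          rcases hb with rfl | hb
          · rw [← hE.inv, mul_inv_rev, inv_inv]
            exact hd0 h hh
          · obtain ⟨h', hh', rfl⟩ := List.mem_map.1 hb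
            exact pair σ hσ h hh h' hh' 0 0 0 (Or.inl rfl) (Or.inl rfl)
      · intro a ha
        rcases List.mem_cons.1 ha with rfl | ha
        · rw [inv_mul_cancel, hE.one]; exact h1Xc
        · obtain ⟨h, hh, rfl⟩ := List.mem_map.1 ha
          exact near σ hσ h hh 0
      · intro a ha
        obtain ⟨b, hb, rfl⟩ := List.mem_map.1 ha
        rcases List.mem_cons.1 hb with rfl | hb
        · rw [inv_mul_cancel, hEQ1]; exact hR₁
        · obtain ⟨h, hh, rfl⟩ := List.mem_map.1 hb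
          exact near2 σ hσ h hh 0
    · obtain ⟨t, -, hτ⟩ := supp_sum hτ
      obtain ⟨σ, hσ, hlen, hτ⟩ := supp_pr hτ
      have hτ' : ∀ y ∈ τ, ∃ x ∈ σ, ∃ s, (s = t ∨ s = t + 1) ∧ y = D s x := by
        intro y hy
        obtain ⟨x, hx, h | h⟩ := hτ y hy
        · exact ⟨x, hx, t, Or.inl rfl, h⟩
        · exact ⟨x, hx, t + 1, Or.inr rfl, h⟩
      refine ⟨by rw [hlen, (hz σ hσ).1], ?_, ?_, ?_⟩
      · intro a ha b hb
        obtain ⟨x, hx, s, hs, rfl⟩ := hτ' a ha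
        obtain ⟨x', hx', s', hs', rfl⟩ := hτ' b hb
        exact pair σ hσ x hx x' hx' t s s' hs hs'
      · intro a ha
        obtain ⟨x, hx, s, hs, rfl⟩ := hτ' a ha
        exact near σ hσ x hx s
      · intro a ha
        obtain ⟨b, hb, rfl⟩ := List.mem_map.1 ha
        obtain ⟨x, hx, s, hs, rfl⟩ := hτ' b hb
        exact near2 σ hσ x hx s
  · have h1 : ∀ t, bd (pr (D t) (D (t + 1)) z) = mp (D (t + 1)) z - mp (D t) z := by
      intro t
      have := bd_pr (D t) (D (t + 1)) z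
      rw [hbd, map_zero, add_zero] at this
      exact this
    rw [map_add, map_sum, Finset.sum_congr rfl fun t _ => h1 t,
      Finset.sum_range_sub (fun t => mp (D t) z), bd_cn, bd_mp, hbd, map_zero, map_zero, sub_zero,
      add_sub_cancel]
    apply mp_eq_self
    intro σ hσ h hh
    rw [hD', tr_of_le (by rw [hM]; exact (good σ hσ h hh).2), hw]
    group
  · refine (ms_add_le _ _).trans ?_
    have h1 : ms (cn g₀ (mp (D 0) z)) ≤ ms z := (ms_cn _ _).trans (ms_mp _ _)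
    have h2 : ms (∑ t ∈ Finset.range M, pr (D t) (D (t + 1)) z) ≤ M * (k * ms z) := by
      refine (ms_sum_le _ _).trans ?_
      refine (Finset.sum_le_card_nsmul _ _ (k * ms z) ?_).trans ?_
      · intro t _
        exact ms_pr _ _ _ (fun σ hσ => (hz σ hσ).1.le)
      · rw [Finset.card_range, smul_eq_mul]
    calc ms (cn g₀ (mp (D 0) z)) + ms (∑ t ∈ Finset.range M, pr (D t) (D (t + 1)) z)
        ≤ ms z + M * (k * ms z) := Nat.add_le_add h1 h2
      _ = (1 + X * (R₁ * k)) * ms z := by rw [hM]; ring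
      _ ≤ (X + X * (R₁ * k)) * ms z := by gcongr; omega
      _ = X * (1 + R₁ * k) * ms z := by ring
      _ ≤ X ^ c * ms z := Nat.mul_le_mul_right _ (hXc _ (by omega))

end Pool.Agent.H.MP_e5d137_al.UB
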