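import Pool.Agent.H.MP_e5d137_al.UB.Cone

/-!
# Homotopies between close chain maps
-/

namespace Pool.Agent.H.MP_e5d137_al.UB

open Finsupp

variable {G Q : Type} [Group G] [Group Q]

/-- auxiliary recursion for the homotopy -/
noncomputable def quoh_eta (A : List Q → Ch Q) : ℕ → List Q → Ch Q
  | 0, _ => 0
  | (_ + 1), [] => 0
  | (n + 1), (q :: σ) => cn q (A (q :: σ) - single (q :: σ) 1 -
      Finsupp.linearCombination ℤ (quoh_eta A n) (bdl (q :: σ)))

/-- the homotopy -/
noncomputable def quoh_hty (A : List Q → Ch Q) (σ : List Q) : Ch Q := quoh_eta A σ.length σ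

omit [Group Q] in
lemma quoh_hty_nil (A : List Q → Ch Q) : quoh_hty A [] = 0 := rfl

omit [Group Q] in
lemma quoh_hty_cons (A : List Q → Ch Q) (q : Q) (σ : List Q) :
    quoh_hty A (q :: σ) = cn q (A (q :: σ) - single (q :: σ) 1 -
      Finsupp.linearCombination ℤ (quoh_hty A) (bdl (q :: σ))) := by
  have h1 : quoh_hty A (q :: σ) = cn q (A (q :: σ) - single (q :: σ) 1 -
      Finsupp.linearCombination ℤ (quoh_eta A σ.length) (bdl (q :: σ))) := rfl
  have h2 : Finsupp.linearCombination ℤ (quoh_eta A σ.length) (bdl (q :: σ)) =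
      Finsupp.linearCombination ℤ (quoh_hty A) (bdl (q :: σ)) := by
    apply lc_congr
    intro ρ hρ
    obtain ⟨_, h4⟩ := supp_bdl hρ
    have h5 : ρ.length = σ.length := by
      rw [List.length_cons] at h4
      omega
    unfold quoh_hty
    rw [h5]
  rw [h1, h2]

omit [Group Q] in
lemma quoh_lc_sub (f g : List Q → Ch Q) (c : Ch Q) :
    Finsupp.linearCombination ℤ (fun a => f a - g a) c =
      Finsupp.linearCombination ℤ f c - Finsupp.linearCombination ℤ g c := by
  induction c using Finsupp.induction_linear with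
  | zero => simp
  | add a b ha hb => rw [map_add, map_add, map_add, ha, hb]; abel
  | single σ k => simp [smul_sub]

omit [Group Q] in
lemma quoh_bd_lc (f : List Q → Ch Q) (c : Ch Q) :
    bd (Finsupp.linearCombination ℤ f c) =
      Finsupp.linearCombination ℤ (fun ρ => bd (f ρ)) c := by
  induction c using Finsupp.induction_linear with
  | zero => simp
  | add a b ha hb => rw [map_add, map_add, map_add, ha, hb]
  | single σ k => simp

omit [Group Q] in
lemma quoh_lc_lc (f : List Q → Ch Q) (c : Ch Q) :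
    Finsupp.linearCombination ℤ (fun ρ => Finsupp.linearCombination ℤ f (bdl ρ)) c =
      Finsupp.linearCombination ℤ f (bd c) := by
  induction c using Finsupp.induction_linear with
  | zero => simp
  | add a b ha hb => rw [map_add, map_add, map_add, ha, hb]
  | single σ k => simp

omit [Group Q] in
lemma quoh_lc_single (c : Ch Q) :
    Finsupp.linearCombination ℤ (fun ρ : List Q => single ρ (1 : ℤ)) c = c := by
  induction c using Finsupp.induction_linear with
  | zero => simp
  | add a b ha hb => rw [map_add, ha, hb]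
  | single σ k => simp

/-- radius bound -/
def quoh_B (R R₁ : ℕ) : ℕ → ℕ
  | 0 => 1
  | (m + 1) => (R + 1) * quoh_B R R₁ m + R₁ + R + 1

/-- mass bound -/
def quoh_F : ℕ → ℕ
  | 0 => 0
  | (m + 1) => 1 + (m + 1) * quoh_F m

lemma quoh_B_mono (R R₁ : ℕ) : Monotone (quoh_B R R₁) := by
  refine monotone_nat_of_le_succ (fun m => ?_)
  rw [quoh_B]
  have : quoh_B R R₁ m ≤ (R + 1) * quoh_B R R₁ m := Nat.le_mul_of_pos_left _ (by omega)
  omega

lemma quoh_F_mono : Monotone quoh_F := by
  refine monotone_nat_of_le_succ (fun m => ?_)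
  rw [quoh_F]
  have : quoh_F m ≤ (m + 1) * quoh_F m := Nat.le_mul_of_pos_left _ (by omega)
  omega

lemma quoh_near_sublist {E : Q → ℕ} {g : Q} {X : ℕ} {σ τ : List Q} (h : Near E g X σ)
    (hs : τ.Sublist σ) : Near E g X τ := fun a ha => h a (hs.subset ha)

lemma quoh_tri {E : Q → ℕ} (hE : Szf E) (a b c : Q) {M N : ℕ} (h1 : E (a⁻¹ * b) ≤ M)
    (h2 : E (b⁻¹ * c) ≤ N) : E (a⁻¹ * c) ≤ M * N := by
  have h3 : a⁻¹ * c = (a⁻¹ * b) * (b⁻¹ * c) := by group
  rw [h3]
  exact (hE.mul _ _).trans (Nat.mul_le_mul h1 h2)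

lemma quoh_symm {E : Q → ℕ} (hE : Szf E) (a b : Q) : E (a⁻¹ * b) = E (b⁻¹ * a) := by
  rw [← hE.inv (a⁻¹ * b)]
  congr 1
  group

/-- The main induction. -/
lemma quoh_main {E : Q → ℕ} (hE : Szf E) (k R R₁ c₁ X : ℕ)
    (A : List Q → Ch Q) (hA0 : A [] = single [] 1)
    (hA : ∀ σ : List Q, σ.length ≤ k → Small E R σ → Near E 1 X σ →
        bd (A σ) = Finsupp.linearCombination ℤ A (bdl σ) ∧
        (∀ τ ∈ (A σ).support, τ.length = σ.length ∧ ∀ q ∈ σ, Near E q R₁ τ) ∧
        ms (A σ) ≤ X ^ c₁) (n : ℕ) :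
    ∀ σ : List Q, σ.length = n → n ≤ k → Small E R σ → Near E 1 X σ →
        bd (quoh_hty A σ) = A σ - single σ 1 -
          Finsupp.linearCombination ℤ (quoh_hty A) (bdl σ) ∧
        (∀ τ ∈ (quoh_hty A σ).support, τ.length = σ.length + 1 ∧
          ∀ q ∈ σ, Near E q (quoh_B R R₁ n) τ) ∧
        ms (quoh_hty A σ) ≤ (X ^ c₁ + 1) * quoh_F n := by
  induction n with
  | zero =>
    intro σ hσ _ _ _
    obtain rfl : σ = [] := List.eq_nil_of_length_eq_zero hσ
    refine ⟨?_, ?_, ?_⟩
    · rw [quoh_hty_nil, hA0]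
      simp [bdl]
    · intro τ hτ
      rw [quoh_hty_nil] at hτ
      simp at hτ
    · rw [quoh_hty_nil]
      simp
  | succ n ih =>
    intro σ hσ hn hsm hnr
    obtain ⟨q, σ', rfl⟩ : ∃ q σ', σ = q :: σ' := by
      cases σ with
      | nil => simp at hσ
      | cons q σ' => exact ⟨q, σ', rfl⟩
    have hsub : ∀ ρ ∈ (bdl (q :: σ')).support, ρ.length = n ∧ Small E R ρ ∧ Near E 1 X ρ ∧
        ρ.Sublist (q :: σ') := by
      intro ρ hρ
      obtain ⟨h1, h2⟩ := supp_bdl hρ
      exact ⟨by omega, hsm.sublist h1, quoh_near_sublist hnr h1, h1⟩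
    obtain ⟨hA1, hA2, hA3⟩ := hA (q :: σ') (by omega) hsm hnr
    refine ⟨?_, ?_, ?_⟩
    · rw [quoh_hty_cons, bd_cn]
      have hz : bd (A (q :: σ') - single (q :: σ') 1 -
          Finsupp.linearCombination ℤ (quoh_hty A) (bdl (q :: σ'))) = 0 := by
        rw [map_sub, map_sub, hA1, bd_single, one_smul, quoh_bd_lc]
        have h1 : Finsupp.linearCombination ℤ (fun ρ => bd (quoh_hty A ρ)) (bdl (q :: σ')) =
            Finsupp.linearCombination ℤ (fun ρ => (A ρ - single ρ 1) -
              Finsupp.linearCombination ℤ (quoh_hty A) (bdl ρ)) (bdl (q :: σ')) := by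
          apply lc_congr
          intro ρ hρ
          obtain ⟨h1, h2, h3, _⟩ := hsub ρ hρ
          exact (ih ρ h1 (by omega) h2 h3).1
        rw [h1, quoh_lc_sub (fun ρ => A ρ - single ρ 1), quoh_lc_sub A, quoh_lc_lc, bd_bdl,
          map_zero, quoh_lc_single]
        abel
      rw [hz, map_zero, sub_zero]
    · intro τ hτ
      rw [quoh_hty_cons] at hτ
      obtain ⟨ρ, hρ, rfl⟩ := supp_cn hτ
      have hqq : ∀ q' ∈ q :: σ', E (q'⁻¹ * q) ≤ quoh_B R R₁ (n + 1) := by
        intro q' hq'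
        have := hsm q' hq' q List.mem_cons_self
        rw [quoh_B]
        omega
      have hgoal : ρ.length = (q :: σ').length ∧
          ∀ q' ∈ q :: σ', Near E q' (quoh_B R R₁ (n + 1)) ρ := by
        rcases supp_sub hρ with hρ | hρ
        · rcases supp_sub hρ with hρ | hρ
          · obtain ⟨h1, h2⟩ := hA2 ρ hρ
            refine ⟨h1, fun q' hq' => (h2 q' hq').mono ?_⟩
            rw [quoh_B]
            omega
          · obtain rfl := supp_single hρ
            refine ⟨rfl, fun q' hq' a ha => ?_⟩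
            have := hsm q' hq' a ha
            rw [quoh_B]
            omega
        · obtain ⟨ρ', hρ', hρ⟩ := supp_lc _ _ hρ
          obtain ⟨h1, h2, h3, h4⟩ := hsub ρ' hρ'
          obtain ⟨_, h5, _⟩ := ih ρ' h1 (by omega) h2 h3
          obtain ⟨h6, h7⟩ := h5 ρ hρ
          refine ⟨by rw [h6, h1, hσ], fun q' hq' a ha => ?_⟩
          have hne : ρ' ≠ [] := by
            rintro rfl
            rw [quoh_hty_nil] at hρ
            simp at hρ
          obtain ⟨p, hp⟩ := List.exists_mem_of_ne_nil ρ' hne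
          have h8 := hsm q' hq' p (h4.subset hp)
          have h9 := h7 p hp a ha
          have h10 := quoh_tri hE q' p a h8 h9
          rw [quoh_B]
          have h11 : R * quoh_B R R₁ n ≤ (R + 1) * quoh_B R R₁ n :=
            Nat.mul_le_mul_right _ (by omega)
          omega
      refine ⟨by rw [List.length_cons, hgoal.1], fun q' hq' a ha => ?_⟩
      rcases List.mem_cons.1 ha with rfl | ha
      · exact hqq q' hq'
      · exact hgoal.2 q' hq' a ha
    · rw [quoh_hty_cons]
      refine (ms_cn _ _).trans ((ms_sub_le _ _).trans ?_)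
      have h1 : ms (A (q :: σ') - single (q :: σ') 1) ≤ X ^ c₁ + 1 := by
        refine (ms_sub_le _ _).trans ?_
        rw [ms_single]
        simpa using hA3
      have h2 : ms (Finsupp.linearCombination ℤ (quoh_hty A) (bdl (q :: σ'))) ≤
          ((X ^ c₁ + 1) * quoh_F n) * (n + 1) := by
        refine (ms_lc_le _ _ ((X ^ c₁ + 1) * quoh_F n) ?_).trans ?_
        · intro ρ hρ
          obtain ⟨h1, h2, h3, _⟩ := hsub ρ hρ
          exact (ih ρ h1 (by omega) h2 h3).2.2
        · refine Nat.mul_le_mul_left _ ((ms_bdl _).trans ?_)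
          omega
      calc _ ≤ (X ^ c₁ + 1) + ((X ^ c₁ + 1) * quoh_F n) * (n + 1) := Nat.add_le_add h1 h2
        _ = (X ^ c₁ + 1) * quoh_F (n + 1) := by rw [quoh_F]; ring

/-- Homotopy between a chain map which stays close and the identity (here `E` is any size function
on any group `Q`).

Proof.  Induction on `k`.  `η [] = 0`; for `σ = q :: σ'` put
`η σ = cn q (A σ - single σ 1 - lc η (bdl σ))`.  The chain in the bracket is a cycle
(`bd (lc η (bdl σ)) = lc (fun ρ => A ρ - single ρ 1 - lc η (bdl ρ)) (bdl σ)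
= lc A (bdl σ) - bdl σ - 0` by the induction hypothesis and `bd_bdl`), so
`bd (η σ) = A σ - single σ 1 - lc η (bdl σ)` by `bd_cn`.  In the induction carry also the property
that all entries of the lists in `η σ` are `R₂`-near all entries of `σ`, with `R₂ = R₂ k`: an entry
of a list in `η ρ`, `ρ` a nonempty sublist of `σ`, is `R₂ k`-near an entry of `ρ`, which is
`R`-near all entries of `σ` (`η [] = 0`), so `R₂ (k + 1) = R * R₂ k + R₁ + R + 1` is enough.
Hence the lists are `R₂ * R₂`-small and have size at most `X * R₂`; the mass is at most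
`X ^ c₁ + 1 + (k + 1) * (the bound for smaller length)`. -/
theorem exists_hty' {E : Q → ℕ} (hE : Szf E) (k R R₁ c₁ : ℕ) : ∃ R' c : ℕ, ∀ X : ℕ, 2 ≤ X →
    ∀ A : List Q → Ch Q, A [] = single [] 1 →
      (∀ σ : List Q, σ.length ≤ k → Small E R σ → Near E 1 X σ →
        bd (A σ) = Finsupp.linearCombination ℤ A (bdl σ) ∧
        (∀ τ ∈ (A σ).support, τ.length = σ.length ∧ ∀ q ∈ σ, Near E q R₁ τ) ∧
        ms (A σ) ≤ X ^ c₁) →
      ∃ η : List Q → Ch Q, ∀ σ : List Q, σ.length ≤ k → Small E R σ → Near E 1 X σ →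
        bd (η σ) = A σ - single σ 1 - Finsupp.linearCombination ℤ η (bdl σ) ∧
        (∀ τ ∈ (η σ).support, τ.length = σ.length + 1 ∧ Small E R' τ ∧ Near E 1 (X ^ c) τ) ∧
        ms (η σ) ≤ X ^ c := by
  refine ⟨quoh_B R R₁ k * quoh_B R R₁ k, (c₁ + 1 + quoh_F k) + (1 + quoh_B R R₁ k), ?_⟩
  intro X hX A hA0 hA
  refine ⟨quoh_hty A, fun σ hσ hsm hnr => ?_⟩
  obtain ⟨h1, h2, h3⟩ := quoh_main hE k R R₁ c₁ X A hA0 hA σ.length σ rfl hσ hsm hnr
  have hB : quoh_B R R₁ σ.length ≤ quoh_B R R₁ k := quoh_B_mono R R₁ hσ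
  have hF : quoh_F σ.length ≤ quoh_F k := quoh_F_mono hσ
  have hX1 : 1 ≤ X := by omega
  have hpow : ∀ m : ℕ, m ≤ X ^ m := fun m =>
    (Nat.lt_pow_self (by omega)).le
  refine ⟨h1, ?_, ?_⟩
  · intro τ hτ
    obtain ⟨h4, h5⟩ := h2 τ hτ
    have hne : σ ≠ [] := by
      rintro rfl
      rw [quoh_hty_nil] at hτ
      simp at hτ
    obtain ⟨q, hq⟩ := List.exists_mem_of_ne_nil σ hne
    refine ⟨h4, ?_, ?_⟩
    · intro a ha b hb
      have e1 := h5 q hq a ha
      have e2 := h5 q hq b hb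
      rw [quoh_symm hE] at e1
      exact (quoh_tri hE a q b e1 e2).trans (Nat.mul_le_mul hB hB)
    · intro a ha
      have e1 := h5 q hq a ha
      have e2 := hnr q hq
      refine (quoh_tri hE 1 q a e2 e1).trans ?_
      calc X * quoh_B R R₁ σ.length ≤ X ^ 1 * X ^ (quoh_B R R₁ k) := by
            rw [pow_one]
            exact Nat.mul_le_mul_left _ (hB.trans (hpow _))
        _ = X ^ (1 + quoh_B R R₁ k) := by rw [pow_add]
        _ ≤ _ := Nat.pow_le_pow_right hX1 (by omega)
  · refine h3.trans ?_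
    calc (X ^ c₁ + 1) * quoh_F σ.length ≤ X ^ (c₁ + 1) * X ^ (quoh_F k) := by
          refine Nat.mul_le_mul ?_ (hF.trans (hpow _))
          have : 1 ≤ X ^ c₁ := Nat.one_le_pow _ _ hX1
          calc X ^ c₁ + 1 ≤ X ^ c₁ + X ^ c₁ := by omega
            _ = X ^ c₁ * 2 := by ring
            _ ≤ X ^ c₁ * X := Nat.mul_le_mul_left _ hX
            _ = X ^ (c₁ + 1) := by rw [pow_succ]
      _ = X ^ (c₁ + 1 + quoh_F k) := by rw [← pow_add]
      _ ≤ _ := Nat.pow_le_pow_right hX1 (by omega)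

end Pool.Agent.H.MP_e5d137_al.UB
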