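import Pool.Agent.H.MP_e5d137_al.UB.QuoB
import Pool.Agent.H.MP_e5d137_al.UB.QuoH

/-!
# The cone property of a quotient
-/

namespace Pool.Agent.H.MP_e5d137_al.UB

open Finsupp

variable {G Q : Type} [Group G] [Group Q]

lemma QuoC_lc_lc {V W : Type} (ℓ : List V → Ch W) (x : Ch V) :
    Finsupp.linearCombination ℤ (fun σ => Finsupp.linearCombination ℤ ℓ (bdl σ)) x =
      Finsupp.linearCombination ℤ ℓ (bd x) := by
  induction x using Finsupp.induction_linear with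
  | zero => simp
  | add a b ha hb => simp only [map_add, ha, hb]
  | single σ k => simp

lemma QuoC_lc_sub {V : Type} (A B : List V → Ch V) (x : Ch V) :
    Finsupp.linearCombination ℤ (fun σ => A σ - single σ 1 - B σ) x =
      Finsupp.linearCombination ℤ A x - x - Finsupp.linearCombination ℤ B x := by
  induction x using Finsupp.induction_linear with
  | zero => simp
  | add a b ha hb => simp only [map_add, ha, hb]; abel
  | single σ k => simp [smul_sub]

/-- The cone property of the quotient.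

Proof.  Let `x` be a cycle of `R`-small lists of length `k` and size at most `X`.  Let `ℓ` be the map
of `exists_lft` and `A σ = mp π (ℓ σ)`, `η` the homotopy of `exists_hty'`.  The chain `lc ℓ x` is a
cycle with `R'`-small lists of size at most `X ^ c` and mass at most `X ^ c * ms x`; let `y` be a
filling of it (`Cone E`, with `X ^ (c + 1)`).  Then `bd (mp π y) = mp π (lc ℓ x) = lc A x` and
`bd (lc η x) = lc A x - x - lc η (bd x)`-type sum `= lc A x - x`
(`lc (fun σ => lc η (bdl σ)) x = lc η (bd x) = 0`), so `mp π y - lc η x` is a filling of `x`.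
`Small E R' τ` implies `Small (EQ π E) R' (τ.map π)` by `EQ_le`, similarly for `Near`. -/
theorem quot_cone {E : G → ℕ} (hE : Szf E) (hc : Cone E) (π : G →* Q)
    (hπ : Function.Surjective π) (hl : LCone π E) : Cone (EQ π E) := by
  intro k R
  obtain ⟨Rl, R₁, c, hR₁, hL⟩ := exists_lft hE π hπ hl k R
  obtain ⟨Ry, cy, hY⟩ := hc k Rl
  obtain ⟨Re, ce, hH⟩ := exists_hty' (EQ_szf hE π hπ) k R R₁ c
  refine ⟨max Ry Re, (c + 1) * cy + c + ce + 1, fun X hX x hx hbx => ?_⟩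
  have hX0 : 0 < X := by omega
  obtain ⟨ℓ, hℓ0, hℓ⟩ := hL X hX
  obtain ⟨η, hη⟩ := hH X hX (fun σ => mp π (ℓ σ)) (by simp [hℓ0]) (by
    intro σ hσ hs hn
    obtain ⟨h1, h2, h3⟩ := hℓ σ hσ hs hn
    refine ⟨?_, ?_, (ms_mp _ _).trans h3⟩
    · rw [bd_mp, h1, Finsupp.apply_linearCombination]
      rfl
    · intro τ hτ
      obtain ⟨ρ, hρ, rfl⟩ := supp_mp hτ
      obtain ⟨e1, _, _, e4⟩ := h2 ρ hρ
      exact ⟨by rw [List.length_map, e1], e4⟩)
  -- the lifted cycle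
  set z : Ch G := Finsupp.linearCombination ℤ ℓ x with hz
  have hle : ∀ σ ∈ x.support, σ.length ≤ k := fun σ hσ => (hx σ hσ).1.le
  have hbz : bd z = 0 := by
    rw [hz, Finsupp.apply_linearCombination]
    rw [lc_congr (bd ∘ ℓ) (fun σ => Finsupp.linearCombination ℤ ℓ (bdl σ)) x
      (fun σ hσ => (hℓ σ (hle σ hσ) (hx σ hσ).2.1 (hx σ hσ).2.2).1), QuoC_lc_lc, hbx, map_zero]
  have hX2 : 2 ≤ X ^ (c + 1) := by
    calc 2 ≤ X := hX
      _ = X ^ 1 := (pow_one X).symm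
      _ ≤ X ^ (c + 1) := Nat.pow_le_pow_right hX0 (by omega)
  have hzs : ∀ σ ∈ z.support, σ.length = k ∧ Small E Rl σ ∧ Near E 1 (X ^ (c + 1)) σ := by
    intro τ hτ
    obtain ⟨σ, hσ, hτσ⟩ := supp_lc _ _ hτ
    obtain ⟨_, h2, _⟩ := hℓ σ (hle σ hσ) (hx σ hσ).2.1 (hx σ hσ).2.2
    obtain ⟨e1, e2, e3, _⟩ := h2 τ hτσ
    exact ⟨e1.trans (hx σ hσ).1, e2, e3.mono (Nat.pow_le_pow_right hX0 (by omega))⟩
  have hmz : ms z ≤ X ^ c * ms x :=
    ms_lc_le _ _ _ (fun σ hσ => (hℓ σ (hle σ hσ) (hx σ hσ).2.1 (hx σ hσ).2.2).2.2)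
  obtain ⟨y, hy1, hy2, hy3⟩ := hY (X ^ (c + 1)) hX2 z hzs hbz
  have hEQ : ∀ a b : G, EQ π E ((π a)⁻¹ * π b) ≤ E (a⁻¹ * b) := by
    intro a b
    rw [← map_inv, ← map_mul]
    exact EQ_le π E _
  refine ⟨mp π y - Finsupp.linearCombination ℤ η x, ?_, ?_, ?_⟩
  · intro τ hτ
    rcases supp_sub hτ with hτ | hτ
    · obtain ⟨ρ, hρ, rfl⟩ := supp_mp hτ
      obtain ⟨e1, e2, e3⟩ := hy1 ρ hρ
      refine ⟨by rw [List.length_map, e1], ?_, ?_⟩
      · intro a ha b hb
        obtain ⟨a', ha', rfl⟩ := List.mem_map.1 ha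
        obtain ⟨b', hb', rfl⟩ := List.mem_map.1 hb
        exact ((hEQ a' b').trans (e2 a' ha' b' hb')).trans (le_max_left _ _)
      · intro a ha
        obtain ⟨a', ha', rfl⟩ := List.mem_map.1 ha
        have h1 := hEQ 1 a'
        rw [map_one] at h1
        refine (h1.trans (e3 a' ha')).trans ?_
        rw [← pow_mul]
        exact Nat.pow_le_pow_right hX0 (by omega)
    · obtain ⟨σ, hσ, hτσ⟩ := supp_lc _ _ hτ
      obtain ⟨_, h2, _⟩ := hη σ (hle σ hσ) (hx σ hσ).2.1 (hx σ hσ).2.2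
      obtain ⟨e1, e2, e3⟩ := h2 τ hτσ
      refine ⟨by rw [e1, (hx σ hσ).1], e2.mono (le_max_right _ _), e3.mono ?_⟩
      exact Nat.pow_le_pow_right hX0 (by omega)
  · rw [map_sub, bd_mp, hy2, hz, Finsupp.apply_linearCombination, Finsupp.apply_linearCombination]
    rw [lc_congr (bd ∘ η) (fun σ => mp π (ℓ σ) - single σ 1 -
        Finsupp.linearCombination ℤ η (bdl σ)) x
      (fun σ hσ => (hη σ (hle σ hσ) (hx σ hσ).2.1 (hx σ hσ).2.2).1)]
    rw [QuoC_lc_sub (fun σ => mp π (ℓ σ)) (fun σ => Finsupp.linearCombination ℤ η (bdl σ)),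
      QuoC_lc_lc, hbx, map_zero]
    have h1 : Finsupp.linearCombination ℤ ((mp π) ∘ ℓ) x =
      Finsupp.linearCombination ℤ (fun σ => mp π (ℓ σ)) x := rfl
    rw [h1]
    abel
  · have h1 : ms (Finsupp.linearCombination ℤ η x) ≤ X ^ ce * ms x :=
      ms_lc_le _ _ _ (fun σ hσ => (hη σ (hle σ hσ) (hx σ hσ).2.1 (hx σ hσ).2.2).2.2)
    have h2 : ms (mp π y) ≤ X ^ ((c + 1) * cy + c) * ms x := by
      refine ((ms_mp _ _).trans hy3).trans ?_
      rw [← pow_mul, pow_add, mul_assoc]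
      exact Nat.mul_le_mul_left _ hmz
    refine (ms_sub_le _ _).trans ((add_le_add h2 h1).trans ?_)
    rw [← add_mul]
    refine Nat.mul_le_mul_right _ ?_
    have h3 : X ^ ((c + 1) * cy + c) ≤ X ^ ((c + 1) * cy + c + ce) :=
      Nat.pow_le_pow_right hX0 (by omega)
    have h4 : X ^ ce ≤ X ^ ((c + 1) * cy + c + ce) := Nat.pow_le_pow_right hX0 (by omega)
    calc X ^ ((c + 1) * cy + c) + X ^ ce ≤ X ^ ((c + 1) * cy + c + ce) * 2 := by omega
      _ ≤ X ^ ((c + 1) * cy + c + ce) * X := Nat.mul_le_mul_left _ hX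
      _ = X ^ ((c + 1) * cy + c + ce + 1) := (pow_succ _ _).symm

end Pool.Agent.H.MP_e5d137_al.UB
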