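import Pool.Agent.H.MP_e5d137_al.UB.FinA
import Pool.Agent.H.MP_e5d137_al.UB.OutL
import Pool.Agent.H.MP_e5d137_al.UB.QuoC
import Pool.Agent.H.MP_e5d137_al.UB.KL

/-!
# The upper bounds for `Aut (F_n)` and `Out (F_n)`
-/

namespace Pool.Agent.H.MP_e5d137_al.UB

open scoped ENNReal

/-- the upper bound for `Aut (F_n)`, for every rank -/
theorem upper_Aut (n m : ℕ) (hm : 1 ≤ m) (K : GComplex (MulAut (FreeGroup (Fin n))))
    (hK : K.FiniteTo (m + 1)) : Dominated (fun L => (K.iso m L : ℝ≥0∞)) (expRoot m) :=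
  upper_of_cone EA_szf (cone_EA n) K m hm hK

/-- the upper bound for `Out (F_n)`, `n ≥ 2` -/
theorem upper_Out (n m : ℕ) (hn : 2 ≤ n) (hm : 1 ≤ m) (K : GComplex (Out n))
    (hK : K.FiniteTo (m + 1)) : Dominated (fun L => (K.iso m L : ℝ≥0∞)) (expRoot m) := by
  have hπ := QuotientGroup.mk'_surjective (Inn n)
  exact upper_of_cone (EQ_szf EA_szf (QuotientGroup.mk' (Inn n)) hπ)
    (quot_cone EA_szf (cone_EA n) (QuotientGroup.mk' (Inn n)) hπ (lcone_out hn)) K m hm hK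

end Pool.Agent.H.MP_e5d137_al.UB
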