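import Pool.Agent.H.MP_e5d137_al.UB.Lc

/-!
# Size functions on groups and the cone property
-/

namespace Pool.Agent.H.MP_e5d137_al.UB

open Finsupp

variable {G : Type} [Group G]

/-- a submultiplicative size function with finite balls -/
structure Szf (E : G → ℕ) : Prop where
  one : E 1 = 1
  pos : ∀ g, 1 ≤ E g
  mul : ∀ g h, E (g * h) ≤ E g * E h
  inv : ∀ g, E g⁻¹ = E g
  fin : ∀ R, {g | E g ≤ R}.Finite

/-- all differences of entries have size at most `R` -/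
def Small (E : G → ℕ) (R : ℕ) (σ : List G) : Prop := ∀ a ∈ σ, ∀ b ∈ σ, E (a⁻¹ * b) ≤ R

/-- all entries have size at most `X` relative to `g` -/
def Near (E : G → ℕ) (g : G) (X : ℕ) (σ : List G) : Prop := ∀ a ∈ σ, E (g⁻¹ * a) ≤ X

/-- The cone property: cycles made of `R`-small simplices of size at most `X` are boundaries of
chains made of `R'`-small simplices, with mass and size bounded by a power of `X`. -/
def Cone (E : G → ℕ) : Prop := ∀ k R : ℕ, ∃ R' c : ℕ, ∀ X : ℕ, 2 ≤ X → ∀ x : Ch G,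
  (∀ σ ∈ x.support, σ.length = k ∧ Small E R σ ∧ Near E 1 X σ) → bd x = 0 →
  ∃ y : Ch G, (∀ τ ∈ y.support, τ.length = k + 1 ∧ Small E R' τ ∧ Near E 1 (X ^ c) τ) ∧
    bd y = x ∧ ms y ≤ X ^ c * ms x

lemma Small.mono {E : G → ℕ} {R R' : ℕ} {σ : List G} (h : Small E R σ) (hR : R ≤ R') :
    Small E R' σ := fun a ha b hb => (h a ha b hb).trans hR

lemma Near.mono {E : G → ℕ} {g : G} {R R' : ℕ} {σ : List G} (h : Near E g R σ) (hR : R ≤ R') :
    Near E g R' σ := fun a ha => (h a ha).trans hR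

lemma Small.sublist {E : G → ℕ} {R : ℕ} {σ τ : List G} (h : Small E R σ) (hs : τ.Sublist σ) :
    Small E R τ := fun a ha b hb => h a (hs.subset ha) b (hs.subset hb)

lemma Small.map {E : G → ℕ} {R : ℕ} {σ : List G} (h : Small E R σ) (g : G) :
    Small E R (σ.map (fun x => g * x)) := by
  intro a ha b hb
  obtain ⟨a', ha', rfl⟩ := List.mem_map.1 ha
  obtain ⟨b', hb', rfl⟩ := List.mem_map.1 hb
  have := h a' ha' b' hb'
  rwa [show (g * a')⁻¹ * (g * b') = a'⁻¹ * b' by group]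

/-- the cone property with arbitrary centre -/
lemma Cone.at {E : G → ℕ} (h : Cone E) (k R : ℕ) : ∃ R' c : ℕ, ∀ X : ℕ, 2 ≤ X → ∀ g : G,
    ∀ x : Ch G, (∀ σ ∈ x.support, σ.length = k ∧ Small E R σ ∧ Near E g X σ) → bd x = 0 →
    ∃ y : Ch G, (∀ τ ∈ y.support, τ.length = k + 1 ∧ Small E R' τ ∧ Near E g (X ^ c) τ) ∧
      bd y = x ∧ ms y ≤ X ^ c * ms x := by
  obtain ⟨R', c, h⟩ := h k R
  refine ⟨R', c, fun X hX g x hx hb => ?_⟩
  have key : ∀ σ ∈ (mp (fun a => g⁻¹ * a) x).support,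
      σ.length = k ∧ Small E R σ ∧ Near E 1 X σ := by
    intro σ hσ
    obtain ⟨ρ, hρ, rfl⟩ := supp_mp hσ
    obtain ⟨e1, e2, e3⟩ := hx ρ hρ
    refine ⟨by simp [e1], e2.map _, fun a ha => ?_⟩
    obtain ⟨a', ha', rfl⟩ := List.mem_map.1 ha
    have := e3 a' ha'
    rwa [show (1 : G)⁻¹ * (g⁻¹ * a') = g⁻¹ * a' by group]
  obtain ⟨y, h1, h2, h3⟩ := h X hX (mp (fun a => g⁻¹ * a) x) key (by rw [bd_mp, hb, map_zero])
  refine ⟨mp (fun a => g * a) y, fun τ hτ => ?_, ?_, ?_⟩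
  · obtain ⟨ρ, hρ, rfl⟩ := supp_mp hτ
    obtain ⟨e1, e2, e3⟩ := h1 ρ hρ
    refine ⟨by simp [e1], e2.map g, fun a ha => ?_⟩
    obtain ⟨a', ha', rfl⟩ := List.mem_map.1 ha
    have := e3 a' ha'
    rwa [show g⁻¹ * (g * a') = 1⁻¹ * a' by group]
  · rw [bd_mp, h2, mp_mp]
    have : ((fun a => g * a) ∘ fun a => g⁻¹ * a) = fun x : G => x := by
      funext a; simp
    rw [this, mp_id]
  · exact (ms_mp _ _).trans (h3.trans (Nat.mul_le_mul_left _ (ms_mp _ _)))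

end Pool.Agent.H.MP_e5d137_al.UB
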