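import Pool.Agent.H.MP_e5d137_al.UB.Met
import Pool.Agent.H.MP_e5d137_al.UB.Cone

/-!
# The tree metrics `dg g` on a free group, and the size function on its automorphism group
-/

namespace Pool.Agent.H.MP_e5d137_al.UB

variable {n : ℕ}

/-- the word metric of the free group with respect to the basis `g (x_1), ..., g (x_n)` -/
def dg (g : MulAut (FreeGroup (Fin n))) (a b : FreeGroup (Fin n)) : ℕ :=
  (g⁻¹ (a⁻¹ * b)).norm

/-- length of the longest common prefix -/
def dg0_cpl {β : Type} [DecidableEq β] : List β → List β → ℕ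
  | x :: xs, y :: ys => if x = y then dg0_cpl xs ys + 1 else 0
  | [], _ => 0
  | _ :: _, [] => 0

lemma dg0_cpl_comm {β : Type} [DecidableEq β] (xs : List β) :
    ∀ ys : List β, dg0_cpl xs ys = dg0_cpl ys xs := by
  induction xs with
  | nil =>
    intro ys
    cases ys <;> rfl
  | cons x xs ih =>
    intro ys
    cases ys with
    | nil => rfl
    | cons y ys =>
      by_cases h : x = y
      · subst h
        simp only [dg0_cpl, if_true, ih ys]
      · have h' : ¬ y = x := fun e => h e.symm
        simp only [dg0_cpl, if_neg h, if_neg h']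

lemma dg0_cpl_min {β : Type} [DecidableEq β] (xs : List β) :
    ∀ ys zs : List β, min (dg0_cpl xs ys) (dg0_cpl ys zs) ≤ dg0_cpl xs zs := by
  induction xs with
  | nil =>
    intro ys zs
    cases ys <;> simp [dg0_cpl]
  | cons x xs ih =>
    intro ys zs
    cases ys with
    | nil => simp [dg0_cpl]
    | cons y ys =>
      cases zs with
      | nil => simp [dg0_cpl]
      | cons z zs =>
        have h := ih ys zs
        by_cases hxy : x = y
        · subst hxy
          by_cases hxz : x = z
          · subst hxz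
            simp only [dg0_cpl, if_true]
            omega
          · simp only [dg0_cpl, if_true, if_neg hxz]
            omega
        · simp only [dg0_cpl, if_neg hxy]
          omega

lemma dg0_norm (xs : List (Fin n × Bool)) :
    ∀ ys : List (Fin n × Bool), FreeGroup.IsReduced xs → FreeGroup.IsReduced ys →
      ((FreeGroup.mk xs)⁻¹ * FreeGroup.mk ys).norm + 2 * dg0_cpl xs ys =
        xs.length + ys.length := by
  induction xs with
  | nil =>
    intro ys _ hy
    have h1 : (FreeGroup.mk ([] : List (Fin n × Bool)))⁻¹ * FreeGroup.mk ys =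
        FreeGroup.mk ys := by
      rw [← FreeGroup.one_eq_mk, inv_one, one_mul]
    rw [h1, FreeGroup.norm, FreeGroup.toWord_mk, hy.reduce_eq]
    simp [dg0_cpl]
  | cons x xs ih =>
    intro ys hx hy
    cases ys with
    | nil =>
      have h1 : (FreeGroup.mk (x :: xs))⁻¹ * FreeGroup.mk ([] : List (Fin n × Bool)) =
          (FreeGroup.mk (x :: xs))⁻¹ := by
        rw [← FreeGroup.one_eq_mk, mul_one]
      rw [h1, FreeGroup.norm_inv_eq, FreeGroup.norm, FreeGroup.toWord_mk, hx.reduce_eq]
      simp [dg0_cpl]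
    | cons y ys =>
      by_cases hxy : x = y
      · subst hxy
        have hx' : FreeGroup.IsReduced xs := hx.tail
        have hy' : FreeGroup.IsReduced ys := hy.tail
        have h1 : (FreeGroup.mk (x :: xs))⁻¹ * FreeGroup.mk (x :: ys) =
            (FreeGroup.mk xs)⁻¹ * FreeGroup.mk ys := by
          have hc : ∀ L : List (Fin n × Bool), FreeGroup.mk (x :: L) =
              FreeGroup.mk [x] * FreeGroup.mk L := by
            intro L
            rw [FreeGroup.mul_mk]
            rfl
          rw [hc xs, hc ys]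
          group
        have h2 := ih ys hx' hy'
        rw [h1]
        simp only [dg0_cpl, if_true, List.length_cons]
        omega
      · have hred : FreeGroup.IsReduced (FreeGroup.invRev (x :: xs) ++ (y :: ys)) := by
          have e1 : FreeGroup.invRev (x :: xs) = FreeGroup.invRev xs ++ [(x.1, !x.2)] := by
            simp [FreeGroup.invRev]
          have e2 : FreeGroup.IsReduced (FreeGroup.invRev (x :: xs)) := by
            apply FreeGroup.IsReduced.of_reduce_eq
            rw [FreeGroup.reduce_invRev, hx.reduce_eq]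
          rw [e1] at e2 ⊢
          refine FreeGroup.IsReduced.append_overlap e2 ?_ (by simp)
          change FreeGroup.IsReduced ((x.1, !x.2) :: y :: ys)
          rw [FreeGroup.isReduced_cons_cons]
          refine ⟨fun h => ?_, hy⟩
          have h3 : x.2 ≠ y.2 := fun h4 => hxy (Prod.ext h h4)
          revert h3
          change x.2 ≠ y.2 → (!x.2) = y.2
          cases x.2 <;> cases y.2 <;> simp
        rw [FreeGroup.inv_mk, FreeGroup.mul_mk, FreeGroup.norm, FreeGroup.toWord_mk,
          hred.reduce_eq]
        simp only [dg0_cpl, if_neg hxy, List.length_append, FreeGroup.invRev_length]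
        omega

lemma dg0_norm' (a b : FreeGroup (Fin n)) :
    (a⁻¹ * b).norm + 2 * dg0_cpl a.toWord b.toWord = a.norm + b.norm := by
  have h := dg0_norm a.toWord b.toWord FreeGroup.isReduced_toWord FreeGroup.isReduced_toWord
  rwa [FreeGroup.mk_toWord, FreeGroup.mk_toWord] at h

/-- Four point condition for the word metric of a free group.

Proof (one possibility).  Let `cp a b` be the length of the longest common prefix of the reduced
words of `a` and `b`.  Then `norm (a⁻¹ * b) = norm a + norm b - 2 * cp a b` and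
`cp a c ≥ min (cp a b) (cp b c)` (for any lists).  By left invariance assume `x = 1` (multiply all
points by `x⁻¹`); then the inequality
`|y| + |z⁻¹ w| ≤ max (|z| + |y⁻¹ w|) (|w| + |y⁻¹ z|)` is `cp z w ≥ min (cp y w) (cp y z)`.  -/
theorem norm_four (x y z w : FreeGroup (Fin n)) :
    (x⁻¹ * y).norm + (z⁻¹ * w).norm ≤
      max ((x⁻¹ * z).norm + (y⁻¹ * w).norm) ((x⁻¹ * w).norm + (y⁻¹ * z).norm) := by
  have key : ∀ a b c : FreeGroup (Fin n),
      a.norm + (b⁻¹ * c).norm ≤ max (b.norm + (a⁻¹ * c).norm) (c.norm + (a⁻¹ * b).norm) := by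
    intro a b c
    have h1 := dg0_norm' b c
    have h2 := dg0_norm' a c
    have h3 := dg0_norm' a b
    have h4 := dg0_cpl_min b.toWord a.toWord c.toWord
    rw [dg0_cpl_comm b.toWord a.toWord] at h4
    omega
  have h := key (x⁻¹ * y) (x⁻¹ * z) (x⁻¹ * w)
  have e1 : (x⁻¹ * z)⁻¹ * (x⁻¹ * w) = z⁻¹ * w := by group
  have e2 : (x⁻¹ * y)⁻¹ * (x⁻¹ * w) = y⁻¹ * w := by group
  have e3 : (x⁻¹ * y)⁻¹ * (x⁻¹ * z) = y⁻¹ * z := by group
  rwa [e1, e2, e3] at h

lemma dg0_eq (g : MulAut (FreeGroup (Fin n))) (a b : FreeGroup (Fin n)) :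
    dg g a b = ((g⁻¹ a)⁻¹ * g⁻¹ b).norm := by
  rw [dg, map_mul, map_inv]

lemma dg0_fin (ρ : ℕ) : {w : FreeGroup (Fin n) | w.norm ≤ ρ}.Finite := by
  have h := (List.finite_length_le (Fin n × Bool) ρ).preimage
    (f := (FreeGroup.toWord : FreeGroup (Fin n) → List (Fin n × Bool)))
    (FreeGroup.toWord_injective.injOn)
  exact h

/-- `dg g` is a left invariant locally finite tree metric.

Proof.  `dg g a b = norm ((g⁻¹ a)⁻¹ * (g⁻¹ b))`, so everything follows from the case `g = 1`
(composition with the automorphism `g⁻¹`).  `four` is `norm_four`; `step`: take the first letter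
of the reduced word of `a⁻¹ b`; `par`: the parity of `norm` is a homomorphism to `ℤ/2` (the
lift of the constant map `1`), so `norm (a⁻¹ b)` and `norm (a⁻¹ c)` have different parities;
`fin`: there are finitely many words of length `≤ ρ` in a finite alphabet. -/
theorem dg_ltm (g : MulAut (FreeGroup (Fin n))) : LTM (dg g) where
  self a := by
    rw [dg, inv_mul_cancel, map_one, FreeGroup.norm_one]
  eq0 a b h := by
    rw [dg, FreeGroup.norm_eq_zero] at h
    have h1 : a⁻¹ * b = 1 := by
      apply (g⁻¹ : MulAut (FreeGroup (Fin n))).injective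
      rw [h, map_one]
    exact inv_mul_eq_one.1 h1
  symm a b := by
    rw [dg, dg, ← FreeGroup.norm_inv_eq, ← map_inv, mul_inv_rev, inv_inv]
  tri a b c := by
    have h := FreeGroup.norm_mul_le (g⁻¹ (a⁻¹ * b)) (g⁻¹ (b⁻¹ * c))
    rw [← map_mul] at h
    have e : a⁻¹ * b * (b⁻¹ * c) = a⁻¹ * c := by group
    rw [e] at h
    exact h
  four x y z w := by
    simp only [dg0_eq]
    exact norm_four _ _ _ _
  step a b k h := by
    rcases hw : (g⁻¹ (a⁻¹ * b)).toWord with _ | ⟨l, L⟩
    · rw [dg, FreeGroup.norm, hw] at h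
      simp at h
    · have hred : FreeGroup.IsReduced (l :: L) := by
        rw [← hw]
        exact FreeGroup.isReduced_toWord
      have hL : FreeGroup.IsReduced L := hred.tail
      have hlen : L.length = k := by
        rw [dg, FreeGroup.norm, hw] at h
        simpa using h
      refine ⟨a * g (FreeGroup.mk [l]), ?_, ?_⟩
      · rw [dg, inv_mul_cancel_left, MulAut.inv_apply_self, FreeGroup.norm, FreeGroup.toWord_mk,
          FreeGroup.IsReduced.singleton.reduce_eq]
        rfl
      · have h1 : (a * g (FreeGroup.mk [l]))⁻¹ * b = (g (FreeGroup.mk [l]))⁻¹ * (a⁻¹ * b) := by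
          group
        have h2 : g⁻¹ (a⁻¹ * b) = FreeGroup.mk [l] * FreeGroup.mk L := by
          rw [FreeGroup.mul_mk, ← FreeGroup.mk_toWord (x := g⁻¹ (a⁻¹ * b)), hw]
          rfl
        rw [dg, h1, map_mul, map_inv, MulAut.inv_apply_self, h2, inv_mul_cancel_left,
          FreeGroup.norm, FreeGroup.toWord_mk, hL.reduce_eq, hlen]
  par a b c h := by
    rw [dg0_eq] at h ⊢
    rw [dg0_eq]
    have h1 := dg0_norm' (g⁻¹ b) (g⁻¹ c)
    have h2 := dg0_norm' (g⁻¹ a) (g⁻¹ b)
    have h3 := dg0_norm' (g⁻¹ a) (g⁻¹ c)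
    omega
  inv c a b := by
    rw [dg, dg]
    congr 2
    group
  fin ρ := by
    have h := (dg0_fin (n := n) ρ).preimage
      (f := fun b : FreeGroup (Fin n) => g⁻¹ b) ((g⁻¹ : MulAut _).injective.injOn)
    refine h.subset fun b hb => ?_
    change dg g 1 b ≤ ρ at hb
    change (g⁻¹ b).norm ≤ ρ
    rw [dg, inv_one, one_mul] at hb
    exact hb

/-- words of length at most `ρ` -/
noncomputable def beta (n ρ : ℕ) : ℕ := Set.ncard {b : FreeGroup (Fin n) | b.norm ≤ ρ}

/-- all balls of radius `ρ` have `beta n ρ` elements (`g` maps the ball of `dg 1` about `1` to the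
ball of `dg g` about `1`; then `LTM.ball_card`) -/
theorem dg_ball_card (g : MulAut (FreeGroup (Fin n))) (a : FreeGroup (Fin n)) (ρ : ℕ) :
    Set.ncard {b | dg g a b ≤ ρ} = beta n ρ := by
  rw [(dg_ltm g).ball_card a ρ, beta]
  have h : {b | dg g 1 b ≤ ρ} = g '' {b : FreeGroup (Fin n) | b.norm ≤ ρ} := by
    ext x
    constructor
    · intro hx
      change dg g 1 x ≤ ρ at hx
      rw [dg, inv_one, one_mul] at hx
      exact ⟨g⁻¹ x, hx, MulAut.apply_inv_self _ _ x⟩
    · rintro ⟨y, hy, rfl⟩
      change dg g 1 (g y) ≤ ρ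
      rw [dg, inv_one, one_mul, MulAut.inv_apply_self]
      exact hy
  rw [h]
  exact Set.ncard_image_of_injective _ g.injective

end Pool.Agent.H.MP_e5d137_al.UB
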