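import Pool.Agent.H.MP_e5d137_al.UB.Bas0
import Pool.Agent.H.MP_e5d137_al.UB.Dg0

/-!
# Left invariant trees on the free group of rank `n`
-/

namespace Pool.Agent.H.MP_e5d137_al.UB

open SimpleGraph

theorem bas_norm_one {n : ℕ} (w : FreeGroup (Fin n)) :
    w.norm = 1 ↔ ∃ i, w = FreeGroup.of i ∨ w = (FreeGroup.of i)⁻¹ := by
  constructor
  · intro h
    unfold FreeGroup.norm at h
    obtain ⟨⟨i, c⟩, hi⟩ := List.length_eq_one_iff.1 h
    refine ⟨i, ?_⟩
    have hw : w = FreeGroup.mk [(i, c)] := by rw [← hi, FreeGroup.mk_toWord]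
    cases c
    · right
      rw [hw]
      rfl
    · left
      rw [hw]
      rfl
  · rintro ⟨i, rfl | rfl⟩
    · exact FreeGroup.norm_of i
    · rw [FreeGroup.norm_inv_eq]
      exact FreeGroup.norm_of i

/-- The case of the free group of rank `n`.

Proof.  Free groups have no elements of order two (Mathlib: `FreeGroup` is torsion free,
`FreeGroup.instIsMulTorsionFree` or similar; or use `norm (s * s)`).  Take `P`, `e` from
`tree_free`.  Then `FreeGroup P ≃* FreeGroup (Fin n)`, so `Equiv.ofFreeGroupEquiv` gives a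
bijection `ε : Fin n ≃ P`.  Let `g = (FreeGroup.freeGroupCongr ε).trans e`, an automorphism of
`FreeGroup (Fin n)` with `g (of i) = ε i`.  Then `Δ.Adj a b ↔ Δ.Adj 1 (a⁻¹ * b)` (left
invariance) `↔ a⁻¹ * b ∈ P ∨ (a⁻¹ * b)⁻¹ ∈ P ↔ ∃ i, g⁻¹ (a⁻¹ * b) = of i ∨
g⁻¹ (a⁻¹ * b) = (of i)⁻¹ ↔ norm (g⁻¹ (a⁻¹ * b)) = 1` (elements of norm `1` have a reduced word
with one letter). -/
theorem basis_of_tree {n : ℕ} (Δ : SimpleGraph (FreeGroup (Fin n))) (ht : Δ.IsTree)
    (hinv : ∀ u a b : FreeGroup (Fin n), Δ.Adj a b → Δ.Adj (u * a) (u * b)) :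
    ∃ g : MulAut (FreeGroup (Fin n)), ∀ a b, Δ.Adj a b ↔ dg g a b = 1 := by
  have h2 : ∀ s : FreeGroup (Fin n), s * s = 1 → s = 1 := by
    intro s hs
    have h3 : s ^ 2 = 1 ^ 2 := by rw [sq, one_pow]; exact hs
    exact pow_left_injective (by norm_num) h3
  obtain ⟨P, e, he, hadj⟩ := tree_free h2 Δ ht hinv
  let ε : Fin n ≃ P := Equiv.ofFreeGroupEquiv e.symm
  let g : MulAut (FreeGroup (Fin n)) := (FreeGroup.freeGroupCongr ε).trans e
  have hg : ∀ i, g (FreeGroup.of i) = (ε i : FreeGroup (Fin n)) := by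
    intro i
    show e (FreeGroup.freeGroupCongr ε (FreeGroup.of i)) = _
    rw [FreeGroup.freeGroupCongr_apply, FreeGroup.map.of, he]
  refine ⟨g, fun a b => ?_⟩
  have h4 : Δ.Adj a b ↔ Δ.Adj 1 (a⁻¹ * b) := by
    constructor
    · intro h
      have := hinv a⁻¹ a b h
      rwa [inv_mul_cancel] at this
    · intro h
      have := hinv a 1 (a⁻¹ * b) h
      rwa [mul_one, mul_inv_cancel_left] at this
  rw [h4, hadj]
  unfold dg
  rw [bas_norm_one]
  have h5 : ∀ x w : FreeGroup (Fin n), g⁻¹ x = w ↔ x = g w := by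
    intro x w
    show g.symm x = w ↔ x = g w
    rw [MulEquiv.symm_apply_eq]
  constructor
  · rintro (h | h)
    · refine ⟨ε.symm ⟨_, h⟩, Or.inl ?_⟩
      rw [h5, hg, Equiv.apply_symm_apply]
    · refine ⟨ε.symm ⟨_, h⟩, Or.inr ?_⟩
      rw [h5, map_inv, hg, Equiv.apply_symm_apply, inv_inv]
  · rintro ⟨i, h | h⟩
    · left
      rw [h5, hg] at h
      rw [h]
      exact (ε i).2
    · right
      rw [h5, map_inv, hg] at h
      rw [h, inv_inv]
      exact (ε i).2

end Pool.Agent.H.MP_e5d137_al.UB
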