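import Pool.Agent.H.MP_e5d137_al.UB.Col
import Pool.Agent.H.MP_e5d137_al.UB.Bas

/-!
# Positions: automorphisms adapted to an object
-/

namespace Pool.Agent.H.MP_e5d137_al.UB

open SimpleGraph

variable {n : ℕ}

/-- the basis `g (x_1), ..., g (x_n)` is given by collapsing a maximal forest of `S` -/
structure Adp (S : Ob (FreeGroup (Fin n))) (g : MulAut (FreeGroup (Fin n)))
    (c : S.V → FreeGroup (Fin n)) : Prop where
  eqv : ∀ (u : FreeGroup (Fin n)) x, c (u • x) = u * c x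
  base : c S.b = 1
  conn : ∀ x y, c x = c y → ∃ w : S.T.Walk x y, ∀ z ∈ w.support, c z = c x
  adj : ∀ x y, S.T.Adj x y → c x = c y ∨ dg g (c x) (c y) = 1
  edge : ∀ a a', dg g a a' = 1 → ∃ x y, S.T.Adj x y ∧ c x = a ∧ c y = a' ∧
    ∀ x' y', S.T.Adj x' y' → c x' = a → c y' = a' → x' = x ∧ y' = y

/-- every object has an adapted automorphism -/
theorem exists_adp (S : Ob (FreeGroup (Fin n))) : ∃ g c, Adp S g c := by
  obtain ⟨c, hc⟩ := exists_coll S
  obtain ⟨g, hg⟩ := basis_of_tree (colG S c) (colG_tree S c hc)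
    (fun u a b h => colG_inv S c hc u a b h)
  refine ⟨g, c, hc.eqv, hc.base, hc.conn, fun x y h => ?_, fun a a' h => ?_⟩
  · by_cases h1 : c x = c y
    · exact Or.inl h1
    · exact Or.inr ((hg _ _).1 ⟨h1, x, y, h, rfl, rfl⟩)
  · obtain ⟨h1, x, y, h2, h3, h4⟩ := (hg _ _).2 h
    exact ⟨x, y, h2, h3, h4, fun x' y' h5 h6 h7 => colG_unique S c hc h1 h2 h3 h4 h5 h6 h7⟩

/-- the chosen position of an object -/
noncomputable def pos (S : Ob (FreeGroup (Fin n))) : MulAut (FreeGroup (Fin n)) :=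
  Classical.choose (exists_adp S)

theorem pos_adp (S : Ob (FreeGroup (Fin n))) : ∃ c, Adp S (pos S) c :=
  Classical.choose_spec (exists_adp S)

end Pool.Agent.H.MP_e5d137_al.UB
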