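import Pool.Agent.H.MP_e5d137_al.UB.Adp

/-!
# Positions of equivalent objects are close
-/

namespace Pool.Agent.H.MP_e5d137_al.UB

open SimpleGraph

variable {n : ℕ}

/-- a walk from a point with `P` to a point without `P` has a dart leaving `P` -/
lemma walk_dart {V : Type*} {G : SimpleGraph V} (P : V → Prop) {x y : V} (w : G.Walk x y)
    (hx : P x) (hy : ¬ P y) : ∃ e e', G.Adj e e' ∧ e ∈ w.support ∧ P e ∧ ¬ P e' := by
  induction w with
  | nil => exact absurd hx hy
  | cons hadj w ih =>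
    rename_i x y z
    by_cases h : P y
    · obtain ⟨e, e', h1, h2, h3, h4⟩ := ih h hy
      exact ⟨e, e', h1, by simp [h2], h3, h4⟩
    · exact ⟨x, y, hadj, by simp, hx, h⟩

/-- the same for controlled connections -/
lemma cn_dart {F : Type} [Group F] {d : F → F → ℕ} {S : Ob F} (P : S.V → Prop) {p : F} {ρ : ℕ}
    {x y : S.V} (h : Cn d S p ρ x y) (hx : P x) (hy : ¬ P y) :
    ∃ e e', S.T.Adj e e' ∧ P e ∧ ¬ P e' ∧ Cn d S p ρ x e := by
  obtain ⟨w, hw⟩ := h
  induction w with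
  | nil => exact absurd hx hy
  | cons hadj w ih =>
    rename_i x y z
    have hwx : d p (S.f x) ≤ ρ := hw x (by simp)
    by_cases h : P y
    · obtain ⟨e, e', h1, h2, h3, h4⟩ := ih h hy (fun t ht => hw t (by simp [ht]))
      exact ⟨e, e', h1, h2, h3, (Cn.of_adj hadj hwx h4.left).trans h4⟩
    · exact ⟨x, y, hadj, hx, h, Cn.refl hwx⟩

/-- elements of norm one -/
lemma norm_one_letter {a : FreeGroup (Fin n)} (h : a.norm = 1) :
    ∃ τ : Fin n × Bool, a = FreeGroup.mk [τ] := by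
  have h1 : a.toWord.length = 1 := h
  obtain ⟨τ, hτ⟩ := List.length_eq_one_iff.1 h1
  exact ⟨τ, by rw [← hτ, FreeGroup.mk_toWord]⟩

lemma norm_letter (τ : Fin n × Bool) : (FreeGroup.mk [τ] : FreeGroup (Fin n)).norm = 1 := by
  unfold FreeGroup.norm
  rw [FreeGroup.toWord_mk]
  simp

/-- the edges of the tree of `g` at `w` -/
lemma dg_one_letter {g : MulAut (FreeGroup (Fin n))} {w w' : FreeGroup (Fin n)}
    (h : dg g w w' = 1) : ∃ τ : Fin n × Bool, w' = w * g (FreeGroup.mk [τ]) := by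
  obtain ⟨τ, hτ⟩ := norm_one_letter h
  refine ⟨τ, ?_⟩
  rw [← hτ]
  show w' = w * (g * g⁻¹) (w⁻¹ * w')
  rw [mul_inv_cancel]
  show w' = w * (w⁻¹ * w')
  group

lemma dg_letter (g : MulAut (FreeGroup (Fin n))) (w : FreeGroup (Fin n)) (τ : Fin n × Bool) :
    dg g w (w * g (FreeGroup.mk [τ])) = 1 := by
  unfold dg
  rw [inv_mul_cancel_left]
  show ((g⁻¹ * g) (FreeGroup.mk [τ])).norm = 1
  rw [inv_mul_cancel]
  exact norm_letter τ

/-- the start of the edge over `(1, g (x_τ))`, and the edges over `(w, w')` -/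
lemma adp_start {S : Ob (FreeGroup (Fin n))} {g : MulAut (FreeGroup (Fin n))}
    {c : S.V → FreeGroup (Fin n)} (hc : Adp S g c) :
    ∃ z : Fin n × Bool → S.V, (∀ τ, c (z τ) = 1) ∧ ∀ x y, S.T.Adj x y → c x ≠ c y →
      ∃ τ, x = c x • z τ := by
  have h1 : ∀ τ : Fin n × Bool, ∃ x y, S.T.Adj x y ∧ c x = 1 ∧ c y = 1 * g (FreeGroup.mk [τ]) ∧
      ∀ x' y', S.T.Adj x' y' → c x' = 1 → c y' = 1 * g (FreeGroup.mk [τ]) → x' = x ∧ y' = y :=
    fun τ => hc.edge _ _ (dg_letter g 1 τ)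
  choose z z' hz1 hz2 hz3 hz4 using h1
  refine ⟨z, hz2, fun x y hxy hne => ?_⟩
  have h2 : dg g (c x) (c y) = 1 := (hc.adj x y hxy).resolve_left hne
  obtain ⟨τ, hτ⟩ := dg_one_letter h2
  refine ⟨τ, ?_⟩
  have h3 := hz4 τ ((c x)⁻¹ • x) ((c x)⁻¹ • y) (S.inv _ _ _ hxy)
    (by rw [hc.eqv, inv_mul_cancel]) (by rw [hc.eqv, hτ, one_mul, inv_mul_cancel_left])
  rw [← h3.1, smul_inv_smul]

/-- the only pair at distance one separated by the edge `(w, w')` -/
lemma sep_unique {F : Type} [Group F] {d : F → F → ℕ} (hd : LTM d) {w w' a a' : F}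
    (hw : d w w' = 1) (ha : d a w < d a w') (ha' : ¬ d a' w < d a' w') (h : d a a' = 1) :
    a = w ∧ a' = w' := by
  have h1 := hd.adj_cases (a := a) hw
  have h2 := hd.adj_cases (a := a') hw
  have h3 := hd.tri a a' w'
  have h4 := hd.tri a' a w
  have h5 := hd.symm a' a
  have h6 := hd.four a w' a' w
  have h7 := hd.symm w' w
  have h8 := hd.symm w' a'
  have h9 : d a w = 0 ∧ d a' w' = 0 := by
    rcases le_total (d a a' + d w' w) (d a w + d w' a') with h10 | h10
    · rw [max_eq_right h10] at h6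
      omega
    · rw [max_eq_left h10] at h6
      omega
  exact ⟨hd.eq0 _ _ h9.1, hd.eq0 _ _ h9.2⟩

section Count

variable {h : MulAut (FreeGroup (Fin n))} {S S' : Ob (FreeGroup (Fin n))} {K : ℕ}

/-- step (2): the set `W_τ` is small -/
lemma ncard_W {φ : S.V → S'.V} {ψ : S'.V → S.V} (hψ : Ctl (dg h) S' S K ψ)
    (h3 : ∀ x, Cn (dg h) S (S.f x) K (ψ (φ x)) x)
    {g : MulAut (FreeGroup (Fin n))} {c : S.V → FreeGroup (Fin n)} (hc : Adp S g c)
    (z : S'.V) :
    {w : FreeGroup (Fin n) | ∃ x, c x = 1 ∧ Cn (dg h) S' (S.f x) K (φ x) (w • z)}.Finite ∧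
    {w : FreeGroup (Fin n) | ∃ x, c x = 1 ∧ Cn (dg h) S' (S.f x) K (φ x) (w • z)}.ncard ≤
      1 + 2 * n * beta n (3 * K) := by
  classical
  have hd := dg_ltm h
  obtain ⟨e, he1, he2⟩ := adp_start hc
  set W := {w : FreeGroup (Fin n) | ∃ x, c x = 1 ∧ Cn (dg h) S' (S.f x) K (φ x) (w • z)} with hW
  let B : Fin n × Bool → Set (FreeGroup (Fin n)) :=
    fun s => {w | dg h (S.f (e s)) (w * S'.f z) ≤ 3 * K}
  have hBeq : ∀ s, B s = (fun x => x * (S'.f z)⁻¹) '' {b | dg h (S.f (e s)) b ≤ 3 * K} := by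
    intro s
    ext w
    simp only [B, Set.mem_setOf_eq, Set.mem_image]
    constructor
    · intro hw
      exact ⟨w * S'.f z, hw, by group⟩
    · rintro ⟨b, hb, rfl⟩
      simpa using hb
  have hBfin : ∀ s, (B s).Finite := fun s => by
    rw [hBeq]
    exact (hd.ball_finite _ _).image _
  have hBcard : ∀ s, (B s).ncard = beta n (3 * K) := fun s => by
    rw [hBeq, Set.ncard_image_of_injective _ (mul_left_injective _), dg_ball_card]
  rcases W.eq_empty_or_nonempty with hE | ⟨w₀, x₀, hx₀, hw₀⟩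
  · rw [hE]
    simp
  -- the main inclusion
  have key : ∀ w ∈ W, w ≠ w₀ → ∃ s, w ∈ B s := by
    rintro w ⟨x, hx, hw⟩ hne
    have a1 : ∀ (v : FreeGroup (Fin n)) (y : S.V), Cn (dg h) S' (S.f y) K (φ y) (v • z) →
        Cn (dg h) S (S.f y) (2 * K) y (v • ψ z) := by
      intro v y hv
      have b1 := hv.push hd hψ
      rw [hψ.eqv] at b1
      exact (((h3 y).symm.mono (by omega)).trans (b1.mono (by omega)))
    have b1 := a1 w x hw
    have b2 := (a1 w₀ x₀ hw₀).smul hd (w * w₀⁻¹)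
    have b3 : (w * w₀⁻¹) • w₀ • ψ z = w • ψ z := by
      rw [← mul_smul, inv_mul_cancel_right]
    rw [b3] at b2
    have d1 : dg h (S.f x) (w * S'.f z) ≤ K := by
      have := hw.right
      rwa [S'.f_smul] at this
    have d2 : dg h (w * w₀⁻¹ * S.f x₀) (w * S'.f z) ≤ K := by
      have h5 := hw₀.right
      rw [S'.f_smul, ← hd.inv (w * w₀⁻¹)] at h5
      have h6 : w * w₀⁻¹ * (w₀ * S'.f z) = w * S'.f z := by group
      rwa [h6] at h5
    -- a dart leaving the fibre over `1`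
    have key2 : ∀ (p : FreeGroup (Fin n)) (y y' : S.V), c y = 1 → c y' ≠ 1 →
        dg h p (w * S'.f z) ≤ K → Cn (dg h) S p (2 * K) y y' → ∃ s, w ∈ B s := by
      intro p y y' hy hy' hp hcn
      obtain ⟨t, t', g1, g2, g3, g4⟩ := cn_dart (fun t => c t = 1) hcn hy hy'
      obtain ⟨s, hs⟩ := he2 t t' g1 (by rw [g2]; exact fun h => g3 h.symm)
      rw [g2, one_smul] at hs
      refine ⟨s, ?_⟩
      show dg h (S.f (e s)) (w * S'.f z) ≤ 3 * K
      rw [← hs]
      have g5 := g4.right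
      have g6 := hd.tri (S.f t) p (w * S'.f z)
      have g7 := hd.symm (S.f t) p
      omega
    by_cases hm : c (w • ψ z) = 1
    · refine key2 _ _ _ hm ?_ d2 b2.symm
      rw [hc.eqv, hx₀, mul_one]
      intro h0
      apply hne
      have : w * w₀⁻¹ * w₀ = 1 * w₀ := by rw [h0]
      simpa using this
    · exact key2 _ _ _ hx hm d1 b1
  have hsub : W ⊆ {w₀} ∪ ⋃ s ∈ (Finset.univ : Finset (Fin n × Bool)), B s := by
    intro w hw
    by_cases hne : w = w₀
    · exact Or.inl hne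
    · obtain ⟨s, hs⟩ := key w hw hne
      exact Or.inr (Set.mem_biUnion (Finset.mem_univ s) hs)
  have hfin : ({w₀} ∪ ⋃ s ∈ (Finset.univ : Finset (Fin n × Bool)), B s).Finite :=
    (Set.finite_singleton _).union (Set.Finite.biUnion (Finset.finite_toSet _) fun s _ => hBfin s)
  refine ⟨hfin.subset hsub, (Set.ncard_le_ncard hsub hfin).trans ?_⟩
  refine (Set.ncard_union_le _ _).trans ?_
  rw [Set.ncard_singleton]
  refine Nat.add_le_add_left ?_ 1
  refine (Finset.set_ncard_biUnion_le _ _).trans ?_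
  rw [Finset.sum_congr rfl (fun s _ => hBcard s), Finset.sum_const, Finset.card_univ,
    Fintype.card_prod, Fintype.card_fin, Fintype.card_bool, smul_eq_mul]
  exact le_of_eq (by ring)

end Count

/-- Positions of equivalent objects are close (one half).

Proof.  Let `d = dg h` (only `LTM d` and the size `β = ncard {b | d 1 b ≤ 3 * K}` of its balls are
used), `d' = dg g'` and `u = g (x_i)`; we have to show `d' 1 u ≤ 4 * n * (1 + 2 * n * β)`.  Let
`φ : S → S'`, `ψ : S' → S` be the maps of the equivalence.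
(1) Types.  Let `τ = (i, e)` run through the `2n` elements `x_i`, `x_i⁻¹`, and let
`z'_τ` be the start (the vertex over `1`) of the unique edge of `S'` over the edge
`(1, g' (x_i^e))` of the tree of `g'`.  Let
`W_τ = {w | ∃ x, c x = 1 ∧ Cn d S' (S.f x) K (φ x) (w • z'_τ)}`.
(2) `W_τ` has at most `1 + 2 * n * β` elements.  Fix `w₀ ∈ W_τ` with `x₀`; let `w ∈ W_τ`,
`w ≠ w₀`, with `x`.  Pushing with `ψ` and using `Cn d S (S.f x) K (ψ (φ x)) x` we get
`Cn d S (S.f x) (2 * K) x (w • ψ z'_τ)`, and similarly for `x₀`, `w₀`; translating by `w * w₀⁻¹`,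
`Cn d S (w * w₀⁻¹ * S.f x₀) (2 * K) (w • ψ z'_τ) ((w * w₀⁻¹) • x₀)`.  The composite walk goes from
`x` (`c x = 1`) to `(w * w₀⁻¹) • x₀` (with `c = w * w₀⁻¹ ≠ 1`), so it contains a dart `(e, e')` with
`c e = 1`, `c e' ≠ 1`; then `dg g 1 (c e') = 1`, so `c e' = g (x_j^±)` is one of at most `2n`
elements, and by uniqueness `e = e_s` is the start of the edge over `(1, g (x_j^±))`: one of at
most `2n` vertices.  Both centres are at distance at most `K` from `w * S'.f z'_τ` and at most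
`2 * K` from `S.f e` (one of them), hence `d (S.f e_s) (w * S'.f z'_τ) ≤ 3 * K`: for each `s` there
are at most `β` such `w`.
(3) Every vertex `w` of the geodesic from `1` to `u` in the tree of `g'`, except the last one, is in
`W_τ ∪ u W_τ` for some `τ`; there are `d' 1 u` such `w`, so
`d' 1 u ≤ 2 * (2 * n) * (1 + 2 * n * β)`.  Let `w'` be the next vertex and `A` the set of all `a`
with `d' a w < d' a w'`; then `1 ∈ A`, `u ∉ A`, and `(w, w')` is the only pair `(a, a')` with
`a ∈ A`, `a' ∉ A`, `d' a a' = 1` (tree metric: `through`, `geod_unique`, or the four point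
condition).  Take the edge `x, y` of `S` with `c x = 1`, `c y = u`, a walk from `b` to `x` in the
fibre over `1`, and one from `y` to `u • b` in the fibre over `u`.  Its image under `φ`, i.e. the
concatenation of the walks of `S'` from `φ a` to `φ a'` given by `Ctl.edge` for the edges `a, a'` of
this walk, is a walk of `S'` from `b'` to `u • b'`; `c'` maps its ends to `1 ∈ A` and `u ∉ A`, so it
contains a dart `(z', z'')` with `c' z' ∈ A`, `c' z'' ∉ A`, hence `c' z' = w`, `c' z'' = w'`, and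
by uniqueness `z' = w • z'_τ` for the type `τ` of `w⁻¹ w'`.  This dart is in the walk belonging to
an edge `a, a'` with `c a = 1` or `c a = u`, and it gives
`Cn d S' (S.f a) K (φ a) (w • z'_τ)`.  So `w ∈ W_τ` if `c a = 1`, and `u⁻¹ w ∈ W_τ` if
`c a = u` (translate by `u⁻¹`). -/
theorem adp_close {h : MulAut (FreeGroup (Fin n))} {S S' : Ob (FreeGroup (Fin n))} {K : ℕ}
    (hK : Eqv (dg h) S S' K) {g g' : MulAut (FreeGroup (Fin n))}
    {c : S.V → FreeGroup (Fin n)} {c' : S'.V → FreeGroup (Fin n)}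
    (hc : Adp S g c) (hc' : Adp S' g' c') (i : Fin n) :
    ((g'⁻¹ * g) (FreeGroup.of i)).norm ≤ 4 * n * (1 + 2 * n * beta n (3 * K)) := by
  classical
  obtain ⟨φ, ψ, hφ, hψ, h3, -⟩ := hK
  have hd := dg_ltm h
  have hd' := dg_ltm g'
  obtain ⟨z, hz1, hz2⟩ := adp_start hc'
  obtain ⟨u, hu⟩ : ∃ u, u = g (FreeGroup.of i) := ⟨_, rfl⟩
  let W : Fin n × Bool → Set (FreeGroup (Fin n)) :=
    fun τ => {w | ∃ x, c x = 1 ∧ Cn (dg h) S' (S.f x) K (φ x) (w • z τ)}
  have hW : ∀ τ, (W τ).Finite ∧ (W τ).ncard ≤ 1 + 2 * n * beta n (3 * K) :=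
    fun τ => ncard_W hψ h3 hc (z τ)
  have hD : ((g'⁻¹ * g) (FreeGroup.of i)).norm = dg g' 1 u := by
    unfold dg
    rw [inv_one, one_mul, hu]
    rfl
  rw [hD]
  -- the edge of `S` over `(1, u)`
  have hgu : dg g 1 u = 1 := by
    have h1 := dg_letter g 1 (i, true)
    rw [one_mul] at h1
    rw [hu]
    exact h1
  obtain ⟨x, y, hxy, hx, hy, -⟩ := hc.edge 1 u hgu
  obtain ⟨p, hp⟩ := hc.conn S.b x (by rw [hc.base, hx])
  obtain ⟨q, hq⟩ := hc.conn y (u • S.b) (by rw [hy, hc.eqv, hc.base, mul_one])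
  have hsupp : ∀ t ∈ (p.append (Walk.cons hxy q)).support, c t = 1 ∨ c t = u := by
    intro t ht
    rw [Walk.mem_support_append_iff, Walk.support_cons, List.mem_cons] at ht
    rcases ht with h1 | h1 | h1
    · left
      rw [hp t h1, hc.base]
    · left
      rw [h1, hx]
    · right
      rw [hq t h1, hy]
  have key : ∀ k, k < dg g' 1 u → ∃ w, dg g' 1 w = k ∧ ∃ τ, w ∈ W τ ∨ u⁻¹ * w ∈ W τ := by
    intro k hk
    obtain ⟨w, hw1, hw2⟩ := hd'.exists_between (a := 1) (b := u) (k := k) hk.le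
    obtain ⟨w', hw3, hw4⟩ := hd'.step w u (dg g' 1 u - k - 1) (by omega)
    refine ⟨w, hw1, ?_⟩
    have t1 := hd'.tri 1 w w'
    have t2 := hd'.tri 1 w' u
    have t3 := hd'.symm w u
    have t4 := hd'.symm w' u
    have hA1 : dg g' 1 w < dg g' 1 w' := by omega
    have hA2 : ¬ dg g' u w < dg g' u w' := by omega
    -- the image walk leaves the half tree
    obtain ⟨a, a', ha1, ha2, ha3, ha4⟩ := walk_dart
      (fun t => dg g' (c' (φ t)) w < dg g' (c' (φ t)) w') (p.append (Walk.cons hxy q))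
      (by
        show dg g' (c' (φ S.b)) w < dg g' (c' (φ S.b)) w'
        rw [hφ.base, hc'.base]
        exact hA1)
      (by
        show ¬ dg g' (c' (φ (u • S.b))) w < dg g' (c' (φ (u • S.b))) w'
        rw [hφ.eqv, hφ.base, hc'.eqv, hc'.base, mul_one]
        exact hA2)
    obtain ⟨e, e', he1, he2, he3, he4⟩ := cn_dart
      (fun t => dg g' (c' t) w < dg g' (c' t) w') (hφ.edge a a' ha1) ha3 ha4
    have hne : c' e ≠ c' e' := by
      intro h5
      apply he3
      show dg g' (c' e') w < dg g' (c' e') w'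
      rw [← h5]
      exact he2
    have h5 := (hc'.adj e e' he1).resolve_left hne
    obtain ⟨h6, -⟩ := sep_unique hd' hw3 he2 he3 h5
    obtain ⟨τ, hτ⟩ := hz2 e e' he1 hne
    rw [h6] at hτ
    rw [hτ] at he4
    refine ⟨τ, ?_⟩
    rcases hsupp a ha2 with h7 | h7
    · exact Or.inl ⟨a, h7, he4⟩
    · refine Or.inr ⟨u⁻¹ • a, by rw [hc.eqv, h7, inv_mul_cancel], ?_⟩
      have h8 := he4.smul hd u⁻¹
      rw [S.f_smul, hφ.eqv, mul_smul]
      exact h8
  choose! wf hwf1 hwf2 using key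
  -- counting
  have hinj : Set.InjOn wf (Finset.range (dg g' 1 u) : Set ℕ) := by
    intro k hk l hl hkl
    have h1 := hwf1 k (by simpa using hk)
    have h2 := hwf1 l (by simpa using hl)
    rw [← h1, ← h2, hkl]
  have hsub : wf '' (Finset.range (dg g' 1 u) : Set ℕ) ⊆
      ⋃ τ ∈ (Finset.univ : Finset (Fin n × Bool)), (W τ ∪ (fun w => u * w) '' W τ) := by
    rintro _ ⟨k, hk, rfl⟩
    obtain ⟨τ, hτ⟩ := hwf2 k (by simpa using hk)
    refine Set.mem_biUnion (Finset.mem_univ τ) ?_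
    rcases hτ with hτ | hτ
    · exact Or.inl hτ
    · exact Or.inr ⟨_, hτ, mul_inv_cancel_left _ _⟩
  have hfin : (⋃ τ ∈ (Finset.univ : Finset (Fin n × Bool)),
      (W τ ∪ (fun w => u * w) '' W τ)).Finite :=
    Set.Finite.biUnion (Finset.finite_toSet _) fun τ _ => (hW τ).1.union ((hW τ).1.image _)
  have h1 := Set.ncard_le_ncard hsub hfin
  rw [Set.ncard_image_of_injOn hinj, Set.ncard_coe_finset, Finset.card_range] at h1
  refine h1.trans ((Finset.set_ncard_biUnion_le _ _).trans ?_)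
  have h2 : ∀ τ ∈ (Finset.univ : Finset (Fin n × Bool)),
      (W τ ∪ (fun w => u * w) '' W τ).ncard ≤ 2 * (1 + 2 * n * beta n (3 * K)) := by
    intro τ _
    refine (Set.ncard_union_le _ _).trans ?_
    rw [Set.ncard_image_of_injective _ (mul_right_injective u)]
    have := (hW τ).2
    omega
  refine (Finset.sum_le_sum h2).trans ?_
  rw [Finset.sum_const, Finset.card_univ, Fintype.card_prod, Fintype.card_fin, Fintype.card_bool,
    smul_eq_mul]
  exact le_of_eq (by ring)

end Pool.Agent.H.MP_e5d137_al.UB
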