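import Pool.Agent.H.MP_e5d137_al.UB.Adp

/-!
# Sizes of positions
-/

namespace Pool.Agent.H.MP_e5d137_al.UB

open SimpleGraph

variable {n : ℕ}

lemma adpL_walk {S : Ob (FreeGroup (Fin n))} {g : MulAut (FreeGroup (Fin n))}
    {c : S.V → FreeGroup (Fin n)} (hc : Adp S g c) {x y : S.V} (w : S.T.Walk x y) :
    dg g (c x) (c y) ≤ w.length := by
  induction w with
  | nil => rw [(dg_ltm g).self]; exact Nat.zero_le _
  | cons hadj w ih =>
    rename_i x y z
    rw [Walk.length_cons]
    have h1 := (dg_ltm g).tri (c x) (c y) (c z)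
    rcases hc.adj x y hadj with h | h
    · rw [h]; omega
    · omega

/-- Sizes of adapted automorphisms (first half): if `b` and `x_i • b` are joined by a walk of
length at most `ℓ` in `S` then `|g⁻¹ (x_i)| ≤ ℓ`: the image of the walk under `c` goes from `1` to
`x_i` in steps of `dg g`-length at most one, and `dg g 1 x_i = |g⁻¹ (x_i)|`. -/
theorem adp_len {S : Ob (FreeGroup (Fin n))} {g : MulAut (FreeGroup (Fin n))}
    {c : S.V → FreeGroup (Fin n)} (hc : Adp S g c) {ℓ : ℕ}
    (hℓ : Len S (Set.range FreeGroup.of) ℓ) (i : Fin n) :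
    (g⁻¹ (FreeGroup.of i)).norm ≤ ℓ := by
  obtain ⟨w, hw⟩ := hℓ (FreeGroup.of i) ⟨i, rfl⟩
  have h1 := adpL_walk hc w
  rw [hc.eqv, hc.base, mul_one] at h1
  have h2 : dg g 1 (FreeGroup.of i) = (g⁻¹ (FreeGroup.of i)).norm := by
    unfold dg
    rw [inv_one, one_mul]
  rw [h2] at h1
  exact h1.trans hw

lemma adpL_fine {S : Ob (FreeGroup (Fin n))} {h : MulAut (FreeGroup (Fin n))} {r : ℕ}
    (hr : Fine (dg h) S r) {x y : S.V} (w : S.T.Walk x y) :
    dg h (S.f x) (S.f y) ≤ r * w.length := by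
  induction w with
  | nil => rw [(dg_ltm h).self]; exact Nat.zero_le _
  | cons hadj w ih =>
    rename_i x y z
    rw [Walk.length_cons, mul_add, mul_one]
    have h1 := (dg_ltm h).tri (S.f x) (S.f y) (S.f z)
    have h2 := hr x y hadj
    omega

lemma adpL_fibre {h : MulAut (FreeGroup (Fin n))} {S : Ob (FreeGroup (Fin n))}
    {g : MulAut (FreeGroup (Fin n))} {c : S.V → FreeGroup (Fin n)} (hc : Adp S g c) {r ν : ℕ}
    (hr : Fine (dg h) S r) (hν : Orb S ν) {x : S.V} (hx : c x = 1) :
    dg h 1 (S.f x) + r ≤ r * ν := by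
  classical
  obtain ⟨Q, hQ, hrep⟩ := hν
  choose u q hqQ hxu using hrep
  obtain ⟨w, hw⟩ := hc.conn S.b x (by rw [hc.base, hx])
  have hp : (w.bypass).IsPath := w.bypass_isPath
  have hs : ∀ z ∈ w.bypass.support, c z = 1 := by
    intro z hz
    rw [hw z (w.support_bypass_subset_support hz), hc.base]
  have hcard : w.bypass.support.toFinset.card ≤ Q.card := by
    refine Finset.card_le_card_of_injOn q (fun z _ => hqQ z) ?_
    intro z hz z' hz' hzz
    rw [Finset.mem_coe, List.mem_toFinset] at hz hz'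
    have h1 := hs z hz
    have h2 := hs z' hz'
    have h3 : z' = (u z' * (u z)⁻¹) • z := by
      have h31 : (u z)⁻¹ • z = q z := by
        have h32 := hxu z
        calc (u z)⁻¹ • z = (u z)⁻¹ • (u z • q z) := by rw [← h32]
          _ = q z := inv_smul_smul _ _
      rw [mul_smul, h31, hzz]
      exact hxu z'
    rw [h3, hc.eqv, h1, mul_one] at h2
    rw [h3, h2, one_smul]
  rw [List.toFinset_card_of_nodup hp.support_nodup, Walk.length_support] at hcard
  have h4 := adpL_fine hr w.bypass
  rw [S.f_b] at h4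
  have h5 : r * (w.bypass.length + 1) ≤ r * ν := Nat.mul_le_mul_left r (hcard.trans hQ)
  rw [mul_add, mul_one] at h5
  omega

/-- Sizes of adapted automorphisms (second half).

Proof.  The fibre of `c` over `1` has at most `ν` elements: if `x` and `u • x` are both in it then
`u = 1`, so distinct elements of the fibre are in distinct orbits (map the fibre injectively to the
finset `Q` of orbit representatives).  Take the edge `x, y` of `S` over `(1, g (x_i))`.  The walk in
the fibre from `b` to `x` can be replaced by a path in the fibre (`exists_path_of_walk`), which has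
at most `ν` vertices, so its length is at most `ν - 1` and `d 1 (S.f x) ≤ r * (ν - 1)`.  Similarly
`(g (x_i))⁻¹ • y` is in the fibre over `1`, so `d (g x_i) (S.f y) ≤ r * (ν - 1)` by invariance, and
`d (S.f x) (S.f y) ≤ r`. -/
theorem adp_size {h : MulAut (FreeGroup (Fin n))} {S : Ob (FreeGroup (Fin n))}
    {g : MulAut (FreeGroup (Fin n))} {c : S.V → FreeGroup (Fin n)} (hc : Adp S g c) {r ν : ℕ}
    (hr : Fine (dg h) S r) (hν : Orb S ν) (i : Fin n) :
    dg h 1 (g (FreeGroup.of i)) ≤ 2 * r * ν := by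
  have h1 : dg g 1 (g (FreeGroup.of i)) = 1 := by
    unfold dg
    rw [inv_one, one_mul, MulAut.inv_apply_self, FreeGroup.norm_of]
  obtain ⟨x, y, hadj, hx, hy, _⟩ := hc.edge _ _ h1
  have h2 := adpL_fibre hc hr hν hx
  have hy' : c ((g (FreeGroup.of i))⁻¹ • y) = 1 := by
    rw [hc.eqv, hy, inv_mul_cancel]
  have h3 := adpL_fibre hc hr hν hy'
  have h4 : dg h 1 (S.f ((g (FreeGroup.of i))⁻¹ • y)) = dg h (g (FreeGroup.of i)) (S.f y) := by
    rw [S.f_smul, ← (dg_ltm h).inv (g (FreeGroup.of i)), mul_one, mul_inv_cancel_left]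
  rw [h4] at h3
  have h5 := hr x y hadj
  have h6 := (dg_ltm h).tri 1 (S.f x) (g (FreeGroup.of i))
  have h7 := (dg_ltm h).tri (S.f x) (S.f y) (g (FreeGroup.of i))
  have h8 := (dg_ltm h).symm (S.f y) (g (FreeGroup.of i))
  have h9 : 2 * r * ν = r * ν + r * ν := by ring
  omega

end Pool.Agent.H.MP_e5d137_al.UB
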