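import Pool.Agent.H.MP_e5d137_al.UB.Width

/-!
# The width inequality
-/

namespace Pool.Agent.H.MP_e5d137_al.UB

/-- The width inequality.

Proof.  Induction on `m` with `C (1) = 1`, `C (m+1) = 8^(m+1) * C m`.  `m = 1` is `width_one`.
Step: take `Z` from `width_step`, colour `Z` with `m` colours by the induction hypothesis applied
to `Z` and `ρ / 4`, and `V \ Z` (and everything else) with the new colour.  A monochromatic chain
of the new colour in `V` is a chain in `V \ Z`; a monochromatic chain of an old colour is a chain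
in `Z` monochromatic for the old colouring, and its ends have distance `≤ ρ / 4 ≤ ρ`. -/
theorem width (m : ℕ) (hm : 1 ≤ m) : ∃ C : ℕ, 1 ≤ C ∧ ∀ (α : Type) [DecidableEq α]
    (V : Finset α) (d : α → α → ℕ) (adj : α → α → Prop), (∀ a, d a a = 0) →
    (∀ a b, d a b = d b a) → (∀ a b c, d a c ≤ d a b + d b c) →
    (∀ a b, adj a b → d a b ≤ 1) → ∀ ρ : ℕ,
    (∀ v ∈ V, C * (V.filter (fun w => d v w ≤ ρ)).card ≤ ρ ^ m) →
    ∃ col : α → Fin m, ∀ x ∈ V, ∀ y, Joined V adj (fun a b => col a = col b) x y →
      d x y ≤ ρ := by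
  induction m, hm using Nat.le_induction with
  | base =>
    refine ⟨1, le_rfl, ?_⟩
    intro α _ V d adj h0 hsymm htri hadj ρ hb
    refine ⟨fun _ => 0, ?_⟩
    intro x hx y hxy
    refine width_one V d adj h0 htri hadj ρ ?_ x y hx ?_
    · intro v hv
      have := hb v hv
      simpa using this
    · unfold Joined at hxy ⊢
      induction hxy with
      | refl => exact Relation.ReflTransGen.refl
      | tail _ h ih' => exact ih'.tail ⟨h.1, h.2.1, h.2.2.1, trivial⟩
  | succ m hm ih =>
    obtain ⟨C, hC, ih⟩ := ih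
    refine ⟨8 ^ (m + 1) * C, ?_, ?_⟩
    · exact Nat.one_le_iff_ne_zero.2 (Nat.mul_ne_zero (by positivity) (by omega))
    intro α _ V d adj h0 hsymm htri hadj ρ hb
    obtain ⟨Z, hZV, h1, h2⟩ := width_step m C hC V d adj h0 hsymm htri hadj ρ hb
    obtain ⟨col0, hcol0⟩ := ih α Z d adj h0 hsymm htri hadj (ρ / 4) h2
    refine ⟨fun a => if a ∈ Z then Fin.castSucc (col0 a) else Fin.last m, ?_⟩
    intro x hx y hxy
    by_cases hxZ : x ∈ Z
    · have key : y ∈ Z ∧ Joined Z adj (fun a b => col0 a = col0 b) x y := by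
        refine Relation.ReflTransGen.head_induction_on
          (motive := fun a _ => a ∈ Z → y ∈ Z ∧ Joined Z adj (fun a b => col0 a = col0 b) a y)
          hxy ?_ ?_ hxZ
        · intro hy
          exact ⟨hy, Relation.ReflTransGen.refl⟩
        · intro a c hac _ hrec haZ
          obtain ⟨haV, hcV, hadjac, hcol⟩ := hac
          have hcZ : c ∈ Z := by
            by_contra hcZ
            simp only [haZ, hcZ, if_true, if_false] at hcol
            exact (Fin.castSucc_lt_last (col0 a)).ne hcol
          simp only [haZ, hcZ, if_true] at hcol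
          have hcc : col0 a = col0 c := Fin.castSucc_injective m hcol
          obtain ⟨hy, hJ⟩ := hrec hcZ
          exact ⟨hy, Relation.ReflTransGen.head ⟨haZ, hcZ, hadjac, hcc⟩ hJ⟩
      exact (hcol0 x hxZ y key.2).trans (Nat.div_le_self ρ 4)
    · have hxVZ : x ∈ V \ Z := Finset.mem_sdiff.2 ⟨hx, hxZ⟩
      refine h1 x hxVZ y ?_
      refine Relation.ReflTransGen.head_induction_on
          (motive := fun a _ => a ∉ Z → Joined (V \ Z) adj (fun _ _ => True) a y)
          hxy ?_ ?_ hxZ
      · intro _
        exact Relation.ReflTransGen.refl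
      · intro a c hac _ hrec haZ
        obtain ⟨haV, hcV, hadjac, hcol⟩ := hac
        have hcZ : c ∉ Z := by
          intro hcZ
          simp only [haZ, hcZ, if_true, if_false] at hcol
          exact (Fin.castSucc_lt_last (col0 c)).ne hcol.symm
        exact Relation.ReflTransGen.head
          ⟨Finset.mem_sdiff.2 ⟨haV, haZ⟩, Finset.mem_sdiff.2 ⟨hcV, hcZ⟩, hadjac, trivial⟩
          (hrec hcZ)

end Pool.Agent.H.MP_e5d137_al.UB
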