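import Pool.Agent.H.MP_e5d137_al.UB.Cone
import Pool.Agent.H.MP_e5d137_al.UB.Width2

/-!
# Colouring and centres for finite sets of group elements
-/

namespace Pool.Agent.H.MP_e5d137_al.UB

variable {G : Type} [Group G] {E : G → ℕ}

/-- Preparation: colouring and centres for a finite set `V` of group elements.

Proof.  Apply `width` to `V`, the metric `d a b = Nat.clog R (E (a⁻¹ * b))` (it is symmetric by
`Szf.inv`, satisfies the triangle inequality because `E (a⁻¹ c) ≤ E (a⁻¹ b) * E (b⁻¹ c) ≤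
R ^ (d a b) * R ^ (d b c)`, `d a a = clog R 1 = 0`) and the relation `adj a b := E (a⁻¹ * b) ≤ R`.
The balls have at most `V.card` elements.  Let `~` be the equivalence relation
`a = b ∨ (a ∈ V ∧ b ∈ V ∧ Joined V adj (col · = col ·) a b)` (symmetric since `adj` and equality
of colours are), and let `x a` be the chosen representative of the class of `a`.  Then `x a = x b`
for equivalent points, and `d a (x a) ≤ ρ`, that is `E (a⁻¹ * x a) ≤ R ^ ρ`, for `a ∈ V`. -/
theorem exists_centres (hE : Szf E) (m : ℕ) (hm : 1 ≤ m) : ∃ C : ℕ, 1 ≤ C ∧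
    ∀ (R : ℕ), 2 ≤ R → ∀ (V : Finset G) (ρ : ℕ), C * V.card ≤ ρ ^ m →
    ∃ (col : G → Fin m) (x : G → G), (∀ a ∈ V, E (a⁻¹ * x a) ≤ R ^ ρ) ∧
      ∀ a ∈ V, ∀ b ∈ V, E (a⁻¹ * b) ≤ R → col a = col b → x a = x b := by
  classical
  obtain ⟨C, hC, hw⟩ := width m hm
  refine ⟨C, hC, fun R hR V ρ hV => ?_⟩
  have hR1 : 1 < R := by omega
  have hsym : ∀ a b : G, E (b⁻¹ * a) = E (a⁻¹ * b) := by
    intro a b
    rw [← hE.inv (a⁻¹ * b)]
    congr 1
    group
  obtain ⟨col, hcol⟩ := hw G V (fun a b => Nat.clog R (E (a⁻¹ * b)))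
    (fun a b => E (a⁻¹ * b) ≤ R)
    (fun a => by
      show Nat.clog R (E (a⁻¹ * a)) = 0
      rw [inv_mul_cancel, hE.one, Nat.clog_one_right])
    (fun a b => by
      show Nat.clog R (E (a⁻¹ * b)) = Nat.clog R (E (b⁻¹ * a))
      rw [hsym a b])
    (fun a b c => by
      show Nat.clog R (E (a⁻¹ * c)) ≤ Nat.clog R (E (a⁻¹ * b)) + Nat.clog R (E (b⁻¹ * c))
      refine Nat.clog_le_of_le_pow ?_
      rw [pow_add]
      have h1 : E (a⁻¹ * c) ≤ E (a⁻¹ * b) * E (b⁻¹ * c) := by
        have := hE.mul (a⁻¹ * b) (b⁻¹ * c)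
        rwa [show a⁻¹ * b * (b⁻¹ * c) = a⁻¹ * c by group] at this
      exact h1.trans (Nat.mul_le_mul (Nat.le_pow_clog hR1 _) (Nat.le_pow_clog hR1 _)))
    (fun a b h => by
      show Nat.clog R (E (a⁻¹ * b)) ≤ 1
      refine Nat.clog_le_of_le_pow ?_
      rw [pow_one]
      exact h)
    ρ
    (fun v _ => (Nat.mul_le_mul_left C (Finset.card_filter_le _ _)).trans hV)
  let s : Setoid G :=
    { r := Joined V (fun a b => E (a⁻¹ * b) ≤ R) (fun a b => col a = col b)
      iseqv :=
        { refl := fun a => Relation.ReflTransGen.refl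
          symm := by
            intro a b h
            have : Std.Symm (fun u v => u ∈ V ∧ v ∈ V ∧ E (u⁻¹ * v) ≤ R ∧ col u = col v) :=
              ⟨fun u v h => ⟨h.2.1, h.1, by rw [hsym]; exact h.2.2.1, h.2.2.2.symm⟩⟩
            exact (Relation.ReflTransGen.stdSymm (r := fun u v =>
              u ∈ V ∧ v ∈ V ∧ E (u⁻¹ * v) ≤ R ∧ col u = col v)).symm _ _ h
          trans := fun h1 h2 => Relation.ReflTransGen.trans h1 h2 } }
  refine ⟨col, fun a => (Quotient.mk s a).out, ?_, ?_⟩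
  · intro a ha
    have h1 : s.r (Quotient.mk s a).out a := Quotient.mk_out a
    have h2 : s.r a (Quotient.mk s a).out := s.symm h1
    have h3 := hcol a ha _ h2
    exact (Nat.le_pow_clog hR1 _).trans (Nat.pow_le_pow_right (by omega) h3)
  · intro a ha b hb hab hc
    have h1 : s.r a b := Relation.ReflTransGen.single ⟨ha, hb, hab, hc⟩
    have h2 : Quotient.mk s a = Quotient.mk s b := Quotient.sound h1
    show (Quotient.mk s a).out = (Quotient.mk s b).out
    rw [h2]

end Pool.Agent.H.MP_e5d137_al.UB
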