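import Pool.Agent.H.MP_e5d137_al.UB.Cone

/-!
# Homotopies from the cone property
-/

namespace Pool.Agent.H.MP_e5d137_al.UB

open Finsupp

variable {G : Type} [Group G] {E : G → ℕ}

lemma Phi1.bd_lc {V W : Type*} (f : List V → Ch W) (c : Ch V) :
    bd (Finsupp.linearCombination ℤ f c) = Finsupp.linearCombination ℤ (fun ρ => bd (f ρ)) c := by
  induction c using Finsupp.induction_linear with
  | zero => simp
  | add a b ha hb => simp only [map_add, ha, hb]
  | single σ k => simp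

lemma Phi1.lc_sub {V W : Type*} (f g : List V → Ch W) (c : Ch V) :
    Finsupp.linearCombination ℤ (fun ρ => f ρ - g ρ) c =
      Finsupp.linearCombination ℤ f c - Finsupp.linearCombination ℤ g c := by
  induction c using Finsupp.induction_linear with
  | zero => simp
  | add a b ha hb => simp only [map_add, ha, hb]; abel
  | single σ k => simp [smul_sub]

lemma Phi1.lc_single {V : Type*} (c : Ch V) :
    Finsupp.linearCombination ℤ (fun ρ => (single ρ 1 : Ch V)) c = c := by
  induction c using Finsupp.induction_linear with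
  | zero => simp
  | add a b ha hb => simp only [map_add, ha, hb]
  | single σ k => simp

lemma Phi1.lc_lc_bdl {V W : Type*} (f : List V → Ch W) (c : Ch V) :
    Finsupp.linearCombination ℤ (fun ρ => Finsupp.linearCombination ℤ f (bdl ρ)) c =
      Finsupp.linearCombination ℤ f (bd c) := by
  induction c using Finsupp.induction_linear with
  | zero => simp
  | add a b ha hb => simp only [map_add, ha, hb]
  | single σ k => simp

lemma Phi1.le_pow {X : ℕ} (hX : 2 ≤ X) (N : ℕ) : N ≤ X ^ N :=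
  (Nat.lt_two_pow_self).le.trans (Nat.pow_le_pow_left hX N)

/-- the statement with the additional properties -/
theorem Phi1.exists_hty_aux (hE : Szf E) (hc : Cone E) (k R R₁ c₁ : ℕ) :
    ∃ R' c : ℕ, ∀ X : ℕ, 2 ≤ X →
    ∀ (P : List G → Prop), (∀ σ τ : List G, τ.Sublist σ → P σ → P τ) →
    ∀ A : List G → Ch G, A [] = single [] 1 →
      (∀ σ : List G, σ.length ≤ k → Small E R σ → P σ →
        bd (A σ) = Finsupp.linearCombination ℤ A (bdl σ) ∧
        (∀ τ ∈ (A σ).support, τ.length = σ.length ∧ Small E R₁ τ ∧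
          ∀ a ∈ σ, Near E a (X ^ c₁) τ) ∧
        ms (A σ) ≤ X ^ c₁) →
      ∃ η : List G → Ch G, η [] = 0 ∧ ∀ σ : List G, σ.length ≤ k → Small E R σ → P σ →
        bd (η σ) = A σ - single σ 1 - Finsupp.linearCombination ℤ η (bdl σ) ∧
        (∀ τ ∈ (η σ).support, τ.length = σ.length + 1 ∧ Small E R' τ ∧
          ∀ a ∈ σ, Near E a (X ^ c) τ) ∧
        ms (η σ) ≤ X ^ c := by
  induction k with
  | zero =>
    refine ⟨0, 0, fun X hX P hP A hA0 hA => ⟨fun _ => 0, rfl, fun σ hσ hs hp => ?_⟩⟩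
    have h0 : σ = [] := List.length_eq_zero_iff.1 (Nat.le_zero.1 hσ)
    subst h0
    refine ⟨?_, ?_, ?_⟩
    · rw [hA0]
      simp [bdl]
    · intro τ hτ
      simp at hτ
    · simp
  | succ k ih =>
    obtain ⟨R', c, ih⟩ := ih
    obtain ⟨R3, c3, hcone⟩ := hc.at (k + 1) (max R (max R₁ R'))
    refine ⟨max R' R3, c + c₁ + (k + 1) + 2 + R + (R + c₁ + c + 1) * c3,
      fun X hX P hP A hA0 hA => ?_⟩
    obtain ⟨η₀, h0, ih⟩ := ih X hX P hP A hA0
      (fun σ hσ hs hp => hA σ (hσ.trans (Nat.le_succ k)) hs hp)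
    have hX1 : 1 ≤ X := le_trans (by norm_num) hX
    have hpow : ∀ {a b : ℕ}, a ≤ b → X ^ a ≤ X ^ b := fun h => Nat.pow_le_pow_right hX1 h
    -- the chains for the lists of length `k + 1`
    have key : ∀ σ : List G, σ.length = k + 1 → Small E R σ → P σ → ∃ y : Ch G,
        bd y = A σ - single σ 1 - Finsupp.linearCombination ℤ η₀ (bdl σ) ∧
        (∀ τ ∈ y.support, τ.length = σ.length + 1 ∧ Small E R3 τ ∧
          ∀ a ∈ σ, Near E a (X ^ (c + c₁ + (k + 1) + 2 + R + (R + c₁ + c + 1) * c3)) τ) ∧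
        ms y ≤ X ^ (c + c₁ + (k + 1) + 2 + R + (R + c₁ + c + 1) * c3) := by
      intro σ hσ hs hp
      obtain ⟨g, σ', rfl⟩ : ∃ g σ', σ = g :: σ' := by
        cases σ with
        | nil => simp at hσ
        | cons g σ' => exact ⟨g, σ', rfl⟩
      set σ : List G := g :: σ' with hσdef
      have hgσ : g ∈ σ := List.mem_cons_self
      obtain ⟨hA1, hA2, hA3⟩ := hA σ hσ.le hs hp
      have hρ : ∀ ρ ∈ (bdl σ).support, ρ.Sublist σ ∧ ρ.length = k ∧ Small E R ρ ∧ P ρ := by
        intro ρ hρ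
        obtain ⟨e1, e2⟩ := supp_bdl hρ
        exact ⟨e1, by omega, hs.sublist e1, hP _ _ e1 hp⟩
      -- the cycle
      have hcyc : bd (A σ - single σ 1 - Finsupp.linearCombination ℤ η₀ (bdl σ)) = 0 := by
        have e1 : bd (Finsupp.linearCombination ℤ η₀ (bdl σ)) =
            Finsupp.linearCombination ℤ A (bdl σ) - bdl σ := by
          rw [Phi1.bd_lc]
          rw [lc_congr (fun ρ => bd (η₀ ρ))
            (fun ρ => (A ρ - single ρ 1) - Finsupp.linearCombination ℤ η₀ (bdl ρ)) (bdl σ)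
            (fun ρ h => (ih ρ (hρ ρ h).2.1.le (hρ ρ h).2.2.1 (hρ ρ h).2.2.2).1)]
          rw [Phi1.lc_sub (fun ρ => A ρ - single ρ 1), Phi1.lc_sub A, Phi1.lc_single,
            Phi1.lc_lc_bdl, bd_bdl, map_zero, sub_zero]
        rw [map_sub, map_sub, hA1, e1, bd_single, one_smul]
        abel
      -- its support
      have hsup : ∀ τ ∈ (A σ - single σ 1 - Finsupp.linearCombination ℤ η₀ (bdl σ)).support,
          τ.length = k + 1 ∧ Small E (max R (max R₁ R')) τ ∧
            Near E g (X ^ (R + c₁ + c + 1)) τ := by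
        intro τ hτ
        rcases supp_sub hτ with hτ | hτ
        · rcases supp_sub hτ with hτ | hτ
          · obtain ⟨e1, e2, e3⟩ := hA2 τ hτ
            exact ⟨by rw [e1, hσ], e2.mono ((le_max_left _ _).trans (le_max_right _ _)),
              (e3 g hgσ).mono (hpow (by omega))⟩
          · rw [supp_single hτ]
            refine ⟨hσ, hs.mono (le_max_left _ _), fun a ha => ?_⟩
            exact (hs g hgσ a ha).trans ((Phi1.le_pow hX R).trans (hpow (by omega)))
        · obtain ⟨ρ, h1, h2⟩ := supp_lc _ _ hτ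
          obtain ⟨f1, f2, f3, f4⟩ := hρ ρ h1
          obtain ⟨-, e2, -⟩ := ih ρ f2.le f3 f4
          obtain ⟨e3, e4, e5⟩ := e2 τ h2
          refine ⟨by rw [e3, f2], e4.mono ((le_max_right _ _).trans (le_max_right _ _)), ?_⟩
          cases ρ with
          | nil =>
            rw [h0] at h2
            simp at h2
          | cons b ρ' =>
            intro a ha
            have g1 : E (g⁻¹ * b) ≤ X ^ R :=
              (hs g hgσ b (f1.subset List.mem_cons_self)).trans (Phi1.le_pow hX R)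
            have g2 : E (b⁻¹ * a) ≤ X ^ c := e5 b List.mem_cons_self a ha
            calc E (g⁻¹ * a) = E ((g⁻¹ * b) * (b⁻¹ * a)) := by
                  congr 1; group
              _ ≤ E (g⁻¹ * b) * E (b⁻¹ * a) := hE.mul _ _
              _ ≤ X ^ R * X ^ c := Nat.mul_le_mul g1 g2
              _ = X ^ (R + c) := (pow_add _ _ _).symm
              _ ≤ X ^ (R + c₁ + c + 1) := hpow (by omega)
      -- its mass
      have hms : ms (A σ - single σ 1 - Finsupp.linearCombination ℤ η₀ (bdl σ)) ≤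
          X ^ (c + c₁ + (k + 1) + 2) := by
        have e1 : ms (Finsupp.linearCombination ℤ η₀ (bdl σ)) ≤ X ^ c * ms (bdl σ) :=
          ms_lc_le _ _ _ (fun ρ h => (ih ρ (hρ ρ h).2.1.le (hρ ρ h).2.2.1 (hρ ρ h).2.2.2).2.2)
        have e2 : ms (bdl σ) ≤ X ^ (k + 1) :=
          ((ms_bdl σ).trans hσ.le).trans (Phi1.le_pow hX _)
        have e3 : ms (single σ (1 : ℤ)) ≤ 1 := by rw [ms_single]; simp
        have e4 : X ^ c * ms (bdl σ) ≤ X ^ (c + c₁ + (k + 1)) := by
          refine (Nat.mul_le_mul_left _ e2).trans ?_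
          rw [← pow_add]
          exact hpow (by omega)
        have e5 : ms (A σ) ≤ X ^ (c + c₁ + (k + 1)) := hA3.trans (hpow (by omega))
        have e6 : 1 ≤ X ^ (c + c₁ + (k + 1)) := Nat.one_le_pow _ _ hX1
        have e7 : 4 ≤ X ^ 2 := by nlinarith
        calc _ ≤ ms (A σ - single σ 1) + ms (Finsupp.linearCombination ℤ η₀ (bdl σ)) :=
              ms_sub_le _ _
          _ ≤ (ms (A σ) + ms (single σ (1 : ℤ))) +
                ms (Finsupp.linearCombination ℤ η₀ (bdl σ)) :=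
              Nat.add_le_add_right (ms_sub_le _ _) _
          _ ≤ X ^ (c + c₁ + (k + 1)) * 4 := by omega
          _ ≤ X ^ (c + c₁ + (k + 1)) * X ^ 2 := Nat.mul_le_mul_left _ e7
          _ = X ^ (c + c₁ + (k + 1) + 2) := (pow_add _ _ _).symm
      have h2X : 2 ≤ X ^ (R + c₁ + c + 1) := by
        calc 2 ≤ X ^ 1 := by rwa [pow_one]
          _ ≤ _ := hpow (by omega)
      obtain ⟨y, y1, y2, y3⟩ := hcone (X ^ (R + c₁ + c + 1)) h2X g _ hsup hcyc
      rw [← pow_mul] at y1 y3
      refine ⟨y, y2, fun τ hτ => ?_, ?_⟩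
      · obtain ⟨e1, e2, e3⟩ := y1 τ hτ
        refine ⟨by rw [e1, hσ], e2, fun a ha b hb => ?_⟩
        have g1 : E (a⁻¹ * g) ≤ X ^ R := (hs a ha g hgσ).trans (Phi1.le_pow hX R)
        have g2 : E (g⁻¹ * b) ≤ X ^ ((R + c₁ + c + 1) * c3) := e3 b hb
        calc E (a⁻¹ * b) = E ((a⁻¹ * g) * (g⁻¹ * b)) := by
              congr 1; group
          _ ≤ E (a⁻¹ * g) * E (g⁻¹ * b) := hE.mul _ _
          _ ≤ X ^ R * X ^ ((R + c₁ + c + 1) * c3) := Nat.mul_le_mul g1 g2
          _ = X ^ (R + (R + c₁ + c + 1) * c3) := (pow_add _ _ _).symm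
          _ ≤ _ := hpow (by omega)
      · calc ms y ≤ X ^ ((R + c₁ + c + 1) * c3) * _ := y3
          _ ≤ X ^ ((R + c₁ + c + 1) * c3) * X ^ (c + c₁ + (k + 1) + 2) :=
              Nat.mul_le_mul_left _ hms
          _ = X ^ ((R + c₁ + c + 1) * c3 + (c + c₁ + (k + 1) + 2)) := (pow_add _ _ _).symm
          _ ≤ _ := hpow (by omega)
    classical
    choose! y hy using key
    refine ⟨fun σ => if σ.length ≤ k then η₀ σ else y σ, ?_, fun σ hσ hs hp => ?_⟩
    · simp [h0]
    have hlc : Finsupp.linearCombination ℤ (fun σ => if σ.length ≤ k then η₀ σ else y σ) (bdl σ) =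
        Finsupp.linearCombination ℤ η₀ (bdl σ) := by
      apply lc_congr
      intro ρ h
      have := (supp_bdl h).2
      rw [if_pos (by omega)]
    rw [hlc]
    beta_reduce
    by_cases hk : σ.length ≤ k
    · rw [if_pos hk]
      obtain ⟨e1, e2, e3⟩ := ih σ hk hs hp
      refine ⟨e1, fun τ hτ => ?_, e3.trans (hpow (by omega))⟩
      obtain ⟨f1, f2, f3⟩ := e2 τ hτ
      exact ⟨f1, f2.mono (le_max_left _ _), fun a ha => (f3 a ha).mono (hpow (by omega))⟩
    · rw [if_neg hk]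
      obtain ⟨e1, e2, e3⟩ := hy σ (by omega) hs hp
      refine ⟨e1, fun τ hτ => ?_, e3⟩
      obtain ⟨f1, f2, f3⟩ := e2 τ hτ
      exact ⟨f1, f2.mono (le_max_right _ _), f3⟩

/-- Existence of the homotopy between a chain map `A` and the identity.

Proof.  Induction on `k`; the induction statement contains the property
`∀ a ∈ σ, Near E a (X ^ c) τ` for the lists `τ` of `η σ`.  `k = 0`: `η = 0`.  Step: for `σ` of
length `k + 1` (with `Small E R σ`, `P σ`) the chain `w = A σ - single σ 1 - lc η (bdl σ)` is a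
cycle: `bd (lc η (bdl σ)) = lc (fun ρ => A ρ - single ρ 1 - lc η (bdl ρ)) (bdl σ) =
lc A (bdl σ) - bdl σ - lc η (bd (bdl σ))` and `bd (A σ) = lc A (bdl σ)`.  Its lists have length
`k + 1`, are `max R R₁ R'`-small and near the head of `σ` (for the lists of `η ρ`, `ρ` a list in
`bdl σ`: if `k ≥ 1` then `ρ` is nonempty, and its entries are entries of `σ`, `R`-close to the
head, `R ≤ 2 ^ R ≤ X ^ R`; if `k = 0` then `η [] = 0`), its mass is at most
`X ^ c₁ + 1 + (k + 1) * X ^ c`.  Fill it with `Cone.at`. -/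
theorem exists_hty (hE : Szf E) (hc : Cone E) (k R R₁ c₁ : ℕ) : ∃ R' c : ℕ, ∀ X : ℕ, 2 ≤ X →
    ∀ (P : List G → Prop), (∀ σ τ : List G, τ.Sublist σ → P σ → P τ) →
    ∀ A : List G → Ch G, A [] = single [] 1 →
      (∀ σ : List G, σ.length ≤ k → Small E R σ → P σ →
        bd (A σ) = Finsupp.linearCombination ℤ A (bdl σ) ∧
        (∀ τ ∈ (A σ).support, τ.length = σ.length ∧ Small E R₁ τ ∧
          ∀ a ∈ σ, Near E a (X ^ c₁) τ) ∧
        ms (A σ) ≤ X ^ c₁) →
      ∃ η : List G → Ch G, ∀ σ : List G, σ.length ≤ k → Small E R σ → P σ →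
        bd (η σ) = A σ - single σ 1 - Finsupp.linearCombination ℤ η (bdl σ) ∧
        (∀ τ ∈ (η σ).support, τ.length = σ.length + 1 ∧ Small E R' τ) ∧
        ms (η σ) ≤ X ^ c := by
  obtain ⟨R', c, h⟩ := Phi1.exists_hty_aux hE hc k R R₁ c₁
  refine ⟨R', c, fun X hX P hP A hA0 hA => ?_⟩
  obtain ⟨η, -, h⟩ := h X hX P hP A hA0 hA
  refine ⟨η, fun σ hσ hs hp => ?_⟩
  obtain ⟨e1, e2, e3⟩ := h σ hσ hs hp
  exact ⟨e1, fun τ hτ => ⟨(e2 τ hτ).1, (e2 τ hτ).2.1⟩, e3⟩

end Pool.Agent.H.MP_e5d137_al.UB
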