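import Pool.Agent.H.MP_e5d137_al.UB.Phi
import Pool.Agent.H.MP_e5d137_al.UB.Phi1
import Pool.Agent.H.MP_e5d137_al.UB.BarC

/-!
# Filling cycles in the bar complex with mass `exp (C * L^(1/m))`
-/

namespace Pool.Agent.H.MP_e5d137_al.UB

open Finsupp

variable {G : Type} [Group G] {E : G → ℕ}

/-- linear maps and linear combinations -/
lemma barfill_comp {α β : Type} {γ : Type} (L : (β →₀ ℤ) →ₗ[ℤ] (γ →₀ ℤ)) (f : α → (β →₀ ℤ))
    (c : α →₀ ℤ) :
    L (Finsupp.linearCombination ℤ f c) = Finsupp.linearCombination ℤ (fun a => L (f a)) c :=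
  Finsupp.apply_linearCombination ℤ L f c

/-- the collapse of the subdivision, followed by `Φ` -/
noncomputable def barfillA (Φ : List G → Ch G) (κ : List G → G) (σ : List G) : Ch G :=
  Finsupp.linearCombination ℤ Φ (mp κ (sdl σ))

lemma barfill_lcA (Φ : List G → Ch G) (κ : List G → G) (c : Ch G) :
    Finsupp.linearCombination ℤ (barfillA Φ κ) c =
      Finsupp.linearCombination ℤ Φ (mp κ (sd c)) := by
  unfold sd
  rw [barfill_comp (mp κ), barfill_comp (Finsupp.linearCombination ℤ Φ)]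
  rfl

lemma barfill_bdA (Φ : List G → Ch G) (κ : List G → G) (σ : List G)
    (h : ∀ τ ∈ (sdl σ).support,
      bd (Φ (τ.map κ)) = Finsupp.linearCombination ℤ Φ (bdl (τ.map κ))) :
    bd (barfillA Φ κ σ) = Finsupp.linearCombination ℤ (barfillA Φ κ) (bdl σ) := by
  rw [barfill_lcA, ← bd_sdl, ← bd_mp]
  unfold barfillA
  rw [barfill_comp bd, lc_congr (fun a => bd (Φ a))
    (fun a => Finsupp.linearCombination ℤ Φ (bdl a)) (mp κ (sdl σ)) ?_,
    ← barfill_comp (Finsupp.linearCombination ℤ Φ)]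
  · rfl
  · intro τ' hτ'
    obtain ⟨τ, hτ, rfl⟩ := supp_mp hτ'
    exact h τ hτ

lemma barfill_card {α : Type} (z : α →₀ ℤ) : z.support.card ≤ ms z := by
  rw [ms_eq z z.support (Finset.Subset.refl _), Finset.card_eq_sum_ones]
  refine Finset.sum_le_sum (fun a ha => ?_)
  exact Int.natAbs_pos.2 (Finsupp.mem_support_iff.1 ha)

/-- the entries of the lists of `z` -/
lemma barfill_V (z : Ch G) (m : ℕ) (hz : ∀ σ ∈ z.support, σ.length = m + 1) :
    ∃ V : Finset G, (∀ σ ∈ z.support, ∀ a ∈ σ, a ∈ V) ∧ V.card ≤ (m + 1) * ms z := by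
  classical
  refine ⟨z.support.biUnion (fun σ => σ.toFinset), ?_, ?_⟩
  · intro σ hσ a ha
    exact Finset.mem_biUnion.2 ⟨σ, hσ, List.mem_toFinset.2 ha⟩
  · calc (z.support.biUnion (fun σ => σ.toFinset)).card
        ≤ z.support.card * (m + 1) := by
          apply Finset.card_biUnion_le_card_mul
          intro σ hσ
          exact (List.toFinset_card_le σ).trans (hz σ hσ).le
      _ ≤ (m + 1) * ms z := by
          rw [mul_comm]
          exact Nat.mul_le_mul_left _ (barfill_card z)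

lemma barfill_tri (hE : Szf E) (a b c : G) : E (a⁻¹ * c) ≤ E (a⁻¹ * b) * E (b⁻¹ * c) := by
  have := hE.mul (a⁻¹ * b) (b⁻¹ * c)
  rwa [show a⁻¹ * b * (b⁻¹ * c) = a⁻¹ * c by group] at this

lemma barfill_symm (hE : Szf E) (a b : G) : E (a⁻¹ * b) = E (b⁻¹ * a) := by
  rw [← hE.inv (a⁻¹ * b)]
  congr 1
  group

/-- the case `2 ≤ R` -/
lemma barfill_two (hE : Szf E) (hc : Cone E) (m : ℕ) (hm : 1 ≤ m) (R : ℕ) (hR : 2 ≤ R) :
    ∃ R' C : ℕ, 1 ≤ C ∧
    ∀ z : Ch G, (∀ σ ∈ z.support, σ.length = m + 1 ∧ Small E R σ) → bd z = 0 →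
    ∀ ρ : ℕ, C * ms z ≤ ρ ^ m →
    ∃ y : Ch G, (∀ τ ∈ y.support, τ.length = m + 2 ∧ Small E R' τ) ∧ bd y = z ∧
      ms y ≤ C ^ (ρ + 1) * ms z := by
  obtain ⟨C₁, hC₁, hcen⟩ := exists_centres hE m hm
  obtain ⟨RΦ, cΦ, hΦ⟩ := exists_Phi hE hc (m + 1)
  obtain ⟨RH, cH, hH⟩ := exists_hty hE hc (m + 1) R RΦ (cΦ + (m + 1).factorial + 1)
  refine ⟨RH, C₁ * (m + 1) + R ^ (2 * cH), ?_, ?_⟩
  · have : 0 < R ^ (2 * cH) := by positivity
    omega
  intro z hz hbz ρ hρ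
  obtain ⟨V, hV, hVc⟩ := barfill_V z m (fun σ hσ => (hz σ hσ).1)
  have hVρ : C₁ * V.card ≤ ρ ^ m := by
    calc C₁ * V.card ≤ C₁ * ((m + 1) * ms z) := Nat.mul_le_mul_left _ hVc
      _ = C₁ * (m + 1) * ms z := by ring
      _ ≤ (C₁ * (m + 1) + R ^ (2 * cH)) * ms z := Nat.mul_le_mul_right _ (Nat.le_add_right _ _)
      _ ≤ ρ ^ m := hρ
  obtain ⟨col, x, hx1, hx2⟩ := hcen R hR V ρ hVρ
  set X : ℕ := R ^ (2 * ρ + 2) with hX
  have hR1 : 1 ≤ R := by omega
  have hRX : R ≤ X := by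
    rw [hX]
    exact Nat.le_self_pow (by omega) R
  have hX2 : 2 ≤ X := hR.trans hRX
  obtain ⟨Φ, hΦ0, _, hΦ2⟩ := hΦ X hX2
  set κ : List G → G := kap col x 1 with hκ
  -- the entries of the collapsed subdivision
  have hent : ∀ σ : List G, ∀ τ ∈ (sdl σ).support, ∀ b ∈ τ.map κ, ∃ a ∈ σ, b = x a := by
    intro σ τ hτ b hb
    obtain ⟨ρ', hρ', rfl⟩ := List.mem_map.1 hb
    obtain ⟨h1, h2⟩ := (supp_sdl hτ).2.1 ρ' hρ'
    obtain ⟨a, ha, h3⟩ := kap_mem col x 1 h1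
    exact ⟨a, h2.subset ha, h3⟩
  have hsm : ∀ σ : List G, Small E R σ → (∀ a ∈ σ, a ∈ V) → ∀ τ ∈ (sdl σ).support,
      Small E X (τ.map κ) := by
    intro σ hσ hσV τ hτ b hb b' hb'
    obtain ⟨a, ha, rfl⟩ := hent σ τ hτ b hb
    obtain ⟨a', ha', rfl⟩ := hent σ τ hτ b' hb'
    calc E ((x a)⁻¹ * x a') ≤ E ((x a)⁻¹ * a) * E (a⁻¹ * x a') := barfill_tri hE _ _ _
      _ ≤ E ((x a)⁻¹ * a) * (E (a⁻¹ * a') * E (a'⁻¹ * x a')) :=
          Nat.mul_le_mul_left _ (barfill_tri hE _ _ _)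
      _ ≤ R ^ ρ * (R * R ^ ρ) := by
          refine Nat.mul_le_mul ?_ (Nat.mul_le_mul (hσ a ha a' ha') (hx1 a' (hσV a' ha')))
          rw [barfill_symm hE]
          exact hx1 a (hσV a ha)
      _ = R ^ (2 * ρ + 1) := by ring
      _ ≤ X := Nat.pow_le_pow_right hR1 (by omega)
  have hlen : ∀ σ : List G, ∀ τ ∈ (sdl σ).support, (τ.map κ).length = σ.length := by
    intro σ τ hτ
    rw [List.length_map]
    exact (supp_sdl hτ).1
  have hP : ∀ σ τ : List G, τ.Sublist σ → (∀ a ∈ σ, a ∈ V) → ∀ a ∈ τ, a ∈ V :=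
    fun σ τ h h1 a ha => h1 a (h.subset ha)
  have hA0 : barfillA Φ κ [] = single [] 1 := by
    unfold barfillA
    rw [sdl_nil, mp_single, List.map_nil, Finsupp.linearCombination_single, hΦ0, one_smul]
  have hA : ∀ σ : List G, σ.length ≤ m + 1 → Small E R σ → (∀ a ∈ σ, a ∈ V) →
      bd (barfillA Φ κ σ) = Finsupp.linearCombination ℤ (barfillA Φ κ) (bdl σ) ∧
      (∀ τ ∈ (barfillA Φ κ σ).support, τ.length = σ.length ∧ Small E RΦ τ ∧
        ∀ a ∈ σ, Near E a (X ^ (cΦ + (m + 1).factorial + 1)) τ) ∧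
      ms (barfillA Φ κ σ) ≤ X ^ (cΦ + (m + 1).factorial + 1) := by
    intro σ hσ1 hσ2 hσ3
    have hΦσ : ∀ τ ∈ (sdl σ).support, _ := fun τ hτ =>
      hΦ2 (τ.map κ) ((hlen σ τ hτ).le.trans hσ1) (hsm σ hσ2 hσ3 τ hτ)
    refine ⟨?_, ?_, ?_⟩
    · apply barfill_bdA
      intro τ hτ
      exact (hΦσ τ hτ).1
    · intro τ hτ
      unfold barfillA at hτ
      obtain ⟨τ', hτ', hτ⟩ := supp_lc _ _ hτ
      obtain ⟨τ'', hτ'', rfl⟩ := supp_mp hτ'
      obtain ⟨h1, h2, h3⟩ := (hΦσ τ'' hτ'').2.2.1 τ hτ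
      refine ⟨h1.trans (hlen σ τ'' hτ''), h2, ?_⟩
      intro a ha t ht
      have h4 : τ''.map κ ≠ [] := by
        intro h5
        have h6 := hlen σ τ'' hτ''
        rw [h5, List.length_nil] at h6
        rw [List.length_eq_zero_iff.1 h6.symm] at ha
        exact absurd ha List.not_mem_nil
      obtain ⟨b, hb⟩ := List.exists_mem_of_ne_nil _ h4
      obtain ⟨b', hb', rfl⟩ := hent σ τ'' hτ'' b hb
      calc E (a⁻¹ * t) ≤ E (a⁻¹ * b') * E (b'⁻¹ * t) := barfill_tri hE _ _ _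
        _ ≤ E (a⁻¹ * b') * (E (b'⁻¹ * x b') * E ((x b')⁻¹ * t)) :=
            Nat.mul_le_mul_left _ (barfill_tri hE _ _ _)
        _ ≤ R * (R ^ ρ * X ^ cΦ) := Nat.mul_le_mul (hσ2 a ha b' hb')
            (Nat.mul_le_mul (hx1 b' (hσ3 b' hb')) (h3 _ hb t ht))
        _ = R ^ (ρ + 1) * X ^ cΦ := by ring
        _ ≤ X * X ^ cΦ := Nat.mul_le_mul_right _ (Nat.pow_le_pow_right hR1 (by omega))
        _ = X ^ (cΦ + 1) := by ring
        _ ≤ X ^ (cΦ + (m + 1).factorial + 1) := Nat.pow_le_pow_right (by omega) (by omega)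
    · unfold barfillA
      calc ms (Finsupp.linearCombination ℤ Φ (mp κ (sdl σ)))
          ≤ X ^ cΦ * ms (mp κ (sdl σ)) := by
            apply ms_lc_le
            intro τ' hτ'
            obtain ⟨τ, hτ, rfl⟩ := supp_mp hτ'
            exact (hΦσ τ hτ).2.2.2
        _ ≤ X ^ cΦ * (m + 1).factorial := by
            apply Nat.mul_le_mul_left
            exact (ms_mp _ _).trans ((ms_sdl σ).trans (Nat.factorial_le hσ1))
        _ ≤ X ^ cΦ * X ^ (m + 1).factorial := by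
            apply Nat.mul_le_mul_left
            exact (Nat.lt_pow_self (by omega)).le
        _ = X ^ (cΦ + (m + 1).factorial) := by ring
        _ ≤ X ^ (cΦ + (m + 1).factorial + 1) := Nat.pow_le_pow_right (by omega) (by omega)
  obtain ⟨η, hη⟩ := hH X hX2 (fun σ => ∀ a ∈ σ, a ∈ V) hP (barfillA Φ κ) hA0 hA
  have hη' : ∀ σ ∈ z.support, _ := fun σ hσ =>
    hη σ (hz σ hσ).1.le (hz σ hσ).2 (fun a ha => hV σ hσ a ha)
  have hAz : ∀ σ ∈ z.support, barfillA Φ κ σ = 0 := by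
    intro σ hσ
    have hΦσ : ∀ τ ∈ (sdl σ).support, Φ (τ.map κ) = 0 := by
      intro τ hτ
      refine (hΦ2 (τ.map κ) ((hlen σ τ hτ).le.trans (hz σ hσ).1.le)
        (hsm σ (hz σ hσ).2 (fun a ha => hV σ hσ a ha) τ hτ)).2.1 ?_
      refine adjEq_of_supp col x 1 (hz σ hσ).1 ?_ hτ
      intro a ha b hb hab
      exact hx2 a (hV σ hσ a ha) b (hV σ hσ b hb) ((hz σ hσ).2 a ha b hb) hab
    unfold barfillA
    rw [lc_congr Φ (fun _ => 0) (mp κ (sdl σ)) ?_]
    · simp [Finsupp.linearCombination_apply]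
    · intro τ' hτ'
      obtain ⟨τ, hτ, rfl⟩ := supp_mp hτ'
      exact hΦσ τ hτ
  refine ⟨-(Finsupp.linearCombination ℤ η z), ?_, ?_, ?_⟩
  · intro τ hτ
    obtain ⟨σ, hσ, h1⟩ := supp_lc _ _ (supp_neg hτ)
    obtain ⟨h2, h3⟩ := (hη' σ hσ).2.1 τ h1
    exact ⟨by rw [h2, (hz σ hσ).1], h3⟩
  · have h1 : bd (Finsupp.linearCombination ℤ η z) = -z := by
      rw [barfill_comp bd, lc_congr (fun a => bd (η a))
        (fun a => (-LinearMap.id - Finsupp.linearCombination ℤ η ∘ₗ bd : Ch G →ₗ[ℤ] Ch G)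
          (single a 1)) z ?_, ← barfill_comp]
      · have h2 : Finsupp.linearCombination ℤ (fun a => single a (1 : ℤ)) z = z := by
          rw [Finsupp.linearCombination_apply]
          simp [Finsupp.sum_single]
        rw [h2]
        simp [hbz]
      · intro σ hσ
        rw [(hη' σ hσ).1, hAz σ hσ]
        simp
    rw [map_neg, h1, neg_neg]
  · rw [ms_neg]
    calc ms (Finsupp.linearCombination ℤ η z) ≤ X ^ cH * ms z :=
          ms_lc_le _ _ _ (fun σ hσ => (hη' σ hσ).2.2)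
      _ = (R ^ (2 * cH)) ^ (ρ + 1) * ms z := by
          rw [hX, ← pow_mul, ← pow_mul]
          congr 2
          ring
      _ ≤ (C₁ * (m + 1) + R ^ (2 * cH)) ^ (ρ + 1) * ms z :=
          Nat.mul_le_mul_right _ (Nat.pow_le_pow_left (Nat.le_add_left _ _) _)

/-- Filling in the bar complex.

Proof.  We may assume `R ≥ 2`.  Let `V` be the set of entries of the lists in the support of `z`;
`V.card ≤ (m + 1) * ms z`.  Let `C₁` be the constant of `exists_centres`, `col`, `x` the colouring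
and centres for `ρ` (we take `C ≥ C₁ * (m + 1)`).  Let `X = R ^ (2 * ρ + 2)`, let `Φ` be the map
of `exists_Phi` for `k = m + 1` and `X`, and put (with `κ = kap col x 1`)
`A σ = lc Φ (mp κ (sdl σ))`.  Then `A [] = single [] 1`, and for lists `σ` of length `≤ m + 1`
with entries in `V` (this is `P σ`) and `R`-small: the lists in `mp κ (sdl σ)` have entries of
the form `x a`, `a ∈ σ`, which are `X`-small (`E ((x a)⁻¹ x b) ≤ R^ρ * R * R^ρ`); so
`bd (A σ) = lc Φ (bd (mp κ (sdl σ))) = lc Φ (mp κ (sd (bdl σ))) = lc A (bdl σ)`, the lists of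
`A σ` have the length of `σ`, are `R'`-small and near the entries of `σ` (bounds by powers of
`X`), and `ms (A σ) ≤ (m+1)! * X ^ c ≤ X ^ (c + (m+1)!)`.  For `σ` in the support of `z` we have
`A σ = 0`, because by `adjEq_of_supp` all lists in `mp κ (sdl σ)` satisfy `AdjEq` (and are
`X`-small of length `m + 1`).  Let `η` be the homotopy of `exists_hty` (`k = m + 1`).  Then
`bd (lc η z) = lc A z - z - lc η (bd z) = - z`, so `y = - lc η z` is a filling with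
`ms y ≤ X ^ c' * ms z = R ^ ((2 ρ + 2) c') * ms z ≤ (R ^ (2 c')) ^ (ρ + 1) * ms z`. -/
theorem bar_fill (hE : Szf E) (hc : Cone E) (m : ℕ) (hm : 1 ≤ m) (R : ℕ) : ∃ R' C : ℕ, 1 ≤ C ∧
    ∀ z : Ch G, (∀ σ ∈ z.support, σ.length = m + 1 ∧ Small E R σ) → bd z = 0 →
    ∀ ρ : ℕ, C * ms z ≤ ρ ^ m →
    ∃ y : Ch G, (∀ τ ∈ y.support, τ.length = m + 2 ∧ Small E R' τ) ∧ bd y = z ∧
      ms y ≤ C ^ (ρ + 1) * ms z := by
  obtain ⟨R', C, hC, h⟩ := barfill_two hE hc m hm (max R 2) (le_max_right _ _)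
  exact ⟨R', C, hC, fun z hz => h z (fun σ hσ =>
    ⟨(hz σ hσ).1, (hz σ hσ).2.mono (le_max_left _ _)⟩)⟩

end Pool.Agent.H.MP_e5d137_al.UB
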