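import Mathlib

/-!
# Left invariant trees on a free group are Cayley trees of bases
-/

namespace Pool.Agent.H.MP_e5d137_al.UB

open SimpleGraph

/-- The value of a letter. -/
def lval {F : Type} [Group F] {P : Set F} (x : P × Bool) : F :=
  cond x.2 (x.1 : F) (x.1 : F)⁻¹

theorem exists_chain_walk {F : Type} [Group F] {P : Set F} (Δ : SimpleGraph F)
    (hadj : ∀ (x : P × Bool) (u : F), Δ.Adj u (u * lval x))
    (hval : ∀ x y : P × Bool, lval x * lval y = 1 → x.1 = y.1 ∧ x.2 ≠ y.2) :
    ∀ L : List (P × Bool), FreeGroup.IsReduced L → ∀ u v : F, v = u * (L.map lval).prod →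
      ∃ w : Δ.Walk u v, w.length = L.length ∧ w.edges.IsChain (· ≠ ·) ∧
        ∀ a ∈ L.head?, w.edges.head? = some s(u, u * lval a) := by
  intro L
  induction L with
  | nil =>
    intro _ u v hv
    have hv' : v = u := by simpa using hv
    subst hv'
    exact ⟨Walk.nil, by simp, by simp, by simp⟩
  | cons a L ih =>
    intro hL u v hv
    have hL' : FreeGroup.IsReduced L := List.IsChain.tail hL
    obtain ⟨w, h1, h2, h3⟩ := ih hL' (u * lval a) v (by rw [hv]; simp [mul_assoc])
    refine ⟨Walk.cons (hadj a u) w, by simp [h1], ?_, ?_⟩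
    · rw [Walk.edges_cons, List.isChain_cons]
      refine ⟨?_, h2⟩
      intro y hy
      cases L with
      | nil =>
        have h4 : w.edges = [] := by
          rw [← List.length_eq_zero_iff, Walk.length_edges, h1]
          rfl
        rw [h4] at hy
        simp at hy
      | cons b L =>
        have h4 := h3 b (by simp)
        rw [h4] at hy
        have hy' : y = s(u * lval a, u * lval a * lval b) := by
          simpa using hy.symm
        subst hy'
        intro h5
        rw [Sym2.eq_iff] at h5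
        have h6 : u = u * lval a * lval b := by
          rcases h5 with h5 | h5
          · exact absurd h5.1 (hadj a u).ne
          · exact h5.1
        have h7 : lval a * lval b = 1 := by
          rw [mul_assoc] at h6
          exact (left_eq_mul.1 h6)
        obtain ⟨h8, h9⟩ := hval a b h7
        exact h9 ((FreeGroup.isReduced_cons_cons.1 hL).1 h8)
    · intro b hb
      have hb' : b = a := by simpa using hb.symm
      subst hb'
      simp

/-- A group with a left invariant tree structure without `2`-torsion is free, and the tree is the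
Cayley graph of a basis.

Proof.  Let `N = {s | Δ.Adj 1 s}`.  `N` is closed under inversion (`Adj 1 s → Adj s⁻¹ 1`), does
not contain `1`, and `s ≠ s⁻¹` for `s ∈ N` (otherwise `s * s = 1` and `s = 1`).  Choose a linear
order on `F` (for instance a well-ordering, `linearOrderOfSTO`/`WellOrderingRel`) and put
`P = {s ∈ N | s < s⁻¹}`; then for each `s ∈ N` exactly one of `s ∈ P`, `s⁻¹ ∈ P` holds.  Let
`ψ : FreeGroup P →* F` be the lift of the inclusion.  Surjective: `Δ` is connected, and a walk from
`1` to `u` writes `u` as a product of elements of `N`, each of which is in the image.  Injective: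
let `w ≠ 1` in the kernel, with reduced word `L = [(s_1, e_1), ..., (s_k, e_k)]`, `k ≥ 1`.  The
partial products `p_i = ψ (l_1 ... l_i)` form a walk in `Δ` (from `p_0 = 1` to `p_k = 1`), since
`p_i⁻¹ p_{i+1} ∈ N`.  Consecutive edges are different: `s(p_i, p_{i+1}) = s(p_{i+1}, p_{i+2})`
would give `p_i = p_{i+2}` (as `p_{i+1} ≠ p_{i+2}`), that is `s_{i+1}^{e_{i+1}} s_{i+2}^{e_{i+2}}
= 1`, so by the choice of `P` `s_{i+1} = s_{i+2}` and `e_{i+1} ≠ e_{i+2}`, contradicting
reducedness.  By `SimpleGraph.IsAcyclic.isPath_iff_isChain` the walk is a path, so it is not closed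
(`k ≥ 1`): contradiction.  (It is convenient to prove: for all `u` and all reduced `L` there is a
walk from `u` to `u * ψ (mk L)` of length `L.length` whose edges form an `≠`-chain, and whose
first edge is `s(u, u * l_1)`, by induction on `L`.) -/
theorem tree_free {F : Type} [Group F] (h2 : ∀ s : F, s * s = 1 → s = 1) (Δ : SimpleGraph F)
    (ht : Δ.IsTree) (hinv : ∀ u a b : F, Δ.Adj a b → Δ.Adj (u * a) (u * b)) :
    ∃ (P : Set F) (e : FreeGroup P ≃* F), (∀ p : P, e (FreeGroup.of p) = p) ∧
      ∀ s : F, Δ.Adj 1 s ↔ s ∈ P ∨ s⁻¹ ∈ P := by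
  classical
  have hN : ∀ s : F, Δ.Adj 1 s → Δ.Adj 1 s⁻¹ := by
    intro s hs
    have := hinv s⁻¹ _ _ hs
    simpa using this.symm
  have hne : ∀ s : F, Δ.Adj 1 s → s ≠ s⁻¹ := by
    intro s hs h
    have h3 : s = 1 := h2 s (by nth_rewrite 2 [h]; simp)
    rw [h3] at hs
    exact Δ.loopless.irrefl 1 hs
  let _ : LinearOrder F := linearOrderOfSTO (WellOrderingRel : F → F → Prop)
  obtain ⟨P, hPdef⟩ : ∃ P : Set F, P = {s | Δ.Adj 1 s ∧ s < s⁻¹} := ⟨_, rfl⟩
  have hP1 : ∀ s ∈ P, Δ.Adj 1 s ∧ s < s⁻¹ := by
    intro s hs; rw [hPdef] at hs; exact hs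
  have hP : ∀ s, Δ.Adj 1 s ↔ s ∈ P ∨ s⁻¹ ∈ P := by
    intro s
    constructor
    · intro hs
      rcases lt_or_gt_of_ne (hne s hs) with h | h
      · left; rw [hPdef]; exact ⟨hs, h⟩
      · right; rw [hPdef]; exact ⟨hN s hs, by rwa [inv_inv]⟩
    · rintro (h | h)
      · exact (hP1 _ h).1
      · have := hN _ (hP1 _ h).1
        rwa [inv_inv] at this
  have hadj1 : ∀ x : P × Bool, Δ.Adj 1 (lval x) := by
    rintro ⟨x, b⟩
    cases b
    · exact hN _ (hP1 x x.2).1
    · exact (hP1 x x.2).1
  have hadj : ∀ (x : P × Bool) (u : F), Δ.Adj u (u * lval x) := by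
    intro x u
    have := hinv u _ _ (hadj1 x)
    rwa [mul_one] at this
  have hval : ∀ x y : P × Bool, lval x * lval y = 1 → x.1 = y.1 ∧ x.2 ≠ y.2 := by
    rintro ⟨x, b⟩ ⟨y, b'⟩ h
    have h3 := (hP1 x x.2).2
    have h4 := (hP1 y y.2).2
    have h5 := eq_inv_of_mul_eq_one_left h
    cases b <;> cases b' <;> simp only [lval, cond_true, cond_false, inv_inv] at h5
    · -- x⁻¹ = y
      rw [← h5, inv_inv] at h4
      exact absurd h3 (not_lt.2 h4.le)
    · have : (x : F) = y := inv_injective h5
      exact ⟨Subtype.ext this, by simp⟩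
    · exact ⟨Subtype.ext h5, by simp⟩
    · rw [h5, inv_inv] at h3
      exact absurd h3 (not_lt.2 h4.le)
  let ψ : FreeGroup P →* F := FreeGroup.lift (fun p : P => (p : F))
  have hψ : ∀ L : List (P × Bool), ψ (FreeGroup.mk L) = (L.map lval).prod := by
    intro L
    exact FreeGroup.lift_mk
  have hsurj : Function.Surjective ψ := by
    have h3 : ∀ u v : F, Δ.Walk u v → u ∈ ψ.range → v ∈ ψ.range := by
      intro u v w
      induction w with
      | nil => exact id
      | @cons a b _ h p ih =>
        intro hu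
        apply ih
        have h4 : Δ.Adj 1 (a⁻¹ * b) := by
          have := hinv a⁻¹ _ _ h
          rwa [inv_mul_cancel] at this
        have h5 : a⁻¹ * b ∈ ψ.range := by
          rcases (hP _).1 h4 with h6 | h6
          · exact ⟨FreeGroup.of ⟨_, h6⟩, FreeGroup.lift_apply_of⟩
          · have h7 : (a⁻¹ * b)⁻¹ ∈ ψ.range := ⟨FreeGroup.of ⟨_, h6⟩, FreeGroup.lift_apply_of⟩
            exact inv_mem_iff.1 h7
        have := mul_mem hu h5
        rwa [mul_inv_cancel_left] at this
    intro u
    obtain ⟨w⟩ := ht.connected.preconnected 1 u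
    exact h3 1 u w (one_mem _)
  have hinj : Function.Injective ψ := by
    rw [injective_iff_map_eq_one]
    intro x hx
    have hL : FreeGroup.IsReduced x.toWord := FreeGroup.isReduced_toWord
    obtain ⟨w, h3, h4, -⟩ := exists_chain_walk Δ hadj hval x.toWord hL 1 1 (by
      rw [one_mul, ← hψ, FreeGroup.mk_toWord, hx])
    have h5 : w.IsPath := (ht.isAcyclic.isPath_iff_isChain w).2 h4
    have h6 : w.Nil := Walk.isPath_iff_nil.1 h5
    have h7 : x.toWord = [] := by
      rw [← List.length_eq_zero_iff, ← h3]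
      exact Walk.length_eq_zero_iff.2 h6
    exact FreeGroup.toWord_eq_nil_iff.1 h7
  refine ⟨P, MulEquiv.ofBijective ψ ⟨hinj, hsurj⟩, ?_, hP⟩
  intro p
  exact FreeGroup.lift_apply_of

end Pool.Agent.H.MP_e5d137_al.UB
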