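import Pool.Agent.H.MP_e5d137_al.UB.Dg0

/-!
# The size function on the automorphism group
-/

namespace Pool.Agent.H.MP_e5d137_al.UB

variable {n : ℕ}

theorem Dg_norm_mk_le (φ : FreeGroup (Fin n) →* FreeGroup (Fin n)) (C : ℕ)
    (h : ∀ i, (φ (FreeGroup.of i)).norm ≤ C) (L : List (Fin n × Bool)) :
    (φ (FreeGroup.mk L)).norm ≤ C * L.length := by
  induction L with
  | nil =>
    have h1 : (FreeGroup.mk [] : FreeGroup (Fin n)) = 1 := rfl
    rw [h1, map_one, FreeGroup.norm_one]
    exact Nat.zero_le _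
  | cons x L ih =>
    have h1 : (FreeGroup.mk (x :: L) : FreeGroup (Fin n)) = FreeGroup.mk [x] * FreeGroup.mk L := by
      rw [FreeGroup.mul_mk]; rfl
    have h2 : (φ (FreeGroup.mk [x])).norm ≤ C := by
      obtain ⟨i, b⟩ := x
      cases b with
      | true => exact h i
      | false =>
        have h3 : (FreeGroup.mk [(i, false)] : FreeGroup (Fin n)) = (FreeGroup.of i)⁻¹ := rfl
        rw [h3, map_inv, FreeGroup.norm_inv_eq]
        exact h i
    rw [h1, map_mul, List.length_cons]
    calc (φ (FreeGroup.mk [x]) * φ (FreeGroup.mk L)).norm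
        ≤ (φ (FreeGroup.mk [x])).norm + (φ (FreeGroup.mk L)).norm := FreeGroup.norm_mul_le _ _
      _ ≤ C + C * L.length := add_le_add h2 ih
      _ = C * (L.length + 1) := by ring

/-- If an automorphism (or endomorphism) sends every generator to a word of length at most `C`,
then it multiplies lengths by at most `C`. -/
theorem norm_map_le (φ : FreeGroup (Fin n) →* FreeGroup (Fin n)) (C : ℕ)
    (h : ∀ i, (φ (FreeGroup.of i)).norm ≤ C) (w : FreeGroup (Fin n)) :
    (φ w).norm ≤ C * w.norm := by
  have h1 := Dg_norm_mk_le φ C h w.toWord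
  rw [FreeGroup.mk_toWord] at h1
  exact h1

/-- The size of an automorphism: the maximum of `1` and the lengths of the images of the
generators under it and its inverse. -/
noncomputable def EA (g : MulAut (FreeGroup (Fin n))) : ℕ :=
  max 1 (Finset.univ.sup fun i => max (g (FreeGroup.of i)).norm (g⁻¹ (FreeGroup.of i)).norm)

theorem norm_le_EA (g : MulAut (FreeGroup (Fin n))) (i : Fin n) :
    (g (FreeGroup.of i)).norm ≤ EA g ∧ (g⁻¹ (FreeGroup.of i)).norm ≤ EA g := by
  have h1 : max (g (FreeGroup.of i)).norm (g⁻¹ (FreeGroup.of i)).norm ≤ EA g :=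
    le_trans (Finset.le_sup (f := fun i => max (g (FreeGroup.of i)).norm
      (g⁻¹ (FreeGroup.of i)).norm) (Finset.mem_univ i)) (le_max_right _ _)
  exact ⟨le_trans (le_max_left _ _) h1, le_trans (le_max_right _ _) h1⟩

theorem EA_le {g : MulAut (FreeGroup (Fin n))} {C : ℕ} (hC : 1 ≤ C)
    (h : ∀ i, (g (FreeGroup.of i)).norm ≤ C) (h' : ∀ i, (g⁻¹ (FreeGroup.of i)).norm ≤ C) :
    EA g ≤ C :=
  max_le hC (Finset.sup_le fun i _ => max_le (h i) (h' i))

theorem Dg_map_le (g : MulAut (FreeGroup (Fin n))) (w : FreeGroup (Fin n)) :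
    (g w).norm ≤ EA g * w.norm :=
  norm_map_le g.toMonoidHom (EA g) (fun i => (norm_le_EA g i).1) w

theorem Dg_map_inv_le (g : MulAut (FreeGroup (Fin n))) (w : FreeGroup (Fin n)) :
    (g⁻¹ w).norm ≤ EA g * w.norm :=
  norm_map_le (g⁻¹).toMonoidHom (EA g) (fun i => (norm_le_EA g i).2) w

theorem Dg_finite (R : ℕ) : {w : FreeGroup (Fin n) | w.norm ≤ R}.Finite := by
  have h1 : {l : List (Fin n × Bool) | l.length ≤ R}.Finite := List.finite_length_le _ R
  exact h1.preimage (FreeGroup.toWord_injective.injOn)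

/-- `EA` is a size function (`fin`: an automorphism is determined by the images of the
generators, which lie in the finite set of words of length `≤ R`). -/
theorem EA_szf : Szf (EA (n := n)) where
  one := by
    refine le_antisymm (EA_le le_rfl (fun i => ?_) fun i => ?_) (le_max_left _ _)
    · rw [MulAut.one_apply, FreeGroup.norm_of]
    · rw [inv_one, MulAut.one_apply, FreeGroup.norm_of]
  pos := fun g => le_max_left _ _
  mul := fun g h => by
    have hg : 1 ≤ EA g := le_max_left _ _
    have hh : 1 ≤ EA h := le_max_left _ _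
    refine EA_le (Nat.one_le_iff_ne_zero.2 (by positivity)) (fun i => ?_) fun i => ?_
    · rw [MulAut.mul_apply]
      exact (Dg_map_le g _).trans (Nat.mul_le_mul_left _ (norm_le_EA h i).1)
    · rw [mul_inv_rev, MulAut.mul_apply, mul_comm (EA g)]
      exact (Dg_map_inv_le h _).trans (Nat.mul_le_mul_left _ (norm_le_EA g i).2)
  inv := fun g => by
    unfold EA
    simp only [inv_inv]
    congr 1
    exact Finset.sup_congr rfl fun i _ => max_comm _ _
  fin := fun R => by
    have h1 : (Set.univ.pi fun _ : Fin n => {w : FreeGroup (Fin n) | w.norm ≤ R}).Finite :=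
      Set.Finite.pi fun _ => Dg_finite R
    have h2 : Function.Injective fun (g : MulAut (FreeGroup (Fin n))) (i : Fin n) =>
        g (FreeGroup.of i) := by
      intro g h hgh
      have h3 : g.toMonoidHom = h.toMonoidHom := FreeGroup.ext_hom _ _ fun i => congrFun hgh i
      exact MulEquiv.ext fun x => DFunLike.congr_fun h3 x
    refine (h1.preimage h2.injOn).subset ?_
    intro g hg
    have hg' : EA g ≤ R := hg
    exact fun i _ => (norm_le_EA g i).1.trans hg'

/-- change of metric: `dg h ≤ EA (h⁻¹ g) * dg g` (`h⁻¹ (w) = (h⁻¹ g) (g⁻¹ w)` and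
`norm_map_le`) -/
theorem dg_change (g h : MulAut (FreeGroup (Fin n))) (a b : FreeGroup (Fin n)) :
    dg h a b ≤ EA (h⁻¹ * g) * dg g a b := by
  unfold dg
  have h1 : h⁻¹ (a⁻¹ * b) = (h⁻¹ * g) (g⁻¹ (a⁻¹ * b)) := by
    rw [MulAut.mul_apply, MulAut.apply_inv_self]
  rw [h1]
  exact Dg_map_le _ _

end Pool.Agent.H.MP_e5d137_al.UB
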