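import Pool.Agent.H.MP_e5d137_al.UB.SObP

/-!
# The subdivided standard tree: dependence on the metric
-/

namespace Pool.Agent.H.MP_e5d137_al.UB

open SimpleGraph

variable {n : ℕ} {d d' : FreeGroup (Fin n) → FreeGroup (Fin n) → ℕ}

/-- A discrete path from `a` to `b` with steps at most `R` passes within distance `R` of every
point of the geodesic from `a` to `b`.

Proof.  Let `l_0 = a, ..., l_k = b` be the path, `t = d a c`.  Let `l_m` be the last point with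
`d a l_m - d l_m c ≤ ...`; more precisely use the function
`s x = ((d a x : ℤ) - d x b)`, with `s a = - d a b ≤ s c = t - (d a b - t) ≤ s b = d a b`.  Let
`m` be the last index with `s (l_m) ≤ s c` and `m < k` (if `m = k` then `c = b = l_k`).  Put
`x = l_m`, `y = l_{m+1}`, so `s x ≤ s c < s y`.  By the four point condition applied to
`a, x, b, c`: `d a b + d x c ≤ max (d a x + d b c) (d a c + d b x)`, and `s x ≤ s c` says that
`d a x + d c b ≤ d x b + d a c`, so `d x c ≤ d a c + d x b - d a b`, i.e.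
`d x c ≤ d x b - d c b`; similarly `s c < s y` gives `d y c ≤ d a y - d a c`.  So
`d x c + d y c ≤ d x b - d c b + d a y - d a c = (d x b + d a y) - d a b`, and the four point
condition for `x, b, a, y`: `d x b + d a y ≤ max (d x a + d b y) (d x y + d a b)`.  If the maximum
is the second term we get `d x c + d y c ≤ d x y ≤ R`.  If it is the first:
`d x b + d a y ≤ d a x + d y b`, i.e. `s y ≤ s x`, a contradiction to `s x ≤ s c < s y`. -/
theorem cover (hd : LTM d) {a b c : FreeGroup (Fin n)} (hc : d a c + d c b = d a b) (R : ℕ)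
    (l : ℕ → FreeGroup (Fin n)) (k : ℕ) (h0 : l 0 = a) (hk : l k = b)
    (hl : ∀ j < k, d (l j) (l (j + 1)) ≤ R) : ∃ j ≤ k, d (l j) c ≤ R := by
  by_cases H : ∃ m < k, (d a (l m) + d c b ≤ d (l m) b + d a c) ∧
      ¬ (d a (l (m + 1)) + d c b ≤ d (l (m + 1)) b + d a c)
  · obtain ⟨m, hm, h1, h2⟩ := H
    refine ⟨m, hm.le, ?_⟩
    have hR := hl m hm
    have f1 := hd.four a b (l m) c
    have f2 := hd.four a b (l (m + 1)) c
    have f3 := hd.four (l m) b a (l (m + 1))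
    have s1 := hd.symm b c
    have s2 := hd.symm b (l m)
    have s3 := hd.symm b (l (m + 1))
    have s4 := hd.symm (l m) a
    have s5 := hd.symm b a
    have g1 : d a b + d (l m) c ≤ d a c + d (l m) b := by omega
    have g2 : d a b + d (l (m + 1)) c ≤ d a (l (m + 1)) + d c b := by omega
    have g3 : d (l m) b + d a (l (m + 1)) ≤ d (l m) (l (m + 1)) + d a b := by omega
    omega
  · have key : ∀ m ≤ k, d a (l m) + d c b ≤ d (l m) b + d a c := by
      intro m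
      induction m with
      | zero =>
        intro _
        rw [h0, hd.self]
        omega
      | succ m ih =>
        intro hm
        by_contra hcon
        exact H ⟨m, by omega, ih (by omega), hcon⟩
    have h1 := key k le_rfl
    rw [hk, hd.self b] at h1
    refine ⟨k, le_rfl, ?_⟩
    rw [hk]
    have s1 := hd.symm b c
    omega

variable {D e e' : FreeGroup (Fin n) → FreeGroup (Fin n) → ℕ}

/-- the relation between the vertices -/
def SObE_Rel (D : FreeGroup (Fin n) → FreeGroup (Fin n) → ℕ) (he : LTM e) (he' : LTM e') (κ : ℕ)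
    (a : SV e) (a' : SV e') : Prop :=
  (∃ u, a = ⟨u, none⟩ ∧ a' = ⟨u, none⟩) ∨
  ∃ (u : FreeGroup (Fin n)) (i : Fin n) (j j' : ℕ), 0 < j ∧ j < el e i ∧ j' ≤ el e' i ∧
    a = pt u i j ∧ a' = pt u i j' ∧ D (gm he i j) (gm he' i j') ≤ κ

lemma SObE_pt_ne (u v : FreeGroup (Fin n)) (i : Fin n) {j : ℕ} (h1 : 0 < j) (h2 : j < el e i) :
    (⟨v, none⟩ : SV e) ≠ pt u i j := by
  intro h
  unfold pt at h
  rw [dif_pos ⟨h1, h2⟩] at h
  exact absurd (congrArg SV.p h) (by simp)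

lemma SObE_gm_zero (he : LTM e) (i : Fin n) : gm he i 0 = 1 :=
  (he.eq0 _ _ (gm_spec he (Nat.zero_le _)).1).symm

lemma SObE_gm_el (he : LTM e) (i : Fin n) : gm he i (el e i) = FreeGroup.of i := by
  have h := (gm_spec he (le_refl (el e i))).2
  rw [Nat.sub_self] at h
  exact he.eq0 _ _ h

lemma SObE_rel_pt (hD : LTM D) (he : LTM e) (he' : LTM e') {κ : ℕ} {φ : SV e → SV e'}
    (hφ : ∀ x, SObE_Rel D he he' κ x (φ x)) (u : FreeGroup (Fin n)) (i : Fin n) {j : ℕ}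
    (hj : j ≤ el e i) :
    ∃ j' ≤ el e' i, φ (pt u i j) = pt u i j' ∧ D (gm he i j) (gm he' i j') ≤ κ := by
  have hnone : ∀ v : FreeGroup (Fin n), φ ⟨v, none⟩ = ⟨v, none⟩ := by
    intro v
    rcases hφ ⟨v, none⟩ with ⟨w, h1, h2⟩ | ⟨w, i', j1, j2, h1, h2, h3, h4, h5, h6⟩
    · have : v = w := congrArg SV.u h1
      rw [h2, this]
    · exact absurd h4 (SObE_pt_ne _ _ _ h1 h2)
  rcases Nat.eq_zero_or_pos j with rfl | hj0
  · refine ⟨0, Nat.zero_le _, ?_, ?_⟩
    · rw [pt_zero, pt_zero, hnone]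
    · rw [SObE_gm_zero, SObE_gm_zero, hD.self]
      exact Nat.zero_le _
  rcases Nat.lt_or_ge j (el e i) with hj1 | hj1
  · rcases hφ (pt u i j) with ⟨w, h1, h2⟩ | ⟨w, i', j1, j2, h1, h2, h3, h4, h5, h6⟩
    · exact absurd h1.symm (SObE_pt_ne _ _ _ hj0 hj1)
    · have h7 : (pt u i j : SV e) = pt w i' j1 := h4
      unfold pt at h7
      rw [dif_pos ⟨hj0, hj1⟩, dif_pos ⟨h1, h2⟩] at h7
      simp only [SV.mk.injEq, Option.some.injEq, Subtype.mk.injEq, Prod.mk.injEq] at h7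
      obtain ⟨rfl, rfl, rfl⟩ := h7
      exact ⟨j2, h3, h5, h6⟩
  · have hj2 : j = el e i := le_antisymm hj hj1
    subst hj2
    refine ⟨el e' i, le_rfl, ?_, ?_⟩
    · rw [pt_el he, pt_el he', hnone]
    · rw [SObE_gm_el, SObE_gm_el, hD.self]
      exact Nat.zero_le _

lemma SObE_gm_step (he : LTM e) (i : Fin n) {j : ℕ} (hj : j < el e i) :
    e (gm he i j) (gm he i (j + 1)) ≤ 1 := by
  have h := SOb_fine he (pt 1 i j) (pt 1 i (j + 1)) (sG_adj he 1 i hj)
  have h' : e (sf he (pt 1 i j)) (sf he (pt 1 i (j + 1))) ≤ 1 := h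
  rwa [sf_pt he 1 i hj.le, sf_pt he 1 i hj, one_mul, one_mul] at h'

lemma SObE_near (he : LTM e) (he' : LTM e') {C : ℕ} (h1 : ∀ a b, D a b ≤ C * e a b)
    (h2 : ∀ a b, e a b ≤ C * D a b) (h3 : ∀ a b, D a b ≤ C * e' a b) (i : Fin n) {j : ℕ}
    (hj : j ≤ el e i) : ∃ j' ≤ el e' i, D (gm he i j) (gm he' i j') ≤ C * (C * (C * 1)) := by
  have hs := gm_spec he hj
  have hc : e 1 (gm he i j) + e (gm he i j) (FreeGroup.of i) = e 1 (FreeGroup.of i) := by
    rw [hs.1, hs.2]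
    show j + (el e i - j) = el e i
    omega
  obtain ⟨j', hj', h⟩ := cover he hc (C * (C * 1)) (fun t => gm he' i t) (el e' i)
    (SObE_gm_zero he' i) (SObE_gm_el he' i) (fun t ht =>
      (h2 _ _).trans (Nat.mul_le_mul_left _ ((h3 _ _).trans
        (Nat.mul_le_mul_left _ (SObE_gm_step he' i ht)))))
  refine ⟨j', hj', (h1 _ _).trans (Nat.mul_le_mul_left _ ?_)⟩
  rw [he.symm]
  exact h

lemma SObE_exists (he : LTM e) (he' : LTM e') {κ : ℕ}
    (h : ∀ (i : Fin n) (j : ℕ), j ≤ el e i →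
      ∃ j' ≤ el e' i, D (gm he i j) (gm he' i j') ≤ κ) :
    ∃ φ : SV e → SV e', (∀ (u : FreeGroup (Fin n)) x, φ (u • x) = u • φ x) ∧
      (∀ x, SObE_Rel D he he' κ x (φ x)) ∧ φ ⟨1, none⟩ = ⟨1, none⟩ := by
  refine eqv_choice (SOb he).free (SObE_Rel D he he' κ) ?_ ?_ ⟨1, none⟩ ⟨1, none⟩
    (Or.inl ⟨1, rfl, rfl⟩)
  · rintro u x y (⟨v, rfl, rfl⟩ | ⟨v, i, j, j', h1, h2, h3, rfl, rfl, h6⟩)
    · exact Or.inl ⟨u * v, rfl, rfl⟩
    · exact Or.inr ⟨u * v, i, j, j', h1, h2, h3, pt_smul _ _ _ _, pt_smul _ _ _ _, h6⟩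
  · rintro ⟨u, _ | q⟩
    · exact ⟨⟨u, none⟩, Or.inl ⟨u, rfl, rfl⟩⟩
    · obtain ⟨j', hj', h'⟩ := h q.1.1 q.1.2 q.2.2.le
      exact ⟨pt u q.1.1 j', Or.inr ⟨u, q.1.1, q.1.2, j', q.2.1, q.2.2, hj', pt_mid u q, rfl, h'⟩⟩

lemma SObE_lip (he : LTM e) (i : Fin n) {j j' : ℕ} (hj : j ≤ el e i) (hj' : j' ≤ el e i) :
    j' ≤ j + e (gm he i j) (gm he i j') := by
  have h := he.tri 1 (gm he i j) (gm he i j')
  rw [(gm_spec he hj).1, (gm_spec he hj').1] at h
  exact h

/-- two points of one edge, `D`-version of `SOb_seg` -/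
lemma SObE_seg (he : LTM e) {C k : ℕ} (h1 : ∀ a b, D a b ≤ C * e a b)
    (h2 : ∀ a b, e a b ≤ C * D a b) (u : FreeGroup (Fin n)) (i : Fin n) {j j' : ℕ}
    (hj : j ≤ el e i) (hj' : j' ≤ el e i) (h : D (gm he i j) (gm he i j') ≤ k) :
    Cn D (SOb he) (u * gm he i j) (C * (C * k)) (pt u i j) (pt u i j') := by
  have h3 : e (gm he i j) (gm he i j') ≤ C * k := (h2 _ _).trans (Nat.mul_le_mul_left _ h)
  have h4 := SObE_lip he i hj hj'
  have h5 := SObE_lip he i hj' hj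
  rw [he.symm] at h5
  exact (SOb_seg he u i hj hj' (by omega) (by omega)).change h1

lemma SObE_ctl (hD : LTM D) (he : LTM e) (he' : LTM e') {C κ : ℕ}
    (h1 : ∀ a b, D a b ≤ C * e a b) (h3 : ∀ a b, D a b ≤ C * e' a b)
    (h4 : ∀ a b, e' a b ≤ C * D a b) {φ : SV e → SV e'}
    (hφ1 : ∀ (u : FreeGroup (Fin n)) x, φ (u • x) = u • φ x)
    (hφ2 : ∀ x, SObE_Rel D he he' κ x (φ x)) (hφ3 : φ ⟨1, none⟩ = ⟨1, none⟩) :
    Ctl D (SOb he) (SOb he') (C * (C * (2 * κ + C)) + κ) φ := by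
  have hmain : ∀ (u : FreeGroup (Fin n)) (i : Fin n) (j1 j2 : ℕ), j1 ≤ el e i → j2 ≤ el e i →
      D (gm he i j1) (gm he i j2) ≤ C →
      Cn D (SOb he') (u * gm he i j1) (C * (C * (2 * κ + C)) + κ) (φ (pt u i j1))
        (φ (pt u i j2)) := by
    intro u i j1 j2 hj1 hj2 hle
    obtain ⟨k1, hk1, e1, f1⟩ := SObE_rel_pt hD he he' hφ2 u i hj1
    obtain ⟨k2, hk2, e2, f2⟩ := SObE_rel_pt hD he he' hφ2 u i hj2
    rw [e1, e2]
    have t1 := hD.tri (gm he' i k1) (gm he i j1) (gm he' i k2)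
    have t2 := hD.tri (gm he i j1) (gm he i j2) (gm he' i k2)
    rw [hD.symm] at f1
    have h5 : D (gm he' i k1) (gm he' i k2) ≤ 2 * κ + C := by omega
    have h6 := SObE_seg he' h3 h4 u i hk1 hk2 h5
    refine h6.center hD ?_
    rw [hD.inv, hD.symm]
    exact f1
  refine ⟨hφ1, hφ3, fun x => ?_, fun x y hxy => ?_⟩
  · rcases hφ2 x with ⟨v, h5, h6⟩ | ⟨v, i, j, j', g1, g2, g3, g4, g5, g6⟩
    · show D (sf he x) (sf he' (φ x)) ≤ _
      rw [h6, h5]
      show D v v ≤ _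
      rw [hD.self]
      exact Nat.zero_le _
    · show D (sf he x) (sf he' (φ x)) ≤ _
      rw [g5, g4, sf_pt he v i g2.le, sf_pt he' v i g3, hD.inv]
      omega
  · obtain ⟨-, u, i, j, hj, h⟩ := hxy
    have h5 : D (gm he i j) (gm he i (j + 1)) ≤ C := by
      refine (h1 _ _).trans ?_
      have := Nat.mul_le_mul_left C (SObE_gm_step he i hj)
      omega
    rcases h with ⟨rfl, rfl⟩ | ⟨rfl, rfl⟩
    · show Cn D (SOb he') (sf he (pt u i j)) _ _ _
      rw [sf_pt he u i hj.le]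
      exact hmain u i j (j + 1) hj.le hj h5
    · show Cn D (SOb he') (sf he (pt u i (j + 1))) _ _ _
      rw [sf_pt he u i hj]
      exact hmain u i (j + 1) j hj hj.le (by rw [hD.symm]; exact h5)

lemma SObE_comp (hD : LTM D) (he : LTM e) (he' : LTM e') {C κ : ℕ}
    (h1 : ∀ a b, D a b ≤ C * e a b) (h2 : ∀ a b, e a b ≤ C * D a b)
    {φ : SV e → SV e'} {ψ : SV e' → SV e}
    (hφ : ∀ x, SObE_Rel D he he' κ x (φ x)) (hψ : ∀ x, SObE_Rel D he' he κ x (ψ x)) (x : SV e) :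
    Cn D (SOb he) (sf he x) (C * (C * (2 * κ))) (ψ (φ x)) x := by
  rcases hφ x with ⟨v, h5, h6⟩ | ⟨v, i, j, j', g1, g2, g3, g4, g5, g6⟩
  · rcases hψ ⟨v, none⟩ with ⟨w, h7, h8⟩ | ⟨w, i', j1, j2, k1, k2, k3, k4, k5, k6⟩
    · have h9 : v = w := congrArg SV.u h7
      rw [h6, h8, ← h9, h5]
      refine Cn.refl ?_
      show D v v ≤ _
      rw [hD.self]
      exact Nat.zero_le _
    · exact absurd k4 (SObE_pt_ne _ _ _ k1 k2)
  · obtain ⟨k, hk, e1, f1⟩ := SObE_rel_pt hD he' he hψ v i g3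
    rw [g5, e1, g4, sf_pt he v i g2.le]
    have t1 := hD.tri (gm he i j) (gm he' i j') (gm he i k)
    exact (SObE_seg he h1 h2 v i g2.le hk (show D (gm he i j) (gm he i k) ≤ 2 * κ by omega)).symm

/-- The objects of comparable metrics are equivalent.

Proof.  By `cover` applied to the `d'`-geodesic `l j = gm hd' i j`, `j ≤ el d' i`, whose steps
have `d`-length at most `C` (`SOb_fine` or its proof), for each `j ≤ el d i` there is
`j' ≤ el d' i` with `d (gm hd i j) (gm hd' i j') ≤ C`.  For the opposite direction: for each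
`j' ≤ el d' i` there is `j ≤ el d i` with `d' (gm hd' i j') (gm hd i j) ≤ C`, so
`d (gm hd' i j') (gm hd i j) ≤ C * C`.  Let `κ = C + C * C` and consider the relation
`Rel a a'` between `SV d` and `SV d'`: either `a = ⟨u, none⟩`, `a' = ⟨u, none⟩` for some `u`, or
`a = pt u i j`, `a' = pt u i j'` for some `u, i`, `0 < j < el d i`, `j' ≤ el d' i` with
`d (gm hd i j) (gm hd' i j') ≤ κ`.  It is invariant, and `eqv_choice` gives an equivariant `φ` with
`Rel a (φ a)` (and `φ b = b'`); similarly `ψ`, with `j` and `j'` exchanged (`0 < j' < el d' i`).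
In all cases, for `j ≤ el d i`, `φ (pt u i j) = pt u i j'` for some `j' ≤ el d' i` with
`d (gm hd i j) (gm hd' i j') ≤ κ` (for `j = 0`: `j' = 0`, for `j = el d i`: `j' = el d' i`, see
`pt_zero`, `pt_el`; here `gm` of `0` is `1` and `gm` of the last index is `x_i`).
Controlled: `disp` is clear.  `edge`: for `pt u i j`, `pt u i (j + 1)` the images are `pt u i j'`,
`pt u i j''` and `d (gm hd' i j') (gm hd' i j'') ≤ 2 * κ + 1`, so the `d'`-distance, which is
`|j' - j''|`, is at most `C * (2 * κ + 1)`; `SOb_seg` for `d'` gives a connection with `d'`-distance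
at most `C * (2 * κ + 1)` from `u * gm hd' i j'`, and so with `d`-distance at most
`C * (C * (2 * κ + 1))` from this point, and at most `C * (C * (2 * κ + 1)) + κ` from
`u * gm hd i j`.  The same for `ψ` (with `C = 1` in the role of the comparison of `d` with itself).
Composites: `ψ (φ (pt u i j)) = pt u i j*` with `d (gm hd i j) (gm hd i j*) ≤ 2 * κ`, so
`|j - j*| ≤ 2 * κ` and `SOb_seg` applies; similarly for `φ ∘ ψ`:
`d (gm hd' i j') (gm hd' i j'*) ≤ 2 * κ`, `|j' - j'*| ≤ C * (2 * κ)` and the connection is within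
`C * (C * (2 * κ))` in `d`. -/
theorem SOb_eqv (C : ℕ) : ∃ K : ℕ, ∀ (d d' : FreeGroup (Fin n) → FreeGroup (Fin n) → ℕ)
    (hd : LTM d) (hd' : LTM d'), (∀ a b, d a b ≤ C * d' a b) → (∀ a b, d' a b ≤ C * d a b) →
    Eqv d (SOb hd) (SOb hd') K := by
  obtain ⟨κ, hκ⟩ : ∃ κ, κ = (C + 1) * ((C + 1) * ((C + 1) * 1)) := ⟨_, rfl⟩
  refine ⟨(C + 1) * ((C + 1) * (2 * κ + (C + 1))) + κ, fun d d' hd hd' H1 H2 => ?_⟩
  have h1 : ∀ a b, d a b ≤ (C + 1) * d a b := fun a b => Nat.le_mul_of_pos_left _ (by omega)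
  have h2 : ∀ a b, d a b ≤ (C + 1) * d' a b := fun a b =>
    (H1 a b).trans (Nat.mul_le_mul_right _ (by omega))
  have h3 : ∀ a b, d' a b ≤ (C + 1) * d a b := fun a b =>
    (H2 a b).trans (Nat.mul_le_mul_right _ (by omega))
  obtain ⟨φ, hφ1, hφ2, hφ3⟩ := SObE_exists (D := d) (κ := κ) hd hd' (fun i j hj => by
    rw [hκ]
    exact SObE_near hd hd' h1 h1 h2 i hj)
  obtain ⟨ψ, hψ1, hψ2, hψ3⟩ := SObE_exists (D := d) (κ := κ) hd' hd (fun i j hj => by
    rw [hκ]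
    exact SObE_near hd' hd h2 h3 h1 i hj)
  have hle : (C + 1) * ((C + 1) * (2 * κ)) ≤ (C + 1) * ((C + 1) * (2 * κ + (C + 1))) + κ := by
    refine le_trans ?_ (Nat.le_add_right _ _)
    exact Nat.mul_le_mul_left _ (Nat.mul_le_mul_left _ (by omega))
  refine ⟨φ, ψ, SObE_ctl hd hd hd' h1 h2 h3 hφ1 hφ2 hφ3, SObE_ctl hd hd' hd h2 h1 h1 hψ1 hψ2 hψ3,
    fun x => ?_, fun x' => ?_⟩
  · exact (SObE_comp hd hd hd' h1 h1 hφ2 hψ2 x).mono hle
  · exact (SObE_comp hd hd' hd h2 h3 hψ2 hφ2 x').mono hle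

end Pool.Agent.H.MP_e5d137_al.UB
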