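import Pool.Agent.H.MP_e5d137_al.UB.Fl
import Pool.Agent.H.MP_e5d137_al.UB.Dg
import Pool.Agent.H.MP_e5d137_al.UB.SObE

/-!
# Contracting cycles of objects
-/

namespace Pool.Agent.H.MP_e5d137_al.UB

open Finsupp SimpleGraph

variable {n : ℕ}

/-- `FreeGroup (Fin n)` -/
abbrev Fn (n : ℕ) : Type := FreeGroup (Fin n)

/-- `MulAut (FreeGroup (Fin n))` -/
abbrev An (n : ℕ) : Type := MulAut (FreeGroup (Fin n))

/-- objects with bounded parameters relative to the metric of `g` -/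
structure Ent (g : An n) (r s : ℕ) (A : Ob (Fn n)) : Prop where
  fine : Fine (dg g) A r
  sz : Sz (dg g) A s
  orb : Orb A s
  len : Len A (Set.range FreeGroup.of) s

/-- lists of objects with bounded parameters relative to the metric of `g` -/
structure Gd (g : An n) (r K s : ℕ) (τ : List (Ob (Fn n))) : Prop where
  ent : ∀ A ∈ τ, Ent g r s A
  eqv : ∀ A ∈ τ, ∀ B ∈ τ, Eqv (dg g) A B K

lemma Ent.mono {g : An n} {r r' s s' : ℕ} {A : Ob (Fn n)} (h : Ent g r s A) (hr : r ≤ r')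
    (hs : s ≤ s') : Ent g r' s' A where
  fine x y hxy := (h.fine x y hxy).trans hr
  sz := ⟨fun x => (h.sz.pt x).mono hs, fun a a' haa => (h.sz.gen a a' haa).mono hs⟩
  orb := by
    obtain ⟨Q, hQ, hQ'⟩ := h.orb
    exact ⟨Q, hQ.trans hs, hQ'⟩
  len u hu := by
    obtain ⟨w, hw⟩ := h.len u hu
    exact ⟨w, hw.trans hs⟩

lemma Gd.mono {g : An n} {r r' K K' s s' : ℕ} {τ : List (Ob (Fn n))} (h : Gd g r K s τ)
    (hr : r ≤ r') (hK : K ≤ K') (hs : s ≤ s') : Gd g r' K' s' τ :=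
  ⟨fun A hA => (h.ent A hA).mono hr hs, fun A hA B hB => (h.eqv A hA B hB).mono hK⟩

/-- the flow, as a map on all objects -/
noncomputable def Fw {F : Type} [Group F] {d : F → F → ℕ} (hd : LTM d) (r t : ℕ) (S : Ob F) :
    Ob F :=
  open Classical in if h : Fine d S r ∧ r ≤ t then fl hd S r t h.1 h.2 else S

lemma Fw_eq {F : Type} [Group F] {d : F → F → ℕ} (hd : LTM d) {r t : ℕ} {S : Ob F}
    (hf : Fine d S r) (hrt : r ≤ t) : Fw hd r t S = fl hd S r t hf hrt := by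
  unfold Fw
  rw [dif_pos ⟨hf, hrt⟩]

/-- the contraction -/
noncomputable def HZ {F : Type} [Group F] {d : F → F → ℕ} (hd : LTM d) (r N : ℕ)
    (z : Ch (Ob F)) : Ch (Ob F) :=
  pr (fun x => x) (Fw hd r r) z
    + ∑ t ∈ Finset.range N, pr (Fw hd r (r + t)) (Fw hd r (r + (t + 1))) z
    - cn (TOb hd) (mp (Fw hd r (r + N)) z)

lemma bd_HZ {F : Type} [Group F] {d : F → F → ℕ} (hd : LTM d) (r N : ℕ)
    (z : Ch (Ob F)) (hz : bd z = 0) : bd (HZ hd r N z) = - z := by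
  have h1 : ∀ f f' : Ob F → Ob F, bd (pr f f' z) = mp f' z - mp f z := by
    intro f f'
    have := bd_pr f f' z
    rw [hz, map_zero, add_zero] at this
    exact this
  unfold HZ
  rw [map_sub, map_add, map_sum, h1, bd_cn, bd_mp, hz, map_zero, map_zero, sub_zero, mp_id]
  simp only [h1]
  rw [Finset.sum_range_sub (fun t => mp (Fw hd r (r + t)) z)]
  simp only [add_zero]
  abel

lemma Ent_Fw {g : An n} {r s t : ℕ} {A : Ob (Fn n)} (h : Ent g r s A) (hrt : r ≤ t)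
    (hs : 1 ≤ s) : Ent g 1 (s * (2 * r + beta n r + 2)) (Fw (dg_ltm g) r t A) := by
  rw [Fw_eq (dg_ltm g) h.fine hrt]
  have hfl : Ent g 1 (s + r + 1 + s * beta n r + r * s)
      (fl (dg_ltm g) A r t h.fine hrt) := by
    refine ⟨fl_fine _ _ _, ?_, ?_, ?_⟩
    · have h1 := fl_sz (dg_ltm g) h.fine hrt h.sz
      exact ⟨fun x => (h1.pt x).mono (by omega), fun a a' haa => (h1.gen a a' haa).mono (by omega)⟩
    · obtain ⟨Q, hQ, hQ'⟩ := fl_orb (dg_ltm g) h.fine hrt h.orb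
      refine ⟨Q, hQ.trans ?_, hQ'⟩
      rw [dg_ball_card]
      omega
    · have h1 := fl_len (dg_ltm g) h.fine hrt h.len
      intro u hu
      obtain ⟨w, hw⟩ := h1 u hu
      exact ⟨w, hw.trans (by omega)⟩
  refine hfl.mono le_rfl ?_
  nlinarith

lemma Ent_TOb {g : An n} {s : ℕ} (hg : EA g ≤ s) (hs : 1 ≤ s) :
    Ent g 1 s (TOb (dg_ltm g)) := by
  refine ⟨TOb_fine _, ?_, ?_, ?_⟩
  · exact ⟨fun x => ((TOb_sz (dg_ltm g)).pt x).mono hs,
      fun a a' haa => ((TOb_sz (dg_ltm g)).gen a a' haa).mono hs⟩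
  · obtain ⟨Q, hQ, hQ'⟩ := TOb_orb (dg_ltm g)
    exact ⟨Q, hQ.trans hs, hQ'⟩
  · refine TOb_len (dg_ltm g) ?_
    rintro _ ⟨i, rfl⟩
    have h1 := (norm_le_EA g i).2
    unfold dg
    rw [inv_one, one_mul]
    exact h1.trans hg

lemma const_le {C s : ℕ} (hs : 2 ≤ s) : C ≤ s ^ C :=
  (Nat.lt_two_pow_self (n := C)).le.trans (Nat.pow_le_pow_left hs C)

/-- filling of cycles of objects -/
theorem ob_fill (n k r K : ℕ) : ∃ K' c : ℕ, ∀ s : ℕ, 2 ≤ s → ∀ g : An n, EA g ≤ s →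
    ∀ z : Ch (Ob (Fn n)), (∀ σ ∈ z.support, σ.length = k ∧ Gd g r K s σ) → bd z = 0 →
    ∃ y : Ch (Ob (Fn n)), (∀ τ ∈ y.support, τ.length = k + 1 ∧ Gd g (r + 1) K' (s ^ c) τ) ∧
      bd y = z ∧ ms y ≤ s ^ c * ms z := by
  refine ⟨2 * K + 2 * r + 2, (2 * r + beta n r + 2 + (3 * k + 1)) + 1, fun s hs g hg z hz hbd => ?_⟩
  set C := 2 * r + beta n r + 2 + (3 * k + 1) with hC
  have hd := dg_ltm g
  have hs1 : 1 ≤ s := by omega
  have hCs : s * C ≤ s ^ (C + 1) := by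
    rw [pow_succ, mul_comm]
    exact Nat.mul_le_mul_right _ (const_le hs)
  have hb1 : s * (2 * r + beta n r + 2) ≤ s ^ (C + 1) :=
    (Nat.mul_le_mul_left _ (by omega)).trans hCs
  have hb2 : s ≤ s ^ (C + 1) := (Nat.le_mul_of_pos_right s (by omega)).trans hCs
  -- single entries
  have ent0 : ∀ σ ∈ z.support, ∀ A ∈ σ, Ent g (r + 1) (s ^ (C + 1)) A := fun σ hσ A hA =>
    (((hz σ hσ).2.ent A hA)).mono (by omega) hb2
  have entF : ∀ σ ∈ z.support, ∀ A ∈ σ, ∀ t, r ≤ t →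
      Ent g (r + 1) (s ^ (C + 1)) (Fw (dg_ltm g) r t A) := fun σ hσ A hA t ht =>
    (Ent_Fw ((hz σ hσ).2.ent A hA) ht hs1).mono (by omega) hb1
  have entT : Ent g (r + 1) (s ^ (C + 1)) (TOb (dg_ltm g)) :=
    (Ent_TOb hg hs1).mono (by omega) hb2
  -- pairs
  have e00 : ∀ σ ∈ z.support, ∀ A ∈ σ, ∀ B ∈ σ, Eqv (dg g) A B (2 * K + 2 * r + 2) :=
    fun σ hσ A hA B hB => ((hz σ hσ).2.eqv A hA B hB).mono (by omega)
  have e0F : ∀ σ ∈ z.support, ∀ A ∈ σ, ∀ B ∈ σ,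
      Eqv (dg g) A (Fw (dg_ltm g) r r B) (2 * K + 2 * r + 2) := by
    intro σ hσ A hA B hB
    have hB' := ((hz σ hσ).2.ent B hB).fine
    rw [Fw_eq (dg_ltm g) hB' le_rfl]
    exact (((hz σ hσ).2.eqv A hA B hB).trans hd (fl_id hd hB')).mono (by omega)
  have eFF : ∀ σ ∈ z.support, ∀ A ∈ σ, ∀ B ∈ σ, ∀ t t', r ≤ t → r ≤ t' → t ≤ t' + 1 →
      t' ≤ t + 1 → Eqv (dg g) (Fw (dg_ltm g) r t A) (Fw (dg_ltm g) r t' B)
        (2 * K + 2 * r + 2) := by
    intro σ hσ A hA B hB t t' ht ht' h1 h2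
    have hA' := ((hz σ hσ).2.ent A hA).fine
    have hB' := ((hz σ hσ).2.ent B hB).fine
    rw [Fw_eq (dg_ltm g) hA' ht, Fw_eq (dg_ltm g) hB' ht']
    exact fl_nat hd hA' ht hB' ht' ((hz σ hσ).2.eqv A hA B hB) h1 h2
  have eFT : ∀ σ ∈ z.support, ∀ A ∈ σ,
      Eqv (dg g) (Fw (dg_ltm g) r (r + (s + 1)) A) (TOb (dg_ltm g)) (2 * K + 2 * r + 2) := by
    intro σ hσ A hA
    have hA' := (hz σ hσ).2.ent A hA
    rw [Fw_eq (dg_ltm g) hA'.fine (by omega)]
    exact (fl_end hd hA'.fine (by omega) hA'.sz (by omega)).mono (by omega)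
  have eTT : Eqv (dg g) (TOb (dg_ltm g)) (TOb (dg_ltm g)) (2 * K + 2 * r + 2) :=
    (Eqv.refl hd (TOb_fine hd)).mono (by omega)
  refine ⟨- HZ (dg_ltm g) r (s + 1) z, fun τ hτ => ?_, by rw [map_neg, bd_HZ _ _ _ _ hbd, neg_neg],
    ?_⟩
  · have hτ' := supp_neg hτ
    unfold HZ at hτ'
    rcases supp_sub hτ' with h | h
    · rcases supp_add h with h | h
      · obtain ⟨σ, hσ, h1, h2⟩ := supp_pr h
        refine ⟨by rw [h1, (hz σ hσ).1], fun A hA => ?_, fun A hA B hB => ?_⟩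
        · obtain ⟨x, hx, rfl | rfl⟩ := h2 A hA
          · exact ent0 σ hσ _ hx
          · exact entF σ hσ x hx r le_rfl
        · obtain ⟨x, hx, rfl | rfl⟩ := h2 A hA
          · obtain ⟨y, hy, rfl | rfl⟩ := h2 B hB
            · exact e00 σ hσ _ hx _ hy
            · exact e0F σ hσ _ hx _ hy
          · obtain ⟨y, hy, rfl | rfl⟩ := h2 B hB
            · exact (e0F σ hσ _ hy _ hx).symm
            · exact eFF σ hσ _ hx _ hy r r le_rfl le_rfl (by omega) (by omega)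
      · obtain ⟨t, _, h⟩ := supp_sum h
        obtain ⟨σ, hσ, h1, h2⟩ := supp_pr h
        refine ⟨by rw [h1, (hz σ hσ).1], fun A hA => ?_, fun A hA B hB => ?_⟩
        · obtain ⟨x, hx, rfl | rfl⟩ := h2 A hA
          · exact entF σ hσ x hx _ (by omega)
          · exact entF σ hσ x hx _ (by omega)
        · obtain ⟨x, hx, rfl | rfl⟩ := h2 A hA <;> obtain ⟨y, hy, rfl | rfl⟩ := h2 B hB <;>
            exact eFF σ hσ _ hx _ hy _ _ (by omega) (by omega) (by omega) (by omega)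
    · obtain ⟨ρ, hρ, rfl⟩ := supp_cn h
      obtain ⟨σ, hσ, rfl⟩ := supp_mp hρ
      refine ⟨by rw [List.length_cons, List.length_map, (hz σ hσ).1], fun A hA => ?_,
        fun A hA B hB => ?_⟩
      · rcases List.mem_cons.1 hA with rfl | hA
        · exact entT
        · obtain ⟨x, hx, rfl⟩ := List.mem_map.1 hA
          exact entF σ hσ x hx _ (by omega)
      · rcases List.mem_cons.1 hA with rfl | hA
        · rcases List.mem_cons.1 hB with rfl | hB
          · exact eTT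
          · obtain ⟨y, hy, rfl⟩ := List.mem_map.1 hB
            exact (eFT σ hσ y hy).symm
        · obtain ⟨x, hx, rfl⟩ := List.mem_map.1 hA
          rcases List.mem_cons.1 hB with rfl | hB
          · exact eFT σ hσ x hx
          · obtain ⟨y, hy, rfl⟩ := List.mem_map.1 hB
            exact eFF σ hσ _ hx _ hy _ _ (by omega) (by omega) (by omega) (by omega)
  · rw [ms_neg]
    unfold HZ
    have hlen : ∀ σ ∈ z.support, σ.length ≤ k := fun σ hσ => (hz σ hσ).1.le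
    have m1 := ms_pr (fun x => x) (Fw (dg_ltm g) r r) z hlen
    have m2 : ms (∑ t ∈ Finset.range (s + 1),
        pr (Fw (dg_ltm g) r (r + t)) (Fw (dg_ltm g) r (r + (t + 1))) z) ≤
        (s + 1) * (k * ms z) := by
      refine (ms_sum_le _ _).trans ?_
      refine (Finset.sum_le_card_nsmul _ _ (k * ms z) (fun t _ => ms_pr _ _ z hlen)).trans ?_
      rw [Finset.card_range, smul_eq_mul]
    have m3 : ms (cn (TOb (dg_ltm g)) (mp (Fw (dg_ltm g) r (r + (s + 1))) z)) ≤ ms z :=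
      (ms_cn _ _).trans (ms_mp _ _)
    refine (ms_sub_le _ _).trans ((Nat.add_le_add (ms_add_le _ _) le_rfl).trans ?_)
    have m4 : k * ms z + (s + 1) * (k * ms z) + ms z ≤ (s * C) * ms z := by
      have : k + (s + 1) * k + 1 ≤ s * C := by
        rw [hC]
        nlinarith
      calc k * ms z + (s + 1) * (k * ms z) + ms z = (k + (s + 1) * k + 1) * ms z := by ring
        _ ≤ _ := Nat.mul_le_mul_right _ this
    have m5 : (s * C) * ms z ≤ s ^ (C + 1) * ms z := Nat.mul_le_mul_right _ hCs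
    omega

end Pool.Agent.H.MP_e5d137_al.UB
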