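import Pool.Agent.H.MP_e5d137_al.UB.Chain
import Pool.Agent.H.MP_e5d137_al.UB.Cone
import Pool.Agent.H.MP_e5d137_al.UB.Pb

/-!
# The homotopy between the two families of objects
-/

namespace Pool.Agent.H.MP_e5d137_al.UB

open Finsupp SimpleGraph

variable {n : ℕ}

/-- the tree of `g` -/
noncomputable def oT (g : An n) : Ob (Fn n) := TOb (dg_ltm g)

/-- the subdivided standard tree mapped to the tree of `g` -/
noncomputable def oS (g : An n) : Ob (Fn n) := SOb (dg_ltm g)

lemma Ent.change {g g' : An n} {r s R : ℕ} {A : Ob (Fn n)} (h : Ent g r s A) (hR : 1 ≤ R)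
    (h1 : EA (g'⁻¹ * g) ≤ R) : Ent g' (R * r) (R * (s + R)) A := by
  have hc1 : ∀ a b, dg g' a b ≤ R * dg g a b := fun a b =>
    (dg_change g g' a b).trans (Nat.mul_le_mul_right _ h1)
  have hc2 : ∀ a b, dg g a b ≤ R * dg g' a b := fun a b => by
    refine (dg_change g' g a b).trans (Nat.mul_le_mul_right _ ?_)
    have := EA_szf.inv (g'⁻¹ * g)
    rw [mul_inv_rev, inv_inv] at this
    omega
  have hs : s ≤ R * (s + R) := by nlinarith
  refine ⟨h.fine.change hc1, h.sz.change (dg_ltm g) (dg_ltm g') hc1 hc2, ?_, ?_⟩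
  · obtain ⟨Q, hQ, hQ'⟩ := h.orb
    exact ⟨Q, hQ.trans hs, hQ'⟩
  · intro u hu
    obtain ⟨w, hw⟩ := h.len u hu
    exact ⟨w, hw.trans hs⟩

lemma Gd.change {g g' : An n} {r K s R : ℕ} {τ : List (Ob (Fn n))} (h : Gd g r K s τ)
    (hR : 1 ≤ R) (h1 : EA (g'⁻¹ * g) ≤ R) : Gd g' (R * r) (R * K) (R * (s + R)) τ := by
  have hc1 : ∀ a b, dg g' a b ≤ R * dg g a b := fun a b =>
    (dg_change g g' a b).trans (Nat.mul_le_mul_right _ h1)
  exact ⟨fun A hA => (h.ent A hA).change hR h1, fun A hA B hB => (h.eqv A hA B hB).change hc1⟩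

lemma Ent_oS {g : An n} {X : ℕ} (hX : 1 ≤ X) (hg : EA g ≤ X) :
    Ent g 1 (2 * X ^ 3 + n * X + 1 + X) (oS g) := by
  have hel : ∀ i, el (dg g) i ≤ X := by
    intro i
    have h1 := (norm_le_EA g i).2
    unfold el dg
    rw [inv_one, one_mul]
    exact h1.trans hg
  have hw : ∀ w : Fn n, w.norm ≤ X * dg g 1 w := by
    intro w
    have h1 := norm_map_le (g : Fn n →* Fn n) (EA g) (fun i => (norm_le_EA g i).1) (g⁻¹ w)
    have h2 : (g : Fn n →* Fn n) (g⁻¹ w) = w := by
      show g (g⁻¹ w) = w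
      rw [← MulAut.mul_apply, mul_inv_cancel, MulAut.one_apply]
    rw [h2] at h1
    unfold dg
    rw [inv_one, one_mul]
    exact h1.trans (Nat.mul_le_mul_right _ hg)
  have hz := SOb_sz (dg_ltm g) hX hel hw
  refine ⟨SOb_fine _, ⟨fun x => (hz.pt x).mono (by omega), fun a a' haa =>
    (hz.gen a a' haa).mono (by omega)⟩, ?_, ?_⟩
  · obtain ⟨Q, hQ, hQ'⟩ := SOb_orb (dg_ltm g) hel
    exact ⟨Q, hQ.trans (by omega), hQ'⟩
  · intro u hu
    obtain ⟨w, hw⟩ := SOb_len (dg_ltm g) hel u hu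
    exact ⟨w, hw.trans (by omega)⟩

/-- the lists `σ.map oT` and `σ.map oS` are good -/
theorem Gd_TS (n R : ℕ) (hR : 1 ≤ R) : ∃ K, ∀ X : ℕ, 1 ≤ X → ∀ σ : List (An n), Small EA R σ →
    Near EA 1 X σ → ∀ g₀ ∈ σ,
    Gd g₀ R K (R * ((2 * X ^ 3 + n * X + 1 + X) + R)) (σ.map oT) ∧
    Gd g₀ R K (R * ((2 * X ^ 3 + n * X + 1 + X) + R)) (σ.map oS) := by
  obtain ⟨K₁, hK₁⟩ := SOb_eqv (n := n) R
  refine ⟨R * (K₁ + (R + R * R)), fun X hX σ hσ hσ' g₀ hg₀ => ?_⟩
  have hEA : ∀ g ∈ σ, EA g ≤ X := by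
    intro g hg
    have := hσ' g hg
    rwa [inv_one, one_mul] at this
  have hc : ∀ g ∈ σ, ∀ g' ∈ σ, ∀ a b, dg g' a b ≤ R * dg g a b := fun g hg g' hg' a b =>
    (dg_change g g' a b).trans (Nat.mul_le_mul_right _ (hσ g' hg' g hg))
  constructor
  · refine ⟨fun A hA => ?_, fun A hA B hB => ?_⟩
    · obtain ⟨g, hg, rfl⟩ := List.mem_map.1 hA
      have h1 := (Ent_TOb (hEA g hg) hX).change hR (hσ g₀ hg₀ g hg)
      exact h1.mono (by omega) (Nat.mul_le_mul_left _ (by omega))
    · obtain ⟨g, hg, rfl⟩ := List.mem_map.1 hA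
      obtain ⟨g', hg', rfl⟩ := List.mem_map.1 hB
      have h1 := TOb_eqv (dg_ltm g) (dg_ltm g') (C := R) (hc g' hg' g hg) (hc g hg g' hg')
      exact (h1.change (hc g hg g₀ hg₀)).mono (Nat.mul_le_mul_left _ (by omega))
  · refine ⟨fun A hA => ?_, fun A hA B hB => ?_⟩
    · obtain ⟨g, hg, rfl⟩ := List.mem_map.1 hA
      have h1 := (Ent_oS hX (hEA g hg)).change hR (hσ g₀ hg₀ g hg)
      exact h1.mono (by omega) le_rfl
    · obtain ⟨g, hg, rfl⟩ := List.mem_map.1 hA
      obtain ⟨g', hg', rfl⟩ := List.mem_map.1 hB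
      have h1 := hK₁ _ _ (dg_ltm g) (dg_ltm g') (hc g' hg' g hg) (hc g hg g' hg')
      exact (h1.change (hc g hg g₀ hg₀)).mono (Nat.mul_le_mul_left _ (by omega))

/-- the homotopy -/
theorem exists_h (n R : ℕ) (hR : 1 ≤ R) (k : ℕ) : ∃ r K c : ℕ, ∀ X : ℕ, 2 ≤ X →
    ∃ h : List (An n) → Ch (Ob (Fn n)), h [] = 0 ∧
      ∀ σ : List (An n), σ.length ≤ k → Small EA R σ → Near EA 1 X σ →
        bd (h σ) = single (σ.map oT) 1 - single (σ.map oS) 1 -
          Finsupp.linearCombination ℤ h (bdl σ) ∧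
        (∀ τ ∈ (h σ).support, τ.length = σ.length + 1 ∧ ∀ g ∈ σ, Gd g r K (X ^ c) τ) ∧
        ms (h σ) ≤ X ^ c := by
  induction k with
  | zero =>
    refine ⟨0, 0, 0, fun X _ => ⟨fun _ => 0, rfl, fun σ hσ _ _ => ?_⟩⟩
    have : σ = [] := List.length_eq_zero_iff.1 (by omega)
    subst this
    refine ⟨by simp [bdl], by simp, by simp⟩
  | succ k ih =>
    obtain ⟨r, K, c, ih⟩ := ih
    obtain ⟨K₁, hK₁⟩ := Gd_TS n R hR
    obtain ⟨K₂, c₂, hfill⟩ := ob_fill n (k + 1) (R * r + R) (R * K + K₁)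
    -- bound for the sizes
    obtain ⟨c₁, hc₁⟩ : PB (fun X => R * (X ^ c + R) +
        R * ((2 * X ^ 3 + n * X + 1 + X) + R) + X + 2) :=
      (((PB.const R).mul ((PB.id.pow c).add (PB.const R))).add ((PB.const R).mul
        ((((((PB.const 2).mul (PB.id.pow 3)).add ((PB.const n).mul PB.id)).add
          (PB.const 1)).add PB.id).add (PB.const R)))).add PB.id |>.add (PB.const 2)
    obtain ⟨c₃, hc₃⟩ : PB (fun X => X ^ c + R * ((X ^ c₁) ^ c₂ + R) +
        (X ^ c₁) ^ c₂ * (2 + X ^ c * (k + 1))) :=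
      ((PB.id.pow c).add ((PB.const R).mul (((PB.id.pow c₁).pow c₂).add (PB.const R)))).add
        (((PB.id.pow c₁).pow c₂).mul ((PB.const 2).add ((PB.id.pow c).mul (PB.const (k + 1)))))
    refine ⟨r + R * (R * r + R + 1), K + R * K₂, c₃, fun X hX => ?_⟩
    have b₁ := hc₁ X hX
    have b₃ := hc₃ X hX
    simp only at b₁ b₃
    obtain ⟨h, hnil, hh⟩ := ih X hX
    have key : ∀ σ : List (An n), ∃ y : Ch (Ob (Fn n)), σ.length = k + 1 → Small EA R σ →
        Near EA 1 X σ →
        bd y = single (σ.map oT) 1 - single (σ.map oS) 1 -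
          Finsupp.linearCombination ℤ h (bdl σ) ∧
        (∀ τ ∈ y.support, τ.length = σ.length + 1 ∧
          ∀ g ∈ σ, Gd g (r + R * (R * r + R + 1)) (K + R * K₂) (X ^ c₃) τ) ∧
        ms y ≤ X ^ c₃ := by
      intro σ
      by_cases hcond : σ.length = k + 1 ∧ Small EA R σ ∧ Near EA 1 X σ
      swap
      · exact ⟨0, fun h1 h2 h3 => absurd ⟨h1, h2, h3⟩ hcond⟩
      obtain ⟨hlen, hsm, hnr⟩ := hcond
      obtain ⟨g₀, σ', rfl⟩ : ∃ g₀ σ', σ = g₀ :: σ' := by
        cases σ with
        | nil => simp at hlen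
        | cons a l => exact ⟨a, l, rfl⟩
      have hg₀ : g₀ ∈ g₀ :: σ' := List.mem_cons_self
      set z : Ch (Ob (Fn n)) := single ((g₀ :: σ').map oT) 1 - single ((g₀ :: σ').map oS) 1 -
          Finsupp.linearCombination ℤ h (bdl (g₀ :: σ')) with hz
      have hbdρ : ∀ ρ ∈ (bdl (g₀ :: σ')).support, ρ.length ≤ k ∧ Small EA R ρ ∧
          Near EA 1 X ρ := by
        intro ρ hρ
        obtain ⟨h1, h2⟩ := supp_bdl hρ
        exact ⟨by omega, hsm.sublist h1, fun a ha => hnr a (h1.subset ha)⟩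
      have hcyc : bd z = 0 := by
        have e1 : bd (Finsupp.linearCombination ℤ h (bdl (g₀ :: σ'))) =
            Finsupp.linearCombination ℤ (fun ρ => bd (h ρ)) (bdl (g₀ :: σ')) := by
          rw [Finsupp.linearCombination_apply, Finsupp.linearCombination_apply, Finsupp.sum,
            Finsupp.sum, map_sum]
          simp only [map_smul]
        have e2 : Finsupp.linearCombination ℤ (fun ρ => bd (h ρ)) (bdl (g₀ :: σ')) =
            Finsupp.linearCombination ℤ (fun ρ => single (ρ.map oT) (1 : ℤ) -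
              single (ρ.map oS) 1 - Finsupp.linearCombination ℤ h (bdl ρ)) (bdl (g₀ :: σ')) :=
          lc_congr _ _ _ (fun ρ hρ => (hh ρ (hbdρ ρ hρ).1 (hbdρ ρ hρ).2.1 (hbdρ ρ hρ).2.2).1)
        have e3 : ∀ x : Ch (An n), Finsupp.linearCombination ℤ (fun ρ => single (ρ.map oT) (1 : ℤ)
            - single (ρ.map oS) 1 - Finsupp.linearCombination ℤ h (bdl ρ)) x =
            mp oT x - mp oS x - Finsupp.linearCombination ℤ h (bd x) := by
          intro x
          induction x using Finsupp.induction_linear with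
          | zero => simp
          | add a b ha hb => simp only [map_add, ha, hb]; abel
          | single ρ m =>
            rw [Finsupp.linearCombination_single, mp_single, mp_single, bd_single, map_smul,
              smul_sub, smul_sub]
            simp
        rw [hz, map_sub, map_sub, bd_single, bd_single, one_smul, one_smul, bdl_map, bdl_map, e1,
          e2, e3, bd_bdl, map_zero]
        abel
      have hsupp : ∀ τ ∈ z.support, τ.length = k + 1 ∧
          Gd g₀ (R * r + R) (R * K + K₁) (X ^ c₁) τ := by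
        intro τ hτ
        have hTS := hK₁ X (by omega) _ hsm hnr g₀ hg₀
        rcases supp_sub hτ with hτ | hτ
        · rcases supp_sub hτ with hτ | hτ
          · rw [supp_single hτ]
            exact ⟨by rw [List.length_map, hlen], hTS.1.mono (by omega) (by omega) (by omega)⟩
          · rw [supp_single hτ]
            exact ⟨by rw [List.length_map, hlen], hTS.2.mono (by omega) (by omega) (by omega)⟩
        · obtain ⟨ρ, hρ, hτ⟩ := supp_lc _ _ hτ
          obtain ⟨h1, h2⟩ := supp_bdl hρ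
          obtain ⟨h3, h4, h5⟩ := hbdρ ρ hρ
          obtain ⟨_, h6, _⟩ := hh ρ h3 h4 h5
          obtain ⟨h7, h8⟩ := h6 τ hτ
          have hρne : ρ ≠ [] := by
            rintro rfl
            rw [hnil] at hτ
            simp at hτ
          obtain ⟨g₁, hg₁⟩ := List.exists_mem_of_ne_nil ρ hρne
          have h9 := (h8 g₁ hg₁).change hR (hsm g₀ hg₀ g₁ (h1.subset hg₁))
          exact ⟨by omega, h9.mono (by omega) (by omega) (by omega)⟩
      have hEA : EA g₀ ≤ X ^ c₁ := by
        have := hnr g₀ hg₀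
        rw [inv_one, one_mul] at this
        omega
      obtain ⟨y, hy1, hy2, hy3⟩ := hfill (X ^ c₁) (by omega) g₀ hEA z hsupp hcyc
      refine ⟨y, fun _ _ _ => ⟨hy2, fun τ hτ => ?_, ?_⟩⟩
      · obtain ⟨h1, h2⟩ := hy1 τ hτ
        refine ⟨by rw [h1, hlen], fun g hg => ?_⟩
        have h3 := h2.change hR (hsm g hg g₀ hg₀)
        exact h3.mono (by omega) (by omega) (by omega)
      · have hms : ms z ≤ 2 + X ^ c * (k + 1) := by
          have m1 : ms (Finsupp.linearCombination ℤ h (bdl (g₀ :: σ'))) ≤ X ^ c * (k + 1) := by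
            refine (ms_lc_le _ _ (X ^ c) (fun ρ hρ => ?_)).trans (Nat.mul_le_mul_left _ ?_)
            · exact (hh ρ (hbdρ ρ hρ).1 (hbdρ ρ hρ).2.1 (hbdρ ρ hρ).2.2).2.2
            · exact (ms_bdl _).trans hlen.le
          have m2 := ms_sub_le (single ((g₀ :: σ').map oT) (1 : ℤ))
            (single ((g₀ :: σ').map oS) 1)
          rw [ms_single, ms_single] at m2
          have m3 := ms_sub_le (single ((g₀ :: σ').map oT) 1 - single ((g₀ :: σ').map oS) 1)
            (Finsupp.linearCombination ℤ h (bdl (g₀ :: σ')))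
          rw [← hz] at m3
          simp only [Int.natAbs_one] at m2
          omega
        have := Nat.mul_le_mul_left ((X ^ c₁) ^ c₂) hms
        omega
    choose Y hY using key
    classical
    refine ⟨fun σ => if σ.length = k + 1 then Y σ else h σ, ?_, fun σ hlen hsm hnr => ?_⟩
    · show (if ([] : List (An n)).length = k + 1 then Y [] else h []) = 0
      rw [if_neg (by simp), hnil]
    · have hlc : Finsupp.linearCombination ℤ (fun σ => if σ.length = k + 1 then Y σ else h σ)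
          (bdl σ) = Finsupp.linearCombination ℤ h (bdl σ) := by
        refine lc_congr _ _ _ (fun ρ hρ => ?_)
        have := (supp_bdl hρ).2
        rw [if_neg (by omega)]
      rw [hlc]
      beta_reduce
      by_cases hk : σ.length = k + 1
      · rw [if_pos hk]
        exact hY σ hk hsm hnr
      · rw [if_neg hk]
        obtain ⟨h1, h2, h3⟩ := hh σ (by omega) hsm hnr
        exact ⟨h1, fun τ hτ => ⟨(h2 τ hτ).1, fun g hg => ((h2 τ hτ).2 g hg).mono (by omega)
          (by omega) (by omega)⟩, by omega⟩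

end Pool.Agent.H.MP_e5d137_al.UB
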