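import Pool.Agent.H.MP_e5d137_al.UB.Col0

/-!
# The tree obtained by collapsing a maximal forest
-/

namespace Pool.Agent.H.MP_e5d137_al.UB

open SimpleGraph

variable {F : Type} [Group F]

/-- the graph on `F` obtained by collapsing the fibres of `c` -/
def colG (S : Ob F) (c : S.V → F) : SimpleGraph F where
  Adj a b := a ≠ b ∧ ∃ x y, S.T.Adj x y ∧ c x = a ∧ c y = b
  symm := ⟨fun _ _ h => ⟨h.1.symm, by
    obtain ⟨_, x, y, h1, h2, h3⟩ := h
    exact ⟨y, x, h1.symm, h3, h2⟩⟩⟩
  loopless := ⟨fun _ h => h.1 rfl⟩

/-- points of the same fibre are joined without a given edge between different fibres -/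
lemma Col_fibre (S : Ob F) (c : S.V → F) (hc : Coll S c) {x y : S.V} (hxy : c x ≠ c y)
    {z z' : S.V} (h : c z = c z') : (S.T.deleteEdges {s(x, y)}).Reachable z z' := by
  obtain ⟨w, hw⟩ := hc.conn z z' h
  have key : ∀ {u v : S.V} (w : S.T.Walk u v) (a : F), (∀ t ∈ w.support, c t = a) →
      (S.T.deleteEdges {s(x, y)}).Reachable u v := by
    intro u v w a
    induction w with
    | nil => exact fun _ => Reachable.refl _
    | cons hadj w ih =>
      rename_i u v v'
      intro h
      refine Reachable.trans (Adj.reachable ?_) (ih fun t ht => h t (by simp [ht]))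
      rw [deleteEdges_adj]
      refine ⟨hadj, fun he => hxy ?_⟩
      have h1 : c u = a := h u (by simp)
      have h2 : c v = a := h v (by simp)
      rcases Sym2.eq_iff.1 (Set.mem_singleton_iff.1 he) with ⟨rfl, rfl⟩ | ⟨rfl, rfl⟩
      · rw [h1, h2]
      · rw [h1, h2]
  exact key w _ hw

lemma Col_bridge (S : Ob F) {x y : S.V} (h : S.T.Adj x y) :
    ¬ (S.T.deleteEdges {s(x, y)}).Reachable x y :=
  isBridge_iff.1 (isAcyclic_iff_forall_adj_isBridge.1 S.tree.isAcyclic h)

/-- Uniqueness of the edge over an edge of the collapsed graph.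

Proof.  Suppose `(x, y) ≠ (x', y')`.  The edges `s(x, y)` and `s(x', y')` are different (if
`x' = y`, `y' = x` then `a = c x' = c y = b`).  By `isAcyclic_iff_forall_isBridge` (or
`isAcyclic_iff_forall_adj_isBridge`, see the file `Acyclic.lean` of Mathlib) the points `x`, `y`
are not joined in `S.T` without the edge `s(x, y)`.  But the walk from `x` to `x'` inside the fibre
over `a`, the edge `x', y'` and the walk from `y'` to `y` inside the fibre over `b` do not use the
edge `s(x, y)` (its ends have different images). -/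
theorem colG_unique (S : Ob F) (c : S.V → F) (hc : Coll S c) {a b : F} (hab : a ≠ b)
    {x y x' y' : S.V} (h : S.T.Adj x y) (hx : c x = a) (hy : c y = b)
    (h' : S.T.Adj x' y') (hx' : c x' = a) (hy' : c y' = b) : x' = x ∧ y' = y := by
  by_contra hne
  have hxy : c x ≠ c y := by rw [hx, hy]; exact hab
  have h1 : (S.T.deleteEdges {s(x, y)}).Reachable x x' :=
    Col_fibre S c hc hxy (by rw [hx, hx'])
  have h2 : (S.T.deleteEdges {s(x, y)}).Reachable y' y :=
    Col_fibre S c hc hxy (by rw [hy, hy'])
  have h3 : (S.T.deleteEdges {s(x, y)}).Adj x' y' := by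
    rw [deleteEdges_adj]
    refine ⟨h', fun he => ?_⟩
    rcases Sym2.eq_iff.1 (Set.mem_singleton_iff.1 he) with ⟨e1, e2⟩ | ⟨e1, e2⟩
    · exact hne ⟨e1, e2⟩
    · exact hab (by rw [← hx', e1, hy])
  exact Col_bridge S h ((h1.trans h3.reachable).trans h2)

/-- The collapsed graph is a tree.

Proof.  Connected: map a walk from `a • b` to `a' • b`, deleting the steps inside fibres.
Acyclic: every edge `a, a'` is a bridge.  Let `x, y` be the edge of `S.T` over it.  Every walk of
the collapsed graph from `e` to `e'` without the edge `s(a, a')` lifts: for all `z`, `z'` with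
`c z = e`, `c z' = e'` there is a walk from `z` to `z'` in `S.T` without the edge `s(x, y)`
(induction on the walk: inside the fibres use `Coll.conn`, each edge of the walk lifts to an edge
of `S.T` different from `s(x, y)`).  So if `a`, `a'` are joined without `s(a, a')` then `x`, `y`
are joined without `s(x, y)`, which contradicts that `S.T` is a tree. -/
theorem colG_tree (S : Ob F) (c : S.V → F) (hc : Coll S c) : (colG S c).IsTree := by
  have hmap : ∀ {z z' : S.V} (w : S.T.Walk z z'), (colG S c).Reachable (c z) (c z') := by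
    intro z z' w
    induction w with
    | nil => exact Reachable.refl _
    | cons hadj w ih =>
      rename_i u v v'
      refine Reachable.trans ?_ ih
      by_cases h : c u = c v
      · rw [h]
      · exact Adj.reachable ⟨h, u, v, hadj, rfl, rfl⟩
  refine { preconnected := fun a a' => ?_, nonempty := ⟨1⟩, isAcyclic := ?_ }
  · obtain ⟨w⟩ := S.tree.connected.preconnected (a • S.b) (a' • S.b)
    have := hmap w
    rwa [hc.eqv, hc.eqv, hc.base, mul_one, mul_one] at this
  · rw [isAcyclic_iff_forall_adj_isBridge]
    rintro a a' ⟨haa, x, y, hxy, hx, hy⟩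
    rw [isBridge_iff]
    have hne : c x ≠ c y := by rw [hx, hy]; exact haa
    have key : ∀ {e e' : F} (w : ((colG S c).deleteEdges {s(a, a')}).Walk e e'),
        ∀ z z' : S.V, c z = e → c z' = e' →
          (S.T.deleteEdges {s(x, y)}).Reachable z z' := by
      intro e e' w
      induction w with
      | nil =>
        intro z z' hz hz'
        exact Col_fibre S c hc hne (by rw [hz, hz'])
      | cons hadj w ih =>
        rename_i u v v'
        intro z z' hz hz'
        rw [deleteEdges_adj] at hadj
        obtain ⟨⟨_, x1, y1, h1, hx1, hy1⟩, hnot⟩ := hadj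
        have e1 : (S.T.deleteEdges {s(x, y)}).Reachable z x1 :=
          Col_fibre S c hc hne (by rw [hz, hx1])
        have e2 : (S.T.deleteEdges {s(x, y)}).Adj x1 y1 := by
          rw [deleteEdges_adj]
          refine ⟨h1, fun he => hnot ?_⟩
          rw [Set.mem_singleton_iff]
          rcases Sym2.eq_iff.1 (Set.mem_singleton_iff.1 he) with ⟨e1, e2⟩ | ⟨e1, e2⟩
          · rw [← hx1, ← hy1, e1, e2, hx, hy]
          · rw [← hx1, ← hy1, e1, e2, hx, hy]
            exact Sym2.eq_swap
        exact (e1.trans e2.reachable).trans (ih y1 z' hy1 hz')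
    rintro ⟨w⟩
    exact Col_bridge S hxy (key w x y hx hy)

lemma colG_inv (S : Ob F) (c : S.V → F) (hc : Coll S c) (u a b : F) (h : (colG S c).Adj a b) :
    (colG S c).Adj (u * a) (u * b) := by
  obtain ⟨hab, x, y, h1, h2, h3⟩ := h
  refine ⟨fun h => hab (mul_left_cancel h), u • x, u • y, S.inv u x y h1, ?_, ?_⟩
  · rw [hc.eqv, h2]
  · rw [hc.eqv, h3]

end Pool.Agent.H.MP_e5d137_al.UB
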