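import Pool.Agent.H.MP_e5d137_al.UB.Met

/-!
# Based free trees over a group with a tree metric, controlled maps, controlled equivalences
-/

namespace Pool.Agent.H.MP_e5d137_al.UB

open SimpleGraph

/-- A based tree with a free action of `F` with finitely many vertex orbits, and an equivariant
map `f` from its vertices to `F` sending the base point to `1`. -/
structure Ob (F : Type) [Group F] : Type 1 where
  V : Type
  [act : MulAction F V]
  free : ∀ (u : F) (x : V), u • x = x → u = 1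
  T : SimpleGraph V
  tree : T.IsTree
  inv : ∀ (u : F) (x y : V), T.Adj x y → T.Adj (u • x) (u • y)
  b : V
  f : V → F
  f_smul : ∀ (u : F) (x : V), f (u • x) = u * f x
  f_b : f b = 1
  fin : ∃ Q : Finset V, ∀ x, ∃ u : F, ∃ q ∈ Q, x = u • q

attribute [instance] Ob.act

variable {F : Type} [Group F] (d : F → F → ℕ)

/-- `x` and `y` are joined in `S` by a walk whose image under `f` stays in the ball of radius
`ρ` about `p` -/
def Cn (S : Ob F) (p : F) (ρ : ℕ) (x y : S.V) : Prop :=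
  ∃ w : S.T.Walk x y, ∀ z ∈ w.support, d p (S.f z) ≤ ρ

/-- adjacent vertices have images at distance at most `r` -/
def Fine (S : Ob F) (r : ℕ) : Prop := ∀ x y, S.T.Adj x y → d (S.f x) (S.f y) ≤ r

/-- `K`-controlled equivariant based maps -/
structure Ctl (S S' : Ob F) (K : ℕ) (φ : S.V → S'.V) : Prop where
  eqv : ∀ (u : F) (x : S.V), φ (u • x) = u • φ x
  base : φ S.b = S'.b
  disp : ∀ x, d (S.f x) (S'.f (φ x)) ≤ K
  edge : ∀ x y, S.T.Adj x y → Cn d S' (S.f x) K (φ x) (φ y)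

/-- `K`-controlled equivalence of objects -/
def Eqv (S S' : Ob F) (K : ℕ) : Prop :=
  ∃ (φ : S.V → S'.V) (ψ : S'.V → S.V), Ctl d S S' K φ ∧ Ctl d S' S K ψ ∧
    (∀ x, Cn d S (S.f x) K (ψ (φ x)) x) ∧ (∀ x', Cn d S' (S'.f x') K (φ (ψ x')) x')

/-- size: vertices are joined to the base points over them, and adjacent base points are joined,
within distance `s` -/
structure Sz (S : Ob F) (s : ℕ) : Prop where
  pt : ∀ x, Cn d S (S.f x) s x (S.f x • S.b)
  gen : ∀ a a' : F, d a a' = 1 → Cn d S a s (a • S.b) (a' • S.b)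

/-- at most `ν` vertex orbits -/
def Orb (S : Ob F) (ν : ℕ) : Prop :=
  ∃ Q : Finset S.V, Q.card ≤ ν ∧ ∀ x, ∃ u : F, ∃ q ∈ Q, x = u • q

/-- the base points `b` and `u • b`, `u ∈ A`, are joined by walks of length at most `ℓ` -/
def Len (S : Ob F) (A : Set F) (ℓ : ℕ) : Prop :=
  ∀ u ∈ A, ∃ w : S.T.Walk S.b (u • S.b), w.length ≤ ℓ

section Basic

variable {d} {S S' S'' : Ob F}

lemma Cn.left {p : F} {ρ : ℕ} {x y : S.V} (h : Cn d S p ρ x y) : d p (S.f x) ≤ ρ := by
  obtain ⟨w, hw⟩ := h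
  exact hw x w.start_mem_support

lemma Cn.right {p : F} {ρ : ℕ} {x y : S.V} (h : Cn d S p ρ x y) : d p (S.f y) ≤ ρ := by
  obtain ⟨w, hw⟩ := h
  exact hw y w.end_mem_support

lemma Cn.refl {p : F} {ρ : ℕ} {x : S.V} (h : d p (S.f x) ≤ ρ) : Cn d S p ρ x x :=
  ⟨Walk.nil, by simpa using h⟩

lemma Cn.symm {p : F} {ρ : ℕ} {x y : S.V} (h : Cn d S p ρ x y) : Cn d S p ρ y x := by
  obtain ⟨w, hw⟩ := h
  exact ⟨w.reverse, by simpa using hw⟩

lemma Cn.trans {p : F} {ρ : ℕ} {x y z : S.V} (h : Cn d S p ρ x y) (h' : Cn d S p ρ y z) :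
    Cn d S p ρ x z := by
  obtain ⟨w, hw⟩ := h
  obtain ⟨w', hw'⟩ := h'
  refine ⟨w.append w', fun t ht => ?_⟩
  rcases (Walk.mem_support_append_iff _ _).1 ht with h | h
  · exact hw t h
  · exact hw' t h

lemma Cn.mono {p : F} {ρ ρ' : ℕ} {x y : S.V} (h : Cn d S p ρ x y) (hρ : ρ ≤ ρ') :
    Cn d S p ρ' x y := by
  obtain ⟨w, hw⟩ := h
  exact ⟨w, fun z hz => (hw z hz).trans hρ⟩

lemma Cn.of_adj {p : F} {ρ : ℕ} {x y : S.V} (h : S.T.Adj x y) (hx : d p (S.f x) ≤ ρ)
    (hy : d p (S.f y) ≤ ρ) : Cn d S p ρ x y := by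
  refine ⟨Walk.cons h Walk.nil, fun z hz => ?_⟩
  simp only [Walk.support_cons, Walk.support_nil, List.mem_cons, List.not_mem_nil, or_false] at hz
  rcases hz with rfl | rfl
  · exact hx
  · exact hy

/-- change of centre -/
lemma Cn.center (hd : LTM d) {p q : F} {ρ k : ℕ} {x y : S.V} (h : Cn d S p ρ x y)
    (hk : d q p ≤ k) : Cn d S q (ρ + k) x y := by
  obtain ⟨w, hw⟩ := h
  refine ⟨w, fun z hz => ?_⟩
  have h1 := hd.tri q p (S.f z)
  have h2 := hw z hz
  omega

/-- translation -/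
lemma Cn.smul (hd : LTM d) (u : F) {p : F} {ρ : ℕ} {x y : S.V} (h : Cn d S p ρ x y) :
    Cn d S (u * p) ρ (u • x) (u • y) := by
  obtain ⟨w, hw⟩ := h
  let φ : S.T →g S.T := ⟨fun x => u • x, fun {a b} hab => S.inv u a b hab⟩
  refine ⟨w.map φ, fun z hz => ?_⟩
  rw [Walk.support_map, List.mem_map] at hz
  obtain ⟨z', hz', rfl⟩ := hz
  show d (u * p) (S.f (u • z')) ≤ ρ
  rw [S.f_smul, hd.inv]
  exact hw z' hz'

/-- pushing along a controlled map -/
lemma Cn.push (hd : LTM d) {K : ℕ} {φ : S.V → S'.V} (hφ : Ctl d S S' K φ) {p : F} {ρ : ℕ}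
    {x y : S.V} (h : Cn d S p ρ x y) : Cn d S' p (ρ + K) (φ x) (φ y) := by
  obtain ⟨w, hw⟩ := h
  induction w with
  | nil =>
    rename_i x
    refine Cn.refl ?_
    have h1 := hd.tri p (S.f x) (S'.f (φ x))
    have h2 := hφ.disp x
    have h3 := hw x (by simp)
    omega
  | cons hadj w ih =>
    rename_i x y z
    refine Cn.trans ?_ (ih (fun t ht => hw t (by simp [ht])))
    have h3 := hw x (by simp)
    exact ((hφ.edge x y hadj).center hd h3).mono (by omega)

lemma Ctl.mono {K K' : ℕ} {φ : S.V → S'.V} (h : Ctl d S S' K φ) (hK : K ≤ K') :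
    Ctl d S S' K' φ :=
  ⟨h.eqv, h.base, fun x => (h.disp x).trans hK, fun x y hxy => (h.edge x y hxy).mono hK⟩

lemma Ctl.comp (hd : LTM d) {K K' : ℕ} {φ : S.V → S'.V} {φ' : S'.V → S''.V}
    (h : Ctl d S S' K φ) (h' : Ctl d S' S'' K' φ') : Ctl d S S'' (K + K') (φ' ∘ φ) where
  eqv u x := by simp [h.eqv, h'.eqv]
  base := by simp [h.base, h'.base]
  disp x := by
    have h1 := hd.tri (S.f x) (S'.f (φ x)) (S''.f (φ' (φ x)))
    have h2 := h.disp x
    have h3 := h'.disp (φ x)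
    simp only [Function.comp]
    omega
  edge x y hxy := (h.edge x y hxy).push hd h'

lemma Ctl.id (hd : LTM d) {r : ℕ} (hf : Fine d S r) : Ctl d S S r (fun x => x) where
  eqv _ _ := rfl
  base := rfl
  disp x := by rw [hd.self]; omega
  edge x y hxy := Cn.of_adj hxy (by rw [hd.self]; omega) (hf x y hxy)

lemma Eqv.mono {K K' : ℕ} (h : Eqv d S S' K) (hK : K ≤ K') : Eqv d S S' K' := by
  obtain ⟨φ, ψ, h1, h2, h3, h4⟩ := h
  exact ⟨φ, ψ, h1.mono hK, h2.mono hK, fun x => (h3 x).mono hK, fun x => (h4 x).mono hK⟩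

lemma Eqv.symm {K : ℕ} (h : Eqv d S S' K) : Eqv d S' S K := by
  obtain ⟨φ, ψ, h1, h2, h3, h4⟩ := h
  exact ⟨ψ, φ, h2, h1, h4, h3⟩

lemma Eqv.refl (hd : LTM d) {r : ℕ} (hf : Fine d S r) : Eqv d S S r :=
  ⟨fun x => x, fun x => x, Ctl.id hd hf, Ctl.id hd hf,
    fun x => Cn.refl (by rw [hd.self]; omega), fun x => Cn.refl (by rw [hd.self]; omega)⟩

lemma Eqv.trans (hd : LTM d) {K K' : ℕ} (h : Eqv d S S' K) (h' : Eqv d S' S'' K') :
    Eqv d S S'' (2 * K + 2 * K') := by
  obtain ⟨φ, ψ, h1, h2, h3, h4⟩ := h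
  obtain ⟨φ', ψ', h1', h2', h3', h4'⟩ := h'
  refine ⟨φ' ∘ φ, ψ ∘ ψ', (h1.comp hd h1').mono (by omega), (h2'.comp hd h2).mono (by omega),
    fun x => ?_, fun x => ?_⟩
  · have e1 := (h3' (φ x)).push hd h2
    have e2 := (e1.center hd (h1.disp x)).mono (show K' + K + K ≤ 2 * K + 2 * K' by omega)
    exact e2.trans ((h3 x).mono (by omega))
  · have e1 := (h4 (ψ' x)).push hd h1'
    have e2 := (e1.center hd (h2'.disp x)).mono (show K + K' + K' ≤ 2 * K + 2 * K' by omega)
    exact e2.trans ((h4' x).mono (by omega))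

end Basic

section Change

variable {d} {S S' : Ob F} {d' : F → F → ℕ} {C : ℕ}

/-- change of metric -/
lemma Cn.change (h : ∀ a b, d' a b ≤ C * d a b) {p : F} {ρ : ℕ} {x y : S.V}
    (hc : Cn d S p ρ x y) : Cn d' S p (C * ρ) x y := by
  obtain ⟨w, hw⟩ := hc
  exact ⟨w, fun z hz => (h _ _).trans (Nat.mul_le_mul_left _ (hw z hz))⟩

lemma Fine.change (h : ∀ a b, d' a b ≤ C * d a b) {r : ℕ} (hc : Fine d S r) :
    Fine d' S (C * r) :=
  fun x y hxy => (h _ _).trans (Nat.mul_le_mul_left _ (hc x y hxy))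

lemma Ctl.change (h : ∀ a b, d' a b ≤ C * d a b) {K : ℕ} {φ : S.V → S'.V}
    (hc : Ctl d S S' K φ) : Ctl d' S S' (C * K) φ :=
  ⟨hc.eqv, hc.base, fun x => (h _ _).trans (Nat.mul_le_mul_left _ (hc.disp x)),
    fun x y hxy => (hc.edge x y hxy).change h⟩

lemma Eqv.change (h : ∀ a b, d' a b ≤ C * d a b) {K : ℕ} (hc : Eqv d S S' K) :
    Eqv d' S S' (C * K) := by
  obtain ⟨φ, ψ, h1, h2, h3, h4⟩ := hc
  exact ⟨φ, ψ, h1.change h, h2.change h, fun x => (h3 x).change h, fun x => (h4 x).change h⟩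

/-- the size bound gives connections of base points over points at distance `k` -/
lemma Sz.chain (hd : LTM d) {s : ℕ} (h : Sz d S s) {a a' : F} {k : ℕ} (hk : d a a' ≤ k) :
    Cn d S a (s + k) (a • S.b) (a' • S.b) := by
  induction k generalizing a' with
  | zero =>
    have : a = a' := hd.eq0 _ _ (by omega)
    subst this
    refine Cn.refl ?_
    rw [S.f_smul, S.f_b, mul_one, hd.self]
    omega
  | succ k ih =>
    rcases Nat.lt_or_ge (d a a') (k + 1) with h1 | h1
    · exact (ih (by omega)).mono (by omega)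
    · obtain ⟨c, h2, h3⟩ := hd.exists_between (show k ≤ d a a' by omega)
      have h4 : d c a' = 1 := by omega
      have h5 := (h.gen c a' h4).center hd (show d a c ≤ k by omega)
      exact ((ih (by omega)).mono (by omega)).trans (h5.mono (by omega))

lemma Sz.change (hd : LTM d) (hd' : LTM d') (h : ∀ a b, d' a b ≤ C * d a b)
    (h' : ∀ a b, d a b ≤ C * d' a b) {s : ℕ} (hs : Sz d S s) : Sz d' S (C * (s + C)) where
  pt x := ((hs.pt x).change h).mono (Nat.mul_le_mul_left _ (by omega))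
  gen a a' haa := by
    have h1 := h' a a'
    rw [haa, mul_one] at h1
    exact (hs.chain hd h1).change h

end Change

section Choice

/-- equivariant choice on sets with free action, with prescribed value on one orbit -/
lemma eqv_choice {V W : Type} [MulAction F V] [MulAction F W]
    (hfree : ∀ (u : F) (x : V), u • x = x → u = 1) (R : V → W → Prop)
    (hR : ∀ (u : F) x y, R x y → R (u • x) (u • y)) (hex : ∀ x, ∃ y, R x y)
    (x₀ : V) (y₀ : W) (h₀ : R x₀ y₀) :
    ∃ φ : V → W, (∀ (u : F) x, φ (u • x) = u • φ x) ∧ (∀ x, R x (φ x)) ∧ φ x₀ = y₀ := by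
  classical
  -- representatives of the orbits, with `x₀` the representative of its orbit
  have h1 : ∀ x : V, ∃ (g : F) (z : V), x = g • z ∧
      z = (if ∃ u : F, x = u • x₀ then x₀ else
        Quotient.out (⟦x⟧ : MulAction.orbitRel.Quotient F V)) := by
    intro x
    by_cases h : ∃ u : F, x = u • x₀
    · obtain ⟨u, hu⟩ := h
      exact ⟨u, x₀, hu, by rw [if_pos ⟨u, hu⟩]⟩
    · rw [if_neg h]
      have hq := Quotient.mk_out (s := MulAction.orbitRel F V) x
      have h2 : (MulAction.orbitRel F V).r x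
        (Quotient.out (⟦x⟧ : MulAction.orbitRel.Quotient F V)) :=
        (MulAction.orbitRel F V).symm hq
      obtain ⟨g, hg⟩ := h2
      exact ⟨g, _, hg.symm, rfl⟩
  choose γ ζ hγ hζ using h1
  choose c hc using hex
  have hζinv : ∀ (u : F) x, ζ (u • x) = ζ x := by
    intro u x
    rw [hζ, hζ]
    have e1 : (∃ v : F, u • x = v • x₀) ↔ (∃ v : F, x = v • x₀) := by
      constructor
      · rintro ⟨v, hv⟩
        exact ⟨u⁻¹ * v, by rw [mul_smul, ← hv, inv_smul_smul]⟩
      · rintro ⟨v, hv⟩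
        exact ⟨u * v, by rw [mul_smul, ← hv]⟩
    have e2 : (⟦u • x⟧ : MulAction.orbitRel.Quotient F V) = ⟦x⟧ := Quotient.sound ⟨u, rfl⟩
    simp only [e1, e2]
  have hγinv : ∀ (u : F) x, γ (u • x) = u * γ x := by
    intro u x
    have e1 := hγ (u • x)
    rw [hζinv] at e1
    have e2 : (u * γ x) • ζ x = u • x := by rw [mul_smul, ← hγ x]
    have e3 : ((u * γ x)⁻¹ * γ (u • x)) • ζ x = ζ x := by
      rw [mul_smul, ← e1, ← e2, inv_smul_smul]
    have e4 := hfree _ _ e3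
    have : γ (u • x) = (u * γ x) * ((u * γ x)⁻¹ * γ (u • x)) := by group
    rw [this, e4, mul_one]
  refine ⟨fun x => γ x • (if ζ x = x₀ then y₀ else c (ζ x)), fun u x => ?_, fun x => ?_, ?_⟩
  · simp only [hγinv, hζinv, mul_smul]
  · have e1 := hγ x
    conv_lhs => rw [e1]
    apply hR
    by_cases h : ζ x = x₀
    · rw [if_pos h, h]; exact h₀
    · rw [if_neg h]; exact hc _
  · have e0 : ζ x₀ = x₀ := by rw [hζ, if_pos ⟨1, by simp⟩]
    have e1 := hγ x₀
    rw [e0] at e1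
    have e2 : γ x₀ = 1 := hfree _ _ e1.symm
    simp only [e0, if_true, e2, one_smul]

end Choice

end Pool.Agent.H.MP_e5d137_al.UB
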