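import Pool.Agent.H.MP_e5d137_al.UB.Tr
import Pool.Agent.H.MP_e5d137_al.UB.Ob

/-!
# Collapsing a maximal forest in an object
-/

namespace Pool.Agent.H.MP_e5d137_al.UB

open SimpleGraph

variable {F : Type} [Group F]

/-- `c` is an equivariant map with `c b = 1` and connected fibres -/
structure Coll (S : Ob F) (c : S.V → F) : Prop where
  eqv : ∀ (u : F) x, c (u • x) = u * c x
  base : c S.b = 1
  conn : ∀ x y, c x = c y → ∃ w : S.T.Walk x y, ∀ z ∈ w.support, c z = c x

/-- transversal sets -/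
structure Col0Trv (S : Ob F) (Y : Set S.V) : Prop where
  base : S.b ∈ Y
  conn : ∀ x ∈ Y, ∀ y ∈ Y, ∃ w : S.T.Walk x y, ∀ z ∈ w.support, z ∈ Y
  trv : ∀ x ∈ Y, ∀ u : F, u • x ∈ Y → u = 1

theorem col0_sUnion (S : Ob F) (c : Set (Set S.V)) (hc : ∀ Y ∈ c, Col0Trv S Y)
    (hch : IsChain (· ⊆ ·) c) (hne : c.Nonempty) : Col0Trv S (⋃₀ c) := by
  have key : ∀ x ∈ ⋃₀ c, ∀ y ∈ ⋃₀ c, ∃ Y ∈ c, x ∈ Y ∧ y ∈ Y := by
    rintro x ⟨A, hA, hx⟩ y ⟨B, hB, hy⟩
    rcases hch.total hA hB with h | h
    · exact ⟨B, hB, h hx, hy⟩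
    · exact ⟨A, hA, hx, h hy⟩
  refine ⟨?_, ?_, ?_⟩
  · obtain ⟨Y, hY⟩ := hne
    exact ⟨Y, hY, (hc Y hY).base⟩
  · intro x hx y hy
    obtain ⟨Y, hY, h1, h2⟩ := key x hx y hy
    obtain ⟨w, hw⟩ := (hc Y hY).conn x h1 y h2
    exact ⟨w, fun z hz => ⟨Y, hY, hw z hz⟩⟩
  · intro x hx u hu
    obtain ⟨Y, hY, h1, h2⟩ := key x hx _ hu
    exact (hc Y hY).trv x h1 u h2

theorem col0_single (S : Ob F) : Col0Trv S {S.b} := by
  refine ⟨rfl, ?_, ?_⟩
  · intro x hx y hy
    rw [Set.mem_singleton_iff] at hx hy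
    subst hx
    subst hy
    refine ⟨Walk.nil, fun z hz => ?_⟩
    simpa using hz
  · intro x hx u hu
    rw [Set.mem_singleton_iff] at hx hu
    subst hx
    exact S.free u _ hu

/-- a maximal transversal set meets every orbit -/
theorem col0_cover (S : Ob F) {Y : Set S.V} (hY : Col0Trv S Y)
    (hmax : ∀ Y', Col0Trv S Y' → Y ⊆ Y' → Y' ⊆ Y) (x₁ : S.V) :
    ∃ u : F, ∃ y ∈ Y, x₁ = u • y := by
  by_contra hcon
  obtain ⟨p⟩ := S.tree.connected.preconnected S.b x₁
  obtain ⟨d, -, ⟨u, y, hy, hd⟩, hd2⟩ := p.exists_boundary_dart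
    {x | ∃ u : F, ∃ y ∈ Y, x = u • y} ⟨1, S.b, hY.base, (one_smul _ _).symm⟩ hcon
  have hadj := d.adj
  have h1 : S.T.Adj y (u⁻¹ • d.snd) := by
    have h2 := S.inv u⁻¹ _ _ hadj
    rw [hd, inv_smul_smul] at h2
    exact h2
  obtain ⟨z, hz⟩ : ∃ z, z = u⁻¹ • d.snd := ⟨_, rfl⟩
  rw [← hz] at h1
  have hzZ : ∀ u' : F, ∀ y' ∈ Y, z ≠ u' • y' := by
    intro u' y' hy' h3
    apply hd2
    refine ⟨u * u', y', hy', ?_⟩
    rw [mul_smul, ← h3, hz, smul_inv_smul]
  have hzY : z ∉ Y := fun h3 => hzZ 1 z h3 (one_smul _ _).symm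
  have hins : Col0Trv S (insert z Y) := by
    refine ⟨Set.mem_insert_of_mem _ hY.base, ?_, ?_⟩
    · intro a ha c hc
      rcases ha with ha | ha
      · rcases hc with hc | hc
        · rw [ha, hc]
          refine ⟨Walk.nil, fun t ht => ?_⟩
          have : t = z := by simpa using ht
          rw [this]
          exact Set.mem_insert _ _
        · rw [ha]
          obtain ⟨w, hw⟩ := hY.conn y hy c hc
          refine ⟨Walk.cons h1.symm w, fun t ht => ?_⟩
          rw [Walk.support_cons, List.mem_cons] at ht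
          rcases ht with ht | ht
          · rw [ht]
            exact Set.mem_insert _ _
          · exact Set.mem_insert_of_mem _ (hw t ht)
      · rcases hc with hc | hc
        · rw [hc]
          obtain ⟨w, hw⟩ := hY.conn a ha y hy
          refine ⟨w.concat h1, fun t ht => ?_⟩
          rw [Walk.support_concat, List.mem_append, List.mem_singleton] at ht
          rcases ht with ht | ht
          · exact Set.mem_insert_of_mem _ (hw t ht)
          · rw [ht]
            exact Set.mem_insert _ _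
        · obtain ⟨w, hw⟩ := hY.conn a ha c hc
          exact ⟨w, fun t ht => Set.mem_insert_of_mem _ (hw t ht)⟩
    · intro a ha v hv
      rcases ha with ha | ha
      · rw [ha] at hv
        rcases hv with hv | hv
        · exact S.free v _ hv
        · exact absurd (inv_smul_smul v z).symm (hzZ v⁻¹ _ hv)
      · rcases hv with hv | hv
        · exact absurd hv.symm (hzZ v a ha)
        · exact hY.trv a ha v hv
  exact hzY (hmax _ hins (Set.subset_insert _ _) (Set.mem_insert _ _))

/-- Existence of an equivariant map with connected fibres.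

Proof.  Call `Y : Set S.V` (or `Finset`) transversal if `b ∈ Y`, any two points of `Y` are joined
by a walk with support in `Y`, and `x ∈ Y`, `u • x ∈ Y` imply `u = 1`.  The set `{b}` is
transversal (freeness of the action), and a chain union of transversal sets is transversal, so by
Zorn there is a maximal transversal set `Y` (or take a transversal finset of maximal cardinality:
the cardinality is at most the number of orbits, `S.fin`).  Every vertex is of the form `u • y`
with `y ∈ Y`: otherwise, as `S.T` is connected, there is an edge `x, x'` with `x = u • y`, `y ∈ Y`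
and `x'` not of this form (`Walk.exists_boundary_dart`); then `Y ∪ {u⁻¹ • x'}` is transversal
(`u⁻¹ • x'` is adjacent to `y`; it is not in the orbit of a point of `Y`), a contradiction.  By
transversality the pair `(u, y)` is unique: if `u • y = u' • y'` then `y' = (u'⁻¹ u) • y`, so
`u'⁻¹ u = 1`.  Put `c (u • y) = u`.  The fibre over `u` is `u • Y`, which is connected (translate
the walks, see `Cn.smul` for the translation of walks). -/
theorem exists_coll (S : Ob F) : ∃ c : S.V → F, Coll S c := by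
  classical
  obtain ⟨Y, -, hYmax⟩ := zorn_subset_nonempty {Y : Set S.V | Col0Trv S Y}
    (fun c hc hch hne => ⟨⋃₀ c, col0_sUnion S c (fun Y hY => hc hY) hch hne,
      fun s hs => Set.subset_sUnion_of_mem hs⟩) {S.b} (col0_single S)
  have hY : Col0Trv S Y := hYmax.prop
  have hcov := col0_cover S hY (fun Y' hY' hsub => hYmax.le_of_ge hY' hsub)
  choose c y hyY hxy using hcov
  have huniq : ∀ (u u' : F) (a a' : S.V), a ∈ Y → a' ∈ Y → u • a = u' • a' → u = u' := by
    intro u u' a a' ha ha' h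
    have h1 : (u'⁻¹ * u) • a = a' := by
      rw [mul_smul, h, inv_smul_smul]
    have h2 := hY.trv a ha (u'⁻¹ * u) (by rw [h1]; exact ha')
    exact (inv_mul_eq_one.1 h2).symm
  refine ⟨c, ⟨?_, ?_, ?_⟩⟩
  · intro u x
    refine huniq _ _ _ _ (hyY (u • x)) (hyY x) ?_
    rw [← hxy, mul_smul, ← hxy]
  · refine huniq _ _ _ _ (hyY S.b) hY.base ?_
    rw [← hxy, one_smul]
  · intro x x' hc
    obtain ⟨w, hw⟩ := hY.conn _ (hyY x) _ (hyY x')
    obtain ⟨u, hu⟩ : ∃ u, u = c x := ⟨_, rfl⟩
    let φ : S.T →g S.T := ⟨fun x => u • x, fun {a b} hab => S.inv u a b hab⟩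
    have e1 : φ (y x) = x := by
      show u • y x = x
      rw [hu]
      exact (hxy x).symm
    have e2 : φ (y x') = x' := by
      show u • y x' = x'
      rw [hu, hc]
      exact (hxy x').symm
    refine ⟨(w.map φ).copy e1 e2, fun z hz => ?_⟩
    rw [Walk.support_copy, Walk.support_map, List.mem_map] at hz
    obtain ⟨z', hz', rfl⟩ := hz
    refine huniq (c (φ z')) (c x) (y (φ z')) z' (hyY _) (hw z' hz') ?_
    rw [← hxy (φ z'), ← hu]
    rfl

end Pool.Agent.H.MP_e5d137_al.UB
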