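import Pool.Agent.H.MP_e5d137_al.UB.Tr
import Pool.Agent.H.MP_e5d137_al.UB.Ob

/-!
# The tree of a metric as an object
-/

namespace Pool.Agent.H.MP_e5d137_al.UB

open SimpleGraph

variable {F : Type} [Group F] {d d' : F → F → ℕ}

/-- the graph on `F` in which points at distance one are adjacent -/
def tG (hd : LTM d) : SimpleGraph F where
  Adj a b := d a b = 1
  symm := ⟨fun a b h => by rw [hd.symm]; exact h⟩
  loopless := ⟨fun a h => by
    rw [hd.self] at h
    exact absurd h (by decide)⟩

/-- geodesic walks of length `k`: the points of the walk are on geodesics -/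
lemma tG_walk (hd : LTM d) {a b : F} (k : ℕ) (h : d a b = k) :
    ∃ w : (tG hd).Walk a b, w.length = k ∧ ∀ c ∈ w.support, d a c + d c b = d a b := by
  induction k generalizing a with
  | zero =>
    obtain rfl := hd.eq0 _ _ h
    refine ⟨Walk.nil, rfl, fun c hc => ?_⟩
    simp only [Walk.support_nil, List.mem_cons, List.not_mem_nil, or_false] at hc
    subst hc
    rw [hd.self]
  | succ k ih =>
    obtain ⟨c, h1, h2⟩ := hd.step a b k h
    obtain ⟨w, hw1, hw2⟩ := ih h2
    refine ⟨Walk.cons (show (tG hd).Adj a c from h1) w, by simp [hw1], fun e he => ?_⟩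
    rw [Walk.support_cons, List.mem_cons] at he
    rcases he with rfl | he
    · rw [hd.self]; omega
    · have h3 := hw2 e he
      have h4 := hd.tri a c e
      have h5 := hd.tri a e b
      omega

lemma tG_length (hd : LTM d) {a b : F} (w : (tG hd).Walk a b) : d a b ≤ w.length := by
  induction w with
  | nil => rw [hd.self]; omega
  | cons h w ih =>
    rename_i a b c
    have h1 := hd.tri a b c
    have h2 : d a b = 1 := h
    rw [Walk.length_cons]
    omega

lemma tG_tree (hd : LTM d) : (tG hd).IsTree := by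
  constructor
  · haveI : Nonempty F := ⟨1⟩
    constructor
    intro a b
    obtain ⟨w, _, _⟩ := tG_walk hd _ (rfl : d a b = _)
    exact ⟨w⟩
  · refine acyclic_of (fun x => d 1 x) ?_
    intro v a b w hva hvb hab _ hmax
    have h1 : d v a = 1 := hva
    have h2 : d v b = 1 := hvb
    have h3 := hmax a w.start_mem_support
    have h4 := hmax b w.end_mem_support
    have h5 := hd.adj_cases (a := 1) h1
    have h6 := hd.adj_cases (a := 1) h2
    have h7 := hd.symm v a
    have h8 := hd.symm v b
    exact hab (hd.geod_unique (a := 1) (b := v) (by omega) (by omega) (by omega))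

/-- the tree of `d`, with the identity map -/
@[reducible] def TOb (hd : LTM d) : Ob F where
  V := F
  free u x h := by
    have h' : u * x = x := h
    exact mul_eq_right.1 h'
  T := tG hd
  tree := tG_tree hd
  inv u x y h := by
    have h' : d x y = 1 := h
    show d (u * x) (u * y) = 1
    rw [hd.inv, h']
  b := 1
  f := fun x => x
  f_smul u x := rfl
  f_b := rfl
  fin := ⟨{1}, fun x => ⟨x, 1, by simp, by simp⟩⟩

lemma TOb_fine (hd : LTM d) : Fine d (TOb hd) 1 := fun x y h => le_of_eq h

lemma TOb_sz (hd : LTM d) : Sz d (TOb hd) 1 where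
  pt x := by
    have : (x • (1 : F)) = x := mul_one x
    show Cn d (TOb hd) x 1 x (x • (1 : F))
    rw [this]
    exact Cn.refl (by rw [hd.self]; omega)
  gen a a' h := by
    show Cn d (TOb hd) a 1 (a • (1 : F)) (a' • (1 : F))
    have h1 : (a • (1 : F)) = a := mul_one a
    have h2 : (a' • (1 : F)) = a' := mul_one a'
    rw [h1, h2]
    exact Cn.of_adj (S := TOb hd) h (by rw [hd.self]; omega) (le_of_eq h)

lemma TOb_orb (hd : LTM d) : Orb (TOb hd) 1 :=
  ⟨{1}, by simp, fun x => ⟨x, 1, by simp, (mul_one x).symm⟩⟩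

lemma TOb_len (hd : LTM d) {A : Set F} {ℓ : ℕ} (h : ∀ a ∈ A, d 1 a ≤ ℓ) :
    Len (TOb hd) A ℓ := by
  intro u hu
  obtain ⟨w, hw, _⟩ := tG_walk hd _ (rfl : d 1 (u • (1 : F)) = _)
  refine ⟨w, ?_⟩
  rw [hw]
  have : (u • (1 : F)) = u := mul_one u
  rw [this]
  exact h u hu

/-- geodesics of one metric seen in the other -/
lemma TOb_cn (hd' : LTM d') {C : ℕ} (h : ∀ a b, d a b ≤ C * d' a b) (a b : F) :
    Cn d (TOb hd') a (C * d' a b) a b := by
  obtain ⟨w, _, hw⟩ := tG_walk hd' _ (rfl : d' a b = _)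
  refine ⟨w, fun z hz => (h a z).trans (Nat.mul_le_mul_left _ ?_)⟩
  have := hw z hz
  show d' a z ≤ d' a b
  omega

theorem TOb_eqv (hd : LTM d) (hd' : LTM d') {C : ℕ} (h : ∀ a b, d a b ≤ C * d' a b)
    (h' : ∀ a b, d' a b ≤ C * d a b) : Eqv d (TOb hd) (TOb hd') (C + C * C) := by
  refine ⟨fun x => x, fun x => x, ⟨fun _ _ => rfl, rfl, fun x => ?_, fun x y hxy => ?_⟩,
    ⟨fun _ _ => rfl, rfl, fun x => ?_, fun x y hxy => ?_⟩, fun x => ?_, fun x => ?_⟩
  · show d x x ≤ _
    rw [hd.self]; omega
  · refine (TOb_cn hd' h x y).mono ?_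
    have h1 := h' x y
    have h2 : d x y = 1 := hxy
    have h3 := Nat.mul_le_mul_left C h1
    rw [h2, mul_one] at h3
    omega
  · show d x x ≤ _
    rw [hd.self]; omega
  · refine (TOb_cn (d := d) hd (C := 1) (fun a b => by omega) x y).mono ?_
    have h1 := h x y
    have h2 : d' x y = 1 := hxy
    rw [h2, mul_one] at h1
    omega
  · exact Cn.refl (S := TOb hd) (by show d x x ≤ _; rw [hd.self]; omega)
  · exact Cn.refl (S := TOb hd') (by show d x x ≤ _; rw [hd.self]; omega)

end Pool.Agent.H.MP_e5d137_al.UB
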