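import Pool.Agent.H.MP_e5d137_al.UB.SOb
import Pool.Agent.H.MP_e5d137_al.UB.Adp
import Pool.Agent.H.MP_e5d137_al.UB.TOb

/-!
# The subdivided standard tree: the identity is an adapted automorphism
-/

namespace Pool.Agent.H.MP_e5d137_al.UB

open SimpleGraph

variable {n : ℕ} {d : FreeGroup (Fin n) → FreeGroup (Fin n) → ℕ}

lemma SObA_u (u : FreeGroup (Fin n)) (i : Fin n) {j : ℕ} (hj : j < el d i) :
    (pt u i j : SV d).u = u := by
  rcases Nat.eq_zero_or_pos j with h | h
  · subst h
    rw [pt_zero]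
  · unfold pt
    rw [dif_pos ⟨h, hj⟩]

lemma SObA_el (hd : LTM d) (u : FreeGroup (Fin n)) (i : Fin n) {j : ℕ} (hj : j = el d i) :
    (pt u i j : SV d).u = u * FreeGroup.of i := by
  subst hj
  rw [pt_el hd]

lemma SObA_walk (hd : LTM d) (u : FreeGroup (Fin n)) (i : Fin n) (j : ℕ) (hj : j < el d i) :
    ∃ w : (sG d).Walk (pt u i j) ⟨u, none⟩, ∀ z ∈ w.support, z.u = u := by
  induction j with
  | zero =>
    rw [pt_zero]
    exact ⟨Walk.nil, by simp⟩
  | succ j ih =>
    obtain ⟨w, hw⟩ := ih (by omega)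
    refine ⟨Walk.cons (sG_adj hd u i (by omega)).symm w, fun z hz => ?_⟩
    rw [Walk.support_cons, List.mem_cons] at hz
    rcases hz with rfl | hz
    · exact SObA_u u i hj
    · exact hw z hz

lemma SObA_fib (hd : LTM d) (x : SV d) :
    ∃ w : (sG d).Walk x ⟨x.u, none⟩, ∀ z ∈ w.support, z.u = x.u := by
  rcases x with ⟨u, _ | q⟩
  · exact ⟨Walk.nil, by simp⟩
  · rw [pt_mid u q]
    have h := SObA_walk hd u q.1.1 q.1.2 q.2.2
    have h2 : (pt u q.1.1 q.1.2 : SV d).u = u := SObA_u u q.1.1 q.2.2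
    rw [h2]
    exact h

lemma SObA_one (a : FreeGroup (Fin n)) (i : Fin n) : a * FreeGroup.of i ≠ a := by
  intro h
  exact FreeGroup.of_ne_one i (mul_eq_left.1 h)

lemma SObA_two (i i' : Fin n) : (FreeGroup.of i : FreeGroup (Fin n)) * FreeGroup.of i' ≠ 1 := by
  intro h
  have h1 := congrArg (FreeGroup.lift (fun _ : Fin n => Multiplicative.ofAdd (1 : ℤ))) h
  rw [MonoidHom.map_mul, MonoidHom.map_one, FreeGroup.lift_apply_of, FreeGroup.lift_apply_of,
    ← ofAdd_add] at h1
  have h2 : (1 + 1 : ℤ) = 0 := h1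
  omega

lemma SObA_dg (a : FreeGroup (Fin n)) (i : Fin n) :
    dg (1 : MulAut (FreeGroup (Fin n))) a (a * FreeGroup.of i) = 1 ∧
      dg (1 : MulAut (FreeGroup (Fin n))) (a * FreeGroup.of i) a = 1 := by
  constructor
  · show (a⁻¹ * (a * FreeGroup.of i)).norm = 1
    rw [inv_mul_cancel_left, FreeGroup.norm_of]
  · show ((a * FreeGroup.of i)⁻¹ * a).norm = 1
    rw [mul_inv_rev, inv_mul_cancel_right, FreeGroup.norm_inv_eq, FreeGroup.norm_of]

lemma SObA_edge (hd : LTM d) (a : FreeGroup (Fin n)) (i : Fin n) :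
    ∃ x y : SV d, (sG d).Adj x y ∧ x.u = a ∧ y.u = a * FreeGroup.of i ∧
      ∀ x' y', (sG d).Adj x' y' → x'.u = a → y'.u = a * FreeGroup.of i → x' = x ∧ y' = y := by
  have hp := el_pos hd i
  have hk : el d i - 1 < el d i := by omega
  have hk' : el d i - 1 + 1 = el d i := by omega
  refine ⟨pt a i (el d i - 1), pt a i (el d i - 1 + 1), sG_adj hd a i hk, SObA_u a i hk,
    SObA_el hd a i hk', ?_⟩
  intro x' y' h hx hy
  obtain ⟨_, u, i', j, hj, ⟨rfl, rfl⟩ | ⟨rfl, rfl⟩⟩ := h
  · rw [SObA_u u i' hj] at hx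
    subst hx
    rcases Nat.lt_or_ge (j + 1) (el d i') with h1 | h1
    · rw [SObA_u u i' h1] at hy
      exact absurd hy.symm (SObA_one u i)
    · have h2 : j + 1 = el d i' := by omega
      rw [SObA_el hd u i' h2] at hy
      have h3 : i' = i := FreeGroup.of_injective (mul_left_cancel hy)
      subst h3
      have h4 : j = el d i' - 1 := by omega
      subst h4
      exact ⟨rfl, rfl⟩
  · rw [SObA_u u i' hj] at hy
    subst hy
    exfalso
    rcases Nat.lt_or_ge (j + 1) (el d i') with h1 | h1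
    · rw [SObA_u _ i' h1] at hx
      exact SObA_one a i hx
    · have h2 : j + 1 = el d i' := by omega
      rw [SObA_el hd _ i' h2, mul_assoc] at hx
      exact SObA_two i i' (mul_eq_left.1 hx)

/-- The identity is adapted to the subdivided standard tree.

Proof.  `c a = a.u`, that is `c (pt u i j) = u` for `j < el d i` and `u * x_i` for `j = el d i`.
`conn`: if `c x = u` then `x` is `(u, none) = pt u i 0` or `pt u i j` with `0 < j < el d i`, and
it is joined to `(u, none)` along `pt u i 0, ..., pt u i j`, all in the fibre.  `adj`: the ends of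
an edge are `pt u i j`, `pt u i (j + 1)`; their images are `u`, `u` if `j + 1 < el d i` and `u`,
`u * x_i` if `j + 1 = el d i`; and `dg 1 a b = (a⁻¹ * b).norm`.  `edge`: `dg 1 a a' = 1` means that
`a⁻¹ * a'` is `x_i` or `x_i⁻¹` for some `i` (a reduced word with one letter).  In the first case
the edge is `x = pt a i (el d i - 1)`, `y = pt a i (el d i) = ⟨a', none⟩`, in the second one
`a = a' * x_i` and it is `x = pt a' i (el d i)`, `y = pt a' i (el d i - 1)`.  Uniqueness: an edge
with images `a`, `a'` is of the form `pt u i' j`, `pt u i' (j + 1)` with `j + 1 = el d i'`, in one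
of the two orders; if `a = u`, `a' = u * x_{i'}` then `x_{i'} = a⁻¹ a'`, which determines `i'`
(and `x_{i'} = x_i⁻¹` is impossible); similarly for the other order. -/
theorem SOb_adp (hd : LTM d) : ∃ c, Adp (SOb hd) 1 c := by
  refine ⟨fun a : SV d => a.u, ⟨fun _ _ => rfl, rfl, ?_, ?_, ?_⟩⟩
  · intro x y h
    obtain ⟨w, hw⟩ := SObA_fib hd x
    have h' : x.u = y.u := h
    obtain ⟨w', hw'⟩ : ∃ w' : (sG d).Walk y ⟨x.u, none⟩, ∀ z ∈ w'.support, z.u = x.u := by
      rw [h']
      exact SObA_fib hd y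
    refine ⟨w.append w'.reverse, fun z hz => ?_⟩
    rcases (Walk.mem_support_append_iff _ _).1 hz with h1 | h1
    · exact hw z h1
    · rw [Walk.support_reverse, List.mem_reverse] at h1
      exact hw' z h1
  · intro x y h
    have h0 : (sG d).Adj x y := h
    obtain ⟨_, u, i, j, hj, h1⟩ := h0
    rcases Nat.lt_or_ge (j + 1) (el d i) with h2 | h2
    · left
      rcases h1 with ⟨rfl, rfl⟩ | ⟨rfl, rfl⟩
      · show (pt u i j : SV d).u = (pt u i (j + 1) : SV d).u
        rw [SObA_u u i hj, SObA_u u i h2]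
      · show (pt u i (j + 1) : SV d).u = (pt u i j : SV d).u
        rw [SObA_u u i hj, SObA_u u i h2]
    · right
      have h3 : j + 1 = el d i := by omega
      rcases h1 with ⟨rfl, rfl⟩ | ⟨rfl, rfl⟩
      · show dg 1 (pt u i j : SV d).u (pt u i (j + 1) : SV d).u = 1
        rw [SObA_u u i hj, SObA_el hd u i h3]
        exact (SObA_dg u i).1
      · show dg 1 (pt u i (j + 1) : SV d).u (pt u i j : SV d).u = 1
        rw [SObA_u u i hj, SObA_el hd u i h3]
        exact (SObA_dg u i).2
  · intro a a' h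
    have h0 : (a⁻¹ * a').norm = 1 := h
    unfold FreeGroup.norm at h0
    obtain ⟨⟨i, b⟩, hw⟩ := List.length_eq_one_iff.1 h0
    have h1 : a⁻¹ * a' = FreeGroup.mk [(i, b)] := by
      rw [← hw, FreeGroup.mk_toWord]
    cases b with
    | true =>
      have h2 : a' = a * FreeGroup.of i := by
        have h3 : a⁻¹ * a' = FreeGroup.of i := h1
        rw [← h3, mul_inv_cancel_left]
      subst h2
      exact SObA_edge hd a i
    | false =>
      have h2 : a = a' * FreeGroup.of i := by
        have h3 : a⁻¹ * a' = (FreeGroup.of i)⁻¹ := h1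
        have h4 : (FreeGroup.of i : FreeGroup (Fin n)) = a'⁻¹ * a := by
          rw [← inv_inj, ← h3]
          group
        rw [h4, mul_inv_cancel_left]
      subst h2
      obtain ⟨x, y, h3, h4, h5, h6⟩ := SObA_edge hd a' i
      exact ⟨y, x, h3.symm, h5, h4, fun x' y' h7 h8 h9 =>
        ⟨(h6 y' x' h7.symm h9 h8).2, (h6 y' x' h7.symm h9 h8).1⟩⟩

/-- The automorphism `g` is adapted to its tree (with the identity map). -/
theorem TOb_adp (g : MulAut (FreeGroup (Fin n))) : Adp (TOb (dg_ltm g)) g (fun x => x) where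
  eqv _ _ := rfl
  base := rfl
  conn x y h := by
    subst h
    exact ⟨Walk.nil, by simp⟩
  adj x y h := Or.inr h
  edge a a' h := ⟨a, a', h, rfl, rfl, fun x' y' _ h1 h2 => ⟨h1, h2⟩⟩

end Pool.Agent.H.MP_e5d137_al.UB
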