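import Pool.Agent.H.MP_e5d137_al.UB.Chain2
import Pool.Agent.H.MP_e5d137_al.UB.AdpC
import Pool.Agent.H.MP_e5d137_al.UB.AdpL
import Pool.Agent.H.MP_e5d137_al.UB.SObA

/-!
# The cone property of `Aut (F_n)`
-/

namespace Pool.Agent.H.MP_e5d137_al.UB

open Finsupp SimpleGraph

variable {n : ℕ}

lemma close_EA (n K : ℕ) : ∃ C, 1 ≤ C ∧ ∀ (h : An n) (S S' : Ob (Fn n)), Eqv (dg h) S S' K →
    ∀ (g g' : An n) (c : S.V → Fn n) (c' : S'.V → Fn n), Adp S g c → Adp S' g' c' →
    EA (g'⁻¹ * g) ≤ C := by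
  refine ⟨1 + 4 * n * (1 + 2 * n * beta n (3 * K)), by omega, fun h S S' hK g g' c c' hc hc' => ?_⟩
  refine EA_le (by omega) (fun i => ?_) (fun i => ?_)
  · have := adp_close hK hc hc' i
    omega
  · have := adp_close hK.symm hc' hc i
    rw [mul_inv_rev, inv_inv]
    omega

lemma close_pos (n K : ℕ) : ∃ C, 1 ≤ C ∧ ∀ (h : An n) (S S' : Ob (Fn n)), Eqv (dg h) S S' K →
    EA ((pos S)⁻¹ * pos S') ≤ C := by
  obtain ⟨C, hC1, hC⟩ := close_EA n K
  refine ⟨C, hC1, fun h S S' hK => ?_⟩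
  obtain ⟨c, hc⟩ := pos_adp S
  obtain ⟨c', hc'⟩ := pos_adp S'
  exact hC h S' S hK.symm _ _ _ _ hc' hc

lemma close_TS (n : ℕ) : ∃ C, 1 ≤ C ∧ ∀ g : An n, EA (g⁻¹ * pos (oT g)) ≤ C ∧
    EA (pos (oS g)) ≤ C := by
  obtain ⟨C, hC1, hC⟩ := close_EA n 1
  refine ⟨C, hC1, fun g => ⟨?_, ?_⟩⟩
  · obtain ⟨c, hc⟩ := pos_adp (oT g)
    have h1 : Eqv (dg g) (oT g) (oT g) 1 := Eqv.refl (dg_ltm g) (TOb_fine (dg_ltm g))
    exact hC g _ _ h1 _ _ _ _ hc (TOb_adp g)
  · obtain ⟨c, hc⟩ := pos_adp (oS g)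
    obtain ⟨c', hc'⟩ := SOb_adp (dg_ltm g)
    have h1 : Eqv (dg g) (oS g) (oS g) 1 := Eqv.refl (dg_ltm g) (SOb_fine (dg_ltm g))
    have h2 := hC g _ _ h1 _ _ _ _ hc hc'
    rwa [inv_one, one_mul] at h2

lemma norm_le_dg (g : An n) (w : Fn n) : w.norm ≤ EA g * dg g 1 w := by
  have h1 := norm_map_le (g : Fn n →* Fn n) (EA g) (fun i => (norm_le_EA g i).1) (g⁻¹ w)
  have h2 : (g : Fn n →* Fn n) (g⁻¹ w) = w := by
    show g (g⁻¹ w) = w
    rw [← MulAut.mul_apply, mul_inv_cancel, MulAut.one_apply]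
  rw [h2] at h1
  unfold dg
  rw [inv_one, one_mul]
  exact h1

lemma pos_size {g : An n} {r s X : ℕ} {A : Ob (Fn n)} (h : Ent g r s A) (hg : EA g ≤ X) :
    EA (pos A) ≤ 1 + s + X * (2 * r * s) := by
  obtain ⟨c, hc⟩ := pos_adp A
  refine EA_le (by omega) (fun i => ?_) (fun i => ?_)
  · have h1 := adp_size hc h.fine h.orb i
    have h2 := norm_le_dg g (pos A (FreeGroup.of i))
    have h3 : EA g * dg g 1 (pos A (FreeGroup.of i)) ≤ X * (2 * r * s) := Nat.mul_le_mul hg h1
    omega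
  · have h1 := adp_len hc h.len i
    omega

/-- The cone property of the automorphism group of a free group. -/
theorem cone_EA (n : ℕ) : Cone (EA (n := n)) := by
  intro k R₀
  obtain ⟨r, K, c, hh⟩ := exists_h n (R₀ + 1) (by omega) k
  obtain ⟨C₁, hC₁, hK₁⟩ := close_pos n K
  obtain ⟨C₂, hC₂, hK₂⟩ := close_TS n
  have hE := EA_szf (n := n)
  set R := R₀ + 1 with hR
  obtain ⟨c', hc'⟩ : PB (fun X => (1 + X ^ c + X * (2 * r * X ^ c)) + C₂ + X * C₂ +
      (X ^ c + 1 + k)) :=
    (((((PB.const 1).add (PB.id.pow c)).add (PB.id.mul ((PB.const (2 * r)).mul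
      (PB.id.pow c)))).add (PB.const C₂)).add (PB.id.mul (PB.const C₂))).add
      (((PB.id.pow c).add (PB.const 1)).add (PB.const k))
  refine ⟨C₁ + C₂ * C₂ + C₂ * (R * C₂), c', fun X hX x hx hbd => ?_⟩
  have b := hc' X hX
  simp only at b
  obtain ⟨h, hnil, hh⟩ := hh X hX
  have hx' : ∀ σ ∈ x.support, σ.length = k ∧ Small EA R σ ∧ Near EA 1 X σ := fun σ hσ =>
    ⟨(hx σ hσ).1, (hx σ hσ).2.1.mono (by omega), (hx σ hσ).2.2⟩
  have hX1 : X ≤ X * C₂ := Nat.le_mul_of_pos_right X (by omega)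
  have hRC : R ≤ C₂ * (R * C₂) := by
    have : 1 ≤ C₂ * C₂ := Nat.mul_le_mul hC₂ hC₂
    calc R = R * 1 := (mul_one R).symm
      _ ≤ R * (C₂ * C₂) := Nat.mul_le_mul_left _ this
      _ = C₂ * (R * C₂) := by ring
  have hRC' : R * C₂ ≤ C₂ * (R * C₂) := Nat.le_mul_of_pos_left _ (by omega)
  -- the filling
  refine ⟨mp pos (Finsupp.linearCombination ℤ h x) + cn 1 (mp (fun g => pos (oS g)) x) -
    pr (fun g => g) (fun g => pos (oT g)) x, fun τ hτ => ?_, ?_, ?_⟩
  · rcases supp_sub hτ with hτ | hτ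
    · rcases supp_add hτ with hτ | hτ
      · obtain ⟨τ', hτ', rfl⟩ := supp_mp hτ
        obtain ⟨σ, hσ, hτ'⟩ := supp_lc _ _ hτ'
        obtain ⟨h1, h2, h3⟩ := hx' σ hσ
        obtain ⟨_, h4, _⟩ := hh σ h1.le h2 h3
        obtain ⟨h5, h6⟩ := h4 τ' hτ'
        have hne : σ ≠ [] := by
          rintro rfl
          rw [hnil] at hτ'
          simp at hτ'
        obtain ⟨g, hg⟩ := List.exists_mem_of_ne_nil σ hne
        have hgd := h6 g hg
        have hgX : EA g ≤ X := by
          have := h3 g hg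
          rwa [inv_one, one_mul] at this
        refine ⟨by rw [List.length_map, h5, h1], fun a ha b' hb' => ?_, fun a ha => ?_⟩
        · obtain ⟨A, hA, rfl⟩ := List.mem_map.1 ha
          obtain ⟨B, hB, rfl⟩ := List.mem_map.1 hb'
          have := hK₁ g A B (hgd.eqv A hA B hB)
          omega
        · obtain ⟨A, hA, rfl⟩ := List.mem_map.1 ha
          rw [inv_one, one_mul]
          have := pos_size (hgd.ent A hA) hgX
          omega
      · obtain ⟨ρ, hρ, rfl⟩ := supp_cn hτ
        obtain ⟨σ, hσ, rfl⟩ := supp_mp hρ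
        have hent : ∀ a ∈ (1 : An n) :: σ.map (fun g => pos (oS g)), EA a ≤ C₂ := by
          intro a ha
          rcases List.mem_cons.1 ha with rfl | ha
          · rw [hE.one]; exact hC₂
          · obtain ⟨g, _, rfl⟩ := List.mem_map.1 ha
            exact (hK₂ g).2
        refine ⟨by rw [List.length_cons, List.length_map, (hx' σ hσ).1], fun a ha b' hb' => ?_,
          fun a ha => ?_⟩
        · have h1 := hE.mul a⁻¹ b'
          rw [hE.inv] at h1
          have h2 := Nat.mul_le_mul (hent a ha) (hent b' hb')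
          omega
        · rw [inv_one, one_mul]
          have := hent a ha
          omega
    · obtain ⟨σ, hσ, h1, h2⟩ := supp_pr hτ
      obtain ⟨h3, h4, h5⟩ := hx' σ hσ
      have hg : ∀ g ∈ σ, ∀ g' ∈ σ, EA (g⁻¹ * pos (oT g')) ≤ R * C₂ := by
        intro g hg g' hg'
        have e1 := hE.mul (g⁻¹ * g') (g'⁻¹ * pos (oT g'))
        rw [show g⁻¹ * g' * (g'⁻¹ * pos (oT g')) = g⁻¹ * pos (oT g') by group] at e1
        exact e1.trans (Nat.mul_le_mul (h4 g hg g' hg') (hK₂ g').1)
      refine ⟨by rw [h1, h3], fun a ha b' hb' => ?_, fun a ha => ?_⟩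
      · obtain ⟨g, hga, rfl | rfl⟩ := h2 a ha
        · obtain ⟨g', hgb, rfl | rfl⟩ := h2 b' hb'
          · have := h4 _ hga _ hgb
            omega
          · have := hg _ hga _ hgb
            omega
        · obtain ⟨g', hgb, rfl | rfl⟩ := h2 b' hb'
          · have e1 := hg _ hgb _ hga
            have e2 := hE.inv (b'⁻¹ * pos (oT g))
            rw [mul_inv_rev, inv_inv] at e2
            omega
          · have e1 := hE.mul ((pos (oT g))⁻¹ * g) (g⁻¹ * pos (oT g'))
            rw [show (pos (oT g))⁻¹ * g * (g⁻¹ * pos (oT g')) = (pos (oT g))⁻¹ * pos (oT g') by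
              group] at e1
            have e2 := hE.inv (g⁻¹ * pos (oT g))
            rw [mul_inv_rev, inv_inv] at e2
            have e3 := Nat.mul_le_mul (e2.le.trans (hK₂ g).1) (hg _ hga _ hgb)
            omega
      · rw [inv_one, one_mul]
        obtain ⟨g, hga, rfl | rfl⟩ := h2 a ha
        · have := h5 _ hga
          rw [inv_one, one_mul] at this
          omega
        · have e1 := hE.mul g (g⁻¹ * pos (oT g))
          rw [mul_inv_cancel_left] at e1
          have e2 := h5 _ hga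
          rw [inv_one, one_mul] at e2
          have e3 := Nat.mul_le_mul e2 (hK₂ g).1
          omega
  · have e1 : bd (Finsupp.linearCombination ℤ h x) = mp oT x - mp oS x := by
      have f1 : bd (Finsupp.linearCombination ℤ h x) =
          Finsupp.linearCombination ℤ (fun ρ => bd (h ρ)) x := by
        rw [Finsupp.linearCombination_apply, Finsupp.linearCombination_apply, Finsupp.sum,
          Finsupp.sum, map_sum]
        simp only [map_smul]
      have f2 : Finsupp.linearCombination ℤ (fun ρ => bd (h ρ)) x =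
          Finsupp.linearCombination ℤ (fun ρ => single (ρ.map oT) (1 : ℤ) -
            single (ρ.map oS) 1 - Finsupp.linearCombination ℤ h (bdl ρ)) x :=
        lc_congr _ _ _ (fun ρ hρ => (hh ρ (hx' ρ hρ).1.le (hx' ρ hρ).2.1 (hx' ρ hρ).2.2).1)
      have f3 : ∀ x : Ch (An n), Finsupp.linearCombination ℤ (fun ρ => single (ρ.map oT) (1 : ℤ)
          - single (ρ.map oS) 1 - Finsupp.linearCombination ℤ h (bdl ρ)) x =
          mp oT x - mp oS x - Finsupp.linearCombination ℤ h (bd x) := by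
        intro x
        induction x using Finsupp.induction_linear with
        | zero => simp
        | add a b ha hb => simp only [map_add, ha, hb]; abel
        | single ρ m =>
          rw [Finsupp.linearCombination_single, mp_single, mp_single, bd_single, map_smul,
            smul_sub, smul_sub]
          simp
      rw [f1, f2, f3, hbd, map_zero, sub_zero]
    have e2 := bd_pr (fun g : An n => g) (fun g => pos (oT g)) x
    rw [hbd, map_zero, add_zero, mp_id] at e2
    rw [map_sub, map_add, bd_mp, e1, bd_cn, bd_mp, hbd, map_zero, map_zero, sub_zero, e2, map_sub,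
      mp_mp, mp_mp]
    have e3 : (pos ∘ oT : An n → An n) = fun g => pos (oT g) := rfl
    have e4 : (pos ∘ oS : An n → An n) = fun g => pos (oS g) := rfl
    rw [e3, e4]
    abel
  · refine (ms_sub_le _ _).trans ((Nat.add_le_add (ms_add_le _ _) le_rfl).trans ?_)
    have m1 : ms (mp pos (Finsupp.linearCombination ℤ h x)) ≤ X ^ c * ms x :=
      (ms_mp _ _).trans (ms_lc_le _ _ _ (fun σ hσ =>
        (hh σ (hx' σ hσ).1.le (hx' σ hσ).2.1 (hx' σ hσ).2.2).2.2))
    have m2 : ms (cn 1 (mp (fun g => pos (oS g)) x)) ≤ ms x := (ms_cn _ _).trans (ms_mp _ _)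
    have m3 := ms_pr (fun g : An n => g) (fun g => pos (oT g)) x (k := k)
      (fun σ hσ => (hx' σ hσ).1.le)
    have m4 : X ^ c * ms x + ms x + k * ms x ≤ X ^ c' * ms x := by
      calc X ^ c * ms x + ms x + k * ms x = (X ^ c + 1 + k) * ms x := by ring
        _ ≤ _ := Nat.mul_le_mul_right _ (by omega)
    exact (Nat.add_le_add (Nat.add_le_add m1 m2) m3).trans m4

end Pool.Agent.H.MP_e5d137_al.UB
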