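import Pool.Agent.H.MP_e5d137_al.UB.Sk
import Pool.Agent.H.MP_e5d137_al.UB.TOb

/-!
# The flow of an object towards the tree of the metric
-/

namespace Pool.Agent.H.MP_e5d137_al.UB

open SimpleGraph

variable {F : Type} [Group F] {d : F → F → ℕ} {S S' : Ob F} {r t t' : ℕ}

/-- joined by a walk with centres at distance at most `κ` from `p` -/
def Rch (hd : LTM d) (S : Ob F) (t : ℕ) (p : F) (κ : ℕ) (A B : Sk d S t t) : Prop :=
  ∃ w : (skG hd S t t).Walk A B, ∀ C ∈ w.support, d p (ctr C) ≤ κ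

lemma Rch.trans {hd : LTM d} {p : F} {κ : ℕ} {A B C : Sk d S t t} (h : Rch hd S t p κ A B)
    (h' : Rch hd S t p κ B C) : Rch hd S t p κ A C := by
  obtain ⟨w, hw⟩ := h
  obtain ⟨w', hw'⟩ := h'
  refine ⟨w.append w', fun t ht => ?_⟩
  rcases (Walk.mem_support_append_iff _ _).1 ht with h | h
  · exact hw t h
  · exact hw' t h

lemma move_rch (hd : LTM d) {p a b : F} {κ : ℕ} {x : S.V} (ha : d p a ≤ κ) (hb : d p b ≤ κ)
    (hax : d a (S.f x) ≤ t) (hbx : d b (S.f x) ≤ t) :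
    Rch hd S t p κ (mk a x hax hax) (mk b x hbx hbx) := by
  obtain ⟨w, _, hw⟩ := move (r := t) hd hax hax hbx hbx
  refine ⟨w, fun C hC => ?_⟩
  have h1 := hd.conv (x := p) (hw C hC)
  rw [hd.symm p]
  rw [hd.symm p] at ha hb
  exact h1.trans (max_le ha hb)

/-- Transfer of connections to the flow.

Proof.  Let `k = ρ - (t - r)` (truncated subtraction).  For each point `z` of the walk let `c z` be
a point of the geodesic `[p, f z]` at distance `min k (d p (f z))` from `p`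
(`LTM.exists_between`); then `d (c z) (f z) ≤ t - r`, so `d (c z) (f z') ≤ t` if `z'` is adjacent
to `z`.  The vertices `(c z, z)` and `(c z, z')` of the graph are equal, and `move` (with `r = t`)
gives a walk from `(c z, z')` to `(c z', z')` whose centres are on the geodesic from `c z` to
`c z'`, hence within distance `max (d p (c z)) (d p (c z')) ≤ k ≤ κ` of `p` (`LTM.conv`).  At the
start and at the end use `move` from `a` to `c x` and from `c y` to `b`. -/
theorem transfer (hd : LTM d) (hf : Fine d S r) (hrt : r ≤ t) {p a b : F} {ρ κ : ℕ} {x y : S.V}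
    (h : Cn d S p ρ x y) (hk : ρ - (t - r) ≤ κ) (ha : d p a ≤ κ) (hb : d p b ≤ κ)
    (hax : d a (S.f x) ≤ t) (hby : d b (S.f y) ≤ t) :
    ∃ w : (skG hd S t t).Walk (mk a x hax hax) (mk b y hby hby),
      ∀ C ∈ w.support, d p (ctr C) ≤ κ := by
  obtain ⟨W, hW⟩ := h
  set k := ρ - (t - r) with hkdef
  have hc : ∀ z : S.V, d p (S.f z) ≤ ρ → ∃ c : F, d p c ≤ κ ∧ d c (S.f z) ≤ t - r := by
    intro z hz
    obtain ⟨c, h1, h2⟩ := hd.exists_between (show min k (d p (S.f z)) ≤ d p (S.f z) by omega)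
    exact ⟨c, by omega, by omega⟩
  have key : ∀ {x y : S.V} (W : S.T.Walk x y), (∀ z ∈ W.support, d p (S.f z) ≤ ρ) →
      ∀ (c b : F) (hcx : d c (S.f x) ≤ t) (hby : d b (S.f y) ≤ t), d c (S.f x) ≤ t - r →
      d p c ≤ κ → d p b ≤ κ → Rch hd S t p κ (mk c x hcx hcx) (mk b y hby hby) := by
    intro x y W
    induction W with
    | nil =>
      intro _ c b hcx hby _ h2 h3
      exact move_rch hd h2 h3 hcx hby
    | cons hadj W ih =>
      rename_i x x' y
      intro hW c b hcx hby h1 h2 h3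
      have hx' : d p (S.f x') ≤ ρ := hW x' (by simp)
      obtain ⟨c', h4, h5⟩ := hc x' hx'
      have h6 := hf x x' hadj
      have h7 := hd.tri c (S.f x) (S.f x')
      have hcx' : d c (S.f x') ≤ t := by omega
      have hc'x' : d c' (S.f x') ≤ t := by omega
      have e1 : (mk c x hcx hcx : Sk d S t t) = mk c x' hcx' hcx' :=
        mk_eq (Cn.of_adj hadj hcx hcx')
      rw [e1]
      exact (move_rch hd h2 h4 hcx' hc'x').trans
        (ih (fun z hz => hW z (by simp [hz])) c' b hc'x' hby h5 h4 h3)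
  obtain ⟨c, h1, h2⟩ := hc x (hW x W.start_mem_support)
  have hcx : d c (S.f x) ≤ t := by omega
  exact (move_rch hd ha h1 hax hcx).trans (key W hW c b hcx hby h2 h1 hb)

/-- the inclusion -/
def skI (hrt : r ≤ t) (A : Sk d S t r) : Sk d S t t :=
  ⟨A.1, by
    obtain ⟨x, h, ht, hC⟩ := A.2
    exact ⟨x, ht, ht, hC⟩⟩

/-- translation of vertices -/
def skS (hd : LTM d) (u : F) (A : Sk d S t r) : Sk d S t r :=
  ⟨(u * A.1.1, (fun x => u • x) '' A.1.2), by
    obtain ⟨x, h, ht, hC⟩ := A.2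
    refine ⟨u • x, ?_, ?_, ?_⟩
    · show d (u * A.1.1) (S.f (u • x)) ≤ r
      rw [S.f_smul, hd.inv]
      exact h
    · show d (u * A.1.1) (S.f (u • x)) ≤ t
      rw [S.f_smul, hd.inv]
      exact ht
    · show (fun x => u • x) '' A.1.2 = cmp d S t (u * A.1.1) (u • x)
      rw [hC]
      ext z
      constructor
      · rintro ⟨y, hy, rfl⟩
        exact Cn.smul hd u hy
      · intro hz
        refine ⟨u⁻¹ • z, ?_, by simp⟩
        have h2 := Cn.smul hd u⁻¹ hz
        rw [inv_mul_cancel_left, inv_smul_smul] at h2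
        exact h2⟩

lemma skS_mk (hd : LTM d) (u p : F) (x : S.V) (h : d p (S.f x) ≤ r) (ht : d p (S.f x) ≤ t) :
    skS hd u (mk p x h ht) = mk (u * p) (u • x) (by rw [S.f_smul, hd.inv]; exact h)
      (by rw [S.f_smul, hd.inv]; exact ht) := by
  refine Sk.ext (by rfl) ?_
  show (fun x => u • x) '' (cmp d S t p x) = cmp d S t (u * p) (u • x)
  ext z
  constructor
  · rintro ⟨y, hy, rfl⟩
    exact Cn.smul hd u hy
  · intro hz
    refine ⟨u⁻¹ • z, ?_, by simp⟩
    have h2 := Cn.smul hd u⁻¹ hz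
    rw [inv_mul_cancel_left, inv_smul_smul] at h2
    exact h2

lemma conn_walk (hd : LTM d) (hf : Fine d S r) (hrt : r ≤ t) {x y : S.V} (W : S.T.Walk x y)
    (hx : d (S.f x) (S.f x) ≤ r) (hx' : d (S.f x) (S.f x) ≤ t)
    (hy : d (S.f y) (S.f y) ≤ r) (hy' : d (S.f y) (S.f y) ≤ t) :
    ∃ w : (skG hd S t r).Walk (mk (S.f x) x hx hx') (mk (S.f y) y hy hy'),
      w.length ≤ r * W.length := by
  induction W with
  | nil => exact ⟨Walk.nil, by simp⟩
  | cons hadj W ih =>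
    rename_i x x' y
    have h1 : d (S.f x') (S.f x) ≤ r := by rw [hd.symm]; exact hf _ _ hadj
    have h1' : d (S.f x') (S.f x) ≤ t := h1.trans hrt
    have h2 : d (S.f x') (S.f x') ≤ r := by rw [hd.self]; omega
    have h2' : d (S.f x') (S.f x') ≤ t := by rw [hd.self]; omega
    obtain ⟨w1, hw1, _⟩ := move (t := t) (r := r) hd hx hx' h1 h1'
    have ih' := ih h2 h2' hy hy'
    have e : (mk (S.f x') x h1 h1' : Sk d S t r) = mk (S.f x') x' h2 h2' :=
      mk_eq (Cn.of_adj hadj h1' h2')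
    rw [← e] at ih'
    obtain ⟨w2, hw2⟩ := ih'
    refine ⟨w1.append w2, ?_⟩
    have h3 := hf _ _ hadj
    rw [Walk.length_append, Walk.length_cons, hw1, mul_add, mul_one]
    omega

/-- The subgraph of vertices of the flow is connected: from `A = (p, x)` with `d p (f x) ≤ r` move
the centre to `f x` (`move`), then follow a walk of `S` from `x` to `b`: for an edge `x, y` move the
centre from `f x` to `f y` (with the point `x`, as `d (f x) (f y) ≤ r ≤ t`) and replace `(f y, x)`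
by `(f y, y)`. -/
theorem skG_conn (hd : LTM d) (hf : Fine d S r) (hrt : r ≤ t) : (skG hd S t r).Connected := by
  have hself : ∀ x : S.V, d (S.f x) (S.f x) ≤ r := fun x => by rw [hd.self]; omega
  have hself' : ∀ x : S.V, d (S.f x) (S.f x) ≤ t := fun x => by rw [hd.self]; omega
  have : Nonempty (Sk d S t r) := ⟨mk (S.f S.b) S.b (hself _) (hself' _)⟩
  constructor
  intro A B
  obtain ⟨x, hx, hx', hA⟩ := exists_rep A
  obtain ⟨y, hy, hy', hB⟩ := exists_rep B
  rw [hA, hB]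
  obtain ⟨w1, _⟩ := move hd hx hx' (hself x) (hself' x)
  obtain ⟨w3, _⟩ := move hd (hself y) (hself' y) hy hy'
  obtain ⟨W⟩ := S.tree.connected.preconnected x y
  obtain ⟨w2, _⟩ := conn_walk hd hf hrt W (hself x) (hself' x) (hself y) (hself' y)
  exact ⟨(w1.append w2).append w3⟩

/-- a vertex is the translate of a vertex with centre `1` -/
theorem sk_fin (hd : LTM d) {ν : ℕ} (hν : Orb S ν) :
    ∃ Q : Finset (Sk d S t r), Q.card ≤ ν * Set.ncard {b | d 1 b ≤ r} ∧
      ∀ A, ∃ u : F, ∃ q ∈ Q, A = skS hd u q := by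
  classical
  obtain ⟨Q, hQ, hQ'⟩ := hν
  have hfin := hd.fin r
  by_cases hne : Nonempty (Sk d S t r)
  · obtain ⟨A₀⟩ := hne
    let B : S.V × F → Sk d S t r := fun q =>
      if h : d 1 (S.f ((q.2 * (S.f q.1)⁻¹) • q.1)) ≤ r ∧
          d 1 (S.f ((q.2 * (S.f q.1)⁻¹) • q.1)) ≤ t then
        mk 1 ((q.2 * (S.f q.1)⁻¹) • q.1) h.1 h.2 else A₀
    refine ⟨(Q ×ˢ hfin.toFinset).image B, ?_, ?_⟩
    · refine Finset.card_image_le.trans ?_
      rw [Finset.card_product, Set.ncard_eq_toFinset_card _ hfin]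
      exact Nat.mul_le_mul_right _ hQ
    · intro A
      obtain ⟨x, hx, hx', hA⟩ := exists_rep A
      obtain ⟨u, q, hq, rfl⟩ := hQ' x
      have e1 : ((ctr A)⁻¹ * (u * S.f q)) * (S.f q)⁻¹ = (ctr A)⁻¹ * u := by group
      have e2 : S.f (((ctr A)⁻¹ * u) • q) = (ctr A)⁻¹ * S.f (u • q) := by
        rw [S.f_smul, S.f_smul, mul_assoc]
      have e3 : d 1 (S.f (((ctr A)⁻¹ * u) • q)) = d (ctr A) (S.f (u • q)) := by
        rw [e2, ← hd.inv (ctr A), mul_one, mul_inv_cancel_left]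
      refine ⟨ctr A, B (q, (ctr A)⁻¹ * (u * S.f q)), Finset.mem_image_of_mem _
        (Finset.mem_product.2 ⟨hq, ?_⟩), ?_⟩
      · rw [Set.Finite.mem_toFinset]
        show d 1 ((ctr A)⁻¹ * (u * S.f q)) ≤ r
        rw [← S.f_smul, ← e2, e3]
        exact hx
      · have h : d 1 (S.f ((((ctr A)⁻¹ * (u * S.f q)) * (S.f q)⁻¹) • q)) ≤ r ∧
            d 1 (S.f ((((ctr A)⁻¹ * (u * S.f q)) * (S.f q)⁻¹) • q)) ≤ t := by
          rw [e1, e3]
          exact ⟨hx, hx'⟩
        have hB : B (q, (ctr A)⁻¹ * (u * S.f q)) =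
            mk 1 ((((ctr A)⁻¹ * (u * S.f q)) * (S.f q)⁻¹) • q) h.1 h.2 := dif_pos h
        rw [hB, skS_mk]
        conv_lhs => rw [hA]
        apply Sk.ext
        · show ctr A = ctr A * 1
          rw [mul_one]
        · show cmp d S t (ctr A) (u • q) = cmp d S t (ctr A * 1)
            (ctr A • (((ctr A)⁻¹ * (u * S.f q)) * (S.f q)⁻¹) • q)
          rw [mul_one, e1, smul_smul, mul_inv_cancel_left]
  · exact ⟨∅, by simp, fun A => absurd ⟨A⟩ hne⟩

/-- the flow -/
noncomputable def fl (hd : LTM d) (S : Ob F) (r t : ℕ) (hf : Fine d S r) (hrt : r ≤ t) :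
    Ob F where
  V := Sk d S t r
  act := {
    smul := skS hd
    one_smul := fun A => Subtype.ext (Prod.ext (one_mul _) (by
      show (fun x => (1 : F) • x) '' A.1.2 = A.1.2
      simp))
    mul_smul := fun u v A => Subtype.ext (Prod.ext (mul_assoc _ _ _) (by
      show (fun x => (u * v) • x) '' A.1.2 = (fun x => u • x) '' ((fun x => v • x) '' A.1.2)
      rw [Set.image_image]
      simp only [mul_smul])) }
  free u A h := by
    have h' : u * A.1.1 = A.1.1 := congrArg (fun B : Sk d S t r => B.1.1) h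
    exact mul_eq_right.1 h'
  T := skG hd S t r
  tree := ⟨skG_conn hd hf hrt, skG_acyclic hd⟩
  inv u A B h := by
    obtain ⟨h1, z, h2, h3⟩ := h
    refine ⟨?_, u • z, ⟨z, h2, rfl⟩, ⟨z, h3, rfl⟩⟩
    show d (u * A.1.1) (u * B.1.1) = 1
    rw [hd.inv]
    exact h1
  b := mk 1 S.b (by rw [S.f_b, hd.self]; omega) (by rw [S.f_b, hd.self]; omega)
  f := ctr
  f_smul _ _ := rfl
  f_b := rfl
  fin := by
    obtain ⟨Q, hQ⟩ := S.fin
    obtain ⟨Q', _, hQ'⟩ := sk_fin (S := S) (t := t) (r := r) hd (ν := Q.card) ⟨Q, le_rfl, hQ⟩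
    exact ⟨Q', hQ'⟩

/-- Connections in the flow from walks in the big graph: path uniqueness in the forest
`skG hd S t t` (`path_support_subset`) and connectedness of the flow. -/
theorem cn_fl (hd : LTM d) (hf : Fine d S r) (hrt : r ≤ t) {A B : Sk d S t r} {p : F} {κ : ℕ}
    (w : (skG hd S t t).Walk (skI hrt A) (skI hrt B))
    (hw : ∀ C ∈ w.support, d p (ctr C) ≤ κ) : Cn d (fl hd S r t hf hrt) p κ A B := by
  obtain ⟨w₁⟩ := (skG_conn hd hf hrt).preconnected A B
  obtain ⟨w₀, hw₀, _, _⟩ := exists_path_of_walk w₁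
  let φ : skG hd S t r →g skG hd S t t := ⟨skI hrt, fun {a b} h => h⟩
  have hφ : Function.Injective φ := fun a b h => by
    have h' : skI hrt a = skI hrt b := h
    exact Subtype.ext (congrArg (fun C : Sk d S t t => C.1) h')
  have hp : (w₀.map φ).IsPath := (Walk.isPath_map_iff_of_injective hφ).2 hw₀
  have hsub := path_support_subset (skG_acyclic hd) (w₀.map φ) hp w
  refine ⟨w₀, fun z hz => ?_⟩
  have h1 : φ z ∈ (w₀.map φ).support := by
    rw [Walk.support_map]
    exact List.mem_map_of_mem hz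
  exact hw _ (hsub h1)

/-- connections in the flow from connections in the object -/
theorem cn_fl_of (hd : LTM d) (hf : Fine d S r) (hrt : r ≤ t) {p a b : F} {ρ κ : ℕ} {x y : S.V}
    (h : Cn d S p ρ x y) (hk : ρ ≤ t + κ - r) (hκ : r ≤ t + κ) (ha : d p a ≤ κ) (hb : d p b ≤ κ)
    (hax : d a (S.f x) ≤ r) (hax' : d a (S.f x) ≤ t)
    (hby : d b (S.f y) ≤ r) (hby' : d b (S.f y) ≤ t) :
    Cn d (fl hd S r t hf hrt) p κ (mk a x hax hax' : Sk d S t r) (mk b y hby hby' : Sk d S t r) := by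
  obtain ⟨w, hw⟩ := transfer hd hf hrt h (by omega) ha hb hax' hby'
  exact cn_fl hd hf hrt (A := mk a x hax hax') (B := mk b y hby hby') w hw

theorem fl_fine (hd : LTM d) (hf : Fine d S r) (hrt : r ≤ t) : Fine d (fl hd S r t hf hrt) 1 :=
  fun _ _ h => le_of_eq h.1

/-- Proof.  `pt`: a vertex `A` with centre `p`, represented by `x` with `d p (f x) ≤ r`; by
`Sz.pt`, `Sz.chain` and `Cn.center`: `Cn d S p (s + r) x (p • b)`; `transfer` (with `a = b = p`,
`κ = s + r`) and `cn_fl`.  `gen`: `Sz.gen` and `transfer` with `κ = s + 1`. -/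
theorem fl_sz (hd : LTM d) (hf : Fine d S r) (hrt : r ≤ t) {s : ℕ} (hs : Sz d S s) :
    Sz d (fl hd S r t hf hrt) (s + r + 1) := by
  have h0 : ∀ (p : F) (k : ℕ), d p (S.f (p • S.b)) ≤ k := fun p k => by
    rw [S.f_smul, S.f_b, mul_one, hd.self]; omega
  have hb : ∀ p : F, (p • (fl hd S r t hf hrt).b : (fl hd S r t hf hrt).V) =
      (mk p (p • S.b) (h0 p r) (h0 p t) : Sk d S t r) := by
    intro p
    show skS hd p (mk 1 S.b (by rw [S.f_b, hd.self]; omega)
      (by rw [S.f_b, hd.self]; omega)) = _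
    rw [skS_mk]
    refine Sk.ext ?_ ?_
    · show p * 1 = p
      rw [mul_one]
    · show cmp d S t (p * 1) (p • S.b) = cmp d S t p (p • S.b)
      rw [mul_one]
  constructor
  · intro A
    rw [hb]
    obtain ⟨x, hx, hx', hA⟩ := exists_rep (A : Sk d S t r)
    have e1 : Cn d S (ctr A) (s + r) x (S.f x • S.b) := (hs.pt x).center hd hx
    have e2 : Cn d S (ctr A) (s + r) (ctr A • S.b) (S.f x • S.b) := hs.chain hd hx
    have e3 := e1.trans e2.symm
    have e4 := cn_fl_of hd hf hrt (κ := s + r + 1) e3 (by omega) (by omega)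
      (by rw [hd.self]; omega) (by rw [hd.self]; omega) hx hx' (h0 _ r) (h0 _ t)
    rw [← hA] at e4
    exact e4
  · intro a a' haa
    rw [hb, hb]
    exact cn_fl_of hd hf hrt (κ := s + r + 1) (hs.gen a a' haa) (by omega) (by omega)
      (by rw [hd.self]; omega) (by rw [haa]; omega) (h0 _ r) (h0 _ t) (h0 _ r) (h0 _ t)

theorem fl_orb (hd : LTM d) (hf : Fine d S r) (hrt : r ≤ t) {ν : ℕ} (hν : Orb S ν) :
    Orb (fl hd S r t hf hrt) (ν * Set.ncard {b | d 1 b ≤ r}) :=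
  sk_fin hd hν

/-- Proof: for a walk `x_0 = b, ..., x_k = u • b` of `S` the walk through the vertices
`(f x_i, x_i)` constructed with `move` in the proof of `skG_conn`, at most `r` steps for each edge.
-/
theorem fl_len (hd : LTM d) (hf : Fine d S r) (hrt : r ≤ t) {A : Set F} {ℓ : ℕ}
    (hℓ : Len S A ℓ) : Len (fl hd S r t hf hrt) A (r * ℓ) := by
  intro u hu
  obtain ⟨W, hW⟩ := hℓ u hu
  have h1 : ∀ (x : S.V) (k : ℕ), d (S.f x) (S.f x) ≤ k := fun x k => by rw [hd.self]; omega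
  have h2 := conn_walk hd hf hrt W (h1 _ r) (h1 _ t) (h1 _ r) (h1 _ t)
  have e1 : (fl hd S r t hf hrt).b = (mk (S.f S.b) S.b (h1 _ r) (h1 _ t) : Sk d S t r) := by
    refine Sk.ext ?_ ?_
    · show 1 = S.f S.b
      rw [S.f_b]
    · show cmp d S t 1 S.b = cmp d S t (S.f S.b) S.b
      rw [S.f_b]
  have e2 : (u • (fl hd S r t hf hrt).b : (fl hd S r t hf hrt).V) =
      (mk (S.f (u • S.b)) (u • S.b) (h1 _ r) (h1 _ t) : Sk d S t r) := by
    rw [e1]
    show skS hd u (mk (S.f S.b) S.b (h1 _ r) (h1 _ t)) = _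
    rw [skS_mk]
    refine Sk.ext ?_ ?_
    · show u * S.f S.b = S.f (u • S.b)
      rw [S.f_smul]
    · show cmp d S t (u * S.f S.b) (u • S.b) = cmp d S t (S.f (u • S.b)) (u • S.b)
      rw [S.f_smul]
  obtain ⟨w, hw⟩ := h2
  have h3 : w.length ≤ r * ℓ := hw.trans (Nat.mul_le_mul_left _ hW)
  rw [e2]
  exact ⟨w.copy e1.symm rfl, le_of_eq_of_le (Walk.length_copy w e1.symm rfl) h3⟩

/-- equivariant choice of representatives -/
theorem exists_repE (hd : LTM d) (hf : Fine d S r) (hrt : r ≤ t) :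
    ∃ rep : Sk d S t r → S.V, (∀ (u : F) A, rep (skS hd u A) = u • rep A) ∧
      (∀ A, ∃ (h : d (ctr A) (S.f (rep A)) ≤ r) (h' : d (ctr A) (S.f (rep A)) ≤ t),
        A = mk (ctr A) (rep A) h h') ∧
      rep (fl hd S r t hf hrt).b = S.b := by
  have hR : ∀ (u : F) (A : Sk d S t r) (x : S.V), (∃ (h : d (ctr A) (S.f x) ≤ r)
      (h' : d (ctr A) (S.f x) ≤ t), A = mk (ctr A) x h h') →
      (∃ (h : d (ctr (skS hd u A)) (S.f (u • x)) ≤ r)
      (h' : d (ctr (skS hd u A)) (S.f (u • x)) ≤ t),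
      skS hd u A = mk (ctr (skS hd u A)) (u • x) h h') := by
    rintro u A x ⟨h, h', hA⟩
    refine ⟨?_, ?_, ?_⟩
    · show d (u * ctr A) (S.f (u • x)) ≤ r
      rw [S.f_smul, hd.inv]
      exact h
    · show d (u * ctr A) (S.f (u • x)) ≤ t
      rw [S.f_smul, hd.inv]
      exact h'
    · conv_lhs => rw [hA]
      rw [skS_mk]
      rfl
  obtain ⟨φ, h1, h2, h3⟩ := eqv_choice (F := F) (V := (fl hd S r t hf hrt).V) (W := S.V)
    (fun u x h => (fl hd S r t hf hrt).free u x h)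
    (fun (A : Sk d S t r) x => ∃ (h : d (ctr A) (S.f x) ≤ r) (h' : d (ctr A) (S.f x) ≤ t),
      A = mk (ctr A) x h h') hR (fun A => exists_rep (A : Sk d S t r))
      (fl hd S r t hf hrt).b S.b ⟨by
        show d 1 (S.f S.b) ≤ r
        rw [S.f_b, hd.self]; omega, by
        show d 1 (S.f S.b) ≤ t
        rw [S.f_b, hd.self]; omega, rfl⟩
  exact ⟨φ, h1, h2, h3⟩

lemma self_le (hd : LTM d) (a : F) (k : ℕ) : d a a ≤ k := by rw [hd.self]; omega

/-- the map between flows induced by a map of objects -/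
def natMap (hd : LTM d) (_ : Fine d S' r) (rep : Sk d S t r → S.V) (φ : S.V → S'.V)
    (A : Sk d S t r) : Sk d S' t' r :=
  mk (S'.f (φ (rep A))) (φ (rep A)) (self_le hd _ _) (self_le hd _ _)

lemma natMap_smul (hd : LTM d) (hf' : Fine d S' r) {K : ℕ} {φ : S.V → S'.V}
    (hφ : Ctl d S S' K φ) {rep : Sk d S t r → S.V}
    (hr1 : ∀ (u : F) A, rep (skS hd u A) = u • rep A) (u : F) (A : Sk d S t r) :
    natMap (t' := t') hd hf' rep φ (skS hd u A) = skS hd u (natMap (t' := t') hd hf' rep φ A) := by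
  unfold natMap
  rw [skS_mk]
  refine Sk.ext ?_ ?_
  · show S'.f (φ (rep (skS hd u A))) = u * S'.f (φ (rep A))
    rw [hr1, hφ.eqv, S'.f_smul]
  · show cmp d S' t' (S'.f (φ (rep (skS hd u A)))) (φ (rep (skS hd u A))) =
      cmp d S' t' (u * S'.f (φ (rep A))) (u • φ (rep A))
    rw [hr1, hφ.eqv, S'.f_smul]

theorem nat_ctl (hd : LTM d) (hf : Fine d S r) (hrt : r ≤ t) (hf' : Fine d S' r) (hrt' : r ≤ t')
    {K : ℕ} {φ : S.V → S'.V} (hφ : Ctl d S S' K φ) {rep : Sk d S t r → S.V}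
    (hr1 : ∀ (u : F) A, rep (skS hd u A) = u • rep A)
    (hr2 : ∀ A, ∃ (h : d (ctr A) (S.f (rep A)) ≤ r) (h' : d (ctr A) (S.f (rep A)) ≤ t),
        A = mk (ctr A) (rep A) h h')
    (hr3 : rep (fl hd S r t hf hrt).b = S.b) (h1 : t ≤ t' + 1) :
    Ctl d (fl hd S r t hf hrt) (fl hd S' r t' hf' hrt') (2 * K + 2 * r + 2)
      (natMap (t' := t') hd hf' rep φ) where
  eqv u A := natMap_smul hd hf' hφ hr1 u A
  base := by
    refine Sk.ext ?_ ?_
    · show S'.f (φ (rep (fl hd S r t hf hrt).b)) = 1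
      rw [hr3, hφ.base, S'.f_b]
    · show cmp d S' t' (S'.f (φ (rep (fl hd S r t hf hrt).b))) (φ (rep (fl hd S r t hf hrt).b)) =
        cmp d S' t' 1 S'.b
      rw [hr3, hφ.base, S'.f_b]
  disp A := by
    show d (ctr A) (S'.f (φ (rep A))) ≤ _
    obtain ⟨e1, _, _⟩ := hr2 A
    have e2 := hφ.disp (rep A)
    have e3 := hd.tri (ctr A) (S.f (rep A)) (S'.f (φ (rep A)))
    omega
  edge A B hAB := by
    obtain ⟨hab, z, hzA, hzB⟩ := hAB
    have hab' : d (ctr A) (ctr B) = 1 := hab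
    obtain ⟨a1, a1', hA⟩ := hr2 A
    obtain ⟨b1, b1', hB⟩ := hr2 B
    have c1 : Cn d S (ctr A) t (rep A) z := cn_of_mem (rep_mem hA) hzA
    have c2 : Cn d S (ctr B) t z (rep B) := cn_of_mem hzB (rep_mem hB)
    have c3 : Cn d S (ctr A) (t + 1) (rep A) (rep B) :=
      (c1.mono (by omega)).trans (c2.center hd (by omega))
    have c4 := c3.push hd hφ
    have e1 := hφ.disp (rep A)
    have e2 := hφ.disp (rep B)
    have e3 := hd.tri (ctr A) (S.f (rep A)) (S'.f (φ (rep A)))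
    have e4 := hd.tri (ctr B) (S.f (rep B)) (S'.f (φ (rep B)))
    have e5 := hd.tri (ctr A) (ctr B) (S'.f (φ (rep B)))
    exact cn_fl_of (p := ctr A) hd hf' hrt' (κ := 2 * K + 2 * r + 2) c4 (by omega) (by omega)
      (by omega) (by omega) (self_le hd _ _) (self_le hd _ _) (self_le hd _ _) (self_le hd _ _)

theorem nat_comp (hd : LTM d) (hf : Fine d S r) (hrt : r ≤ t) (hf' : Fine d S' r) (hrt' : r ≤ t')
    {K : ℕ} {φ : S.V → S'.V} {ψ : S'.V → S.V} (hφ : Ctl d S S' K φ) (hψ : Ctl d S' S K ψ)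
    (hφψ : ∀ x, Cn d S (S.f x) K (ψ (φ x)) x)
    {rep : Sk d S t r → S.V} {rep' : Sk d S' t' r → S'.V}
    (hr2 : ∀ A, ∃ (h : d (ctr A) (S.f (rep A)) ≤ r) (h' : d (ctr A) (S.f (rep A)) ≤ t),
        A = mk (ctr A) (rep A) h h')
    (hr2' : ∀ A, ∃ (h : d (ctr A) (S'.f (rep' A)) ≤ r) (h' : d (ctr A) (S'.f (rep' A)) ≤ t'),
        A = mk (ctr A) (rep' A) h h') (h2 : t' ≤ t + 1) (A : Sk d S t r) :
    Cn d (fl hd S r t hf hrt) (ctr A) (2 * K + 2 * r + 2)
      (natMap (t' := t) hd hf rep' ψ (natMap (t' := t') hd hf' rep φ A)) A := by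
  set A' : Sk d S' t' r := natMap (t' := t') hd hf' rep φ A with hA'
  obtain ⟨a1, a1', hA⟩ := hr2 A
  obtain ⟨b1, b1', hB⟩ := hr2' A'
  have hcA' : ctr A' = S'.f (φ (rep A)) := rfl
  have hmem : φ (rep A) ∈ pts A' := self_mem_mk _ _
  have c1 : Cn d S' (ctr A') t' (rep' A') (φ (rep A)) := cn_of_mem (rep_mem hB) hmem
  have e1 := hφ.disp (rep A)
  have e2 := hψ.disp (rep' A')
  have e3 := hd.tri (ctr A) (S.f (rep A)) (S'.f (φ (rep A)))
  rw [hcA'] at c1 b1
  have c2 : Cn d S' (ctr A) (t' + (r + K)) (rep' A') (φ (rep A)) := c1.center hd (by omega)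
  have c3 := c2.push hd hψ
  have c4 : Cn d S (ctr A) (K + r) (ψ (φ (rep A))) (rep A) := (hφψ (rep A)).center hd a1
  have c5 : Cn d S (ctr A) (t' + (r + K) + K) (ψ (rep' A')) (rep A) :=
    c3.trans (c4.mono (by omega))
  have e4 := hd.tri (ctr A) (S'.f (φ (rep A))) (S.f (ψ (rep' A')))
  have e5 := hd.tri (S'.f (φ (rep A))) (S'.f (rep' A')) (S.f (ψ (rep' A')))
  have c6 := cn_fl_of (p := ctr A) (b := ctr A) hd hf hrt (κ := 2 * K + 2 * r + 2) c5 (by omega)
    (by omega) (by omega) (self_le hd _ _) (self_le hd (S.f (ψ (rep' A'))) _) (self_le hd _ _)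
    a1 a1'
  rw [← hA] at c6
  exact c6

/-- Naturality and continuity of the flow.

Proof.  Let `φ`, `ψ` be the maps of the equivalence.  By `eqv_choice` there is an equivariant map
`rep` from the vertices of `S^t` to `S.V`, with `rep b = b`, such that `rep A ∈ A` and
`d (ctr A) (f (rep A)) ≤ r`; similarly `rep'`.  Put `Φ A = (f' (φ (rep A)), φ (rep A))` and
`Ψ A' = (f (ψ (rep' A')), ψ (rep' A'))`.  `disp`: `d (ctr A) (f' (φ (rep A))) ≤ r + K`.
`edge`: let `A`, `B` be adjacent with centres `p`, `q`, common point `z`, `x = rep A`,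
`y = rep B`.  `Cn d S p t x z`, `Cn d S q t z y`, so `Cn d S p (t + 1) x y`, and by `Cn.push`
`Cn d S' p (t + 1 + K) (φ x) (φ y)`.  `transfer` for `S'`, `t'` with
`κ = K + r + 2 ≥ t + 1 + K - (t' - r)` and `cn_fl`.  Composite: for a vertex `A` of `S^t` with
centre `p` and `x = rep A`, `A' = Φ A`, `y' = rep' A'`: `Cn d S' (f' (φ x)) t' y' (φ x)`,
so `Cn d S' p (t' + r + K) y' (φ x)`, and by `Cn.push` `Cn d S p (t' + r + 2 * K) (ψ y') (ψ (φ x))`;
moreover `Cn d S p (K + r) (ψ (φ x)) x`.  So `Cn d S p (t' + r + 2 * K) (ψ y') x` and `transfer`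
with `κ = 2 * K + 2 * r + 2`, `b = p` (and `a = f (ψ y')`, `d p a ≤ 2 * r + 2 * K`) and `cn_fl` give
the claim.  The other direction is symmetric. -/
theorem fl_nat (hd : LTM d) (hf : Fine d S r) (hrt : r ≤ t) (hf' : Fine d S' r) (hrt' : r ≤ t')
    {K : ℕ} (hK : Eqv d S S' K) (h1 : t ≤ t' + 1) (h2 : t' ≤ t + 1) :
    Eqv d (fl hd S r t hf hrt) (fl hd S' r t' hf' hrt') (2 * K + 2 * r + 2) := by
  obtain ⟨φ, ψ, hφ, hψ, hφψ, hψφ⟩ := hK
  obtain ⟨rep, hr1, hr2, hr3⟩ := exists_repE hd hf hrt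
  obtain ⟨rep', hr1', hr2', hr3'⟩ := exists_repE hd hf' hrt'
  refine ⟨natMap hd hf' rep φ, natMap hd hf rep' ψ,
    nat_ctl hd hf hrt hf' hrt' hφ hr1 hr2 hr3 h1,
    nat_ctl hd hf' hrt' hf hrt hψ hr1' hr2' hr3' h2, ?_, ?_⟩
  · exact nat_comp hd hf hrt hf' hrt' hφ hψ hφψ hr2 hr2' h2
  · exact nat_comp hd hf' hrt' hf hrt hψ hφ hψφ hr2' hr2 h1

/-- The flow at time `r` is equivalent to the object.

Proof.  `Φ x = (f x, x)` and `Ψ A = rep A` (as in `fl_nat`).  `Φ` is controlled: for an edge `x, y`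
use `move` from `f x` to `f y`, centres on the geodesic.  `Ψ`: for adjacent `A`, `B` with centres
`p`, `q` we get `Cn d S p (r + 1) (rep A) (rep B)`.  `Ψ (Φ x)` and `x` are in the same component
about `f x`; `Φ (Ψ A) = (f (rep A), rep A)` is connected to `A = (p, rep A)` by `move`. -/
theorem fl_id (hd : LTM d) (hf : Fine d S r) :
    Eqv d S (fl hd S r r hf le_rfl) (r + 1) := by
  obtain ⟨rep, hr1, hr2, hr3⟩ := exists_repE hd hf (le_refl r)
  let Φ : S.V → Sk d S r r := fun x => mk (S.f x) x (self_le hd _ _) (self_le hd _ _)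
  have hΦ : ∀ (u : F) x, Φ (u • x) = skS hd u (Φ x) := by
    intro u x
    show _ = skS hd u (mk (S.f x) x (self_le hd _ _) (self_le hd _ _))
    rw [skS_mk]
    refine Sk.ext ?_ ?_
    · show S.f (u • x) = u * S.f x
      rw [S.f_smul]
    · show cmp d S r (S.f (u • x)) (u • x) = cmp d S r (u * S.f x) (u • x)
      rw [S.f_smul]
  refine ⟨Φ, rep, ⟨hΦ, ?_, fun x => self_le hd _ _, fun x y hxy => ?_⟩,
    ⟨hr1, hr3, fun A => ?_, fun A B hAB => ?_⟩, fun x => ?_, fun A => ?_⟩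
  · refine Sk.ext ?_ ?_
    · show S.f S.b = 1
      rw [S.f_b]
    · show cmp d S r (S.f S.b) S.b = cmp d S r 1 S.b
      rw [S.f_b]
  · have h1 := hf x y hxy
    exact cn_fl_of (p := S.f x) hd hf le_rfl (κ := r + 1)
      (Cn.of_adj (p := S.f x) (ρ := r) hxy (self_le hd _ _) h1) (by omega)
      (by omega) (self_le hd _ _) (by omega) (self_le hd _ _) (self_le hd _ _) (self_le hd _ _)
      (self_le hd _ _)
  · obtain ⟨a1, _, _⟩ := hr2 A
    show d (ctr A) (S.f (rep A)) ≤ r + 1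
    omega
  · obtain ⟨hab, z, hzA, hzB⟩ := hAB
    have hab' : d (ctr A) (ctr B) = 1 := hab
    obtain ⟨_, _, hA⟩ := hr2 A
    obtain ⟨_, _, hB⟩ := hr2 B
    have c1 : Cn d S (ctr A) r (rep A) z := cn_of_mem (rep_mem hA) hzA
    have c2 : Cn d S (ctr B) r z (rep B) := cn_of_mem hzB (rep_mem hB)
    exact (c1.mono (by omega)).trans (c2.center hd (by omega))
  · obtain ⟨_, _, hA⟩ := hr2 (Φ x)
    exact (cn_of_mem (rep_mem hA) (self_mem_mk _ _)).mono (by omega)
  · obtain ⟨a1, a1', hA⟩ := hr2 A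
    have c := cn_fl_of (p := ctr A) (b := ctr A) hd hf le_rfl (κ := r + 1)
      (Cn.refl (p := ctr A) (ρ := r) a1) (by omega)
      (by omega) (by omega) (self_le hd _ _) (self_le hd (S.f (rep A)) _) (self_le hd _ _) a1 a1'
    rw [← hA] at c
    exact c

/-- For large times the flow is the tree of the metric.

Proof.  For `t ≥ s + r + 1` two vertices of the flow with the same centre are equal: a vertex `A`
with centre `p`, `x ∈ A`, `d p (f x) ≤ r`, contains `p • b`, because `Cn d S p (s + r) x (p • b)`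
(`Sz.pt`, `Sz.chain`).  So `Φ A = ctr A` and `Ψ p = (p, p • b)` are inverse to each other.  `Ψ` is
controlled: for `d p q = 1` the vertices `(p, p • b)`, `(q, q • b)` are adjacent, with common point
`p • b` (`Cn d S q (s + 1) (q • b) (p • b)` by `Sz.gen`). -/
theorem fl_end (hd : LTM d) (hf : Fine d S r) (hrt : r ≤ t) {s : ℕ} (hs : Sz d S s)
    (ht : s + r + 1 ≤ t) : Eqv d (fl hd S r t hf hrt) (TOb hd) 1 := by
  have h0 : ∀ (p : F) (k : ℕ), d p (S.f (p • S.b)) ≤ k := fun p k => by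
    rw [S.f_smul, S.f_b, mul_one, hd.self]; omega
  let Ψ : F → Sk d S t r := fun p => mk p (p • S.b) (h0 p r) (h0 p t)
  have hΨ : ∀ A : Sk d S t r, Ψ (ctr A) = A := by
    intro A
    obtain ⟨x, hx, hx', hA⟩ := exists_rep A
    have e1 : Cn d S (ctr A) (s + r) x (S.f x • S.b) := (hs.pt x).center hd hx
    have e2 : Cn d S (ctr A) (s + r) (ctr A • S.b) (S.f x • S.b) := hs.chain hd hx
    have e3 := (e1.trans e2.symm).mono (show s + r ≤ t by omega)
    conv_rhs => rw [hA]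
    exact mk_eq e3.symm
  have hΨs : ∀ u p : F, Ψ (u * p) = skS hd u (Ψ p) := by
    intro u p
    show _ = skS hd u (mk p (p • S.b) (h0 p r) (h0 p t))
    rw [skS_mk]
    refine Sk.ext rfl ?_
    show cmp d S t (u * p) ((u * p) • S.b) = cmp d S t (u * p) (u • p • S.b)
    rw [mul_smul]
  refine ⟨ctr, Ψ, ⟨fun _ _ => rfl, rfl, fun A => self_le hd _ _, fun A B hAB => ?_⟩,
    ⟨hΨs, ?_, fun p => self_le hd _ _, fun p q hpq => ?_⟩, fun A => ?_, fun p => ?_⟩
  · have hab' : d (ctr A) (ctr B) = 1 := hAB.1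
    exact Cn.of_adj (S := TOb hd) hab' (self_le hd _ _) (le_of_eq hab')
  · exact hΨ (mk 1 S.b (by rw [S.f_b, hd.self]; omega) (by rw [S.f_b, hd.self]; omega))
  · have hpq' : d p q = 1 := hpq
    have hadj : (fl hd S r t hf hrt).T.Adj (Ψ p) (Ψ q) := by
      refine ⟨hpq', p • S.b, self_mem_mk _ _, ?_⟩
      have h1 := (hs.gen q p (by rw [hd.symm]; exact hpq')).mono (show s ≤ t by omega)
      exact h1
    exact Cn.of_adj (S := fl hd S r t hf hrt) hadj (self_le hd _ _) (le_of_eq hpq')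
  · have e : Cn d (fl hd S r t hf hrt) (ctr (A : Sk d S t r)) 1 A A :=
      Cn.refl (S := fl hd S r t hf hrt) (self_le hd _ _)
    have e' : Ψ (ctr (A : Sk d S t r)) = A := hΨ A
    exact (congrArg (fun B => Cn d (fl hd S r t hf hrt) (ctr (A : Sk d S t r)) 1 B A) e').mpr e
  · exact Cn.refl (S := TOb hd) (self_le hd _ _)

end Pool.Agent.H.MP_e5d137_al.UB
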