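import Pool.Agent.H.MP_e5d137_al.UB.Cone
import Pool.Agent.H.MP_e5d137_al.FillBar
import Pool.Agent.H.MP_e5d137_al.G3.CmpK

/-!
# From the bar complex to a complex with finite skeleton

(The namespace `Pool.Agent.H.MP_e5d137_al` also contains `bdl`, `mass`, ... for the version of list
chains in universe zero; they agree with `UB.bdl`, `UB.ms`.)
-/

namespace Pool.Agent.H.MP_e5d137_al.UB

open Finsupp
open scoped ENNReal

variable {Γ : Type} [Group Γ]

/-- the two boundary maps agree (`bdl` by induction on the list, both cone operators are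
`Finsupp.lmapDomain ℤ ℤ (List.cons g)`) -/
lemma bdl_eq (σ : List Γ) : UB.bdl σ = Pool.Agent.H.MP_e5d137_al.bdl σ := by
  induction σ with
  | nil => rfl
  | cons g σ ih =>
    rw [UB.bdl, Pool.Agent.H.MP_e5d137_al.bdl, ih]
    rfl

lemma bd_eq (c : List Γ →₀ ℤ) : UB.bd c = Pool.Agent.H.MP_e5d137_al.bdL c :=
  lc_congr _ _ c (fun a _ => bdl_eq a)

/-- images of `psi` consist of lists of length `i + 1` (induction on `i`, `consL_mem_gr`) -/
lemma psi_mem_gr (K : GComplex Γ) (i : ℕ) (c : K.cell i →₀ ℤ) :
    psi K i c ∈ gr (Γ := Γ) (i + 1) := by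
  induction i with
  | zero =>
    induction c using Finsupp.induction_linear with
    | zero => rw [map_zero]; exact Submodule.zero_mem _
    | add a b ha hb => rw [map_add]; exact Submodule.add_mem _ ha hb
    | single x n =>
      rw [psi_zero_single]
      exact Submodule.smul_mem _ _ (single_mem_gr (by simp) 1)
  | succ i ih =>
    induction c using Finsupp.induction_linear with
    | zero => rw [map_zero]; exact Submodule.zero_mem _
    | add a b ha hb => rw [map_add]; exact Submodule.add_mem _ ha hb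
    | single x n =>
      rw [psi_succ_single]
      exact Submodule.smul_mem _ _ (consL_mem_gr _ _ (ih _))

/-- `theta ∘ psi` as an equivariant chain map of `K`: `eqv` by `psi_smul`, `theta_mapL`; `comm` by
`bd_theta_succ`, `psi_mem_gr`, `bdL_psi_succ`; `aug`: in degree zero the map sends a cell to a
cell -/
theorem exists_thpsi (K : GComplex Γ) :
    ∃ v : CMap K K, ∀ (i : ℕ) (c : K.cell i →₀ ℤ), v.f i c = theta K i (psi K i c) := by
  refine ⟨⟨fun i => (theta K i).comp (psi K i), ?_, ?_, ?_⟩, fun _ _ => rfl⟩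
  · intro i g c
    rw [LinearMap.comp_apply, LinearMap.comp_apply, actK_apply, psi_smul, theta_mapL]
  · intro c
    have h : ((theta K 0).comp (psi K 0)) c = Finsupp.linearCombination ℤ
        (fun x => single (gam K 0 x • K.nonempty.some) (1 : ℤ)) c := by
      induction c using Finsupp.induction_linear with
      | zero => simp
      | add a b ha hb => rw [map_add, map_add, ha, hb]
      | single x n =>
        rw [LinearMap.comp_apply, psi_zero_single, map_smul, theta_single, one_smul,
          Finsupp.linearCombination_single]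
        rfl
    rw [h]
    exact sum_lc _ (fun x => by simp) c
  · intro i c
    rw [LinearMap.comp_apply, LinearMap.comp_apply, bd_theta_succ K i _ (psi_mem_gr K (i + 1) c),
      bdL_psi_succ]

/-- every list is small for some bound -/
lemma kl0_list_small (E : Γ → ℕ) (τ : List Γ) : ∃ R : ℕ, Small E R τ := by
  classical
  refine ⟨∑ a ∈ τ.toFinset, ∑ b ∈ τ.toFinset, E (a⁻¹ * b), fun a ha b hb => ?_⟩
  have h1 : E (a⁻¹ * b) ≤ ∑ b ∈ τ.toFinset, E (a⁻¹ * b) :=
    Finset.single_le_sum (f := fun b => E (a⁻¹ * b)) (fun _ _ => Nat.zero_le _)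
      (List.mem_toFinset.2 hb)
  exact h1.trans (Finset.single_le_sum (f := fun a => ∑ b ∈ τ.toFinset, E (a⁻¹ * b))
    (fun _ _ => Nat.zero_le _) (List.mem_toFinset.2 ha))

/-- the members of a finite set of lists are small for a common bound -/
lemma kl0_set_small (E : Γ → ℕ) (T : Set (List Γ)) (hT : T.Finite) :
    ∃ R : ℕ, ∀ τ ∈ T, Small E R τ := by
  classical
  choose r hr using kl0_list_small E
  refine ⟨∑ τ ∈ hT.toFinset, r τ, fun τ hτ => (hr τ).mono ?_⟩
  exact Finset.single_le_sum (f := fun τ => r τ) (fun _ _ => Nat.zero_le _)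
    (hT.mem_toFinset.2 hτ)

/-- Lists in the image of `psi` are `R`-small: by `psi_type` they are translates of finitely many
lists. -/
theorem exists_small (E : Γ → ℕ) (K : GComplex Γ) (m : ℕ) (hK : K.FiniteTo m) :
    ∃ R M : ℕ, ∀ c : K.cell m →₀ ℤ, (∀ σ ∈ (psi K m c).support, σ.length = m + 1 ∧
      Small E R σ) ∧ mass (psi K m c) ≤ M * mass c := by
  obtain ⟨s, hs⟩ := hK m le_rfl
  obtain ⟨T, hT, M, hM⟩ := psi_type K m s hs
  obtain ⟨R, hR⟩ := kl0_set_small E T hT
  refine ⟨R, M, fun c => ⟨fun σ hσ => ⟨?_, ?_⟩, (hM c).2⟩⟩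
  · have h := psi_mem_gr K m c
    rw [gr, Finsupp.mem_supported] at h
    exact h hσ
  · obtain ⟨g, τ, hτ, rfl⟩ := (hM c).1 σ hσ
    exact (hR τ hτ).map g

/-- lists of given length with entries in a finite set -/
lemma kl0_lists_finite (B : Set Γ) (hB : B.Finite) (k : ℕ) :
    {σ : List Γ | σ.length = k ∧ ∀ a ∈ σ, a ∈ B}.Finite := by
  induction k with
  | zero =>
    refine (Set.finite_singleton ([] : List Γ)).subset (fun σ hσ => ?_)
    exact List.length_eq_zero_iff.1 hσ.1
  | succ k ih =>
    refine (Set.Finite.image2 List.cons hB ih).subset (fun σ hσ => ?_)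
    obtain ⟨h1, h2⟩ := hσ
    rcases σ with _ | ⟨a, τ⟩
    · simp at h1
    · rw [List.length_cons] at h1
      exact ⟨a, h2 a List.mem_cons_self, τ, ⟨by omega, fun b hb => h2 b
        (List.mem_cons_of_mem _ hb)⟩, rfl⟩

/-- `theta` is bounded on chains of `R`-small lists of given length: such lists are translates (by
their first entry) of lists with first entry `1`, and there are finitely many `R`-small lists of
given length with first entry `1`; `theta_mass`. -/
theorem exists_theta_mass {E : Γ → ℕ} (hE : Szf E) (K : GComplex Γ) (i k R : ℕ) :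
    ∃ M : ℕ, ∀ c : List Γ →₀ ℤ, (∀ σ ∈ c.support, σ.length = k ∧ Small E R σ) →
      mass (theta K i c) ≤ M * mass c := by
  obtain ⟨M, hM⟩ := theta_mass K i _ (kl0_lists_finite {g | E g ≤ R} (hE.fin R) k)
  refine ⟨M, fun c hc => hM c (fun σ hσ => ?_)⟩
  obtain ⟨h1, h2⟩ := hc σ hσ
  rcases σ with _ | ⟨a, τ⟩
  · exact ⟨1, [], ⟨h1, by simp⟩, by simp⟩
  · refine ⟨a, (a :: τ).map (fun x => a⁻¹ * x), ⟨by rw [List.length_map]; exact h1, ?_⟩, ?_⟩
    · intro b hb
      obtain ⟨b', hb', rfl⟩ := List.mem_map.1 hb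
      exact h2 a List.mem_cons_self b' hb'
    · rw [List.map_map]
      conv_lhs => rw [← List.map_id (a :: τ)]
      apply List.map_congr_left
      intro x _
      simp

end Pool.Agent.H.MP_e5d137_al.UB
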