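import Pool.Agent.H.MP_e5d137_al.UB.KL0
import Pool.Agent.H.MP_e5d137_al.UB.BarFill

/-!
# Filling volumes
-/

namespace Pool.Agent.H.MP_e5d137_al.UB

open Finsupp
open scoped ENNReal

variable {Γ : Type} [Group Γ]

/-- Filling volumes in `K`.

Proof.  Let `z` be an `m`-boundary with `mass z ≤ L`.  `psi K m z` is a cycle
(`bdL_psi_succ`, with `m = k + 1`), its lists have length `m + 1` and are `R`-small, its mass is
at most `M₁ * L` (`exists_small`).  Let `C₁` be the constant of `bar_fill`, `ρ` with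
`C₁ * M₁ * L ≤ ρ ^ m`, `y` the filling, `ms y ≤ C₁ ^ (ρ + 1) * M₁ * L`.  Let `v` be the map
of `exists_thpsi` and `h = hmt (CMap.id K) v` (`G3/CmpK.lean`), so that
`K.bd m (h z) = theta (psi z) - z` (`hmt_succ`, `K.bd k z = 0`).  Then
`c = theta K (m + 1) y - h z` has boundary `theta K m (bdL y) - theta K m (psi z) + z = z`
(`bd_theta_succ`), and mass at most `M₂ * C₁ ^ (ρ + 1) * M₁ * L + M₃ * L`
(`exists_theta_mass`, `eqv_mass`, `hmt_act`). -/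
theorem fill_le {E : Γ → ℕ} (hE : Szf E) (hc : Cone E) (K : GComplex Γ) (m : ℕ) (hm : 1 ≤ m)
    (hK : K.FiniteTo (m + 1)) : ∃ C : ℕ, 1 ≤ C ∧ ∀ (z : K.cell m →₀ ℤ) (L ρ : ℕ),
      (∃ b, K.bd m b = z) → mass z ≤ L → C * L ≤ ρ ^ m →
      ∃ c, K.bd m c = z ∧ mass c ≤ C ^ (ρ + 1) * L := by
  obtain ⟨k, rfl⟩ : ∃ k, m = k + 1 := ⟨m - 1, by omega⟩
  obtain ⟨R, M₁, h1⟩ := exists_small E K (k + 1) (fun i hi => hK i (by omega))
  obtain ⟨R', C₁, hC₁, hfill⟩ := bar_fill hE hc (k + 1) hm R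
  obtain ⟨M₂, hM₂⟩ := exists_theta_mass hE K (k + 1 + 1) (k + 1 + 2) R'
  obtain ⟨v, hv⟩ := exists_thpsi K
  obtain ⟨s0, hs0⟩ := hK (k + 1) (by omega)
  obtain ⟨M₃, hM₃⟩ := eqv_mass (k + 1) (k + 1 + 1) s0 hs0 (hmt (CMap.id K) v (k + 1))
    (hmt_act (CMap.id K) v _)
  refine ⟨C₁ * (M₁ + 1) * (M₂ + 1) + M₃, ?_, ?_⟩
  · have : 0 < C₁ * (M₁ + 1) * (M₂ + 1) := by positivity
    omega
  intro z L ρ hz hzL hρ
  have hzc : K.bd k z = 0 := (K.exact_succ k z).2 hz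
  obtain ⟨h2, h3⟩ := h1 z
  have hb : UB.bd (psi K (k + 1) z) = 0 := by
    rw [bd_eq, bdL_psi_succ, hzc, map_zero]
  have hml : ms (psi K (k + 1) z) ≤ M₁ * L := h3.trans (Nat.mul_le_mul_left _ hzL)
  have hCm : C₁ * ms (psi K (k + 1) z) ≤ ρ ^ (k + 1) := by
    calc C₁ * ms (psi K (k + 1) z) ≤ C₁ * (M₁ * L) := Nat.mul_le_mul_left _ hml
      _ = (C₁ * M₁) * L := by ring
      _ ≤ (C₁ * (M₁ + 1) * (M₂ + 1) + M₃) * L := by
          apply Nat.mul_le_mul_right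
          calc C₁ * M₁ ≤ C₁ * (M₁ + 1) := Nat.mul_le_mul_left _ (by omega)
            _ ≤ C₁ * (M₁ + 1) * (M₂ + 1) := Nat.le_mul_of_pos_right _ (by omega)
            _ ≤ _ := Nat.le_add_right _ _
      _ ≤ ρ ^ (k + 1) := hρ
  obtain ⟨y, hy1, hy2, hy3⟩ := hfill (psi K (k + 1) z) h2 hb ρ hCm
  have hyg : y ∈ gr (Γ := Γ) (k + 2 + 1) := by
    rw [gr, Finsupp.mem_supported]
    intro σ hσ
    exact (hy1 σ hσ).1
  refine ⟨theta K (k + 1 + 1) y - hmt (CMap.id K) v (k + 1) z, ?_, ?_⟩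
  · have e1 := hmt_succ (CMap.id K) v k z
    rw [hzc, map_zero, sub_zero, hv] at e1
    have e2 : (CMap.id K).f (k + 1) z = z := rfl
    rw [e2] at e1
    rw [map_sub, e1, bd_theta_succ K (k + 1) y hyg, ← bd_eq, hy2]
    abel
  · have e3 : mass (theta K (k + 1 + 1) y) ≤ M₂ * (C₁ ^ (ρ + 1) * (M₁ * L)) := by
      refine (hM₂ y hy1).trans (Nat.mul_le_mul_left _ ?_)
      exact hy3.trans (Nat.mul_le_mul_left _ hml)
    have e4 : mass (hmt (CMap.id K) v (k + 1) z) ≤ M₃ * L :=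
      (hM₃ z).trans (Nat.mul_le_mul_left _ hzL)
    refine (mass_sub_le _ _).trans ?_
    set A := C₁ * (M₁ + 1) * (M₂ + 1) with hA
    have hA1 : 1 ≤ A + M₃ := by
      have : 0 < A := by positivity
      omega
    have e5 : C₁ ^ (ρ + 1) * ((M₁ + 1) * (M₂ + 1)) ≤ A ^ (ρ + 1) := by
      rw [hA, mul_assoc, mul_pow]
      apply Nat.mul_le_mul_left
      exact Nat.le_self_pow (by omega) _
    have e6 : A ^ (ρ + 1) + M₃ ≤ (A + M₃) ^ (ρ + 1) := by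
      rw [pow_succ (A + M₃), mul_add, pow_succ]
      refine Nat.add_le_add (Nat.mul_le_mul_right _ (Nat.pow_le_pow_left (Nat.le_add_right _ _) _)) ?_
      exact Nat.le_mul_of_pos_left _ (by positivity)
    calc mass (theta K (k + 1 + 1) y) + mass (hmt (CMap.id K) v (k + 1) z)
        ≤ M₂ * (C₁ ^ (ρ + 1) * (M₁ * L)) + M₃ * L := Nat.add_le_add e3 e4
      _ = (C₁ ^ (ρ + 1) * (M₁ * M₂) + M₃) * L := by ring
      _ ≤ (C₁ ^ (ρ + 1) * ((M₁ + 1) * (M₂ + 1)) + M₃) * L := by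
          apply Nat.mul_le_mul_right
          apply Nat.add_le_add_right
          apply Nat.mul_le_mul_left
          exact Nat.mul_le_mul (by omega) (by omega)
      _ ≤ (A ^ (ρ + 1) + M₃) * L := by
          apply Nat.mul_le_mul_right
          exact Nat.add_le_add_right e5 _
      _ ≤ (A + M₃) ^ (ρ + 1) * L := Nat.mul_le_mul_right _ e6

end Pool.Agent.H.MP_e5d137_al.UB
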