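import Mathlib

/-!
# List chains (universe polymorphic version)

Chains on lists of vertices, with the boundary map, the cone operator, simplicial maps and prism
operators.
-/

namespace Pool.Agent.H.MP_e5d137_al.UB

open Finsupp

universe u v w

/-- integral chains on lists of vertices -/
abbrev Ch (V : Type u) := List V →₀ ℤ

/-- the mass of a chain -/
def ms {α : Type u} (c : α →₀ ℤ) : ℕ := c.sum fun _ k => k.natAbs

section Ms

variable {α : Type u} {β : Type v}

lemma ms_eq (c : α →₀ ℤ) (s : Finset α) (hs : c.support ⊆ s) :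
    ms c = ∑ a ∈ s, (c a).natAbs := by
  unfold ms
  rw [Finsupp.sum_of_support_subset _ hs]
  simp

@[simp] lemma ms_zero : ms (0 : α →₀ ℤ) = 0 := by simp [ms]

lemma ms_single (a : α) (k : ℤ) : ms (single a k) = k.natAbs := by
  simp [ms, Finsupp.sum_single_index]

lemma ms_add_le (c d : α →₀ ℤ) : ms (c + d) ≤ ms c + ms d := by
  classical
  rw [ms_eq (c + d) (c.support ∪ d.support) Finsupp.support_add,
    ms_eq c (c.support ∪ d.support) Finset.subset_union_left,
    ms_eq d (c.support ∪ d.support) Finset.subset_union_right, ← Finset.sum_add_distrib]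
  exact Finset.sum_le_sum (fun a _ => Int.natAbs_add_le _ _)

@[simp] lemma ms_neg (c : α →₀ ℤ) : ms (-c) = ms c := by
  simp [ms, Finsupp.sum_neg_index]

lemma ms_sub_le (c d : α →₀ ℤ) : ms (c - d) ≤ ms c + ms d := by
  rw [sub_eq_add_neg, ← ms_neg d]
  exact ms_add_le _ _

lemma ms_sum_le {ι : Type w} (s : Finset ι) (f : ι → (α →₀ ℤ)) :
    ms (∑ i ∈ s, f i) ≤ ∑ i ∈ s, ms (f i) := by
  classical
  induction s using Finset.induction_on with
  | empty => simp
  | insert a s ha ih =>
    rw [Finset.sum_insert ha, Finset.sum_insert ha]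
    exact (ms_add_le _ _).trans (Nat.add_le_add_left ih _)

lemma ms_smul (k : ℤ) (c : α →₀ ℤ) : ms (k • c) = k.natAbs * ms c := by
  classical
  rw [ms_eq (k • c) c.support Finsupp.support_smul, ms_eq c c.support (Finset.Subset.refl _),
    Finset.mul_sum]
  exact Finset.sum_congr rfl (fun a _ => by simp [Int.natAbs_mul])

/-- linear combinations: mass -/
lemma ms_lc_le (f : α → (β →₀ ℤ)) (c : α →₀ ℤ) (M : ℕ) (h : ∀ a ∈ c.support, ms (f a) ≤ M) :
    ms (Finsupp.linearCombination ℤ f c) ≤ M * ms c := by
  classical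
  rw [Finsupp.linearCombination_apply, Finsupp.sum]
  refine (ms_sum_le _ _).trans ?_
  rw [ms_eq c c.support (Finset.Subset.refl _), Finset.mul_sum]
  refine Finset.sum_le_sum (fun a ha => ?_)
  rw [ms_smul, mul_comm]
  exact Nat.mul_le_mul_right _ (h a ha)

/-- linear combinations: support -/
lemma supp_lc (f : α → (β →₀ ℤ)) (c : α →₀ ℤ) {b : β}
    (hb : b ∈ (Finsupp.linearCombination ℤ f c).support) : ∃ a ∈ c.support, b ∈ (f a).support := by
  classical
  by_contra hcon
  push Not at hcon
  apply Finsupp.mem_support_iff.1 hb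
  rw [Finsupp.linearCombination_apply, Finsupp.sum, Finsupp.finsetSum_apply]
  refine Finset.sum_eq_zero (fun a ha => ?_)
  rw [Finsupp.smul_apply, Finsupp.notMem_support_iff.1 (hcon a ha)]
  simp

lemma lc_congr (f g : α → (β →₀ ℤ)) (c : α →₀ ℤ) (h : ∀ a ∈ c.support, f a = g a) :
    Finsupp.linearCombination ℤ f c = Finsupp.linearCombination ℤ g c := by
  rw [Finsupp.linearCombination_apply, Finsupp.linearCombination_apply, Finsupp.sum, Finsupp.sum]
  exact Finset.sum_congr rfl (fun a ha => by rw [h a ha])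

lemma supp_add {c d : α →₀ ℤ} {a : α} (h : a ∈ (c + d).support) :
    a ∈ c.support ∨ a ∈ d.support := by
  classical
  exact Finset.mem_union.1 (Finsupp.support_add h)

lemma supp_sub {c d : α →₀ ℤ} {a : α} (h : a ∈ (c - d).support) :
    a ∈ c.support ∨ a ∈ d.support := by
  classical
  exact Finset.mem_union.1 (Finsupp.support_sub h)

lemma supp_neg {c : α →₀ ℤ} {a : α} (h : a ∈ (-c).support) : a ∈ c.support := by
  rwa [Finsupp.support_neg] at h

lemma supp_sum {ι : Type w} {s : Finset ι} {f : ι → (α →₀ ℤ)} {a : α}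
    (h : a ∈ (∑ i ∈ s, f i).support) : ∃ i ∈ s, a ∈ (f i).support := by
  classical
  by_contra hcon
  push Not at hcon
  apply Finsupp.mem_support_iff.1 h
  rw [Finsupp.finsetSum_apply]
  exact Finset.sum_eq_zero (fun i hi => Finsupp.notMem_support_iff.1 (hcon i hi))

lemma supp_single {a b : α} {k : ℤ} (h : a ∈ (single b k).support) : a = b := by
  have := Finsupp.support_single_subset h
  simpa using this

end Ms

section Lists

variable {V : Type u} {W : Type v} {Z : Type w}

/-- the cone operator -/
noncomputable def cn (g : V) : Ch V →ₗ[ℤ] Ch V := Finsupp.lmapDomain ℤ ℤ (List.cons g)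

@[simp] lemma cn_single (g : V) (σ : List V) (k : ℤ) :
    cn g (single σ k) = single (g :: σ) k := by
  simp [cn]

lemma cn_eq_lc (g : V) (c : Ch V) :
    cn g c = Finsupp.linearCombination ℤ (fun σ => single (g :: σ) (1 : ℤ)) c := by
  induction c using Finsupp.induction_linear with
  | zero => simp
  | add a b ha hb => rw [map_add, map_add, ha, hb]
  | single σ k => simp

/-- boundary of a simplex -/
noncomputable def bdl : List V → Ch V
  | [] => 0
  | (g :: σ) => single σ 1 - cn g (bdl σ)

/-- boundary of a chain -/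
noncomputable def bd : Ch V →ₗ[ℤ] Ch V := Finsupp.linearCombination ℤ bdl

@[simp] lemma bd_single (σ : List V) (k : ℤ) : bd (single σ k) = k • bdl σ := by
  simp [bd]

lemma bd_cn (g : V) (c : Ch V) : bd (cn g c) = c - cn g (bd c) := by
  induction c using Finsupp.induction_linear with
  | zero => simp
  | add a b ha hb => rw [map_add, map_add, ha, hb, map_add, map_add]; abel
  | single σ k =>
    simp only [cn_single, bd_single, bdl, map_smul]
    rw [smul_sub]
    congr 1
    simp

lemma bd_bdl (σ : List V) : bd (bdl σ) = 0 := by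
  induction σ with
  | nil => simp [bdl]
  | cons g σ ih =>
    rw [bdl, map_sub, bd_cn, ih]
    simp

lemma bd_bd (c : Ch V) : bd (bd c) = 0 := by
  induction c using Finsupp.induction_linear with
  | zero => simp
  | add a b ha hb => rw [map_add, map_add, ha, hb]; simp
  | single σ k => rw [bd_single, map_smul, bd_bdl]; simp

/-- map induced by a map on vertices -/
noncomputable def mp (f : V → W) : Ch V →ₗ[ℤ] Ch W := Finsupp.lmapDomain ℤ ℤ (List.map f)

@[simp] lemma mp_single (f : V → W) (σ : List V) (k : ℤ) :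
    mp f (single σ k) = single (σ.map f) k := by
  simp [mp]

lemma mp_eq_lc (f : V → W) (c : Ch V) :
    mp f c = Finsupp.linearCombination ℤ (fun σ => single (σ.map f) (1 : ℤ)) c := by
  induction c using Finsupp.induction_linear with
  | zero => simp
  | add a b ha hb => rw [map_add, map_add, ha, hb]
  | single σ k => simp

lemma mp_cn (f : V → W) (g : V) (c : Ch V) :
    mp f (cn g c) = cn (f g) (mp f c) := by
  induction c using Finsupp.induction_linear with
  | zero => simp
  | add a b ha hb => simp only [map_add, ha, hb]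
  | single σ k => simp

lemma bdl_map (f : V → W) (σ : List V) : bdl (σ.map f) = mp f (bdl σ) := by
  induction σ with
  | nil => simp [bdl]
  | cons g σ ih => simp only [List.map_cons, bdl, ih, map_sub, mp_single, mp_cn]

lemma bd_mp (f : V → W) (c : Ch V) : bd (mp f c) = mp f (bd c) := by
  induction c using Finsupp.induction_linear with
  | zero => simp
  | add a b ha hb => simp only [map_add, ha, hb]
  | single σ k => simp [bdl_map]

lemma mp_mp (f : W → Z) (g : V → W) (c : Ch V) : mp f (mp g c) = mp (f ∘ g) c := by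
  induction c using Finsupp.induction_linear with
  | zero => simp
  | add a b ha hb => simp only [map_add, ha, hb]
  | single σ k => simp

lemma mp_id (c : Ch V) : mp (fun x => x) c = c := by
  induction c using Finsupp.induction_linear with
  | zero => simp
  | add a b ha hb => simp only [map_add, ha, hb]
  | single σ k => simp

/-- the prism operator between the simplicial maps induced by `f` and `f'` -/
noncomputable def prl (f f' : V → W) : List V → Ch W
  | [] => 0
  | (g :: σ) => single (f g :: f' g :: σ.map f') 1 - cn (f g) (prl f f' σ)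

/-- the prism operator on chains -/
noncomputable def pr (f f' : V → W) : Ch V →ₗ[ℤ] Ch W := Finsupp.linearCombination ℤ (prl f f')

@[simp] lemma pr_single (f f' : V → W) (σ : List V) (k : ℤ) :
    pr f f' (single σ k) = k • prl f f' σ := by
  simp [pr]

lemma pr_cn (f f' : V → W) (g : V) (c : Ch V) :
    pr f f' (cn g c) = cn (f g) (cn (f' g) (mp f' c)) - cn (f g) (pr f f' c) := by
  induction c using Finsupp.induction_linear with
  | zero => simp
  | add a b ha hb => rw [map_add, map_add, ha, hb]; simp only [map_add]; abel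
  | single σ k =>
    simp only [cn_single, pr_single, prl, mp_single, map_smul]
    rw [smul_sub]
    congr 1
    simp

lemma bd_prl (f f' : V → W) (σ : List V) :
    bd (prl f f' σ) + pr f f' (bdl σ) = single (σ.map f') 1 - single (σ.map f) 1 := by
  induction σ with
  | nil => simp [prl, bdl]
  | cons g σ ih =>
    have h1 : bd (prl f f' σ) = single (σ.map f') 1 - single (σ.map f) 1 - pr f f' (bdl σ) := by
      rw [← ih]; abel
    simp only [prl, bdl, map_sub, bd_single, one_smul, pr_single, pr_cn, bd_cn,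
      List.map_cons, h1, cn_single, bdl_map, mp_single]
    abel

lemma bd_pr (f f' : V → W) (c : Ch V) :
    bd (pr f f' c) + pr f f' (bd c) = mp f' c - mp f c := by
  induction c using Finsupp.induction_linear with
  | zero => simp
  | add a b ha hb =>
    simp only [map_add]
    rw [show bd (pr f f' a) + bd (pr f f' b) + (pr f f' (bd a) + pr f f' (bd b)) =
      (bd (pr f f' a) + pr f f' (bd a)) + (bd (pr f f' b) + pr f f' (bd b)) by abel,
      ha, hb]
    abel
  | single σ k =>
    rw [pr_single, bd_single, map_smul, map_smul, ← smul_add, bd_prl, mp_single, mp_single,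
      smul_sub]
    simp

/-- lists in the boundary of a simplex: sublists with one entry less -/
lemma supp_bdl {σ τ : List V} (h : τ ∈ (bdl σ).support) :
    τ.Sublist σ ∧ τ.length + 1 = σ.length := by
  induction σ generalizing τ with
  | nil => simp [bdl] at h
  | cons g σ ih =>
    rw [bdl] at h
    rcases supp_sub h with h | h
    · rw [supp_single h]
      exact ⟨List.sublist_cons_self g σ, by simp⟩
    · rw [cn_eq_lc] at h
      obtain ⟨ρ, hρ, h⟩ := supp_lc _ _ h
      rw [supp_single h]
      obtain ⟨h1, h2⟩ := ih hρ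
      exact ⟨h1.cons_cons g, by simp [h2]⟩

lemma supp_cn {g : V} {c : Ch V} {τ : List V} (h : τ ∈ (cn g c).support) :
    ∃ σ ∈ c.support, τ = g :: σ := by
  rw [cn_eq_lc] at h
  obtain ⟨ρ, hρ, h⟩ := supp_lc _ _ h
  exact ⟨ρ, hρ, supp_single h⟩

lemma supp_mp {f : V → W} {c : Ch V} {τ : List W} (h : τ ∈ (mp f c).support) :
    ∃ σ ∈ c.support, τ = σ.map f := by
  rw [mp_eq_lc] at h
  obtain ⟨ρ, hρ, h⟩ := supp_lc _ _ h
  exact ⟨ρ, hρ, supp_single h⟩

lemma supp_bd {c : Ch V} {τ : List V} (h : τ ∈ (bd c).support) :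
    ∃ σ ∈ c.support, τ.Sublist σ ∧ τ.length + 1 = σ.length := by
  rw [bd] at h
  obtain ⟨ρ, hρ, h⟩ := supp_lc _ _ h
  exact ⟨ρ, hρ, supp_bdl h⟩

/-- lists in a prism: one entry more, entries are values of `f` or `f'` at entries of `σ` -/
lemma supp_prl {f f' : V → W} {σ : List V} {τ : List W} (h : τ ∈ (prl f f' σ).support) :
    τ.length = σ.length + 1 ∧ ∀ y ∈ τ, ∃ x ∈ σ, y = f x ∨ y = f' x := by
  induction σ generalizing τ with
  | nil => simp [prl] at h
  | cons g σ ih =>
    rw [prl] at h
    rcases supp_sub h with h | h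
    · rw [supp_single h]
      refine ⟨by simp, fun y hy => ?_⟩
      rcases List.mem_cons.1 hy with rfl | hy
      · exact ⟨g, List.mem_cons_self, Or.inl rfl⟩
      · rcases List.mem_cons.1 hy with rfl | hy
        · exact ⟨g, List.mem_cons_self, Or.inr rfl⟩
        · obtain ⟨x, hx, rfl⟩ := List.mem_map.1 hy
          exact ⟨x, List.mem_cons_of_mem _ hx, Or.inr rfl⟩
    · obtain ⟨ρ, hρ, rfl⟩ := supp_cn h
      obtain ⟨h1, h2⟩ := ih hρ
      refine ⟨by simp [h1], fun y hy => ?_⟩
      rcases List.mem_cons.1 hy with rfl | hy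
      · exact ⟨g, List.mem_cons_self, Or.inl rfl⟩
      · obtain ⟨x, hx, h⟩ := h2 y hy
        exact ⟨x, List.mem_cons_of_mem _ hx, h⟩

lemma supp_pr {f f' : V → W} {c : Ch V} {τ : List W} (h : τ ∈ (pr f f' c).support) :
    ∃ σ ∈ c.support, τ.length = σ.length + 1 ∧ ∀ y ∈ τ, ∃ x ∈ σ, y = f x ∨ y = f' x := by
  rw [pr] at h
  obtain ⟨ρ, hρ, h⟩ := supp_lc _ _ h
  exact ⟨ρ, hρ, supp_prl h⟩

lemma ms_cn (g : V) (c : Ch V) : ms (cn g c) ≤ ms c := by
  rw [cn_eq_lc]
  refine (ms_lc_le _ _ 1 (fun a _ => ?_)).trans (by simp)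
  simp [ms_single]

lemma ms_mp (f : V → W) (c : Ch V) : ms (mp f c) ≤ ms c := by
  rw [mp_eq_lc]
  refine (ms_lc_le _ _ 1 (fun a _ => ?_)).trans (by simp)
  simp [ms_single]

lemma ms_bdl (σ : List V) : ms (bdl σ) ≤ σ.length := by
  induction σ with
  | nil => simp [bdl]
  | cons g σ ih =>
    rw [bdl]
    refine (ms_sub_le _ _).trans ?_
    rw [ms_single, List.length_cons]
    have := (ms_cn g (bdl σ)).trans ih
    simp only [Int.natAbs_one]
    omega

lemma ms_prl (f f' : V → W) (σ : List V) : ms (prl f f' σ) ≤ σ.length := by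
  induction σ with
  | nil => simp [prl]
  | cons g σ ih =>
    rw [prl]
    refine (ms_sub_le _ _).trans ?_
    rw [ms_single, List.length_cons]
    have := (ms_cn (f g) (prl f f' σ)).trans ih
    simp only [Int.natAbs_one]
    omega

lemma ms_bd {k : ℕ} (c : Ch V) (hc : ∀ σ ∈ c.support, σ.length ≤ k) : ms (bd c) ≤ k * ms c :=
  ms_lc_le _ _ _ (fun σ hσ => (ms_bdl σ).trans (hc σ hσ))

lemma ms_pr {k : ℕ} (f f' : V → W) (c : Ch V) (hc : ∀ σ ∈ c.support, σ.length ≤ k) :
    ms (pr f f' c) ≤ k * ms c :=
  ms_lc_le _ _ _ (fun σ hσ => (ms_prl f f' σ).trans (hc σ hσ))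

end Lists

end Pool.Agent.H.MP_e5d137_al.UB
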