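import Mathlib

/-!
# Tree metrics on groups

`LTM d`: `d` is a left invariant integer valued tree metric on the group `F`, with finite balls.
-/

namespace Pool.Agent.H.MP_e5d137_al.UB

/-- left invariant, locally finite tree metrics: `d` is the vertex metric of a tree with vertex
set `F` on which `F` acts by left translations -/
structure LTM {F : Type} [Group F] (d : F → F → ℕ) : Prop where
  self : ∀ a, d a a = 0
  eq0 : ∀ a b, d a b = 0 → a = b
  symm : ∀ a b, d a b = d b a
  tri : ∀ a b c, d a c ≤ d a b + d b c
  four : ∀ x y z w, d x y + d z w ≤ max (d x z + d y w) (d x w + d y z)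
  step : ∀ a b k, d a b = k + 1 → ∃ c, d a c = 1 ∧ d c b = k
  par : ∀ a b c, d b c = 1 → d a b ≠ d a c
  inv : ∀ c a b, d (c * a) (c * b) = d a b
  fin : ∀ ρ, {b | d 1 b ≤ ρ}.Finite

namespace LTM

variable {F : Type} [Group F] {d : F → F → ℕ} (hd : LTM d)

include hd

/-- distances of adjacent points to a third point differ by exactly one -/
lemma adj_cases {a b c : F} (h : d b c = 1) : d a b = d a c + 1 ∨ d a c = d a b + 1 := by
  have h1 := hd.tri a b c
  have h2 := hd.tri a c b
  have h3 := hd.par a b c h
  have h4 := hd.symm b c
  omega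

/-- convexity of balls, geodesic form: if `c` lies on the geodesic `[a,b]` then its distance to
any `x` is at most the maximum of the distances of `a`, `b` to `x` -/
lemma conv {a b c x : F} (h : d a c + d c b = d a b) : d c x ≤ max (d a x) (d b x) := by
  have h1 := hd.four a b c x
  have h2 := hd.symm b c
  have h3 := hd.symm c b
  rcases le_total (d a c + d b x) (d a x + d b c) with h4 | h4
  · rw [max_eq_right h4] at h1
    refine le_max_of_le_left ?_
    omega
  · rw [max_eq_left h4] at h1
    refine le_max_of_le_right ?_
    omega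

/-- uniqueness of the point of a geodesic at given distance -/
lemma geod_unique {a b x y : F} (hx : d a x + d x b = d a b) (hy : d a y + d y b = d a b)
    (h : d x b = d y b) : x = y := by
  apply hd.eq0
  have h1 := hd.four a b x y
  have h2 := hd.symm b y
  have h3 := hd.symm b x
  rcases le_total (d a x + d b y) (d a y + d b x) with h4 | h4
  · rw [max_eq_right h4] at h1
    omega
  · rw [max_eq_left h4] at h1
    omega

/-- points on geodesics -/
lemma exists_between {a b : F} {k : ℕ} (h : k ≤ d a b) :
    ∃ c, d a c = k ∧ d c b = d a b - k := by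
  induction k with
  | zero => exact ⟨a, hd.self a, by simp⟩
  | succ k ih =>
    obtain ⟨c, h1, h2⟩ := ih (by omega)
    obtain ⟨c', h3, h4⟩ := hd.step c b (d a b - k - 1) (by omega)
    refine ⟨c', ?_, by omega⟩
    have h5 := hd.tri a c c'
    have h6 := hd.tri a c' b
    omega

/-- turning lemma: if `q` is the neighbour of `v` closer to `a` and `w` is at distance
`d v w + 1` from `q`, then the geodesic from `a` to `w` passes through `v` -/
lemma through {a v q w : F} (hqv : d q v = 1) (ha : d a v = d a q + 1)
    (hw : d q w = d v w + 1) : d a w = d a v + d v w := by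
  have h1 := hd.four a v q w
  have h2 := hd.tri a v w
  have h3 := hd.symm v q
  rcases le_total (d a q + d v w) (d a w + d v q) with h4 | h4
  · rw [max_eq_right h4] at h1
    omega
  · rw [max_eq_left h4] at h1
    omega

lemma ball_card (a : F) (ρ : ℕ) : Set.ncard {b | d a b ≤ ρ} = Set.ncard {b | d 1 b ≤ ρ} := by
  have h : {b | d a b ≤ ρ} = (fun x => a * x) '' {b | d 1 b ≤ ρ} := by
    ext x
    simp only [Set.mem_setOf_eq, Set.mem_image]
    constructor
    · intro hx
      refine ⟨a⁻¹ * x, ?_, by group⟩
      rw [← hd.inv a]
      simpa using hx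
    · rintro ⟨y, hy, rfl⟩
      have := hd.inv a 1 y
      rw [mul_one] at this
      rwa [this]
  rw [h]
  exact Set.ncard_image_of_injective _ (mul_right_injective a)

lemma ball_finite (a : F) (ρ : ℕ) : {b | d a b ≤ ρ}.Finite := by
  have h : {b | d a b ≤ ρ} = (fun x => a * x) '' {b | d 1 b ≤ ρ} := by
    ext x
    simp only [Set.mem_setOf_eq, Set.mem_image]
    constructor
    · intro hx
      refine ⟨a⁻¹ * x, ?_, by group⟩
      rw [← hd.inv a]
      simpa using hx
    · rintro ⟨y, hy, rfl⟩
      have := hd.inv a 1 y
      rw [mul_one] at this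
      rwa [this]
  rw [h]
  exact (hd.fin ρ).image _

end LTM

end Pool.Agent.H.MP_e5d137_al.UB
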