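import Pool.Agent.H.MP_e5d137_al.UB.Sd

/-!
# The chain map `Φ` killing lists with adjacent equal entries, and homotopies
-/

namespace Pool.Agent.H.MP_e5d137_al.UB

open Finsupp

variable {G : Type} [Group G] {E : G → ℕ}

/-- `AdjEq` passes to the lists in the boundary: for `σ = a :: a :: l` we have
`bdl σ = cn a (cn a (bdl l))` (the first two faces cancel); for `σ = b :: σ'` with `AdjEq σ'`
use `bdl σ = single σ' 1 - cn b (bdl σ')` and induction. -/
lemma adjEq_bdl {V : Type} {σ τ : List V} (h : AdjEq σ) (hτ : τ ∈ (bdl σ).support) : AdjEq τ := by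
  obtain ⟨l₁, a, l₂, rfl⟩ := h
  induction l₁ generalizing τ with
  | nil =>
    have e : bdl ([] ++ a :: a :: l₂) = cn a (cn a (bdl l₂)) := by
      simp only [List.nil_append, bdl, map_sub, cn_single]
      abel
    rw [e] at hτ
    obtain ⟨ρ, hρ, rfl⟩ := supp_cn hτ
    obtain ⟨ρ', _, rfl⟩ := supp_cn hρ
    exact ⟨[], a, ρ', rfl⟩
  | cons b l₁ ih =>
    rw [List.cons_append, bdl] at hτ
    rcases supp_sub hτ with h | h
    · rw [supp_single h]
      exact ⟨l₁, a, l₂, rfl⟩
    · obtain ⟨ρ, hρ, rfl⟩ := supp_cn h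
      obtain ⟨m₁, c, m₂, rfl⟩ := ih hρ
      exact ⟨b :: m₁, c, m₂, rfl⟩

lemma phi_lc_bd {V : Type} (Φ : List V → Ch V) (x : Ch V)
    (h : ∀ τ ∈ x.support, bd (Φ τ) = Finsupp.linearCombination ℤ Φ (bdl τ)) :
    bd (Finsupp.linearCombination ℤ Φ x) = Finsupp.linearCombination ℤ Φ (bd x) := by
  have h1 : bd (Finsupp.linearCombination ℤ Φ x) =
      Finsupp.linearCombination ℤ (fun τ => bd (Φ τ)) x := by
    rw [Finsupp.linearCombination_apply, Finsupp.linearCombination_apply, Finsupp.sum, Finsupp.sum,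
      map_sum]
    refine Finset.sum_congr rfl (fun τ _ => ?_)
    rw [map_smul]
  have h2 : Finsupp.linearCombination ℤ Φ (bd x) =
      Finsupp.linearCombination ℤ (fun τ => Finsupp.linearCombination ℤ Φ (bdl τ)) x := by
    rw [bd, Finsupp.linearCombination_apply ℤ x, Finsupp.linearCombination_apply ℤ x, Finsupp.sum,
      Finsupp.sum, map_sum]
    refine Finset.sum_congr rfl (fun τ _ => ?_)
    rw [map_smul]
  rw [h1, h2]
  exact lc_congr _ _ _ h

/-- The assertion of `exists_Phi`, with all constants. -/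
def PhiP (E : G → ℕ) (k R' c X : ℕ) (Φ : List G → Ch G) : Prop :=
  Φ [] = single [] 1 ∧ (∀ a, Φ [a] = single [a] 1) ∧
      ∀ σ : List G, σ.length ≤ k → Small E X σ →
        bd (Φ σ) = Finsupp.linearCombination ℤ Φ (bdl σ) ∧
        (AdjEq σ → Φ σ = 0) ∧
        (∀ τ ∈ (Φ σ).support, τ.length = σ.length ∧ Small E R' τ ∧
          ∀ a ∈ σ, Near E a (X ^ c) τ) ∧
        ms (Φ σ) ≤ X ^ c

lemma phi_adjEq_length {V : Type} {σ : List V} (h : AdjEq σ) : 2 ≤ σ.length := by
  obtain ⟨l₁, a, l₂, rfl⟩ := h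
  simp only [List.length_append, List.length_cons]
  omega

lemma phi_base (hE : Szf E) {k : ℕ} (hk : k ≤ 1) (X : ℕ) :
    ∃ Φ : List G → Ch G, PhiP E k 1 0 X Φ := by
  classical
  refine ⟨fun σ => if σ.length ≤ 1 then single σ 1 else 0, by simp, by simp, ?_⟩
  intro σ hσ _
  have hl : σ.length ≤ 1 := hσ.trans hk
  simp only [hl, if_true]
  refine ⟨?_, ?_, ?_, ?_⟩
  · cases σ with
    | nil => simp [bdl]
    | cons a σ =>
      have : σ = [] := by
        cases σ with
        | nil => rfl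
        | cons b σ => simp at hl
      subst this
      simp [bdl]
  · intro h
    have := phi_adjEq_length h
    omega
  · intro τ hτ
    rw [supp_single hτ]
    refine ⟨rfl, ?_, ?_⟩
    · intro a ha b hb
      cases σ with
      | nil => simp at ha
      | cons d σ =>
        have : σ = [] := by
          cases σ with
          | nil => rfl
          | cons b σ => simp at hl
        subst this
        rw [List.mem_singleton] at ha hb
        rw [ha, hb, inv_mul_cancel, hE.one]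
    · intro a ha b hb
      cases σ with
      | nil => simp at ha
      | cons d σ =>
        have : σ = [] := by
          cases σ with
          | nil => rfl
          | cons b σ => simp at hl
        subst this
        rw [List.mem_singleton] at ha hb
        rw [ha, hb, inv_mul_cancel, hE.one, pow_zero]
  · rw [ms_single]
    simp

lemma phi_step (hE : Szf E) {k R' c R₂ c₂ X : ℕ} (hk : 1 ≤ k) (hX : 2 ≤ X)
    (hcone : ∀ X : ℕ, 2 ≤ X → ∀ g : G,
      ∀ x : Ch G, (∀ σ ∈ x.support, σ.length = k ∧ Small E R' σ ∧ Near E g X σ) → bd x = 0 →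
      ∃ y : Ch G, (∀ τ ∈ y.support, τ.length = k + 1 ∧ Small E R₂ τ ∧ Near E g (X ^ c₂) τ) ∧
        bd y = x ∧ ms y ≤ X ^ c₂ * ms x)
    {Φ : List G → Ch G} (hΦ : PhiP E k R' c X Φ) :
    ∃ Φ' : List G → Ch G, PhiP E (k + 1) (max R' R₂) ((c + 1) * c₂ + c + k + 2) X Φ' := by
  classical
  obtain ⟨p1, p2, p3⟩ := hΦ
  have hX1 : 1 ≤ X := by omega
  have key : ∀ σ : List G, σ.length = k + 1 ∧ Small E X σ ∧ ¬ AdjEq σ →
      ∃ y : Ch G, bd y = Finsupp.linearCombination ℤ Φ (bdl σ) ∧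
        (∀ τ ∈ y.support, τ.length = σ.length ∧ Small E R₂ τ ∧
          ∀ a ∈ σ, Near E a (X ^ ((c + 1) * c₂ + c + k + 2)) τ) ∧
        ms y ≤ X ^ ((c + 1) * c₂ + c + k + 2) := by
    rintro σ ⟨hσ, hs, _⟩
    obtain ⟨a, ha⟩ : ∃ a, a ∈ σ := by
      cases σ with
      | nil => simp at hσ
      | cons a σ => exact ⟨a, by simp⟩
    have hτ : ∀ τ ∈ (bdl σ).support, τ.length = k ∧ Small E X τ ∧ τ.Sublist σ := by
      intro τ hτ
      obtain ⟨h1, h2⟩ := supp_bdl hτ
      exact ⟨by omega, hs.sublist h1, h1⟩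
    have hbd : bd (Finsupp.linearCombination ℤ Φ (bdl σ)) = 0 := by
      rw [phi_lc_bd Φ (bdl σ) (fun τ h => (p3 τ (hτ τ h).1.le (hτ τ h).2.1).1), bd_bdl, map_zero]
    have hw : ∀ ρ ∈ (Finsupp.linearCombination ℤ Φ (bdl σ)).support,
        ρ.length = k ∧ Small E R' ρ ∧ Near E a (X ^ (c + 1)) ρ := by
      intro ρ hρ
      obtain ⟨τ, ht, hr⟩ := supp_lc _ _ hρ
      obtain ⟨t1, t2, t3⟩ := hτ τ ht
      obtain ⟨q1, q2, q3⟩ := (p3 τ t1.le t2).2.2.1 ρ hr
      obtain ⟨b, hb⟩ : ∃ b, b ∈ τ := by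
        cases τ with
        | nil => simp at t1; omega
        | cons b τ => exact ⟨b, by simp⟩
      refine ⟨by omega, q2, fun t htt => ?_⟩
      have e : a⁻¹ * t = (a⁻¹ * b) * (b⁻¹ * t) := by group
      rw [e, pow_succ, mul_comm (X ^ c) X]
      exact (hE.mul _ _).trans (Nat.mul_le_mul (hs a ha b (t3.subset hb)) (q3 b hb t htt))
    have hX' : 2 ≤ X ^ (c + 1) := hX.trans (Nat.le_self_pow (by omega) X)
    obtain ⟨y, y1, y2, y3⟩ := hcone (X ^ (c + 1)) hX' a _ hw hbd
    refine ⟨y, y2, ?_, ?_⟩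
    · intro τ ht
      obtain ⟨q1, q2, q3⟩ := y1 τ ht
      refine ⟨by omega, q2, fun b hb t htt => ?_⟩
      have e : b⁻¹ * t = (b⁻¹ * a) * (a⁻¹ * t) := by group
      rw [e]
      refine (hE.mul _ _).trans ((Nat.mul_le_mul (hs b hb a ha) (q3 t htt)).trans ?_)
      rw [← pow_mul, ← pow_succ']
      exact Nat.pow_le_pow_right hX1 (by omega)
    · have h1 : ms (Finsupp.linearCombination ℤ Φ (bdl σ)) ≤ X ^ c * (k + 1) := by
        refine (ms_lc_le _ _ (X ^ c)
          (fun τ h => (p3 τ (hτ τ h).1.le (hτ τ h).2.1).2.2.2)).trans ?_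
        exact Nat.mul_le_mul_left _ ((ms_bdl σ).trans hσ.le)
      have h2 : k + 1 ≤ X ^ (k + 1) := by
        have h3 : k + 1 < 2 ^ (k + 1) := Nat.lt_two_pow_self
        exact h3.le.trans (Nat.pow_le_pow_left hX _)
      refine y3.trans ((Nat.mul_le_mul_left _ h1).trans ?_)
      refine (Nat.mul_le_mul_left _ (Nat.mul_le_mul_left _ h2)).trans ?_
      rw [← pow_mul, ← pow_add, ← pow_add]
      exact Nat.pow_le_pow_right hX1 (by omega)
  choose! Y hY using key
  have hc1 : c ≤ (c + 1) * c₂ + c + k + 2 := by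
    have : 0 ≤ (c + 1) * c₂ := Nat.zero_le _
    omega
  refine ⟨fun σ => if σ.length ≤ k then Φ σ else
    if σ.length = k + 1 ∧ Small E X σ ∧ ¬ AdjEq σ then Y σ else 0, ?_, ?_, ?_⟩
  · simp [p1]
  · intro a
    have : [a].length ≤ k := by simpa using hk
    simp only [this, if_true]
    exact p2 a
  · intro σ hσ hs
    have hlc : ∀ σ : List G, σ.length ≤ k + 1 →
        Finsupp.linearCombination ℤ (fun σ : List G => if σ.length ≤ k then Φ σ else
          if σ.length = k + 1 ∧ Small E X σ ∧ ¬ AdjEq σ then Y σ else 0) (bdl σ) =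
        Finsupp.linearCombination ℤ Φ (bdl σ) := by
      intro σ hσ
      refine lc_congr _ _ _ (fun τ hτ => ?_)
      have h2 := (supp_bdl hτ).2
      have h3 : τ.length ≤ k := by omega
      simp only [h3, if_true]
    rw [hlc σ hσ]
    by_cases h1 : σ.length ≤ k
    · simp only [h1, if_true]
      obtain ⟨q1, q2, q3, q4⟩ := p3 σ h1 hs
      refine ⟨q1, q2, ?_, q4.trans (Nat.pow_le_pow_right hX1 hc1)⟩
      intro τ hτ
      obtain ⟨r1, r2, r3⟩ := q3 τ hτ
      exact ⟨r1, r2.mono (le_max_left _ _),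
        fun a ha => (r3 a ha).mono (Nat.pow_le_pow_right hX1 hc1)⟩
    · have h2 : σ.length = k + 1 := by omega
      simp only [h1, if_false]
      by_cases h3 : AdjEq σ
      · have h4 : ¬ (σ.length = k + 1 ∧ Small E X σ ∧ ¬ AdjEq σ) := fun h => h.2.2 h3
        rw [if_neg h4]
        refine ⟨?_, fun _ => rfl, ?_, ?_⟩
        · rw [map_zero]
          symm
          have h5 : Finsupp.linearCombination ℤ Φ (bdl σ) =
              Finsupp.linearCombination ℤ (fun _ : List G => (0 : Ch G)) (bdl σ) := by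
            refine lc_congr _ _ _ (fun τ hτ => ?_)
            obtain ⟨s1, s2⟩ := supp_bdl hτ
            exact (p3 τ (by omega) (hs.sublist s1)).2.1 (adjEq_bdl h3 hτ)
          rw [h5, Finsupp.linearCombination_apply]
          simp
        · intro τ hτ
          simp at hτ
        · simp
      · have h4 : σ.length = k + 1 ∧ Small E X σ ∧ ¬ AdjEq σ := ⟨h2, hs, h3⟩
        rw [if_pos h4]
        obtain ⟨q1, q2, q3⟩ := hY σ h4
        refine ⟨q1, fun h => absurd h h3, ?_, q3⟩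
        intro τ hτ
        obtain ⟨r1, r2, r3⟩ := q2 τ hτ
        exact ⟨by omega, r2.mono (le_max_right _ _), r3⟩

/-- Existence of `Φ`.

Proof.  Induction on `k`.  `k = 0`: take `Φ [] = single [] 1`, `Φ [a] = single [a] 1`, `0`
otherwise.  `k = 1`: the same map works (`R' = 1`, using `E 1 = 1`; `bd (single [a] 1) =
single [] 1`).  Step `k → k + 1` for `k ≥ 1`: let `Φ` be the map for `k`, with constants `R'`,
`c`.  For `σ` of length `k + 1` with `Small E X σ`: if `AdjEq σ` put `Φ' σ = 0`; then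
`lc Φ (bdl σ) = 0` by `adjEq_bdl`, as required.  Otherwise `w = lc Φ (bdl σ)` is a cycle
(`bd w = lc (bd ∘ Φ) (bdl σ) = lc Φ (bd (bdl σ)) = 0`, as `Small` passes to sublists and all
lists in `bdl σ` have length `k`), its lists have length `k`, are `R'`-small and are near the
head `a` of `σ` (every list in `bdl σ` is a sublist of length `≥ 1` of `σ`; from
`E (b⁻¹ t) ≤ X ^ c` for an entry `b` and `E (a⁻¹ b) ≤ X` get `≤ X ^ (c + 1)`), its mass is at
most `(k + 1) * X ^ c`.  Apply `Cone.at` (with `k`, `R'`, centre `a`, size `X ^ (c + 1)`).  For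
other `σ` put `Φ' σ = Φ σ`.  Constants: `k + 1 ≤ 2 ^ (k + 1) ≤ X ^ (k + 1)`. -/
theorem exists_Phi (hE : Szf E) (hc : Cone E) (k : ℕ) : ∃ R' c : ℕ, ∀ X : ℕ, 2 ≤ X →
    ∃ Φ : List G → Ch G, Φ [] = single [] 1 ∧ (∀ a, Φ [a] = single [a] 1) ∧
      ∀ σ : List G, σ.length ≤ k → Small E X σ →
        bd (Φ σ) = Finsupp.linearCombination ℤ Φ (bdl σ) ∧
        (AdjEq σ → Φ σ = 0) ∧
        (∀ τ ∈ (Φ σ).support, τ.length = σ.length ∧ Small E R' τ ∧
          ∀ a ∈ σ, Near E a (X ^ c) τ) ∧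
        ms (Φ σ) ≤ X ^ c := by
  have main : ∀ k : ℕ, 1 ≤ k → ∃ R' c : ℕ, ∀ X : ℕ, 2 ≤ X → ∃ Φ : List G → Ch G,
      PhiP E k R' c X Φ := by
    intro k hk
    induction k, hk using Nat.le_induction with
    | base => exact ⟨1, 0, fun X _ => phi_base hE le_rfl X⟩
    | succ k hk ih =>
      obtain ⟨R', c, h⟩ := ih
      obtain ⟨R₂, c₂, h2⟩ := hc.at k R'
      refine ⟨max R' R₂, (c + 1) * c₂ + c + k + 2, fun X hX => ?_⟩
      obtain ⟨Φ, hΦ⟩ := h X hX
      exact phi_step hE hk hX h2 hΦ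
  rcases Nat.eq_zero_or_pos k with hk | hk
  · subst hk
    exact ⟨1, 0, fun X _ => phi_base hE (by omega) X⟩
  · exact main k hk

end Pool.Agent.H.MP_e5d137_al.UB
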