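import Pool.Agent.H.MP_e5d137_al.UB.Cone

/-!
# The cone property of a quotient group
-/

namespace Pool.Agent.H.MP_e5d137_al.UB

open Finsupp

variable {G Q : Type} [Group G] [Group Q]

/-- the size function of a quotient: the least size of a preimage -/
noncomputable def EQ (π : G →* Q) (E : G → ℕ) (q : Q) : ℕ := sInf {k | ∃ g, π g = q ∧ E g = k}

lemma exists_lift (π : G →* Q) (hπ : Function.Surjective π) (E : G → ℕ) (q : Q) :
    ∃ g, π g = q ∧ E g = EQ π E q := by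
  have h : {k | ∃ g, π g = q ∧ E g = k}.Nonempty := by
    obtain ⟨g, hg⟩ := hπ q
    exact ⟨E g, g, hg, rfl⟩
  exact Nat.sInf_mem h

lemma EQ_le (π : G →* Q) (E : G → ℕ) (g : G) : EQ π E (π g) ≤ E g :=
  Nat.sInf_le ⟨g, rfl, rfl⟩

/-- `EQ π E` is a size function -/
theorem EQ_szf {E : G → ℕ} (hE : Szf E) (π : G →* Q) (hπ : Function.Surjective π) :
    Szf (EQ π E) where
  one := by
    apply le_antisymm
    · have := EQ_le π E 1
      rwa [map_one, hE.one] at this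
    · obtain ⟨g, _, hg⟩ := exists_lift π hπ E 1
      rw [← hg]
      exact hE.pos g
  pos q := by
    obtain ⟨g, _, hg⟩ := exists_lift π hπ E q
    rw [← hg]
    exact hE.pos g
  mul q r := by
    obtain ⟨g, hg1, hg⟩ := exists_lift π hπ E q
    obtain ⟨h, hh1, hh⟩ := exists_lift π hπ E r
    rw [← hg, ← hh, ← hg1, ← hh1, ← map_mul]
    exact (EQ_le π E _).trans (hE.mul g h)
  inv q := by
    have key : ∀ q, EQ π E q⁻¹ ≤ EQ π E q := by
      intro q
      obtain ⟨g, hg1, hg⟩ := exists_lift π hπ E q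
      rw [← hg, ← hg1, ← map_inv, ← hE.inv g]
      exact EQ_le π E _
    apply le_antisymm (key q)
    have := key q⁻¹
    rwa [inv_inv] at this
  fin R := by
    refine ((hE.fin R).image π).subset ?_
    intro q hq
    obtain ⟨g, hg1, hg⟩ := exists_lift π hπ E q
    exact ⟨g, by show E g ≤ R; rw [hg]; exact hq, hg1⟩

/-- The cone property for cycles in a neighbourhood of a fibre. -/
def LCone (π : G →* Q) (E : G → ℕ) : Prop := ∀ k R R₁ : ℕ, 1 ≤ R₁ → ∃ R' c : ℕ, ∀ X : ℕ, 2 ≤ X →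
  ∀ (g₀ : G) (z : Ch G), (∀ σ ∈ z.support, σ.length = k ∧ Small E R σ ∧ Near E g₀ X σ ∧
    Near (EQ π E) (π g₀) R₁ (σ.map π)) → bd z = 0 →
  ∃ y : Ch G, (∀ τ ∈ y.support, τ.length = k + 1 ∧ Small E R' τ ∧ Near E g₀ (X ^ c) τ ∧
    Near (EQ π E) (π g₀) R₁ (τ.map π)) ∧ bd y = z ∧ ms y ≤ X ^ c * ms z

end Pool.Agent.H.MP_e5d137_al.UB
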