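import Pool.Agent.H.MP_e5d137_al.UB.Quo

/-!
# Lifting of simplices
-/

namespace Pool.Agent.H.MP_e5d137_al.UB

open Finsupp

variable {G Q : Type} [Group G] [Group Q]

lemma qb_near_sublist {E : G → ℕ} {g : G} {X : ℕ} {σ τ : List G} (h : Near E g X σ)
    (hs : τ.Sublist σ) : Near E g X τ := fun a ha => h a (hs.subset ha)

lemma qb_bd_lc {V W : Type} (ℓ : List V → Ch W) (c : Ch V)
    (h : ∀ ρ ∈ c.support, bd (ℓ ρ) = Finsupp.linearCombination ℤ ℓ (bdl ρ)) :
    bd (Finsupp.linearCombination ℤ ℓ c) = Finsupp.linearCombination ℤ ℓ (bd c) := by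
  rw [LinearMap.map_finsupp_linearCombination]
  have h1 : Finsupp.linearCombination ℤ ℓ (bd c) =
      Finsupp.linearCombination ℤ (Finsupp.linearCombination ℤ ℓ ∘ bdl) c := by
    rw [bd, LinearMap.map_finsupp_linearCombination]
  rw [h1]
  exact lc_congr _ _ _ h

/-- Lifting of simplices.

Proof.  Induction on `k` (with the statement also containing the constants `R'`, `R₁ ≥ 1`, `c`).
`k = 0`: `ℓ [] = single [] 1` and (for instance) `ℓ σ = 0` otherwise.  Step `k → k + 1`: let `ℓ` be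
the map for `k` and `X`, with constants `R'`, `R₁`, `c`.  For `σ` of length `k + 1`, `R`-small and
of size `≤ X`, with head `q₀`, let `g₀` be a lift of `q₀` with `E g₀ = EQ q₀ ≤ X`
(`exists_lift`), and `z = lc ℓ (bdl σ)`.  All lists `ρ` in `bdl σ` are sublists of `σ` of length
`k` (`supp_bdl`), so `bd z = lc ℓ (bd (bdl σ)) = 0` (write `bd (lc ℓ c) = lc (bd ∘ ℓ) c`, use
`lc_congr`; `bd_bdl`).  The lists `τ` in `ℓ ρ` have length `k`, are `R'`-small, have size at most
`X ^ c`, so they are near `g₀`: `E (g₀⁻¹ a) ≤ X * X ^ c`; and the entries of `τ.map π` are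
`R₁`-near the entries of `ρ` (if `k ≥ 1` there is such an entry `q`, which is `R`-near `q₀`; if
`k = 0` then `τ` has no entries), so they are `R * R₁`-near `q₀ = π g₀`.  Apply `LCone` with
`k`, `R'`, `R * R₁ + 1`, and `X ^ (c + 1)`: this gives `y` and we put `ℓ' σ = y`.  The lists of
`y` are near `g₀` and so of size at most `X * (X ^ (c + 1)) ^ c'`; the entries of `τ.map π` are
near `q₀` and so near all entries of `σ`; the mass is at most `(X ^ (c + 1)) ^ c' * (k + 1) *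
X ^ c` (`ms_lc_le`, `ms_bdl`).  For all other `σ` put `ℓ' σ = ℓ σ`.  (For `σ` of length `≤ k` the
statement for `ℓ'` is the one for `ℓ`, as `lc ℓ' (bdl σ) = lc ℓ (bdl σ)`.)
Use `n ≤ 2 ^ n ≤ X ^ n` to bound constants by powers of `X`. -/
theorem exists_lft {E : G → ℕ} (hE : Szf E) (π : G →* Q) (hπ : Function.Surjective π)
    (hl : LCone π E) (k R : ℕ) : ∃ R' R₁ c : ℕ, 1 ≤ R₁ ∧ ∀ X : ℕ, 2 ≤ X →
    ∃ ℓ : List Q → Ch G, ℓ [] = single [] 1 ∧
      ∀ σ : List Q, σ.length ≤ k → Small (EQ π E) R σ → Near (EQ π E) 1 X σ →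
        bd (ℓ σ) = Finsupp.linearCombination ℤ ℓ (bdl σ) ∧
        (∀ τ ∈ (ℓ σ).support, τ.length = σ.length ∧ Small E R' τ ∧ Near E 1 (X ^ c) τ ∧
          ∀ q ∈ σ, Near (EQ π E) q R₁ (τ.map π)) ∧
        ms (ℓ σ) ≤ X ^ c := by
  classical
  have hEQ : Szf (EQ π E) := EQ_szf hE π hπ
  induction k with
  | zero =>
    refine ⟨0, 1, 0, le_rfl, fun X _ => ⟨fun _ => single [] 1, rfl, fun σ hσ _ _ => ?_⟩⟩
    have hσ' : σ = [] := List.length_eq_zero_iff.1 (Nat.le_zero.1 hσ)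
    subst hσ'
    refine ⟨by simp [bdl], fun τ hτ => ?_, by simp [ms_single]⟩
    rw [supp_single hτ]
    refine ⟨rfl, ?_, ?_, ?_⟩
    · intro a ha; simp at ha
    · intro a ha; simp at ha
    · intro q hq; simp at hq
  | succ k ih =>
    obtain ⟨R', R₁, c, hR₁, ih⟩ := ih
    obtain ⟨R'', c', hl'⟩ := hl k R' ((R + 1) * R₁) (Nat.mul_pos (Nat.succ_pos R) hR₁)
    refine ⟨max R' R'', max R₁ (R * ((R + 1) * R₁)), (c + 1) * c' + c + k + 1,
      le_max_of_le_left hR₁, fun X hX => ?_⟩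
    obtain ⟨ℓ, hnil, hℓ⟩ := ih X hX
    have hX0 : 0 < X := by omega
    have hX1 : 2 ≤ X ^ (c + 1) := by
      calc 2 ≤ X := hX
        _ = X ^ 1 := (pow_one X).symm
        _ ≤ X ^ (c + 1) := Nat.pow_le_pow_right hX0 (by omega)
    -- the choice on simplices with k + 1 vertices
    have key : ∀ σ : List Q, (σ.length = k + 1 ∧ Small (EQ π E) R σ ∧ Near (EQ π E) 1 X σ) →
        ∃ y : Ch G, bd y = Finsupp.linearCombination ℤ ℓ (bdl σ) ∧
          (∀ τ ∈ y.support, τ.length = σ.length ∧ Small E R'' τ ∧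
            Near E 1 (X ^ (1 + (c + 1) * c')) τ ∧
            ∀ q ∈ σ, Near (EQ π E) q (R * ((R + 1) * R₁)) (τ.map π)) ∧
          ms y ≤ X ^ ((c + 1) * c' + c + k + 1) := by
      rintro σ ⟨hlen, hsm, hnr⟩
      obtain ⟨q₀, σ', rfl⟩ : ∃ q₀ σ', σ = q₀ :: σ' := by
        cases σ with
        | nil => simp at hlen
        | cons a l => exact ⟨a, l, rfl⟩
      have hq₀ : q₀ ∈ q₀ :: σ' := List.mem_cons_self
      obtain ⟨g₀, hg₀, hEg₀⟩ := exists_lift π hπ E q₀
      have hEg₀X : E g₀ ≤ X := by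
        rw [hEg₀]
        have := hnr q₀ hq₀
        rwa [inv_one, one_mul] at this
      -- properties of faces
      have hface : ∀ ρ ∈ (bdl (q₀ :: σ')).support, ρ.Sublist (q₀ :: σ') ∧ ρ.length = k ∧
          bd (ℓ ρ) = Finsupp.linearCombination ℤ ℓ (bdl ρ) ∧
          (∀ τ ∈ (ℓ ρ).support, τ.length = ρ.length ∧ Small E R' τ ∧ Near E 1 (X ^ c) τ ∧
            ∀ q ∈ ρ, Near (EQ π E) q R₁ (τ.map π)) ∧ ms (ℓ ρ) ≤ X ^ c := by
        intro ρ hρ
        obtain ⟨h1, h2⟩ := supp_bdl hρ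
        have h3 : ρ.length = k := by omega
        exact ⟨h1, h3, hℓ ρ h3.le (hsm.sublist h1) (qb_near_sublist hnr h1)⟩
      have hbz : bd (Finsupp.linearCombination ℤ ℓ (bdl (q₀ :: σ'))) = 0 := by
        rw [qb_bd_lc ℓ _ (fun ρ hρ => (hface ρ hρ).2.2.1), bd_bdl, map_zero]
      have hz : ∀ τ ∈ (Finsupp.linearCombination ℤ ℓ (bdl (q₀ :: σ'))).support,
          τ.length = k ∧ Small E R' τ ∧ Near E g₀ (X ^ (c + 1)) τ ∧
          Near (EQ π E) (π g₀) ((R + 1) * R₁) (τ.map π) := by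
        intro τ hτ
        obtain ⟨ρ, hρ, hτρ⟩ := supp_lc _ _ hτ
        obtain ⟨h1, h2, _, h4, _⟩ := hface ρ hρ
        obtain ⟨e1, e2, e3, e4⟩ := h4 τ hτρ
        refine ⟨e1.trans h2, e2, ?_, ?_⟩
        · intro a ha
          have ha' := e3 a ha
          rw [inv_one, one_mul] at ha'
          calc E (g₀⁻¹ * a) ≤ E g₀⁻¹ * E a := hE.mul _ _
            _ = E g₀ * E a := by rw [hE.inv]
            _ ≤ X * X ^ c := Nat.mul_le_mul hEg₀X ha'
            _ = X ^ (c + 1) := by ring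
        · intro q' hq'
          have hne : τ ≠ [] := by
            rintro rfl
            simp at hq'
          have hρne : ρ ≠ [] := by
            rintro rfl
            apply hne
            exact List.length_eq_zero_iff.1 (by simpa using e1)
          obtain ⟨q, hq⟩ := List.exists_mem_of_ne_nil ρ hρne
          have f1 := e4 q hq q' hq'
          have f2 := hsm q₀ hq₀ q (h1.subset hq)
          rw [hg₀]
          calc EQ π E (q₀⁻¹ * q') = EQ π E ((q₀⁻¹ * q) * (q⁻¹ * q')) := by congr 1; group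
            _ ≤ EQ π E (q₀⁻¹ * q) * EQ π E (q⁻¹ * q') := hEQ.mul _ _
            _ ≤ (R + 1) * R₁ := Nat.mul_le_mul (by omega) f1
      obtain ⟨y, hy1, hy2, hy3⟩ := hl' (X ^ (c + 1)) hX1 g₀ _ hz hbz
      refine ⟨y, hy2, fun τ hτ => ?_, ?_⟩
      · obtain ⟨e1, e2, e3, e4⟩ := hy1 τ hτ
        refine ⟨by rw [e1, hlen], e2, ?_, ?_⟩
        · intro a ha
          rw [inv_one, one_mul]
          calc E a = E (g₀ * (g₀⁻¹ * a)) := by congr 1; group
            _ ≤ E g₀ * E (g₀⁻¹ * a) := hE.mul _ _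
            _ ≤ X * (X ^ (c + 1)) ^ c' := Nat.mul_le_mul hEg₀X (e3 a ha)
            _ = X ^ (1 + (c + 1) * c') := by rw [← pow_mul, pow_add, pow_one]
        · intro q hq q' hq'
          have f1 := e4 q' hq'
          rw [hg₀] at f1
          calc EQ π E (q⁻¹ * q') = EQ π E ((q⁻¹ * q₀) * (q₀⁻¹ * q')) := by congr 1; group
            _ ≤ EQ π E (q⁻¹ * q₀) * EQ π E (q₀⁻¹ * q') := hEQ.mul _ _
            _ ≤ R * ((R + 1) * R₁) := Nat.mul_le_mul (hsm q hq q₀ hq₀) f1
      · have m1 : ms (Finsupp.linearCombination ℤ ℓ (bdl (q₀ :: σ'))) ≤ X ^ c * (k + 1) := by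
          refine (ms_lc_le _ _ (X ^ c) (fun ρ hρ => (hface ρ hρ).2.2.2.2)).trans ?_
          refine Nat.mul_le_mul_left _ ?_
          rw [← hlen]
          exact ms_bdl _
        have m2 : k + 1 ≤ X ^ (k + 1) := by
          calc k + 1 ≤ 2 ^ (k + 1) := Nat.lt_two_pow_self.le
            _ ≤ X ^ (k + 1) := Nat.pow_le_pow_left hX _
        calc ms y ≤ (X ^ (c + 1)) ^ c' * ms (Finsupp.linearCombination ℤ ℓ (bdl (q₀ :: σ'))) := hy3
          _ ≤ (X ^ (c + 1)) ^ c' * (X ^ c * (k + 1)) := Nat.mul_le_mul_left _ m1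
          _ ≤ (X ^ (c + 1)) ^ c' * (X ^ c * X ^ (k + 1)) :=
            Nat.mul_le_mul_left _ (Nat.mul_le_mul_left _ m2)
          _ = X ^ ((c + 1) * c' + c + k + 1) := by
            rw [← pow_mul, ← pow_add, ← pow_add]
            congr 1
            ring
    choose! y hy using key
    -- the new map
    obtain ⟨ℓ', hℓ'⟩ : ∃ ℓ' : List Q → Ch G, ℓ' = fun σ =>
      if σ.length = k + 1 ∧ Small (EQ π E) R σ ∧ Near (EQ π E) 1 X σ then y σ else ℓ σ :=
      ⟨_, rfl⟩
    have hshort : ∀ σ : List Q, σ.length ≤ k → ℓ' σ = ℓ σ := by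
      intro σ hσ
      rw [hℓ']
      apply if_neg
      rintro ⟨h, _⟩
      omega
    have hlc : ∀ σ : List Q, σ.length ≤ k + 1 →
        Finsupp.linearCombination ℤ ℓ' (bdl σ) = Finsupp.linearCombination ℤ ℓ (bdl σ) := by
      intro σ hσ
      apply lc_congr
      intro ρ hρ
      apply hshort
      have := (supp_bdl hρ).2
      omega
    refine ⟨ℓ', by rw [hshort [] (by simp), hnil], fun σ hσ hsm hnr => ?_⟩
    rcases Nat.lt_or_ge σ.length (k + 1) with hlt | hge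
    · have hle : σ.length ≤ k := by omega
      obtain ⟨h1, h2, h3⟩ := hℓ σ hle hsm hnr
      rw [hlc σ hσ, hshort σ hle]
      refine ⟨h1, fun τ hτ => ?_, ?_⟩
      · obtain ⟨e1, e2, e3, e4⟩ := h2 τ hτ
        exact ⟨e1, e2.mono (le_max_left _ _),
          e3.mono (Nat.pow_le_pow_right hX0 (by omega)),
          fun q hq => (e4 q hq).mono (le_max_left _ _)⟩
      · exact h3.trans (Nat.pow_le_pow_right hX0 (by omega))
    · have hlen : σ.length = k + 1 := by omega
      obtain ⟨h1, h2, h3⟩ := hy σ ⟨hlen, hsm, hnr⟩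
      have hval : ℓ' σ = y σ := by
        rw [hℓ']
        exact if_pos ⟨hlen, hsm, hnr⟩
      rw [hlc σ hσ, hval]
      refine ⟨h1, fun τ hτ => ?_, h3⟩
      obtain ⟨e1, e2, e3, e4⟩ := h2 τ hτ
      exact ⟨e1, e2.mono (le_max_right _ _),
        e3.mono (Nat.pow_le_pow_right hX0 (by omega)),
        fun q hq => (e4 q hq).mono (le_max_right _ _)⟩

end Pool.Agent.H.MP_e5d137_al.UB
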