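import Pool.Agent.H.MP_e5d137_al.UB.Tr
import Pool.Agent.H.MP_e5d137_al.UB.Ob

/-!
# The subdivided standard tree mapped to the tree of a metric

The Cayley tree of the free group with respect to the standard basis, the edge from `u` to
`u * x_i` subdivided into `d 1 x_i` edges, mapped to the geodesic from `u` to `u * x_i` of the tree
metric `d`.
-/

namespace Pool.Agent.H.MP_e5d137_al.UB

open SimpleGraph

variable {n : ℕ} {d : FreeGroup (Fin n) → FreeGroup (Fin n) → ℕ}

/-- length of the `i`-th edge -/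
def el (d : FreeGroup (Fin n) → FreeGroup (Fin n) → ℕ) (i : Fin n) : ℕ := d 1 (FreeGroup.of i)

/-- the point at distance `j` from `1` of the geodesic from `1` to `x_i` -/
noncomputable def gm (hd : LTM d) (i : Fin n) (j : ℕ) : FreeGroup (Fin n) :=
  if h : j ≤ d 1 (FreeGroup.of i) then Classical.choose (hd.exists_between h) else FreeGroup.of i

lemma gm_spec (hd : LTM d) {i : Fin n} {j : ℕ} (h : j ≤ el d i) :
    d 1 (gm hd i j) = j ∧ d (gm hd i j) (FreeGroup.of i) = el d i - j := by
  have h' : j ≤ d 1 (FreeGroup.of i) := h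
  unfold gm
  rw [dif_pos h']
  exact Classical.choose_spec (hd.exists_between h')

/-- vertices of the subdivided tree: `(u, none)` is the vertex `u`, and `(u, some (i, j))` the
`j`-th interior point of the edge from `u` to `u * x_i` -/
@[ext] structure SV (d : FreeGroup (Fin n) → FreeGroup (Fin n) → ℕ) where
  u : FreeGroup (Fin n)
  p : Option {q : Fin n × ℕ // 0 < q.2 ∧ q.2 < el d q.1}

instance : MulAction (FreeGroup (Fin n)) (SV d) where
  smul v a := ⟨v * a.u, a.p⟩
  one_smul a := by
    show (⟨1 * a.u, a.p⟩ : SV d) = a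
    rw [one_mul]
  mul_smul v w a := by
    show (⟨v * w * a.u, a.p⟩ : SV d) = ⟨v * (w * a.u), a.p⟩
    rw [mul_assoc]

lemma SV.smul_def (v : FreeGroup (Fin n)) (a : SV d) : v • a = ⟨v * a.u, a.p⟩ := rfl

/-- the `j`-th point of the edge from `u` to `u * x_i`, `0 ≤ j ≤ el d i` -/
noncomputable def pt (u : FreeGroup (Fin n)) (i : Fin n) (j : ℕ) : SV d :=
  open Classical in
  if h : 0 < j ∧ j < el d i then ⟨u, some ⟨(i, j), h⟩⟩
  else if j = 0 then ⟨u, none⟩ else ⟨u * FreeGroup.of i, none⟩

lemma pt_smul (v u : FreeGroup (Fin n)) (i : Fin n) (j : ℕ) :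
    v • (pt u i j : SV d) = pt (v * u) i j := by
  unfold pt
  split_ifs with h1 h2
  · rfl
  · rfl
  · rw [SV.smul_def, mul_assoc]

lemma pt_zero (u : FreeGroup (Fin n)) (i : Fin n) : (pt u i 0 : SV d) = ⟨u, none⟩ := by
  unfold pt
  rw [dif_neg (by simp), if_pos rfl]

lemma el_pos (hd : LTM d) (i : Fin n) : 0 < el d i := by
  rw [Nat.pos_iff_ne_zero]
  intro h
  exact FreeGroup.of_ne_one i (hd.eq0 _ _ h).symm

lemma pt_el (hd : LTM d) (u : FreeGroup (Fin n)) (i : Fin n) :
    (pt u i (el d i) : SV d) = ⟨u * FreeGroup.of i, none⟩ := by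
  unfold pt
  rw [dif_neg (by simp), if_neg (el_pos hd i).ne']

lemma pt_mid (u : FreeGroup (Fin n)) (q : {q : Fin n × ℕ // 0 < q.2 ∧ q.2 < el d q.1}) :
    (⟨u, some q⟩ : SV d) = pt u q.1.1 q.1.2 := by
  unfold pt
  rw [dif_pos q.2]

/-- the subdivided tree -/
def sG (d : FreeGroup (Fin n) → FreeGroup (Fin n) → ℕ) : SimpleGraph (SV d) where
  Adj a b := a ≠ b ∧ ∃ (u : FreeGroup (Fin n)) (i : Fin n) (j : ℕ), j < el d i ∧
    ((a = pt u i j ∧ b = pt u i (j + 1)) ∨ (b = pt u i j ∧ a = pt u i (j + 1)))
  symm := ⟨fun _ _ h => ⟨h.1.symm, by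
    obtain ⟨_, u, i, j, hj, h⟩ := h
    exact ⟨u, i, j, hj, h.symm⟩⟩⟩
  loopless := ⟨fun _ h => h.1 rfl⟩

/-- consecutive points are different -/
lemma pt_ne (hd : LTM d) (u : FreeGroup (Fin n)) (i : Fin n) {j : ℕ} (hj : j < el d i) :
    (pt u i j : SV d) ≠ pt u i (j + 1) := by
  unfold pt
  intro h
  split_ifs at h with h1 h2 h3 h4 h5 h6 h7
  all_goals (try simp at h)
  all_goals (try omega)

lemma sG_adj (hd : LTM d) (u : FreeGroup (Fin n)) (i : Fin n) {j : ℕ} (hj : j < el d i) :
    (sG d).Adj (pt u i j) (pt u i (j + 1)) :=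
  ⟨pt_ne hd u i hj, u, i, j, hj, Or.inl ⟨rfl, rfl⟩⟩

/-- the map to the group -/
noncomputable def sf (hd : LTM d) (a : SV d) : FreeGroup (Fin n) :=
  match a.p with
  | none => a.u
  | some q => a.u * gm hd q.1.1 q.1.2

lemma sf_pt (hd : LTM d) (u : FreeGroup (Fin n)) (i : Fin n) {j : ℕ} (hj : j ≤ el d i) :
    sf hd (pt u i j) = u * gm hd i j := by
  have hs := gm_spec hd hj
  unfold pt
  split_ifs with h1 h2
  · rfl
  · subst h2
    have : gm hd i 0 = 1 := (hd.eq0 _ _ hs.1).symm
    rw [this, mul_one]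
    rfl
  · have h3 : j = el d i := by omega
    have h4 : d (gm hd i j) (FreeGroup.of i) = 0 := by omega
    rw [hd.eq0 _ _ h4]
    rfl

lemma sG_inv (v : FreeGroup (Fin n)) (a b : SV d) (h : (sG d).Adj a b) :
    (sG d).Adj (v • a) (v • b) := by
  obtain ⟨h1, u, i, j, hj, h2⟩ := h
  refine ⟨fun h => h1 (smul_left_cancel v h), v * u, i, j, hj, ?_⟩
  rcases h2 with ⟨rfl, rfl⟩ | ⟨rfl, rfl⟩
  · exact Or.inl ⟨pt_smul _ _ _ _, pt_smul _ _ _ _⟩
  · exact Or.inr ⟨pt_smul _ _ _ _, pt_smul _ _ _ _⟩

/-- multiplication by a generator changes only the other end of the word -/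
lemma sob_last (i i' : Fin n) (w : FreeGroup (Fin n)) (h : w ≠ 1 ∨ i' ≠ i) :
    ((FreeGroup.of i')⁻¹ * w).toWord.getLast? = some (i, false) ↔
      w.toWord.getLast? = some (i, false) := by
  have h1 : ((FreeGroup.of i')⁻¹ * w).toWord = FreeGroup.reduce ((i', false) :: w.toWord) := by
    have h2 : (FreeGroup.of i')⁻¹ * w = FreeGroup.mk ((i', false) :: w.toWord) := by
      conv_lhs => rw [← FreeGroup.mk_toWord (x := w)]
      rfl
    rw [h2, FreeGroup.toWord_mk]
  rw [h1, FreeGroup.reduce.cons, FreeGroup.reduce_toWord]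
  generalize hW : w.toWord = W
  cases W with
  | nil =>
    have hw : w = 1 := FreeGroup.toWord_eq_nil_iff.mp hW
    have hi : i' ≠ i := by
      rcases h with h | h
      · exact absurd hw h
      · exact h
    simp [hi]
  | cons hd tl =>
    show (if i' = hd.1 ∧ false = !hd.2 then tl else (i', false) :: hd :: tl).getLast? = _ ↔ _
    split_ifs with hc
    · cases tl with
      | nil =>
        have h3 : hd.2 = true := by
          have := hc.2
          simpa using this
        have h4 : hd ≠ (i, false) := by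
          intro e
          rw [e] at h3
          exact absurd h3 (by simp)
        simp [h4]
      | cons a l => simp
    · simp

/-- the side of the edge from `u` to `u * x_i` -/
def sob_A (u : FreeGroup (Fin n)) (i : Fin n) (a : FreeGroup (Fin n)) : Prop :=
  (a⁻¹ * u).toWord.getLast? ≠ some (i, false)

lemma sob_A_self (u : FreeGroup (Fin n)) (i : Fin n) : sob_A u i u := by
  unfold sob_A
  rw [inv_mul_cancel, FreeGroup.toWord_one]
  simp

lemma sob_A_mul (u : FreeGroup (Fin n)) (i : Fin n) : ¬ sob_A u i (u * FreeGroup.of i) := by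
  unfold sob_A
  rw [mul_inv_rev, mul_assoc, inv_mul_cancel, mul_one, FreeGroup.toWord_inv, FreeGroup.toWord_of]
  simp [FreeGroup.invRev]

lemma sob_A_step (u v : FreeGroup (Fin n)) (i i' : Fin n) (h : v ≠ u ∨ i' ≠ i) :
    sob_A u i (v * FreeGroup.of i') ↔ sob_A u i v := by
  unfold sob_A
  rw [mul_inv_rev, mul_assoc]
  refine not_congr (sob_last i i' (v⁻¹ * u) ?_)
  rcases h with h | h
  · left
    intro e
    exact h (inv_mul_eq_one.mp e)
  · exact Or.inr h

open Classical in
/-- the colouring -/
noncomputable def sob_col (u : FreeGroup (Fin n)) (i : Fin n) (j : ℕ) (a : SV d) : Prop :=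
  match a.p with
  | none => sob_A u i a.u
  | some q => if a.u = u ∧ q.1.1 = i then q.1.2 ≤ j else sob_A u i a.u

open Classical in
lemma sob_col_pt (hd : LTM d) (u v : FreeGroup (Fin n)) (i i' : Fin n) {j j' : ℕ}
    (hj : j < el d i) (hj' : j' ≤ el d i') :
    sob_col u i j (pt v i' j' : SV d) ↔
      (if v = u ∧ i' = i then j' ≤ j else sob_A u i v) := by
  by_cases h0 : 0 < j' ∧ j' < el d i'
  · have h1 : (pt v i' j' : SV d) = ⟨v, some ⟨(i', j'), h0⟩⟩ := by
      unfold pt
      rw [dif_pos h0]
    rw [h1]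
    rfl
  · by_cases h1 : j' = 0
    · subst h1
      rw [pt_zero]
      show sob_A u i v ↔ _
      split_ifs with hc
      · rw [hc.1]
        exact ⟨fun _ => Nat.zero_le _, fun _ => sob_A_self u i⟩
      · exact Iff.rfl
    · have h2 : j' = el d i' := by omega
      subst h2
      rw [pt_el hd]
      show sob_A u i (v * FreeGroup.of i') ↔ _
      split_ifs with hc
      · obtain ⟨rfl, rfl⟩ := hc
        exact ⟨fun h => absurd h (sob_A_mul v i'), fun h => absurd h (by omega)⟩
      · refine sob_A_step u v i i' ?_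
        by_cases hv : v = u
        · exact Or.inr fun hi => hc ⟨hv, hi⟩
        · exact Or.inl hv

lemma sob_reach_smul (v : FreeGroup (Fin n)) {a b : SV d} (h : (sG d).Reachable a b) :
    (sG d).Reachable (v • a) (v • b) := by
  let f : sG d →g sG d := ⟨fun a => v • a, fun {a b} h => sG_inv v a b h⟩
  exact h.map f

lemma sob_reach_edge (hd : LTM d) (u : FreeGroup (Fin n)) (i : Fin n) :
    ∀ j, j ≤ el d i → (sG d).Reachable (⟨u, none⟩ : SV d) (pt u i j) := by
  intro j
  induction j with
  | zero =>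
    intro _
    rw [pt_zero]
  | succ j ih =>
    intro hj
    exact (ih (by omega)).trans (sG_adj hd u i (by omega)).reachable

lemma sob_reach_one (hd : LTM d) (v : FreeGroup (Fin n)) :
    (sG d).Reachable (⟨1, none⟩ : SV d) ⟨v, none⟩ := by
  have hof : ∀ i : Fin n, (sG d).Reachable (⟨1, none⟩ : SV d) ⟨FreeGroup.of i, none⟩ := by
    intro i
    have h := sob_reach_edge hd 1 i (el d i) le_rfl
    rw [pt_el hd, one_mul] at h
    exact h
  induction v using FreeGroup.induction_on with
  | C1 => exact Reachable.refl _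
  | of i => exact hof i
  | inv_of i _ =>
    have h := sob_reach_smul (FreeGroup.of i)⁻¹ (hof i)
    rw [SV.smul_def, SV.smul_def, mul_one, inv_mul_cancel] at h
    exact h.symm
  | mul x y hx hy =>
    have h := sob_reach_smul x hy
    rw [SV.smul_def, SV.smul_def, mul_one] at h
    exact hx.trans h

/-- The subdivided graph is a tree.

Proof.  Connected: `pt u i j` is joined to `pt u i 0 = (u, none)` along the edge, so `(u, none)`
and `(u * x_i, none)` are joined, and every element of the free group is a product of generators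
and their inverses (`FreeGroup.induction_on`; translate with `sG_inv`).
Acyclic: by `isAcyclic_iff_forall_adj_isBridge` it suffices that each edge, say from
`pt u i j` to `pt u i (j + 1)`, `j < el d i`, is a bridge.  Let `T` be the Cayley tree of the
standard basis, i.e. the tree metric `|a⁻¹ b|` (word length `FreeGroup.norm`); the set
`A = {a | |a⁻¹ u| < |a⁻¹ (u x_i)|}` has the property that, for all `v`, `i'`, with
`(v, i') ≠ (u, i)`, `v ∈ A ↔ v * x_{i'} ∈ A`, while `u ∈ A`, `u * x_i ∉ A`.  (In terms of reduced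
words: `a ∈ A` iff the reduced word of `u⁻¹ * a` does not start with the letter `x_i`; and
multiplication on the right with `x_{i'}^±` only changes the last letter of the reduced word.)
Colour `pt v i' j'` with `j' ≤ el d i'`: for `(v, i') ≠ (u, i)` by `v ∈ A`; for `(v, i') = (u, i)`
by `j' ≤ j`; the vertex `(v, none)` by `v ∈ A` (this is consistent).  All edges except the given
one have ends of the same colour, while the given one has ends of different colours, so its ends
are not joined in the graph without it. -/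
theorem sG_tree (hd : LTM d) : (sG d).IsTree := by
  classical
  have : Nonempty (SV d) := ⟨⟨1, none⟩⟩
  have hr : ∀ a : SV d, (sG d).Reachable (⟨1, none⟩ : SV d) a := by
    intro a
    rcases a with ⟨u, _ | q⟩
    · exact sob_reach_one hd u
    · rw [pt_mid]
      exact (sob_reach_one hd u).trans (sob_reach_edge hd u q.1.1 q.1.2 q.2.2.le)
  have hconn : (sG d).Connected := ⟨fun a b => (hr a).symm.trans (hr b)⟩
  have hbr : ∀ (u : FreeGroup (Fin n)) (i : Fin n) (j : ℕ), j < el d i →
      (sG d).IsBridge s((pt u i j : SV d), pt u i (j + 1)) := by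
    intro u i j hj
    rw [isBridge_iff]
    intro hreach
    have hcol : ∀ a b : SV d,
        ((sG d).deleteEdges {s((pt u i j : SV d), pt u i (j + 1))}).Adj a b →
        (sob_col u i j a ↔ sob_col u i j b) := by
      intro a b hab
      rw [deleteEdges_adj] at hab
      obtain ⟨⟨-, v, i', j', hj', hab2⟩, hne⟩ := hab
      have key : ∀ a b : SV d, a = pt v i' j' → b = pt v i' (j' + 1) →
          s(a, b) ∉ ({s((pt u i j : SV d), pt u i (j + 1))} : Set (Sym2 (SV d))) →
          (sob_col u i j a ↔ sob_col u i j b) := by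
        rintro a b rfl rfl hne
        rw [sob_col_pt hd u v i i' hj hj'.le, sob_col_pt hd u v i i' hj hj']
        split_ifs with hc
        · obtain ⟨rfl, rfl⟩ := hc
          have h5 : j' ≠ j := by
            rintro rfl
            exact hne rfl
          omega
        · exact Iff.rfl
      rcases hab2 with ⟨h1, h2⟩ | ⟨h1, h2⟩
      · exact key a b h1 h2 hne
      · refine (key b a h1 h2 ?_).symm
        rw [Sym2.eq_swap (a := b) (b := a)]
        exact hne
    have hall : ∀ a b : SV d,
        ((sG d).deleteEdges {s((pt u i j : SV d), pt u i (j + 1))}).Reachable a b →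
        (sob_col u i j a ↔ sob_col u i j b) := by
      rintro a b ⟨w⟩
      induction w with
      | nil => exact Iff.rfl
      | cons h _ ih => exact (hcol _ _ h).trans ih
    have h1 := hall _ _ hreach
    rw [sob_col_pt hd u u i i hj hj.le, sob_col_pt hd u u i i hj hj, if_pos ⟨rfl, rfl⟩,
      if_pos ⟨rfl, rfl⟩] at h1
    omega
  refine ⟨hconn, ?_⟩
  rw [isAcyclic_iff_forall_adj_isBridge]
  intro a b hab
  obtain ⟨-, u, i, j, hj, hab2⟩ := hab
  rcases hab2 with ⟨rfl, rfl⟩ | ⟨rfl, rfl⟩
  · exact hbr u i j hj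
  · rw [Sym2.eq_swap]
    exact hbr u i j hj

/-- the object -/
@[reducible] noncomputable def SOb (hd : LTM d) : Ob (FreeGroup (Fin n)) where
  V := SV d
  free v x h := by
    have h' : v * x.u = x.u := congrArg SV.u h
    exact mul_eq_right.1 h'
  T := sG d
  tree := sG_tree hd
  inv v x y h := sG_inv v x y h
  b := ⟨1, none⟩
  f := sf hd
  f_smul v x := by
    rcases x with ⟨u, _ | q⟩
    · rfl
    · show v * u * gm hd q.1.1 q.1.2 = v * (u * gm hd q.1.1 q.1.2)
      rw [mul_assoc]
  f_b := rfl
  fin := by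
    classical
    have hfin : Set.Finite (Set.univ : Set {q : Fin n × ℕ // 0 < q.2 ∧ q.2 < el d q.1}) := by
      have h1 : Finite {q : Fin n × ℕ // 0 < q.2 ∧ q.2 < el d q.1} := by
        refine Set.Finite.subset (s := ↑((Finset.univ : Finset (Fin n)) ×ˢ
          Finset.range (Finset.univ.sup (el d) + 1))) (Finset.finite_toSet _) ?_
        rintro ⟨i, j⟩ ⟨_, h2⟩
        simp only [Finset.coe_product, Finset.coe_univ, Set.mem_prod, Set.mem_univ, true_and,
          Finset.coe_range, Set.mem_Iio]
        have := Finset.le_sup (f := el d) (Finset.mem_univ i)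
        have h3 : j < el d i := h2
        omega
      exact Set.finite_univ
    refine ⟨insert ⟨1, none⟩ (hfin.toFinset.image fun q => ⟨1, some q⟩), fun x => ?_⟩
    rcases x with ⟨u, _ | q⟩
    · exact ⟨u, ⟨1, none⟩, by simp, by rw [SV.smul_def, mul_one]⟩
    · exact ⟨u, ⟨1, some q⟩, by simp, by rw [SV.smul_def, mul_one]⟩

end Pool.Agent.H.MP_e5d137_al.UB
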