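import Pool.Agent.H.MP_e5d137_al.UB.SOb

/-!
# The subdivided standard tree: sizes
-/

namespace Pool.Agent.H.MP_e5d137_al.UB

open SimpleGraph

variable {n : ℕ} {d : FreeGroup (Fin n) → FreeGroup (Fin n) → ℕ}

lemma sObP_gm_zero (hd : LTM d) (i : Fin n) : gm hd i 0 = 1 :=
  (hd.eq0 _ _ (gm_spec hd (Nat.zero_le _)).1).symm

lemma sObP_gm_el (hd : LTM d) (i : Fin n) : gm hd i (el d i) = FreeGroup.of i := by
  apply hd.eq0
  have := (gm_spec hd (le_refl (el d i))).2
  omega

/-- consecutive points of the geodesic -/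
lemma sObP_step (hd : LTM d) (i : Fin n) {j : ℕ} (hj : j < el d i) :
    d (gm hd i j) (gm hd i (j + 1)) = 1 := by
  obtain ⟨h1, h2⟩ := gm_spec hd hj.le
  obtain ⟨h3, h4⟩ := gm_spec hd (show j + 1 ≤ el d i from hj)
  have hel : d 1 (FreeGroup.of i) = el d i := rfl
  obtain ⟨c, h5, h6⟩ := hd.step (gm hd i j) (FreeGroup.of i) (el d i - j - 1) (by omega)
  have h7 := hd.tri 1 (gm hd i j) c
  have h8 := hd.tri 1 c (FreeGroup.of i)
  have h9 : c = gm hd i (j + 1) :=
    hd.geod_unique (a := 1) (b := FreeGroup.of i) (by omega) (by omega) (by omega)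
  rw [← h9]
  exact h5

/-- distances along the geodesic -/
lemma sObP_dist (hd : LTM d) (i : Fin n) {j l : ℕ} (hjl : j ≤ l) (hl : l ≤ el d i) :
    d (gm hd i j) (gm hd i l) ≤ l - j := by
  induction l, hjl using Nat.le_induction with
  | base => rw [hd.self]; omega
  | succ l hjl ih =>
    have h1 := ih (by omega)
    have h2 := sObP_step hd i (show l < el d i by omega)
    have h3 := hd.tri (gm hd i j) (gm hd i l) (gm hd i (l + 1))
    omega

/-- walks along an edge -/
lemma sObP_run (hd : LTM d) (u : FreeGroup (Fin n)) (i : Fin n) (p : FreeGroup (Fin n)) (ρ : ℕ)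
    {a b : ℕ} (hab : a ≤ b) (hb : b ≤ el d i)
    (h : ∀ l, a ≤ l → l ≤ b → d p (u * gm hd i l) ≤ ρ) :
    Cn d (SOb hd) p ρ (pt u i a) (pt u i b) := by
  induction b, hab using Nat.le_induction with
  | base =>
    refine Cn.refl ?_
    show d p (sf hd (pt u i a)) ≤ ρ
    rw [sf_pt hd u i hb]
    exact h a le_rfl le_rfl
  | succ b hab ih =>
    refine (ih (by omega) (fun l h1 h2 => h l h1 (by omega))).trans ?_
    refine Cn.of_adj (S := SOb hd) (sG_adj hd u i (show b < el d i by omega)) ?_ ?_
    · show d p (sf hd (pt u i b)) ≤ ρ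
      rw [sf_pt hd u i (by omega)]
      exact h b hab (by omega)
    · show d p (sf hd (pt u i (b + 1))) ≤ ρ
      rw [sf_pt hd u i hb]
      exact h (b + 1) (by omega) le_rfl

/-- adjacent vertices are mapped to points at distance one.

Proof.  By `sf_pt` one has to bound `d (u * gm hd i j) (u * gm hd i (j + 1))`, which is
`d (gm hd i j) (gm hd i (j + 1))` by `hd.inv`.  Both are on the geodesic from `1` to `x_i`, at
distances `j`, `j + 1` from `1` (`gm_spec`); by `hd.step` there is a point `c` at distance `1` from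
`gm hd i j` and `el d i - j - 1` from `x_i`; it is equal to `gm hd i (j + 1)` by `geod_unique`. -/
theorem SOb_fine (hd : LTM d) : Fine d (SOb hd) 1 := by
  rintro x y ⟨_, u, i, j, hj, ⟨rfl, rfl⟩ | ⟨rfl, rfl⟩⟩
  · show d (sf hd (pt u i j)) (sf hd (pt u i (j + 1))) ≤ 1
    rw [sf_pt hd u i hj.le, sf_pt hd u i (Nat.succ_le_of_lt hj), hd.inv]
    exact (sObP_step hd i hj).le
  · show d (sf hd (pt u i (j + 1))) (sf hd (pt u i j)) ≤ 1
    rw [hd.symm, sf_pt hd u i hj.le, sf_pt hd u i (Nat.succ_le_of_lt hj), hd.inv]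
    exact (sObP_step hd i hj).le

/-- Points of one edge are joined along the edge, with images at distance at most
`k` from the image of the first one if `|j' - j| ≤ k`. -/
theorem SOb_seg (hd : LTM d) (u : FreeGroup (Fin n)) (i : Fin n) {j j' k : ℕ} (hj : j ≤ el d i)
    (hj' : j' ≤ el d i) (h : j' ≤ j + k) (h' : j ≤ j' + k) :
    Cn d (SOb hd) (u * gm hd i j) k (pt u i j) (pt u i j') := by
  rcases le_total j j' with h1 | h1
  · refine sObP_run hd u i _ _ h1 hj' (fun l h2 h3 => ?_)
    rw [hd.inv]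
    have := sObP_dist hd i h2 (show l ≤ el d i by omega)
    omega
  · refine (sObP_run hd u i _ _ h1 hj (fun l h2 h3 => ?_)).symm
    rw [hd.inv, hd.symm]
    have := sObP_dist hd i h3 hj
    omega

lemma sObP_word (hd : LTM d) {E : ℕ} (hE : ∀ i, el d i ≤ E) (L : List (Fin n × Bool)) :
    ∀ u : FreeGroup (Fin n),
    Cn d (SOb hd) u (E * L.length) (⟨u, none⟩ : SV d) ⟨u * FreeGroup.mk L, none⟩ := by
  induction L with
  | nil =>
    intro u
    have h1 : u * FreeGroup.mk ([] : List (Fin n × Bool)) = u := by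
      rw [← FreeGroup.one_eq_mk, mul_one]
    rw [h1]
    refine Cn.refl ?_
    show d u u ≤ _
    rw [hd.self]
    omega
  | cons a L ih =>
    intro u
    obtain ⟨i, b⟩ := a
    have hmk : FreeGroup.mk ((i, b) :: L) = FreeGroup.mk [(i, b)] * FreeGroup.mk L := by
      rw [FreeGroup.mul_mk]
      rfl
    have hlen : E * ((i, b) :: L).length = E * L.length + E := by
      rw [List.length_cons]
      ring
    rw [hmk, ← mul_assoc, hlen]
    have key : Cn d (SOb hd) u E (⟨u, none⟩ : SV d) ⟨u * FreeGroup.mk [(i, b)], none⟩ := by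
      cases b with
      | true =>
        have h1 := SOb_seg hd u i (j := 0) (j' := el d i) (k := E) (Nat.zero_le _) le_rfl
          (by have := hE i; omega) (by omega)
        rw [sObP_gm_zero, mul_one, pt_zero, pt_el hd] at h1
        exact h1
      | false =>
        have h1 := SOb_seg hd (u * (FreeGroup.of i)⁻¹) i (j := el d i) (j' := 0) (k := E) le_rfl
          (Nat.zero_le _) (by omega) (by have := hE i; omega)
        rw [sObP_gm_el, inv_mul_cancel_right, pt_zero, pt_el hd, inv_mul_cancel_right] at h1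
        exact h1
    have h2 : d u (u * FreeGroup.mk [(i, b)]) ≤ E := key.right
    exact (key.mono (by omega)).trans ((ih (u * FreeGroup.mk [(i, b)])).center hd h2)

/-- Base points: `(u, none)` and `(u * w, none)` are joined with images at distance at most
`E * |w|` from `u`: follow the reduced word of `w` (induction on the word), each letter gives one
edge (in one of the two directions) of length at most `E`. -/
theorem SOb_word (hd : LTM d) {E : ℕ} (hE : ∀ i, el d i ≤ E) (u w : FreeGroup (Fin n)) :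
    Cn d (SOb hd) u (E * w.norm) (⟨u, none⟩ : SV d) ⟨u * w, none⟩ := by
  have h := sObP_word hd hE w.toWord u
  rw [FreeGroup.mk_toWord] at h
  exact h

/-- Size.

Proof.  `gen`: for `d a a' = 1` we have `d 1 (a⁻¹ a') = 1`, so `|a⁻¹ a'| ≤ E`, and `SOb_word`
connects within distance `E * E`.  `pt`: for `x = (u, none)` there is nothing to prove
(`sf x = u`).  For `x = pt u i j` (see `pt_mid`) let `γ = gm hd i j`, `sf x = u * γ`.  Then
`d 1 γ = j ≤ E`, so `|γ| ≤ E * E`.  Connect `x` to `(u, none)` by `SOb_seg` (distance `≤ E` from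
`u * γ`), and `(u, none)` to `(u * γ, none)` by `SOb_word` (distance `≤ E * (E * E)` from `u`,
hence `≤ E * E * E + E` from `u * γ`). -/
theorem SOb_sz (hd : LTM d) {E : ℕ} (hE1 : 1 ≤ E) (hE : ∀ i, el d i ≤ E)
    (h' : ∀ w : FreeGroup (Fin n), w.norm ≤ E * d 1 w) : Sz d (SOb hd) (2 * E ^ 3) := by
  have hb : ∀ a : FreeGroup (Fin n), a • (SOb hd).b = (⟨a, none⟩ : SV d) := by
    intro a
    show (⟨a * 1, none⟩ : SV d) = _
    rw [mul_one]
  have hE2 : E ≤ E ^ 3 := Nat.le_self_pow (by norm_num) E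
  have hE3 : E * E ≤ E ^ 3 := by
    rw [pow_succ, pow_two]
    exact Nat.le_mul_of_pos_right _ hE1
  constructor
  · intro x
    rw [hb]
    obtain ⟨u, _ | q⟩ := x
    · refine Cn.refl ?_
      rw [hd.self]
      omega
    · have hq1 := q.2.1
      have hq2 := q.2.2
      rw [pt_mid u q]
      have hf : (SOb hd).f (pt u q.1.1 q.1.2) = u * gm hd q.1.1 q.1.2 :=
        sf_pt hd u q.1.1 hq2.le
      rw [hf]
      have hg := (gm_spec hd hq2.le).1
      have hqE : q.1.2 ≤ E := hq2.le.trans (hE q.1.1)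
      have h1 := SOb_seg hd u q.1.1 (j := q.1.2) (j' := 0) (k := E) hq2.le (Nat.zero_le _)
        (by omega) (by omega)
      rw [pt_zero] at h1
      have h2 := SOb_word hd hE u (gm hd q.1.1 q.1.2)
      have h3 : (gm hd q.1.1 q.1.2).norm ≤ E * E := by
        refine (h' _).trans ?_
        rw [hg]
        exact Nat.mul_le_mul_left _ hqE
      have h4 : d (u * gm hd q.1.1 q.1.2) u ≤ E := by
        rw [hd.symm]
        have h5 := hd.inv u 1 (gm hd q.1.1 q.1.2)
        rw [mul_one] at h5
        omega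
      have h6 : E * (gm hd q.1.1 q.1.2).norm ≤ E ^ 3 := by
        have h7 := Nat.mul_le_mul_left E h3
        have h8 : E * (E * E) = E ^ 3 := by ring
        omega
      exact (h1.mono (by omega)).trans ((h2.center hd h4).mono (by omega))
  · intro a a' haa
    rw [hb, hb]
    have h1 := SOb_word hd hE a (a⁻¹ * a')
    rw [mul_inv_cancel_left] at h1
    refine h1.mono ?_
    have h2 : d 1 (a⁻¹ * a') = 1 := by
      have h3 := hd.inv a 1 (a⁻¹ * a')
      rw [mul_one, mul_inv_cancel_left] at h3
      omega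
    have h4 := h' (a⁻¹ * a')
    rw [h2, mul_one] at h4
    have h5 := Nat.mul_le_mul_left E h4
    omega

/-- number of orbits: the representatives are `(1, none)` and `(1, some (i, j))`, `0 < j < el d i`
-/
theorem SOb_orb (hd : LTM d) {E : ℕ} (hE : ∀ i, el d i ≤ E) : Orb (SOb hd) (n * E + 1) := by
  classical
  refine ⟨insert (⟨1, none⟩ : SV d) (((Finset.univ : Finset (Fin n)) ×ˢ Finset.range E).image
    fun q => pt 1 q.1 q.2), ?_, ?_⟩
  · refine (Finset.card_insert_le _ _).trans ?_
    have h1 := Finset.card_image_le (s := (Finset.univ : Finset (Fin n)) ×ˢ Finset.range E)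
      (f := fun q : Fin n × ℕ => (pt 1 q.1 q.2 : SV d))
    rw [Finset.card_product, Finset.card_univ, Fintype.card_fin, Finset.card_range] at h1
    omega
  · intro x
    obtain ⟨u, _ | q⟩ := x
    · refine ⟨u, ⟨1, none⟩, Finset.mem_insert_self _ _, ?_⟩
      show (⟨u, none⟩ : SV d) = ⟨u * 1, none⟩
      rw [mul_one]
    · refine ⟨u, pt 1 q.1.1 q.1.2, Finset.mem_insert_of_mem (Finset.mem_image.2
        ⟨(q.1.1, q.1.2), ?_, rfl⟩), ?_⟩
      · rw [Finset.mem_product]
        have h1 := q.2.2
        have h2 := hE q.1.1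
        exact ⟨Finset.mem_univ _, Finset.mem_range.2 (by omega)⟩
      · rw [pt_mid u q]
        have h3 := pt_smul (d := d) u 1 q.1.1 q.1.2
        rw [mul_one] at h3
        exact h3.symm

lemma sObP_walk (hd : LTM d) (u : FreeGroup (Fin n)) (i : Fin n) {j : ℕ} (hj : j ≤ el d i) :
    ∃ w : (sG d).Walk (pt u i 0) (pt u i j), w.length = j := by
  induction j with
  | zero => exact ⟨Walk.nil, rfl⟩
  | succ j ih =>
    obtain ⟨w, hw⟩ := ih (by omega)
    refine ⟨w.concat (sG_adj hd u i (show j < el d i by omega)), ?_⟩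
    rw [Walk.length_concat, hw]

/-- the base point `(1, none)` and `(x_i, none)` are joined by a walk of length `el d i` -/
theorem SOb_len (hd : LTM d) {E : ℕ} (hE : ∀ i, el d i ≤ E) :
    Len (SOb hd) (Set.range FreeGroup.of) E := by
  rintro u ⟨i, rfl⟩
  have h1 := sObP_walk hd 1 i (le_refl (el d i))
  rw [pt_zero, pt_el hd] at h1
  obtain ⟨w, hw⟩ := h1
  have h2 : FreeGroup.of i • (SOb hd).b = (⟨1 * FreeGroup.of i, none⟩ : SV d) := by
    show (⟨FreeGroup.of i * 1, none⟩ : SV d) = _
    rw [mul_one, one_mul]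
  rw [h2]
  exact ⟨w, hw.le.trans (hE i)⟩

end Pool.Agent.H.MP_e5d137_al.UB
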