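import Pool.Agent.H.MP_e5d137_al.UB.Cone

/-!
# Barycentric subdivision of list chains, and the collapse given by a colouring
-/

namespace Pool.Agent.H.MP_e5d137_al.UB

open Finsupp

universe u

variable {V : Type u}

/-- barycentric subdivision, auxiliary recursion on the length -/
noncomputable def sdn : ℕ → List V → Ch (List V)
  | 0, _ => single [] 1
  | k + 1, σ => cn σ (Finsupp.linearCombination ℤ (sdn k) (bdl σ))

/-- barycentric subdivision of a simplex: a chain of flags of faces (largest face first) -/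
noncomputable def sdl (σ : List V) : Ch (List V) := sdn σ.length σ

/-- barycentric subdivision of a chain -/
noncomputable def sd : Ch V →ₗ[ℤ] Ch (List V) := Finsupp.linearCombination ℤ sdl

@[simp] lemma sdl_nil : sdl ([] : List V) = single [] 1 := rfl

/-- recursion formula (all lists in `bdl σ` have one entry less than `σ`) -/
lemma sdl_cons (a : V) (σ : List V) : sdl (a :: σ) = cn (a :: σ) (sd (bdl (a :: σ))) := by
  show sdn (a :: σ).length (a :: σ) = _
  rw [List.length_cons, sdn]
  congr 1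
  refine lc_congr _ _ _ (fun τ hτ => ?_)
  have h2 := (supp_bdl hτ).2
  rw [List.length_cons] at h2
  rw [sdl, show τ.length = σ.length by omega]

lemma Sd_aux (c : Ch V) (h : ∀ σ ∈ c.support, bd (sdl σ) = sd (bdl σ)) :
    bd (sd c) = sd (bd c) := by
  have h1 : bd (sd c) = Finsupp.linearCombination ℤ (fun σ => bd (sdl σ)) c := by
    rw [sd, Finsupp.apply_linearCombination]
    rfl
  have h2 : sd (bd c) = Finsupp.linearCombination ℤ (fun σ => sd (bdl σ)) c := by
    have h3 : bd c = Finsupp.linearCombination ℤ bdl c := rfl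
    rw [h3, Finsupp.apply_linearCombination]
    rfl
  rw [h1, h2]
  exact lc_congr _ _ _ h

lemma Sd_bd_sdl (n : ℕ) : ∀ σ : List V, σ.length = n → bd (sdl σ) = sd (bdl σ) := by
  induction n with
  | zero =>
    intro σ hσ
    rw [List.length_eq_zero_iff.1 hσ]
    simp [bdl]
  | succ n ih =>
    intro σ hσ
    cases σ with
    | nil => simp at hσ
    | cons a σ =>
      rw [sdl_cons, bd_cn, Sd_aux (bdl (a :: σ)), bd_bdl]
      · simp
      · intro τ hτ
        refine ih τ ?_
        have h2 := (supp_bdl hτ).2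
        omega

/-- `sd` is a chain map: by induction on the length, `bd (sdl σ) = sd (bdl σ) -
cn σ (bd (sd (bdl σ))) = sd (bdl σ) - cn σ (sd (bd (bdl σ))) = sd (bdl σ)` -/
lemma bd_sdl (σ : List V) : bd (sdl σ) = sd (bdl σ) := by
  exact Sd_bd_sdl σ.length σ rfl

lemma bd_sd (c : Ch V) : bd (sd c) = sd (bd c) := by
  exact Sd_aux c (fun σ _ => bd_sdl σ)

lemma Sd_supp (n : ℕ) : ∀ (σ : List V) (τ : List (List V)), σ.length = n →
    τ ∈ (sdl σ).support → τ.length = σ.length ∧ (∀ ρ ∈ τ, ρ ≠ [] ∧ ρ.Sublist σ) ∧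
      τ.Pairwise (fun ρ ρ' => ρ'.Sublist ρ) := by
  induction n with
  | zero =>
    intro σ τ hσ hτ
    rw [List.length_eq_zero_iff.1 hσ] at hτ ⊢
    rw [sdl_nil] at hτ
    rw [supp_single hτ]
    simp
  | succ n ih =>
    intro σ τ hσ hτ
    cases σ with
    | nil => simp at hσ
    | cons a σ =>
      rw [sdl_cons] at hτ
      obtain ⟨τ', hτ', rfl⟩ := supp_cn hτ
      obtain ⟨ρ, hρ, hτρ⟩ := supp_lc _ _ hτ'
      obtain ⟨h1, h2⟩ := supp_bdl hρ
      obtain ⟨e1, e2, e3⟩ := ih ρ τ' (by omega) hτρ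
      refine ⟨by rw [List.length_cons, e1]; exact h2, ?_, ?_⟩
      · intro ξ hξ
        rcases List.mem_cons.1 hξ with rfl | hξ
        · exact ⟨List.cons_ne_nil _ _, List.Sublist.refl _⟩
        · exact ⟨(e2 ξ hξ).1, (e2 ξ hξ).2.trans h1⟩
      · rw [List.pairwise_cons]
        exact ⟨fun ξ hξ => (e2 ξ hξ).2.trans h1, e3⟩

/-- the simplices of the subdivision: flags of nonempty sublists, decreasing, of the same length
as `σ` -/
lemma supp_sdl {σ : List V} {τ : List (List V)} (h : τ ∈ (sdl σ).support) :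
    τ.length = σ.length ∧ (∀ ρ ∈ τ, ρ ≠ [] ∧ ρ.Sublist σ) ∧
      τ.Pairwise (fun ρ ρ' => ρ'.Sublist ρ) := by
  exact Sd_supp σ.length σ τ rfl h

lemma Sd_ms (n : ℕ) : ∀ σ : List V, σ.length = n → ms (sdl σ) ≤ n.factorial := by
  induction n with
  | zero =>
    intro σ hσ
    rw [List.length_eq_zero_iff.1 hσ, sdl_nil, ms_single]
    simp
  | succ n ih =>
    intro σ hσ
    cases σ with
    | nil => simp at hσ
    | cons a σ =>
      rw [sdl_cons, Nat.factorial_succ]
      refine (ms_cn _ _).trans ((ms_lc_le _ _ n.factorial (fun τ hτ => ?_)).trans ?_)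
      · have h2 := (supp_bdl hτ).2
        exact ih τ (by omega)
      · have h3 := ms_bdl (a :: σ)
        rw [hσ] at h3
        rw [mul_comm]
        exact Nat.mul_le_mul_right _ h3

/-- mass of the subdivision: `≤ (length)!` -/
lemma ms_sdl (σ : List V) : ms (sdl σ) ≤ σ.length.factorial := by
  exact Sd_ms σ.length σ rfl

/-- adjacent equal entries -/
def AdjEq (l : List V) : Prop := ∃ (l₁ : List V) (a : V) (l₂ : List V), l = l₁ ++ a :: a :: l₂

/-- The vertex map of the collapse: a face goes to the centre of (the piece of) its entry of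
smallest colour. -/
noncomputable def kap {m : ℕ} (col : V → Fin m) (x : V → V) (dflt : V) (ρ : List V) : V :=
  match ρ.argmin col with
  | Option.some a => x a
  | Option.none => dflt

/-- the smallest colour of the entries -/
noncomputable def Sd_c {m : ℕ} (col : V → Fin m) (ρ : List V) : ℕ :=
  match ρ.argmin col with
  | Option.some a => (col a : ℕ)
  | Option.none => 0

lemma Sd_argmin {m : ℕ} (col : V → Fin m) {ρ : List V} (hρ : ρ ≠ []) :
    ∃ a ∈ ρ, ρ.argmin col = Option.some a ∧ ∀ b ∈ ρ, col a ≤ col b := by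
  rcases h : ρ.argmin col with _ | a
  · exact absurd (List.argmin_eq_none.1 h) hρ
  · exact ⟨a, List.argmin_mem h, rfl, fun b hb => List.le_of_mem_argmin hb h⟩

lemma Sd_prop {m : ℕ} (col : V → Fin m) (x : V → V) (dflt : V) {ρ : List V} (hρ : ρ ≠ []) :
    ∃ a ∈ ρ, kap col x dflt ρ = x a ∧ Sd_c col ρ = (col a : ℕ) ∧ ∀ b ∈ ρ, col a ≤ col b := by
  obtain ⟨a, ha, h1, h2⟩ := Sd_argmin col hρ
  refine ⟨a, ha, ?_, ?_, h2⟩
  · simp [kap, h1]
  · simp [Sd_c, h1]

/-- If entries of the same colour of `σ` have the same centre and `σ` has more entries than there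
are colours, then all simplices in the collapsed subdivision of `σ` have adjacent equal entries.

Proof.  Let `τ = [ρ_0, ..., ρ_m]` be a flag.  The smallest colours `c_i` of the entries of the
`ρ_i` (nonempty) satisfy `c_0 ≤ c_1 ≤ ... ≤ c_m` as `ρ_{i+1}` is a sublist of `ρ_i`; they are
`m + 1` elements of `Fin m`, hence `c_i = c_{i+1}` for some `i` (otherwise strictly increasing:
`List.Pairwise`/`Sorted` list without duplicates of length `> m` in `Fin m`).  The entries of
`ρ_i` and `ρ_{i+1}` of smallest colour are entries of `σ` of the same colour, so they have the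
same centre. -/
lemma adjEq_of_supp {m : ℕ} (col : V → Fin m) (x : V → V) (dflt : V) {σ : List V}
    (hσ : σ.length = m + 1) (hx : ∀ a ∈ σ, ∀ b ∈ σ, col a = col b → x a = x b)
    {τ : List (List V)} (h : τ ∈ (sdl σ).support) : AdjEq (τ.map (kap col x dflt)) := by
  classical
  obtain ⟨h1, h2, h3⟩ := supp_sdl h
  by_contra hcon
  have hlt : ∀ ρ ∈ τ, Sd_c col ρ < m := by
    intro ρ hρ
    obtain ⟨a, -, -, hc, -⟩ := Sd_prop col x dflt (h2 ρ hρ).1
    rw [hc]
    exact (col a).2
  have hle : τ.Pairwise (fun ρ ρ' => Sd_c col ρ ≤ Sd_c col ρ') := by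
    refine List.Pairwise.imp_of_mem (fun {ρ ρ'} hρ hρ' hs => ?_) h3
    obtain ⟨a, -, -, hc, ha⟩ := Sd_prop col x dflt (h2 ρ hρ).1
    obtain ⟨a', ha', -, hc', -⟩ := Sd_prop col x dflt (h2 ρ' hρ').1
    rw [hc, hc']
    exact ha a' (hs.subset ha')
  have hchain : List.IsChain (fun ρ ρ' => Sd_c col ρ < Sd_c col ρ') τ := by
    rw [List.isChain_iff_forall_rel_of_append_cons_cons]
    intro ρ ρ' l₁ l₂ hl
    have hρ : ρ ∈ τ := by rw [hl]; simp
    have hρ' : ρ' ∈ τ := by rw [hl]; simp
    have hle' : Sd_c col ρ ≤ Sd_c col ρ' := by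
      rw [hl, List.pairwise_append] at hle
      have h4 := hle.2.1
      rw [List.pairwise_cons] at h4
      exact h4.1 ρ' List.mem_cons_self
    refine lt_of_le_of_ne hle' (fun heq => hcon ?_)
    obtain ⟨a, ha, hk, hc, -⟩ := Sd_prop col x dflt (h2 ρ hρ).1
    obtain ⟨a', ha', hk', hc', -⟩ := Sd_prop col x dflt (h2 ρ' hρ').1
    have hcol : col a = col a' := by
      apply Fin.ext
      rw [← hc, ← hc', heq]
    have hxx := hx a ((h2 ρ hρ).2.subset ha) a' ((h2 ρ' hρ').2.subset ha') hcol
    refine ⟨l₁.map (kap col x dflt), x a, l₂.map (kap col x dflt), ?_⟩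
    rw [hl, List.map_append, List.map_cons, List.map_cons, hk, hk', hxx]
  have hpw : τ.Pairwise (fun ρ ρ' => Sd_c col ρ < Sd_c col ρ') := by
    have : IsTrans (List V) (fun ρ ρ' => Sd_c col ρ < Sd_c col ρ') :=
      ⟨fun a b c hab hbc => lt_trans hab hbc⟩
    exact List.isChain_iff_pairwise.1 hchain
  have hnd : (τ.map (Sd_c col)).Nodup := by
    rw [List.Nodup, List.pairwise_map]
    exact hpw.imp (fun {a b} hab => ne_of_lt hab)
  have hsub : (τ.map (Sd_c col)).toFinset ⊆ Finset.range m := by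
    intro k hk
    rw [List.mem_toFinset, List.mem_map] at hk
    obtain ⟨ρ, hρ, rfl⟩ := hk
    exact Finset.mem_range.2 (hlt ρ hρ)
  have hcard := Finset.card_le_card hsub
  rw [List.toFinset_card_of_nodup hnd, List.length_map, Finset.card_range] at hcard
  omega

/-- the value of the collapse at a nonempty face is the centre of one of its entries -/
lemma kap_mem {m : ℕ} (col : V → Fin m) (x : V → V) (dflt : V) {ρ : List V} (hρ : ρ ≠ []) :
    ∃ a ∈ ρ, kap col x dflt ρ = x a := by
  obtain ⟨a, ha, h1, -⟩ := Sd_prop col x dflt hρ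
  exact ⟨a, ha, h1⟩

end Pool.Agent.H.MP_e5d137_al.UB
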