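import Pool.Agent.H.MP_e5d137_al.UB.Tr
import Pool.Agent.H.MP_e5d137_al.UB.Ob

/-!
# Components of preimages of balls

For an object `S` (a tree with a map `f` to `F`) and a radius `t`: the graph whose vertices are the
pairs `(p, C)`, `C` a component of the preimage of the ball of radius `t` about `p`.  It is a
forest.
-/

namespace Pool.Agent.H.MP_e5d137_al.UB

open SimpleGraph

variable {F : Type} [Group F] {d : F → F → ℕ}

/-- component of `x` in the preimage of the ball of radius `t` about `p` -/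
def cmp (d : F → F → ℕ) (S : Ob F) (t : ℕ) (p : F) (x : S.V) : Set S.V := {y | Cn d S p t x y}

/-- The pairs (centre, component) where the component contains a point whose image is at distance at
most `r` from the centre. -/
def Sk (d : F → F → ℕ) (S : Ob F) (t r : ℕ) : Type :=
  {A : F × Set S.V // ∃ x, d A.1 (S.f x) ≤ r ∧ d A.1 (S.f x) ≤ t ∧ A.2 = cmp d S t A.1 x}

/-- centre -/
def ctr {S : Ob F} {t r : ℕ} (A : Sk d S t r) : F := A.1.1

/-- the set of points -/
def pts {S : Ob F} {t r : ℕ} (A : Sk d S t r) : Set S.V := A.1.2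

variable {S : Ob F} {t r : ℕ}

/-- the component of `x` about `p` -/
def mk (p : F) (x : S.V) (h : d p (S.f x) ≤ r) (ht : d p (S.f x) ≤ t) : Sk d S t r :=
  ⟨(p, cmp d S t p x), x, h, ht, rfl⟩

@[simp] lemma ctr_mk (p : F) (x : S.V) (h : d p (S.f x) ≤ r) (ht : d p (S.f x) ≤ t) :
    ctr (mk p x h ht) = p := rfl

lemma Sk.ext {A B : Sk d S t r} (h : ctr A = ctr B) (h' : pts A = pts B) : A = B :=
  Subtype.ext (Prod.ext h h')

lemma cmp_eq {p : F} {x y : S.V} (h : Cn d S p t x y) : cmp d S t p x = cmp d S t p y := by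
  ext z
  exact ⟨fun hz => h.symm.trans hz, fun hz => h.trans hz⟩

lemma mem_pts {A : Sk d S t r} {y : S.V} (hy : y ∈ pts A) :
    d (ctr A) (S.f y) ≤ t ∧ pts A = cmp d S t (ctr A) y := by
  obtain ⟨⟨p, C⟩, x, h, ht, hC⟩ := A
  change C = cmp d S t p x at hC
  subst hC
  have hy' : Cn d S p t x y := hy
  exact ⟨hy'.right, cmp_eq hy'⟩

lemma mk_eq {p : F} {x y : S.V} {h : d p (S.f x) ≤ r} {ht : d p (S.f x) ≤ t}
    {h' : d p (S.f y) ≤ r} {ht' : d p (S.f y) ≤ t} (hc : Cn d S p t x y) :
    (mk p x h ht : Sk d S t r) = mk p y h' ht' :=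
  Sk.ext rfl (cmp_eq hc)

lemma mem_mk {p : F} {x : S.V} (h : d p (S.f x) ≤ r) (ht : d p (S.f x) ≤ t) {y : S.V} :
    y ∈ pts (mk p x h ht : Sk d S t r) ↔ Cn d S p t x y := Iff.rfl

lemma self_mem_mk {p : F} {x : S.V} (h : d p (S.f x) ≤ r) (ht : d p (S.f x) ≤ t) :
    x ∈ pts (mk p x h ht : Sk d S t r) := Cn.refl ht

/-- two points of a vertex are connected in it -/
lemma cn_of_mem {A : Sk d S t r} {x y : S.V} (hx : x ∈ pts A) (hy : y ∈ pts A) :
    Cn d S (ctr A) t x y := by
  have h := (mem_pts hx).2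
  rw [h] at hy
  exact hy

lemma mem_of_cn {A : Sk d S t r} {x y : S.V} (hx : x ∈ pts A) (h : Cn d S (ctr A) t x y) :
    y ∈ pts A := by
  rw [(mem_pts hx).2]
  exact h

/-- every vertex is represented by a point with image at distance at most `r` from the centre -/
lemma exists_rep (A : Sk d S t r) : ∃ x, ∃ (h : d (ctr A) (S.f x) ≤ r)
    (ht : d (ctr A) (S.f x) ≤ t), A = mk (ctr A) x h ht := by
  obtain ⟨⟨p, C⟩, x, h, ht, hC⟩ := A
  exact ⟨x, h, ht, Sk.ext rfl hC⟩

lemma rep_mem {A : Sk d S t r} {x : S.V} {h : d (ctr A) (S.f x) ≤ r}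
    {ht : d (ctr A) (S.f x) ≤ t} (hA : A = mk (ctr A) x h ht) : x ∈ pts A := by
  rw [hA]
  exact self_mem_mk _ _

/-- two vertices with the same centre and a common point are equal -/
lemma eq_of_mem {A B : Sk d S t r} (hc : ctr A = ctr B) {x : S.V} (hA : x ∈ pts A)
    (hB : x ∈ pts B) : A = B := by
  refine Sk.ext hc ?_
  rw [(mem_pts hA).2, (mem_pts hB).2, hc]

/-- the graph: adjacent centres and a common point -/
def skG (hd : LTM d) (S : Ob F) (t r : ℕ) : SimpleGraph (Sk d S t r) where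
  Adj A B := d (ctr A) (ctr B) = 1 ∧ ∃ z, z ∈ pts A ∧ z ∈ pts B
  symm := ⟨fun A B h => ⟨by rw [hd.symm]; exact h.1, by
    obtain ⟨_, z, h1, h2⟩ := h
    exact ⟨z, h2, h1⟩⟩⟩
  loopless := ⟨fun A h => by
    have := h.1
    rw [hd.self] at this
    exact absurd this (by decide)⟩

/-- all vertices of a walk staying near the centre are in the component -/
lemma walk_mem {A : Sk d S t r} {x y : S.V} (hx : x ∈ pts A) (W : S.T.Walk x y)
    (hW : ∀ z ∈ W.support, d (ctr A) (S.f z) ≤ t) : ∀ z ∈ W.support, z ∈ pts A := by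
  classical
  intro z hz
  exact mem_of_cn hx ⟨W.takeUntil z hz, fun u hu => hW u (W.support_takeUntil_subset hz hu)⟩

/-- a walk of the graph gives a walk of `S` between given points of the ends, each edge of which
is contained in one of the vertices of the walk -/
lemma lift_walk (hd : LTM d) {A B : Sk d S t r} (w : (skG hd S t r).Walk A B) {x y : S.V}
    (hx : x ∈ pts A) (hy : y ∈ pts B) :
    ∃ W : S.T.Walk x y, ∀ e ∈ W.darts, ∃ C ∈ w.support, e.fst ∈ pts C ∧ e.snd ∈ pts C := by
  induction w generalizing x with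
  | nil =>
    obtain ⟨W, hW⟩ := cn_of_mem hx hy
    refine ⟨W, fun e he => ⟨_, Walk.start_mem_support _, ?_, ?_⟩⟩
    · exact walk_mem hx W hW _ (W.dart_fst_mem_support_of_mem_darts he)
    · exact walk_mem hx W hW _ (W.dart_snd_mem_support_of_mem_darts he)
  | cons h w ih =>
    have h' := h
    obtain ⟨_, z, hz1, hz2⟩ := h'
    obtain ⟨W1, hW1⟩ := cn_of_mem hx hz1
    obtain ⟨W2, hW2⟩ := ih hz2 hy
    refine ⟨W1.append W2, fun e he => ?_⟩
    rw [Walk.darts_append, List.mem_append] at he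
    rcases he with he | he
    · exact ⟨_, Walk.start_mem_support _,
        walk_mem hx W1 hW1 _ (W1.dart_fst_mem_support_of_mem_darts he),
        walk_mem hx W1 hW1 _ (W1.dart_snd_mem_support_of_mem_darts he)⟩
    · obtain ⟨C, hC, h1, h2⟩ := hW2 e he
      exact ⟨C, by rw [Walk.support_cons]; exact List.mem_cons_of_mem _ hC, h1, h2⟩

/-- The graph is a forest.

Proof.  Use `acyclic_of` with `ht A = d 1 (ctr A)`.  Let `v` be a vertex with neighbours `a ≠ b`,
and `w` a walk from `a` to `b` not through `v` such that `ht ≤ ht v` on `w`.  By `adj_cases` and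
maximality `ctr a`, `ctr b` are the point of `[1, ctr v]` at distance one from `ctr v`:
`ctr a = ctr b = q` (`geod_unique`), `d 1 (ctr v) = d 1 q + 1`.  Let `a'` be a common point of
`a`, `v`, and `b'` a common point of `b`, `v`.  There is a path `P` in `S.T` from `a'` to `b'` with
images at distance at most `t` from `ctr v`, so all its points are in `v`.  As `b' ∉ a`
(`eq_of_mem`, `a ≠ b`) there is a dart `(z, z')` of `P` with `z ∈ a`, `z' ∉ a`.  Then
`d q (f z') > t` (otherwise `z'` is in the component of `z`), `d (ctr v) (f z') ≤ t`, so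
`d (ctr v) (f z') = t`, `d q (f z') = t + 1`.  By `lift_walk` there is a walk `W` in `S.T` from `a'`
to `b'` each edge of which is in a vertex of `w`; by `path_edges_subset` it contains the edge
`s(z, z')`, so there is `l ∈ w.support` with `z ∈ l`, `z' ∈ l`.  If `d (ctr l) (ctr v) =
d (ctr l) q + 1` then by `through` `d (ctr l) (f z') = d (ctr l) (ctr v) + t > t`, a contradiction.
So `d (ctr l) q = d (ctr l) (ctr v) + 1`, and by `through` (with `a = 1`, `w = ctr l`)
`d 1 (ctr l) = d 1 (ctr v) + d (ctr v) (ctr l)`; by maximality `ctr l = ctr v`, and `l = v` by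
`eq_of_mem` (common point `z`).  Contradiction to `v ∉ w.support`. -/
theorem skG_acyclic (hd : LTM d) : (skG hd S t r).IsAcyclic := by
  refine acyclic_of (fun A => d 1 (ctr A)) ?_
  intro v a b w hva hvb hab hvw hmax
  obtain ⟨hva1, a', ha'v, ha'a⟩ := hva
  obtain ⟨hvb1, b', hb'v, hb'b⟩ := hvb
  have e1 := hmax a w.start_mem_support
  have e2 := hmax b w.end_mem_support
  have e3 := hd.adj_cases (a := 1) hva1
  have e4 := hd.adj_cases (a := 1) hvb1
  have e5 := hd.symm (ctr v) (ctr a)
  have e6 := hd.symm (ctr v) (ctr b)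
  have hq : ctr a = ctr b :=
    hd.geod_unique (a := 1) (b := ctr v) (by omega) (by omega) (by omega)
  -- the path in `v`
  obtain ⟨P₀, hP₀⟩ := cn_of_mem ha'v hb'v
  obtain ⟨P, hP, hPs, _⟩ := exists_path_of_walk P₀
  have hPv : ∀ z ∈ P.support, z ∈ pts v := walk_mem ha'v P (fun z hz => hP₀ z (hPs hz))
  have hb'a : b' ∉ pts a := fun h => hab (eq_of_mem hq h hb'b)
  obtain ⟨e, he, hz, hz'⟩ := P.exists_boundary_dart (pts a) ha'a hb'a
  have hzv := hPv _ (P.dart_fst_mem_support_of_mem_darts he)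
  have hz'v := hPv _ (P.dart_snd_mem_support_of_mem_darts he)
  have h1 : ¬ d (ctr a) (S.f e.snd) ≤ t := by
    intro h
    exact hz' (mem_of_cn hz (Cn.of_adj e.adj (mem_pts hz).1 h))
  have h2 := (mem_pts hz'v).1
  have h3 := hd.tri (ctr a) (ctr v) (S.f e.snd)
  -- the walk through the other vertices
  obtain ⟨W, hW⟩ := lift_walk hd w ha'a hb'b
  have hmem : e.edge ∈ W.edges := path_edges_subset S.tree.isAcyclic P hP W
    (List.mem_map_of_mem he)
  rw [Walk.edges, List.mem_map] at hmem
  obtain ⟨e', he', hee⟩ := hmem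
  obtain ⟨l, hl, hl1, hl2⟩ := hW e' he'
  have hzl : e.fst ∈ pts l ∧ e.snd ∈ pts l := by
    rcases (SimpleGraph.dart_edge_eq_iff e' e).1 hee with rfl | h
    · exact ⟨hl1, hl2⟩
    · subst h
      exact ⟨hl2, hl1⟩
  have h4 := (mem_pts hzl.2).1
  have h5 := hmax l hl
  have h6 : d (ctr a) (ctr v) = 1 := by omega
  rcases hd.adj_cases (a := ctr l) h6 with h7 | h7
  · -- `ctr l` on the far side
    have h8 : d (ctr a) (ctr l) = d (ctr v) (ctr l) + 1 := by
      have := hd.symm (ctr a) (ctr l)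
      have := hd.symm (ctr v) (ctr l)
      omega
    have h9 := hd.through (a := 1) (v := ctr v) (q := ctr a) (w := ctr l) h6 (by omega) h8
    have h10 : d (ctr v) (ctr l) = 0 := by omega
    have h11 : ctr v = ctr l := hd.eq0 _ _ h10
    have h12 : v = l := eq_of_mem h11 hzv hzl.1
    exact hvw (h12 ▸ hl)
  · have h9 := hd.through (a := ctr l) (v := ctr v) (q := ctr a) (w := S.f e.snd) h6 h7
      (by omega)
    omega

/-- Moving the centre: the walk from `(p, x)` to `(q, x)` through the points of the geodesic from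
`p` to `q`. -/
lemma move (hd : LTM d) {p q : F} {x : S.V} (hp : d p (S.f x) ≤ r) (hp' : d p (S.f x) ≤ t)
    (hq : d q (S.f x) ≤ r) (hq' : d q (S.f x) ≤ t) :
    ∃ w : (skG hd S t r).Walk (mk p x hp hp') (mk q x hq hq'), w.length = d p q ∧
      ∀ C ∈ w.support, d p (ctr C) + d (ctr C) q = d p q := by
  generalize hk : d p q = k
  induction k generalizing p with
  | zero =>
    obtain rfl := hd.eq0 _ _ hk
    refine ⟨Walk.nil, rfl, fun C hC => ?_⟩
    simp only [Walk.support_nil, List.mem_cons, List.not_mem_nil, or_false] at hC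
    subst hC
    simp [hd.self]
  | succ k ih =>
    obtain ⟨c, h1, h2⟩ := hd.step p q k hk
    have h3 : d c (S.f x) ≤ max (d p (S.f x)) (d q (S.f x)) := hd.conv (by omega)
    have hc : d c (S.f x) ≤ r := h3.trans (max_le hp hq)
    have hc' : d c (S.f x) ≤ t := h3.trans (max_le hp' hq')
    obtain ⟨w, hw1, hw2⟩ := ih hc hc' h2
    refine ⟨Walk.cons (show (skG hd S t r).Adj (mk p x hp hp') (mk c x hc hc') from
      ⟨h1, x, self_mem_mk _ _, self_mem_mk _ _⟩) w, by simp [hw1], fun C hC => ?_⟩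
    rw [Walk.support_cons, List.mem_cons] at hC
    rcases hC with rfl | hC
    · simp [hd.self, hk]
    · have h4 := hw2 C hC
      have h5 := hd.tri p c (ctr C)
      have h6 := hd.tri p (ctr C) q
      omega

end Pool.Agent.H.MP_e5d137_al.UB
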