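import Mathlib

/-!
# Lemmas on walks in forests
-/

namespace Pool.Agent.H.MP_e5d137_al.UB

open SimpleGraph

variable {V : Type*} {G : SimpleGraph V}

lemma path_edges_subset (hG : G.IsAcyclic) {x y : V} (p : G.Walk x y) (hp : p.IsPath)
    (w : G.Walk x y) : p.edges ⊆ w.edges := by
  classical
  have h := hG.path_unique ⟨p, hp⟩ ⟨w.bypass, w.bypass_isPath⟩
  have h2 : p = w.bypass := congrArg Subtype.val h
  rw [h2]
  exact Walk.edges_bypass_subset w

lemma path_support_subset (hG : G.IsAcyclic) {x y : V} (p : G.Walk x y) (hp : p.IsPath)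
    (w : G.Walk x y) : p.support ⊆ w.support := by
  classical
  have h := hG.path_unique ⟨p, hp⟩ ⟨w.bypass, w.bypass_isPath⟩
  have h2 : p = w.bypass := congrArg Subtype.val h
  rw [h2]
  exact Walk.support_bypass_subset w

/-- every walk can be replaced by a path with smaller support -/
lemma exists_path_of_walk {x y : V} (w : G.Walk x y) :
    ∃ p : G.Walk x y, p.IsPath ∧ p.support ⊆ w.support ∧ p.edges ⊆ w.edges := by
  classical
  exact ⟨w.bypass, w.bypass_isPath, Walk.support_bypass_subset w, Walk.edges_bypass_subset w⟩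

/-- criterion for forests: no maximal vertex of a closed walk -/
theorem acyclic_of (ht : V → ℕ)
    (h : ∀ (v a b : V) (w : G.Walk a b), G.Adj v a → G.Adj v b → a ≠ b → v ∉ w.support →
      (∀ x ∈ w.support, ht x ≤ ht v) → False) : G.IsAcyclic := by
  classical
  intro v₀ c hc
  -- the vertex of maximal height
  obtain ⟨v, hv, hmax⟩ : ∃ v ∈ c.support, ∀ x ∈ c.support, ht x ≤ ht v := by
    obtain ⟨v, hv, hmax⟩ := Finset.exists_max_image c.support.toFinset ht
      ⟨v₀, by simp⟩
    exact ⟨v, by simpa using hv, fun x hx => hmax x (by simpa using hx)⟩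
  have hr : (c.rotate v hv).IsCycle := (Walk.isCycle_rotate hv).2 hc
  have hmax' : ∀ x ∈ (c.rotate v hv).support, ht x ≤ ht v := by
    intro x hx
    exact hmax x ((Walk.mem_support_rotate_iff c v hv).1 hx)
  generalize hc' : c.rotate v hv = c' at hr hmax'
  cases c' with
  | nil => exact hr.ne_nil rfl
  | cons hadj w =>
    rename_i a
    rw [Walk.cons_isCycle_iff] at hr
    obtain ⟨hp, he⟩ := hr
    -- w : Walk a v is a path
    have hav : a ≠ v := hadj.ne.symm
    have hnn : ¬ w.Nil := by
      intro hn
      exact hav hn.eq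
    -- split off the last edge
    obtain ⟨b, w', hb, rfl⟩ : ∃ (b : V) (w' : G.Walk a b) (hb : G.Adj b v), w = w'.concat hb :=
      ⟨w.penultimate, w.dropLast, w.adj_penultimate hnn, (w.concat_dropLast (w.adj_penultimate hnn)).symm⟩
    rw [Walk.concat_isPath_iff] at hp
    refine h v a b w' hadj hb.symm ?_ hp.2 ?_
    · rintro rfl
      apply he
      rw [Walk.edges_concat]
      simp [Sym2.eq_swap]
    · intro x hx
      apply hmax'
      rw [Walk.support_cons, Walk.support_concat]
      simp [hx]

end Pool.Agent.H.MP_e5d137_al.UB
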