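import Mathlib

/-!
# Discrete width inequality

A finite set with a metric and an adjacency relation such that adjacent points have distance at
most one, and whose balls of radius `ρ` have at most `ρ^m/C` points, can be coloured with `m`
colours such that the monochromatic components have diameter at most `ρ` (discrete version of the
volume / Uryson width inequality, proof following Papasoglu).
-/

namespace Pool.Agent.H.MP_e5d137_al.UB

/-- `x` and `y` are joined inside `V` by a chain of adjacent points satisfying the relation `P`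
(used with `P a b := col a = col b`) -/
def Joined {α : Type} (V : Finset α) (adj P : α → α → Prop) : α → α → Prop :=
  Relation.ReflTransGen (fun a b => a ∈ V ∧ b ∈ V ∧ adj a b ∧ P a b)

/-- Case `m = 1` of the width inequality.

Proof.  Take `x, y` joined in `V` and suppose `d x y > ρ`.  Along the chain
`x = a_0, a_1, ..., a_k = y` the numbers `d x a_i` start at `0`, end above `ρ` and increase by at
most one at each step, so that they take all values `0, 1, ..., ρ`: by induction on the chain,
for every `j ≤ d x a_i` there is `v ∈ V` (a point of the chain; `x` itself for `j = 0`) with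
`d x v = j`.  Hence the ball of radius `ρ` about `x` in `V` has at least `ρ + 1` elements (the
map `v ↦ d x v` from it to `{0..ρ}` is onto), contradicting `card ≤ ρ`. -/
theorem width_one {α : Type} [DecidableEq α] (V : Finset α) (d : α → α → ℕ)
    (adj : α → α → Prop) (h0 : ∀ a, d a a = 0) (htri : ∀ a b c, d a c ≤ d a b + d b c)
    (hadj : ∀ a b, adj a b → d a b ≤ 1) (ρ : ℕ)
    (hb : ∀ v ∈ V, (V.filter (fun w => d v w ≤ ρ)).card ≤ ρ)
    (x y : α) (hx : x ∈ V) (hxy : Joined V adj (fun _ _ => True) x y) : d x y ≤ ρ := by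
  by_contra hcon
  push Not at hcon
  have key : ∀ b, Joined V adj (fun _ _ => True) x b → ∀ j ≤ d x b, ∃ v ∈ V, d x v = j := by
    intro b hb'
    induction hb' with
    | refl =>
      intro j hj
      rw [h0] at hj
      exact ⟨x, hx, by rw [h0]; omega⟩
    | @tail b c _ hstep ih =>
      intro j hj
      by_cases hjb : j ≤ d x b
      · exact ih j hjb
      · have h1 := htri x b c
        have h2 := hadj b c hstep.2.2.1
        exact ⟨c, hstep.2.1, by omega⟩
  have hsub : Finset.range (ρ + 1) ⊆ (V.filter (fun w => d x w ≤ ρ)).image (d x) := by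
    intro j hj
    rw [Finset.mem_range] at hj
    obtain ⟨v, hv, hvj⟩ := key y hxy j (by omega)
    rw [Finset.mem_image]
    exact ⟨v, Finset.mem_filter.2 ⟨hv, by omega⟩, hvj⟩
  have h1 := Finset.card_le_card hsub
  rw [Finset.card_range] at h1
  have h2 : ((V.filter (fun w => d x w ≤ ρ)).image (d x)).card ≤
      (V.filter (fun w => d x w ≤ ρ)).card := Finset.card_image_le
  have h3 := hb x hx
  omega

/-- Induction step of the width inequality: a minimal separating set has small balls.

Proof.  Call `Z ⊆ V` good if any two points of `V \ Z` which are joined in `V \ Z` have distance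
at most `ρ`; `V` is good (`V \ V = ∅`: `Joined ∅` is equality on points, and for `x ∈ V \ Z` one
only needs pairs of points of `V \ Z`, there are none).  Let `Z` be a good set of minimal
cardinality.  Let `z ∈ Z` and `σ = ρ / 4`.  If some ball is nonempty then `ρ ≥ 8` by the
hypothesis (`8^(m+1) ≤ C * 1 * ... ≤ ρ^(m+1)`), so `σ ≥ ρ / 8`, i.e. `8 * σ ≥ ρ` and `σ ≥ 1`.
For `σ < j ≤ 2σ` let `S_j = {v ∈ V : d z v = j}`.  The sets `S_j` are disjoint and contained in
the ball of radius `ρ` about `z`, so for some `j` we have `σ * |S_j| ≤ |B(z,ρ)|`.  Put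
`Z' = (Z \ {v : d z v ≤ j}) ∪ S_j`.  `Z'` is good: a chain in `V \ Z'` cannot pass from
`{d z v < j}` to `{d z v > j}` because adjacent points have distances to `z` differing by at most
one and it avoids `{d z v = j}`; inside `{d z v < j}` any two points have distance
`≤ 2 (j-1) ≤ ρ`; a chain in `{d z v > j} \ Z'` is a chain in `V \ Z`, so the ends have distance
`≤ ρ`.  By minimality `|Z| ≤ |Z'| ≤ |Z| - |Z ∩ {d z v ≤ j}| + |S_j|`, so
`|{w ∈ Z : d z w ≤ σ}| ≤ |Z ∩ {d z v ≤ j}| ≤ |S_j|` and
`C * σ * |{w ∈ Z : d z w ≤ σ}| ≤ |B(z,ρ)| * C`.  With `8^(m+1) * C * |B(z,ρ)| ≤ ρ^(m+1) ≤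
8^(m+1) σ^(m+1)` this gives `C * |{w ∈ Z : d z w ≤ σ}| ≤ σ^m`. -/
theorem width_step {α : Type} [DecidableEq α] (m C : ℕ) (hC : 1 ≤ C) (V : Finset α)
    (d : α → α → ℕ) (adj : α → α → Prop) (h0 : ∀ a, d a a = 0) (hsymm : ∀ a b, d a b = d b a)
    (htri : ∀ a b c, d a c ≤ d a b + d b c) (hadj : ∀ a b, adj a b → d a b ≤ 1) (ρ : ℕ)
    (hb : ∀ v ∈ V, 8 ^ (m + 1) * C * (V.filter (fun w => d v w ≤ ρ)).card ≤ ρ ^ (m + 1)) :
    ∃ Z ⊆ V, (∀ x ∈ V \ Z, ∀ y, Joined (V \ Z) adj (fun _ _ => True) x y → d x y ≤ ρ) ∧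
      ∀ z ∈ Z, C * (Z.filter (fun w => d z w ≤ ρ / 4)).card ≤ (ρ / 4) ^ m := by
  classical
  set Good : Finset α → Prop := fun Z =>
    ∀ x ∈ V \ Z, ∀ y, Joined (V \ Z) adj (fun _ _ => True) x y → d x y ≤ ρ with hGood
  have hVgood : Good V := by
    intro x hx
    simp at hx
  obtain ⟨Z, hZ, hZmin⟩ := Finset.exists_min_image (V.powerset.filter Good) Finset.card
    ⟨V, Finset.mem_filter.2 ⟨Finset.mem_powerset_self V, hVgood⟩⟩
  rw [Finset.mem_filter, Finset.mem_powerset] at hZ
  refine ⟨Z, hZ.1, hZ.2, ?_⟩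
  intro z hz
  have hzV : z ∈ V := hZ.1 hz
  set B := V.filter (fun w => d z w ≤ ρ) with hB
  have hBpos : 1 ≤ B.card := Finset.card_pos.2 ⟨z, Finset.mem_filter.2 ⟨hzV, by rw [h0]; omega⟩⟩
  have hbz := hb z hzV
  have hρ8 : 8 ≤ ρ := by
    have h1 : 8 ^ (m + 1) ≤ ρ ^ (m + 1) := by
      refine le_trans ?_ hbz
      calc 8 ^ (m + 1) = 8 ^ (m + 1) * 1 * 1 := by ring
        _ ≤ 8 ^ (m + 1) * C * B.card := by gcongr
    exact (Nat.pow_le_pow_iff_left (Nat.succ_ne_zero m)).1 h1
  set σ := ρ / 4 with hσ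
  have hσ1 : 1 ≤ σ := by omega
  have hσ8 : ρ ≤ 8 * σ := by omega
  have hσ4 : 4 * σ ≤ ρ := by omega
  -- the spheres
  have hexj : ∃ j ∈ Finset.Ioc σ (2 * σ), σ * (V.filter (fun v => d z v = j)).card ≤ B.card := by
    by_contra hcon
    push Not at hcon
    have h1 : (B.filter (fun v => d z v ∈ Finset.Ioc σ (2 * σ))).card =
        ∑ j ∈ Finset.Ioc σ (2 * σ),
          ((B.filter (fun v => d z v ∈ Finset.Ioc σ (2 * σ))).filter (fun v => d z v = j)).card := by
      refine Finset.card_eq_sum_card_fiberwise (f := d z) ?_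
      intro v hv
      exact (Finset.mem_filter.1 hv).2
    have h2 : ∀ j ∈ Finset.Ioc σ (2 * σ),
        ((B.filter (fun v => d z v ∈ Finset.Ioc σ (2 * σ))).filter (fun v => d z v = j)).card =
          (V.filter (fun v => d z v = j)).card := by
      intro j hj
      congr 1
      ext v
      simp only [hB, Finset.mem_filter]
      constructor
      · rintro ⟨⟨⟨h1, _⟩, _⟩, h4⟩
        exact ⟨h1, h4⟩
      · rintro ⟨h1, h4⟩
        rw [Finset.mem_Ioc] at hj
        refine ⟨⟨⟨h1, by omega⟩, ?_⟩, h4⟩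
        rw [Finset.mem_Ioc]
        omega
    rw [Finset.sum_congr rfl h2] at h1
    have h3 : (B.filter (fun v => d z v ∈ Finset.Ioc σ (2 * σ))).card ≤ B.card :=
      Finset.card_filter_le _ _
    have hne : (Finset.Ioc σ (2 * σ)).Nonempty := ⟨σ + 1, Finset.mem_Ioc.2 ⟨by omega, by omega⟩⟩
    have h4 : ∑ _j ∈ Finset.Ioc σ (2 * σ), B.card <
        ∑ j ∈ Finset.Ioc σ (2 * σ), σ * (V.filter (fun v => d z v = j)).card :=
      Finset.sum_lt_sum_of_nonempty hne hcon
    rw [Finset.sum_const, ← Finset.mul_sum, ← h1, Nat.card_Ioc, smul_eq_mul] at h4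
    have h5 : 2 * σ - σ = σ := by omega
    rw [h5] at h4
    have h6 := Nat.mul_le_mul_left σ h3
    omega
  obtain ⟨j, hj, hjc⟩ := hexj
  rw [Finset.mem_Ioc] at hj
  set Sj := V.filter (fun v => d z v = j) with hSj
  set Z' := Z.filter (fun v => ¬ d z v ≤ j) ∪ Sj with hZ'
  have hZ'V : Z' ⊆ V := by
    refine Finset.union_subset ((Finset.filter_subset _ _).trans hZ.1) (Finset.filter_subset _ _)
  have hnotj : ∀ v ∈ V \ Z', d z v ≠ j := by
    intro v hv hvj
    rw [Finset.mem_sdiff] at hv
    exact hv.2 (Finset.mem_union_right _ (Finset.mem_filter.2 ⟨hv.1, hvj⟩))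
  have hout : ∀ v ∈ V \ Z', j < d z v → v ∈ V \ Z := by
    intro v hv hvj
    rw [Finset.mem_sdiff] at hv ⊢
    refine ⟨hv.1, fun hvZ => hv.2 (Finset.mem_union_left _ (Finset.mem_filter.2 ⟨hvZ, ?_⟩))⟩
    omega
  have hZ'good : Good Z' := by
    intro x hx y hxy
    rcases lt_trichotomy (d z x) j with h | h | h
    · have hy : d z y < j := by
        induction hxy with
        | refl => exact h
        | @tail b c _ hstep ih =>
          have h1 := htri z b c
          have h2 := hadj b c hstep.2.2.1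
          have h3 := hnotj c hstep.2.1
          omega
      have h1 := htri x z y
      have h2 := hsymm x z
      omega
    · exact absurd h (hnotj x hx)
    · have hy : j < d z y ∧ Joined (V \ Z) adj (fun _ _ => True) x y := by
        induction hxy with
        | refl => exact ⟨h, Relation.ReflTransGen.refl⟩
        | @tail b c _ hstep ih =>
          have h1 := htri z c b
          have h2 := hadj b c hstep.2.2.1
          have h3 := hnotj c hstep.2.1
          have h4 := hsymm b c
          have h5 : j < d z c := by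
            have := ih.1
            omega
          refine ⟨h5, Relation.ReflTransGen.tail ih.2 ⟨hout b hstep.1 ih.1,
            hout c hstep.2.1 h5, hstep.2.2.1, trivial⟩⟩
      exact hZ.2 x (hout x hx h) y hy.2
  have hmin := hZmin Z' (Finset.mem_filter.2 ⟨Finset.mem_powerset.2 hZ'V, hZ'good⟩)
  have hc1 : Z'.card ≤ (Z.filter (fun v => ¬ d z v ≤ j)).card + Sj.card :=
    Finset.card_union_le _ _
  have hc2 : (Z.filter (fun v => d z v ≤ j)).card + (Z.filter (fun v => ¬ d z v ≤ j)).card =
      Z.card := Finset.card_filter_add_card_filter_not _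
  have hc3 : (Z.filter (fun w => d z w ≤ σ)).card ≤ (Z.filter (fun v => d z v ≤ j)).card := by
    refine Finset.card_le_card ?_
    intro v hv
    rw [Finset.mem_filter] at hv ⊢
    exact ⟨hv.1, by omega⟩
  set N := (Z.filter (fun w => d z w ≤ σ)).card with hN
  have hNS : N ≤ Sj.card := by omega
  have hfin : 8 ^ (m + 1) * (σ * (C * N)) ≤ 8 ^ (m + 1) * (σ * σ ^ m) := by
    calc 8 ^ (m + 1) * (σ * (C * N)) = 8 ^ (m + 1) * C * (σ * N) := by ring
      _ ≤ 8 ^ (m + 1) * C * (σ * Sj.card) := by gcongr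
      _ ≤ 8 ^ (m + 1) * C * B.card := by gcongr
      _ ≤ ρ ^ (m + 1) := hbz
      _ ≤ (8 * σ) ^ (m + 1) := by gcongr
      _ = 8 ^ (m + 1) * (σ * σ ^ m) := by rw [mul_pow, pow_succ σ m]; ring
  have h8 : 0 < 8 ^ (m + 1) := by positivity
  exact Nat.le_of_mul_le_mul_left (Nat.le_of_mul_le_mul_left hfin h8) hσ1

end Pool.Agent.H.MP_e5d137_al.UB
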